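import Pool.Agent.HopfFin.Basic

/-!
# Linear isometries

Plan: `linH` and `PD_linH` in `HopfCov/Orbit.lean`; the reflection in the hyperplane orthogonal to
`q - e0` maps `q` to `e0` (`reflection_sub`).
-/

set_option autoImplicit false

open scoped ContDiff Topology
open Set Filter Metric

namespace Pool.Agent.HopfFin

open Pool.Agent.HopfCov

/-- linear isometries are in `Pz` -/
theorem isom_pz (L : E4 ≃ₗᵢ[ℝ] E4) : Pz (linH L) := by
  refine ⟨⟨L.map_zero, fun x _ => ?_⟩, fun x => L.map_smul _ _⟩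
  have h1 : (linH L : E4 → E4) = (L.toContinuousLinearEquiv : E4 →L[ℝ] E4) := rfl
  rw [h1]
  refine ⟨ContinuousLinearMap.contDiff _ |>.contDiffAt, ?_⟩
  rw [ContinuousLinearMap.fderiv]
  have h2 : IsUnit (LinearMap.det (L.toLinearEquiv : E4 →ₗ[ℝ] E4)) :=
    LinearEquiv.isUnit_det' _
  exact h2.ne_zero

/-- there is a linear isometry which maps a given unit vector to `e0` -/
theorem exists_isom (q : E4) (hq : ‖q‖ = 1) : ∃ L : E4 ≃ₗᵢ[ℝ] E4, L q = e0 := by
  have h0 : ‖e0‖ = 1 := by simp [e0]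
  exact ⟨(ℝ ∙ (q - e0))ᗮ.reflection, Submodule.reflection_sub (hq.trans h0.symm)⟩

end Pool.Agent.HopfFin
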