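import Pool.Agent.HopfFin.Basic
import Pool.Agent.HopfCov.Radial

/-!
# Radial powers

Plan of `pow_mk`. `μ x = ‖x‖ ^ (m-1) • x`, inverse `y ↦ ‖y‖ ^ (-(m-1)/m) • y`; both smooth off `0`.
-/

set_option autoImplicit false

open scoped ContDiff Topology
open Set Filter Metric

namespace Pool.Agent.HopfFin

open Pool.Agent.HopfCov

private theorem tau_pow_apply_RadPow (m : ℕ) (x : E4) :
    ((tau : E4 ≃ₜ E4) ^ m) x = (2⁻¹ : ℝ) ^ m • x := by
  induction m with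
  | zero => simp
  | succ m ih => rw [pow_succ', mul_apply', ih, tau_apply, smul_smul, pow_succ']

/-- the radial powers -/
theorem pow_mk (m : ℕ) (hm : 0 < m) : ∃ μ : E4 ≃ₜ E4, Sm μ ∧ (∀ x, μ x = ‖x‖ ^ (m - 1) • x) ∧
    μ * tau = tau ^ m * μ := by
  have hm' : (0 : ℝ) < m := by exact_mod_cast hm
  let e : ℝ ≃o ℝ := OrderIso.mulLeft₀ (m : ℝ) hm'
  have he : ∀ u, e u = (m : ℝ) * u := fun u => rfl
  have hA : ContDiff ℝ ∞ (fun u : ℝ => (m : ℝ) * u) := contDiff_const.mul contDiff_id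
  have hA' : ∀ u, 0 < deriv (fun u : ℝ => (m : ℝ) * u) u := fun u => by
    have h1 : deriv (fun u : ℝ => (m : ℝ) * u) u = m := by
      simp
    rw [h1]
    exact hm'
  have hPD : PD 1 (HopfCov.rad e : E4 ≃ₜ E4) := PD_rad he hA hA'
  have hform : ∀ x, (HopfCov.rad e : E4 ≃ₜ E4) x = ‖x‖ ^ (m - 1) • x := fun x => by
    by_cases hx : x = 0
    · rw [hx, smul_zero]
      exact hPD.1
    · have h0 : 0 < ‖x‖ := norm_pos_iff.2 hx
      rw [rad_apply, radFun_ne _ hx, he]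
      congr 1
      have h2 : (m : ℝ) * Real.log ‖x‖ - Real.log ‖x‖ = ((m - 1 : ℕ) : ℝ) * Real.log ‖x‖ := by
        rw [Nat.cast_sub hm]
        push_cast
        ring
      rw [h2, Real.exp_nat_mul, Real.exp_log h0]
  refine ⟨HopfCov.rad e, Sm_of_PD hPD, hform, ?_⟩
  ext1 x
  rw [mul_apply', mul_apply', tau_pow_apply_RadPow, hform, hform, tau_apply, norm_smul, smul_smul,
    smul_smul]
  congr 1
  have h3 : ‖(2⁻¹ : ℝ)‖ = 2⁻¹ := by norm_num
  rw [h3, mul_pow]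
  obtain ⟨k, rfl⟩ : ∃ k, m = k + 1 := ⟨m - 1, by omega⟩
  rw [Nat.add_sub_cancel, pow_succ]
  ring

end Pool.Agent.HopfFin
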