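import Pool.Agent.HopfFin.Cones
import Pool.Agent.HopfFin.RadPow
import Pool.Agent.HopfFin.Isom

/-!
# Good topological conjugations
-/

set_option autoImplicit false

open scoped ContDiff Topology
open Set Filter Metric

namespace Pool.Agent.HopfFin

open Pool.Agent.HopfCov

private theorem good_inv_zero {G T : E4 ≃ₜ E4} {v : E4} (hT : Good G T v) :
    (T⁻¹ : E4 ≃ₜ E4) 0 = 0 := T.injective (by rw [apply_inv_self', hT.zero])

private theorem good_apply {G T : E4 ≃ₜ E4} {v : E4} (hT : Good G T v) (x : E4) :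
    T (G x) = (2⁻¹ : ℝ) • T x := DFunLike.congr_fun hT.conj x

private theorem good_inv_ne {G T : E4 ≃ₜ E4} {v : E4} (hT : Good G T v) (hv : v ≠ 0) {t : ℝ}
    (ht : 0 < t) : (T⁻¹ : E4 ≃ₜ E4) (t • v) ≠ 0 := by
  intro h
  have h1 := congrArg T h
  rw [apply_inv_self', hT.zero] at h1
  exact (smul_ne_zero ht.ne' hv) h1

private theorem good_G_curve {G T : E4 ≃ₜ E4} {v : E4} (hT : Good G T v) (t : ℝ) :
    G ((T⁻¹ : E4 ≃ₜ E4) (t • v)) = (T⁻¹ : E4 ≃ₜ E4) ((t / 2) • v) := by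
  apply T.injective
  rw [good_apply hT, apply_inv_self', apply_inv_self', smul_smul]
  congr 1
  ring

private theorem good_cont {G T : E4 ≃ₜ E4} {v : E4} (hT : Good G T v) :
    ContinuousOn (fun t : ℝ => (fderiv ℝ T ((T⁻¹ : E4 ≃ₜ E4) (t • v))).det) (Ioi 0) := by
  intro t ht
  have h1 : ContDiffAt ℝ ∞ T ((T⁻¹ : E4 ≃ₜ E4) (t • v)) := (hT.reg t ht).self_of_nhds.1
  have h2 : ContinuousAt (fderiv ℝ T) ((T⁻¹ : E4 ≃ₜ E4) (t • v)) :=
    (h1.fderiv_right (m := 0) (by simp)).continuousAt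
  have h3 : ContinuousAt (fun t : ℝ => (T⁻¹ : E4 ≃ₜ E4) (t • v)) t :=
    ((T⁻¹ : E4 ≃ₜ E4).continuous.comp (continuous_id.smul continuous_const)).continuousAt
  have h4 : ContinuousAt (fun t : ℝ => fderiv ℝ T ((T⁻¹ : E4 ≃ₜ E4) (t • v))) t :=
    ContinuousAt.comp (f := fun t : ℝ => (T⁻¹ : E4 ≃ₜ E4) (t • v)) h2 h3
  exact (ContinuousLinearMap.continuous_det.continuousAt.comp h4).continuousWithinAt

private theorem good_sign {G T : E4 ≃ₜ E4} {v : E4} (hT : Good G T v) {a b : ℝ} (ha : 0 < a)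
    (hb : 0 < b) : 0 < (fderiv ℝ T ((T⁻¹ : E4 ≃ₜ E4) (a • v))).det *
      (fderiv ℝ T ((T⁻¹ : E4 ≃ₜ E4) (b • v))).det := by
  by_contra hcon
  have hcon' := not_lt.1 hcon
  have hsub : uIcc a b ⊆ Ioi 0 := by
    intro t ht
    exact lt_of_lt_of_le (lt_min ha hb) ht.1
  have h1 := intermediate_value_uIcc ((good_cont hT).mono hsub)
  have h2 : (0 : ℝ) ∈ uIcc ((fderiv ℝ T ((T⁻¹ : E4 ≃ₜ E4) (a • v))).det)
      ((fderiv ℝ T ((T⁻¹ : E4 ≃ₜ E4) (b • v))).det) := by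
    rw [mem_uIcc]
    rcases mul_nonpos_iff.1 hcon' with h | h
    · exact Or.inr ⟨h.2, h.1⟩
    · exact Or.inl ⟨h.1, h.2⟩
  obtain ⟨t, ht, h3⟩ := h1 h2
  exact (hT.reg t (hsub ht)).self_of_nhds.2 h3

/-- a homeomorphism which is topologically `tau`, smoothly so near the ray, preserves the
orientation: `det DT` has constant sign along the curve `T⁻¹ (t • v)`, and
`DT (G x) DG x = DT x / 2` there; the sign of `det DG` is constant (`Sm.exists_sign`) -/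
theorem Good.PD {G T : E4 ≃ₜ E4} {v : E4} (hG : Sm G) (hT : Good G T v) (hv : v ≠ 0) :
    PD 1 G := by
  obtain ⟨s, hs, hPD⟩ := hG.exists_sign
  set x : E4 := (T⁻¹ : E4 ≃ₜ E4) ((1 : ℝ) • v) with hx
  have hx0 : x ≠ 0 := good_inv_ne hT hv one_pos
  have hGx : G x = (T⁻¹ : E4 ≃ₜ E4) ((1 / 2 : ℝ) • v) := good_G_curve hT 1
  have hTx : ContDiffAt ℝ ∞ T x := (hT.reg 1 one_pos).self_of_nhds.1
  have hTGx : ContDiffAt ℝ ∞ T (G x) := by
    rw [hGx]
    exact (hT.reg (1 / 2) (by norm_num)).self_of_nhds.1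
  have d1 : HasFDerivAt T (fderiv ℝ T x) x := (hTx.differentiableAt (by simp)).hasFDerivAt
  have d2 : HasFDerivAt T (fderiv ℝ T (G x)) (G x) :=
    (hTGx.differentiableAt (by simp)).hasFDerivAt
  have d3 : HasFDerivAt G (fderiv ℝ G x) x := (hPD.2 x hx0).hasFDerivAt
  have d4 : HasFDerivAt (fun y => T (G y)) ((fderiv ℝ T (G x)).comp (fderiv ℝ G x)) x :=
    d2.comp x d3
  have d5 : HasFDerivAt (fun y => T (G y)) ((2⁻¹ : ℝ) • fderiv ℝ T x) x := by
    have h : (fun y => T (G y)) = fun y => (2⁻¹ : ℝ) • T y := funext fun y => good_apply hT y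
    rw [h]
    exact HasFDerivAt.const_smul d1 (2⁻¹ : ℝ)
  have h6 := congrArg ContinuousLinearMap.det (d4.unique d5)
  rw [det_comp_clm] at h6
  have h7 : ((2⁻¹ : ℝ) • fderiv ℝ T x).det =
      (2⁻¹ : ℝ) ^ (Module.finrank ℝ E4) * (fderiv ℝ T x).det := by
    simp only [ContinuousLinearMap.det, ContinuousLinearMap.toLinearMap_smul, LinearMap.det_smul]
  rw [h7] at h6
  have h8 : 0 < (fderiv ℝ T x).det * (fderiv ℝ T (G x)).det := by
    rw [hGx, hx]
    exact good_sign hT one_pos (by norm_num)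
  have h9 : 0 < (2⁻¹ : ℝ) ^ (Module.finrank ℝ E4) := by positivity
  have h10 : 0 < (fderiv ℝ G x).det := by
    by_contra hcon
    have hcon' := not_lt.1 hcon
    have e1 : (fderiv ℝ T (G x)).det * (fderiv ℝ G x).det * (fderiv ℝ T (G x)).det =
        (2⁻¹ : ℝ) ^ (Module.finrank ℝ E4) *
          ((fderiv ℝ T x).det * (fderiv ℝ T (G x)).det) := by
      rw [h6]
      ring
    have e2 : 0 < (2⁻¹ : ℝ) ^ (Module.finrank ℝ E4) *
          ((fderiv ℝ T x).det * (fderiv ℝ T (G x)).det) := mul_pos h9 h8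
    rw [← e1] at e2
    nlinarith [mul_self_nonneg (fderiv ℝ T (G x)).det]
  have h11 : 0 < s * (fderiv ℝ G x).det := (hPD.2 x hx0).2
  have h12 : 0 < s := by
    by_contra hcon
    have hcon' := not_lt.1 hcon
    nlinarith
  have h13 : s = 1 := by nlinarith
  rw [← h13]
  exact hPD

private theorem good_pow {G T : E4 ≃ₜ E4} {v : E4} (hT : Good G T v) (n : ℕ) :
    T * G ^ n = tau ^ n * T := by
  induction n with
  | zero => simp
  | succ n ih => rw [pow_succ, ← mul_assoc, ih, mul_assoc, hT.conj, ← mul_assoc, ← pow_succ]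

/-- it is a contraction (`T` and `T⁻¹` map bounded sets to bounded sets and are continuous
at `0`) -/
theorem Good.contr {G T : E4 ≃ₜ E4} {v : E4} (hT : Good G T v) : Contr G := by
  intro R ε hε
  obtain ⟨R', hR'⟩ : ∃ R' : ℝ, ∀ x : E4, ‖x‖ ≤ R → ‖T x‖ ≤ R' := by
    have h1 : IsCompact (T '' closedBall (0 : E4) R) :=
      (isCompact_closedBall (0 : E4) R).image T.continuous
    obtain ⟨R', h2⟩ := h1.isBounded.exists_norm_le
    exact ⟨R', fun x hx => h2 _ ⟨x, by rw [mem_closedBall, dist_zero_right]; exact hx, rfl⟩⟩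
  have hc : Tendsto (T⁻¹ : E4 ≃ₜ E4) (𝓝 0) (𝓝 0) := by
    have h1 := (T⁻¹ : E4 ≃ₜ E4).continuous.tendsto 0
    rwa [good_inv_zero hT] at h1
  obtain ⟨δ, hδ, h3⟩ := Metric.tendsto_nhds_nhds.1 hc ε hε
  obtain ⟨n₀, hn₀⟩ := Contr_tauL (LinearIsometryEquiv.refl ℝ E4) R' δ hδ
  refine ⟨n₀, fun n hn x hx => ?_⟩
  have h4 : (G ^ n) x = (T⁻¹ : E4 ≃ₜ E4) ((tau ^ n) (T x)) := by
    apply T.injective
    rw [apply_inv_self']
    exact DFunLike.congr_fun (good_pow hT n) x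
  have h5 : ‖(tau ^ n) (T x)‖ < δ := hn₀ n hn (T x) (hR' x hx)
  have h6 := h3 (x := (tau ^ n) (T x)) (by rw [dist_zero_right]; exact h5)
  rw [h4]
  rwa [dist_zero_right] at h6

/-- powers are again of this kind (`pow_mk`: `μ⁻¹ T` for `G ^ m`) -/
theorem Good.pow {G T : E4 ≃ₜ E4} {v : E4} (hT : Good G T v) (hv : ‖v‖ = 1) {m : ℕ} (hm : 0 < m) :
    ∃ T' : E4 ≃ₜ E4, Good (G ^ m) T' v := by
  obtain ⟨μ, hμ, hμx, hμt⟩ := pow_mk m hm
  have hv0 : v ≠ 0 := fun h => by rw [h, norm_zero] at hv; exact zero_ne_one hv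
  refine ⟨μ⁻¹ * T, ?_, ?_, ?_⟩
  · rw [mul_apply', hT.zero]
    exact hμ.inv.1
  · have h1 : tau * μ⁻¹ = μ⁻¹ * tau ^ m := by
      rw [eq_inv_mul_iff_mul_eq, ← mul_assoc, hμt, mul_assoc, mul_inv_cancel, mul_one]
    rw [mul_assoc, good_pow hT m, ← mul_assoc, ← h1, mul_assoc]
  · intro t ht
    have h1 : ((μ⁻¹ * T)⁻¹ : E4 ≃ₜ E4) (t • v) =
        (T⁻¹ : E4 ≃ₜ E4) ((t ^ (m - 1) * t) • v) := by
      rw [mul_inv_rev, inv_inv, mul_apply', hμx, norm_smul, hv, mul_one, Real.norm_eq_abs,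
        abs_of_pos ht, smul_smul]
    rw [h1]
    have h2 : Reg T ((T⁻¹ : E4 ≃ₜ E4) ((t ^ (m - 1) * t) • v)) := hT.reg _ (by positivity)
    have h3 : Reg (μ⁻¹ : E4 ≃ₜ E4) (T ((T⁻¹ : E4 ≃ₜ E4) ((t ^ (m - 1) * t) • v))) := by
      rw [apply_inv_self']
      exact hμ.inv.reg (smul_ne_zero (by positivity) hv0)
    exact Reg.comp (f := T) (g := (μ⁻¹ : E4 ≃ₜ E4)) h3 h2

/-- rotation of the distinguished ray -/
theorem Good.rotate {G T : E4 ≃ₜ E4} {v : E4} (hT : Good G T v) (hv : ‖v‖ = 1) :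
    ∃ T' : E4 ≃ₜ E4, Good G T' e0 := by
  obtain ⟨L, hL⟩ := exists_isom v hv
  have hv0 : v ≠ 0 := fun h => by rw [h, norm_zero] at hv; exact zero_ne_one hv
  have hP := isom_pz L
  refine ⟨linH L * T, ?_, ?_, ?_⟩
  · rw [mul_apply', hT.zero]
    exact hP.sm.1
  · rw [mul_assoc, hT.conj, ← mul_assoc, hP.comm, mul_assoc]
  · intro t ht
    have h1 : ((linH L * T)⁻¹ : E4 ≃ₜ E4) (t • e0) = (T⁻¹ : E4 ≃ₜ E4) (t • v) := by
      rw [mul_inv_rev, mul_apply']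
      congr 1
      apply (linH L).injective
      rw [apply_inv_self', linH_apply, L.map_smul, hL]
    rw [h1]
    have h3 : Reg (linH L) (T ((T⁻¹ : E4 ≃ₜ E4) (t • v))) := by
      rw [apply_inv_self']
      exact hP.sm.reg (smul_ne_zero ht.ne' hv0)
    exact Reg.comp (f := T) (g := linH L) h3 (hT.reg t ht)

end Pool.Agent.HopfFin
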