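import Pool.Agent.HopfFin.Statement
import Pool.Agent.HopfFin.ModelDir
import Pool.Agent.HopfFin.Good
import Pool.Agent.HopfCov.Bridge2

/-!
# From manifolds to generators

Plan of `lift_good`. `orbit_of_homeo` and `exists_gen` (`Pool/Agent/HopfCov/Bridge.lean`,
`Orbit.lean`) give the deck generator `g`, extended by a contraction `G` with `PD 1 G ∨ PD (-1) G`
(so `Sm G`). Let `q₀` be the map of `modelDir`, `F : M ≃ₜ Circle × S3` and `v` from `NearCircle`. Both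
`q₀` and `F ∘ p` are coverings of `Circle × S3` by the simply connected `V4`
(`isCoveringMap_of_orbits`, `free_of_contr`); the lift `T : V4 ≃ₜ V4` with `q₀ (T x) = F (p x)` is
obtained as in `HopfCov/Lift.lean` (`lift_main`; the proof of `SpecLift` works for homeomorphisms;
factor it out). `T g T⁻¹ = τ` or `τ⁻¹`. By `specEnds` `T` extends to a homeomorphism of `E4` fixing
`0`, or exchanges the ends; in the second case replace `T` by `ι T`, `ι x = x / ‖x‖²` (a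
diffeomorphism of `V4` with `ι τ ι⁻¹ = τ⁻¹`, which maps rays to rays; see `SpecInversion`). After
this `T` extends and `G`, `tau` are both contractions, so `T G T⁻¹ = tau` (`Contr.not_inv`).
Regularity near `T⁻¹ (t • v)`: there `(F (p x)).2 = (q₀ (T x)).2 = v`, so `F` is a local
diffeomorphism at `p x`, and `T = (local inverse of q₀) ∘ F ∘ p` near `x`. Finally rotate `v` to
`e0` (`Good.rotate`).
-/

set_option autoImplicit false

open scoped ContDiff Topology Manifold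
open Set Filter Metric

namespace Pool.Agent.HopfFin

open Pool.Agent.HopfCov Pool.Agent.HopfCov.Smooth

private theorem lg_congr {f f' : V4 → V4} {x : V4}
    (h : IsLocalDiffeomorphAt (𝓡 4) (𝓡 4) ∞ f x) (hff : f' =ᶠ[𝓝 x] f) :
    IsLocalDiffeomorphAt (𝓡 4) (𝓡 4) ∞ f' x := by
  obtain ⟨Φ, hx, hΦ⟩ := h
  obtain ⟨U, hU, hUo, hxU⟩ := _root_.eventually_nhds_iff.1 hff
  refine ⟨{ toPartialEquiv := (Φ.toOpenPartialHomeomorph.restrOpen U hUo).toPartialEquiv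
            open_source := (Φ.toOpenPartialHomeomorph.restrOpen U hUo).open_source
            open_target := (Φ.toOpenPartialHomeomorph.restrOpen U hUo).open_target
            contMDiffOn_toFun := Φ.contMDiffOn_toFun.mono ?_
            contMDiffOn_invFun := Φ.contMDiffOn_invFun.mono ?_ }, ?_, ?_⟩
  · intro y hy; exact hy.1
  · intro y hy; exact hy.1
  · exact ⟨hx, hxU⟩
  · intro y hy
    exact (hU y hy.2).trans (hΦ hy.1)

private theorem lg_open {f : V4 → V4} {x : V4}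
    (h : IsLocalDiffeomorphAt (𝓡 4) (𝓡 4) ∞ f x) :
    ∀ᶠ y in 𝓝 x, IsLocalDiffeomorphAt (𝓡 4) (𝓡 4) ∞ f y := by
  obtain ⟨Φ, hx, hΦ⟩ := h
  filter_upwards [Φ.open_source.mem_nhds hx] with y hy
  exact ⟨Φ, hy, hΦ⟩

private theorem lg_contDiffAt {H : E4 → E4} {Ψ : V4 → V4} (hH : ∀ x : V4, H x = Ψ x) {x : V4}
    (h : ContMDiffAt (𝓡 4) (𝓡 4) ∞ Ψ x) : ContDiffAt ℝ ∞ H (x : E4) := by
  have h1 : ContMDiffAt (𝓡 4) 𝓘(ℝ, E4) ∞ (fun y : V4 => (Ψ y : E4)) x :=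
    (contMDiff_subtype_val (Ψ x)).comp x h
  have h2 : ContMDiffAt (𝓡 4) 𝓘(ℝ, E4) ∞ (fun y : V4 => H y) x := by
    have h3 : (fun y : V4 => H y) = fun y : V4 => (Ψ y : E4) := funext hH
    rw [h3]
    exact h1
  exact (contMDiffAt_subtype_iff.1 h2).contDiffAt

private theorem lg_inv {Ψ : V4 ≃ₜ V4} {x : V4}
    (h : IsLocalDiffeomorphAt (𝓡 4) (𝓡 4) ∞ Ψ x) :
    ContMDiffAt (𝓡 4) (𝓡 4) ∞ (Ψ⁻¹ : V4 ≃ₜ V4) (Ψ x) := by
  have h1 := h.localInverse_contMDiffAt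
  refine h1.congr_of_eventuallyEq ?_
  filter_upwards [h.localInverse_open_source.mem_nhds h.localInverse_mem_source] with y hy
  have h2 := h.localInverse_right_inv hy
  show Ψ.symm y = _
  rw [Homeomorph.symm_apply_eq]
  exact h2.symm

private theorem lg_det {Ψ : V4 ≃ₜ V4} {H : E4 ≃ₜ E4} (hH : Extends H Ψ) {x : V4}
    (h : IsLocalDiffeomorphAt (𝓡 4) (𝓡 4) ∞ Ψ x) :
    ContDiffAt ℝ ∞ H (x : E4) ∧ (fderiv ℝ H (x : E4)).det ≠ 0 := by
  have hinv : ∀ y : V4, (H⁻¹ : E4 ≃ₜ E4) (y : E4) = ((Ψ⁻¹ : V4 ≃ₜ V4) y : E4) := hH.inv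
  have hd : ContDiffAt ℝ ∞ H (x : E4) := lg_contDiffAt (Ψ := Ψ) hH h.contMDiffAt
  refine ⟨hd, fun h0 => ?_⟩
  have h1 : ContDiffAt ℝ ∞ (H⁻¹ : E4 ≃ₜ E4) (H (x : E4)) := by
    have h2 := lg_contDiffAt (Ψ := (Ψ⁻¹ : V4 ≃ₜ V4)) (x := Ψ x) hinv (lg_inv h)
    rwa [← hH x] at h2
  have hcomp : HasFDerivAt (fun y => (H⁻¹ : E4 ≃ₜ E4) (H y))
      ((fderiv ℝ (H⁻¹ : E4 ≃ₜ E4) (H (x : E4))).comp (fderiv ℝ H (x : E4))) (x : E4) :=
    ((h1.differentiableAt (by simp)).hasFDerivAt).comp (x : E4)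
      (hd.differentiableAt (by simp)).hasFDerivAt
  have hid : (fun y => (H⁻¹ : E4 ≃ₜ E4) (H y)) = fun y => y :=
    funext fun y => H.symm_apply_apply y
  have hcomp' := hcomp.fderiv
  rw [hid] at hcomp'
  have hdd : (1 : ℝ) = (fderiv ℝ (H⁻¹ : E4 ≃ₜ E4) (H (x : E4))).det *
      (fderiv ℝ H (x : E4)).det := by
    rw [← det_comp_clm, ← hcomp', fderiv_fun_id]
    simp [ContinuousLinearMap.det]
  rw [h0, mul_zero] at hdd
  exact one_ne_zero hdd

private theorem lg_reg {Ψ : V4 ≃ₜ V4} {H : E4 ≃ₜ E4} (hH : Extends H Ψ) {x : V4}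
    (h : IsLocalDiffeomorphAt (𝓡 4) (𝓡 4) ∞ Ψ x) : Reg H (x : E4) := by
  have h1 : 𝓝 (x : E4) = map Subtype.val (𝓝 x) :=
    (V4.isOpen.isOpenEmbedding_subtypeVal.map_nhds_eq x).symm
  unfold Reg
  rw [h1, eventually_map]
  exact (lg_open h).mono fun y hy => lg_det hH hy

/-- lifts of homeomorphisms of orbit spaces -/
private theorem lg_lift {M X : Type} [TopologicalSpace M] [TopologicalSpace X]
    {g g' : V4 ≃ₜ V4} {p : V4 → M} {p' : V4 → X} (hc : IsCoveringMap p)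
    (hc' : IsCoveringMap p') (hs' : Function.Surjective p')
    (hf : ∀ x y : V4, p x = p y ↔ ∃ n : ℤ, y = (g ^ n) x)
    (hf' : ∀ x y : V4, p' x = p' y ↔ ∃ n : ℤ, y = (g' ^ n) x)
    (hfree' : ∀ (k : ℤ) (x : V4), (g' ^ k) x = x → k = 0) (F : M ≃ₜ X) :
    ∃ Ψ : V4 ≃ₜ V4, (∀ x, p' (Ψ x) = F (p x)) ∧ (Ψ * g * Ψ⁻¹ = g' ∨ Ψ * g * Ψ⁻¹ = g'⁻¹) := by
  have : LocallyCompactSpace V4 := V4.isOpen.isOpenEmbedding_subtypeVal.locallyCompactSpace
  have : LocallyPathConnectedSpace V4 := V4.isOpen.locallyPathConnectedSpace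
  have : SimplyConnectedSpace V4 := specSimplyConnected E4 (by simp)
  obtain ⟨x₀⟩ : Nonempty V4 := inferInstance
  obtain ⟨y₀, hy₀⟩ := hs' (F (p x₀))
  obtain ⟨Ψ, ⟨hΨ0, hΨ⟩, -⟩ := hc'.existsUnique_continuousMap_lifts
    (⟨fun x => F (p x), F.continuous.comp hc.continuous⟩ : C(V4, X)) x₀ y₀ hy₀
  obtain ⟨Φ, ⟨hΦ0, hΦ⟩, -⟩ := hc.existsUnique_continuousMap_lifts
    (⟨fun x => F.symm (p' x), F.symm.continuous.comp hc'.continuous⟩ : C(V4, M)) y₀ x₀
      (by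
        change p x₀ = F.symm (p' y₀)
        rw [hy₀, F.symm_apply_apply])
  have hΨ' : ∀ x, p' (Ψ x) = F (p x) := fun x => congrFun hΨ x
  have hΦ' : ∀ x, p (Φ x) = F.symm (p' x) := fun x => congrFun hΦ x
  have h1 : (fun x => Φ (Ψ x)) = fun x => x :=
    hc.eq_of_comp_eq (Φ.continuous.comp Ψ.continuous) continuous_id
      (by
        funext x
        change p (Φ (Ψ x)) = p x
        rw [hΦ', hΨ', F.symm_apply_apply]) x₀ (by
        rw [hΨ0, hΦ0])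
  have h2 : (fun x => Ψ (Φ x)) = fun x => x :=
    hc'.eq_of_comp_eq (Ψ.continuous.comp Φ.continuous) continuous_id
      (by
        funext x
        change p' (Ψ (Φ x)) = p' x
        rw [hΨ', hΦ', F.apply_symm_apply]) y₀ (by
        rw [hΦ0, hΨ0])
  let Ψh : V4 ≃ₜ V4 :=
    { toFun := Ψ
      invFun := Φ
      left_inv := fun x => congrFun h1 x
      right_inv := fun x => congrFun h2 x
      continuous_toFun := Ψ.continuous
      continuous_invFun := Φ.continuous }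
  have key : ∃ n : ℤ, Ψh * g = g' ^ n * Ψh := by
    obtain ⟨n, hn⟩ := (hf' (Ψ x₀) (Ψ (g x₀))).1 (by
      rw [hΨ', hΨ']
      congr 1
      exact (hf _ _).2 ⟨1, by rw [zpow_one]⟩)
    refine ⟨n, Homeomorph.ext fun x => ?_⟩
    have h3 : (fun x => Ψ (g x)) = fun x => (g' ^ n) (Ψ x) :=
      hc'.eq_of_comp_eq (Ψ.continuous.comp g.continuous) ((g' ^ n).continuous.comp Ψ.continuous)
        (by
          funext x
          change p' (Ψ (g x)) = p' ((g' ^ n) (Ψ x))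
          rw [hΨ', ← (hf' (Ψ x) _).2 ⟨n, rfl⟩, hΨ']
          congr 1
          exact ((hf _ _).2 ⟨1, by rw [zpow_one]⟩).symm) x₀ hn
    exact congrFun h3 x
  have key' : ∃ m : ℤ, Ψh⁻¹ * g' = g ^ m * Ψh⁻¹ := by
    obtain ⟨m, hm⟩ := (hf (Φ y₀) (Φ (g' y₀))).1 (by
      rw [hΦ', hΦ']
      congr 1
      exact (hf' _ _).2 ⟨1, by rw [zpow_one]⟩)
    refine ⟨m, Homeomorph.ext fun x => ?_⟩
    have h3 : (fun x => Φ (g' x)) = fun x => (g ^ m) (Φ x) :=
      hc.eq_of_comp_eq (Φ.continuous.comp g'.continuous) ((g ^ m).continuous.comp Φ.continuous)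
        (by
          funext x
          change p (Φ (g' x)) = p ((g ^ m) (Φ x))
          rw [hΦ', ← (hf (Φ x) _).2 ⟨m, rfl⟩, hΦ']
          congr 1
          exact ((hf' _ _).2 ⟨1, by rw [zpow_one]⟩).symm) y₀ hm
    exact congrFun h3 x
  obtain ⟨n, hn⟩ := key
  obtain ⟨m, hm⟩ := key'
  have hn' : Ψh * g * Ψh⁻¹ = g' ^ n := by rw [hn]; group
  have hm' : Ψh⁻¹ * g' * Ψh = g ^ m := by rw [hm]; group
  have hnm : n * m = 1 := by
    have h4 : g' = g' ^ (n * m) := by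
      calc g' = Ψh * (Ψh⁻¹ * g' * Ψh) * Ψh⁻¹ := by group
        _ = Ψh * g ^ m * Ψh⁻¹ := by rw [hm']
        _ = (Ψh * g * Ψh⁻¹) ^ m := by rw [conj_zpow]
        _ = (g' ^ n) ^ m := by rw [hn']
        _ = g' ^ (n * m) := by rw [zpow_mul]
    have h5 : g' ^ (n * m - 1) = 1 := by
      rw [zpow_sub, ← h4, zpow_one]; group
    have h6 := hfree' (n * m - 1) x₀ (by rw [h5]; rfl)
    omega
  refine ⟨Ψh, hΨ', ?_⟩
  rcases Int.mul_eq_one_iff_eq_one_or_neg_one.1 hnm with h | h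
  · left; rw [hn', h.1, zpow_one]
  · right; rw [hn', h.1, zpow_neg, zpow_one]

/-- the lift is a local diffeomorphism where the homeomorphism of the orbit spaces is one -/
private theorem lg_loc {M : Type} [TopologicalSpace M] [ChartedSpace E4 M]
    {X : Type} [TopologicalSpace X] {E' H' : Type} [NormedAddCommGroup E'] [NormedSpace ℝ E']
    [TopologicalSpace H'] {I' : ModelWithCorners ℝ E' H'} [ChartedSpace H' X]
    {p : V4 → M} {q : V4 → X} (hp : IsLocalDiffeomorph (𝓡 4) (𝓡 4) ∞ p)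
    (hq0 : IsLocalDiffeomorph (𝓡 4) I' ∞ q) {F : M ≃ₜ X} {Ψ : V4 ≃ₜ V4}
    (hΨ : ∀ x, q (Ψ x) = F (p x)) {x : V4}
    (hF : IsLocalDiffeomorphAt (𝓡 4) I' ∞ F (p x)) :
    IsLocalDiffeomorphAt (𝓡 4) (𝓡 4) ∞ Ψ x := by
  have hq := hq0 (Ψ x)
  have hFp : IsLocalDiffeomorphAt (𝓡 4) I' ∞ (F ∘ p) x := (hp x).comp (K := I') (hg := hF)
  have hq2 : IsLocalDiffeomorphAt I' (𝓡 4) ∞ hq.localInverse (F (p x)) := by
    rw [← hΨ x]
    exact hq.localInverse_isLocalDiffeomorphAt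
  have h7 : IsLocalDiffeomorphAt (𝓡 4) (𝓡 4) ∞ (hq.localInverse ∘ (F ∘ p)) x :=
    hFp.comp (K := 𝓡 4) (hg := hq2)
  refine lg_congr h7 ?_
  have h8 := hq.localInverse_eventuallyEq_left
  have h9 : ∀ᶠ y in 𝓝 x, (hq.localInverse ∘ q) (Ψ y) = id (Ψ y) :=
    Ψ.continuous.continuousAt.eventually h8
  filter_upwards [h9] with y hy
  show Ψ y = hq.localInverse (F (p y))
  rw [← hΨ y]
  exact hy.symm

/-- the direction of a point which the inversion maps to `t • v` -/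
private theorem lg_dir {v y : E4} {t : ℝ} (hv : ‖v‖ = 1) (ht : 0 < t) (hy : y ≠ 0)
    (h : (‖y‖ ^ 2)⁻¹ • y = t • v) : ‖y‖⁻¹ • y = v := by
  have hy' : 0 < ‖y‖ := norm_pos_iff.2 hy
  have h1 : ‖y‖⁻¹ = t := by
    have h2 := congrArg norm h
    rw [norm_smul, norm_smul, hv, mul_one, Real.norm_eq_abs, Real.norm_eq_abs, abs_of_pos ht,
      abs_of_pos (by positivity)] at h2
    rw [← h2]
    field_simp
  have h3 : ‖y‖⁻¹ • y = ‖y‖ • ((‖y‖ ^ 2)⁻¹ • y) := by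
    rw [smul_smul]
    congr 1
    field_simp
  rw [h3, h, smul_smul, ← h1, mul_inv_cancel₀ hy'.ne', one_smul]

private theorem lg_dir' {v : E4} {t : ℝ} (hv : ‖v‖ = 1) (ht : 0 < t) :
    ‖t • v‖⁻¹ • (t • v) = v := by
  rw [norm_smul, hv, mul_one, Real.norm_eq_abs, abs_of_pos ht, smul_smul,
    inv_mul_cancel₀ ht.ne', one_smul]

/-- a manifold of the class `S` is the orbit space of a generator with a good topological
conjugation -/
theorem lift_good {M : Mfd4} (hM : InS M) : T2Space M ∧ CompactSpace M ∧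
    ∃ (p : V4 → M.carrier) (g : V4 ≃ₜ V4) (G T : E4 ≃ₜ E4), OrbitMap g p ∧ Extends G g ∧ Sm G ∧
      Contr G ∧ Good G T e0 := by
  obtain ⟨F0, v0, hF0⟩ := hM.circle
  obtain ⟨p, hcov, hloc⟩ := hM.univ
  obtain ⟨a1, a2, g₀, h1⟩ := orbit_of_homeo ⟨F0⟩ hcov hloc
  refine ⟨a1, a2, ?_⟩
  have a1' : T2Space M.carrier := a1
  have a2' : CompactSpace M.carrier := a2
  obtain ⟨g, G, hp, hG, hPD, hcG⟩ := exists_gen h1
  have hSm : Sm G := by
    rcases hPD with h | h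
    · exact Sm_of_PD h
    · exact Sm_of_PD h
  let F : M.carrier ≃ₜ Circle × sphere (0 : E4) 1 := F0
  let v1 : sphere (0 : E4) 1 := v0
  let v : E4 := (v1 : E4)
  have hv : ‖v‖ = 1 := by
    have h := v1.2
    rwa [mem_sphere_zero_iff_norm] at h
  have hF : ∀ x : M.carrier, (((F x).2 : sphere (0 : E4) 1) : E4) = v →
      IsLocalDiffeomorphAt (𝓡 4) ((𝓡 1).prod (𝓡 3)) ∞ F x := by
    intro x hx
    have hx' : (F x).2 = v1 := Subtype.ext hx
    exact hF0 x hx'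
  obtain ⟨τ, h5, h6⟩ := exists_tau
  obtain ⟨q, q1, q2, q3, q4⟩ := modelDir τ h6
  have hctau : Contr (tau : E4 ≃ₜ E4) := Contr_tauL _
  have hfree := free_of_contr h5 hctau
  have hcq : IsCoveringMap q := isCoveringMap_of_orbits q2.isLocalHomeomorph q1 q3 hfree
  have hcp : IsCoveringMap (p : V4 → M.carrier) := hcov
  obtain ⟨Ψ, k1, k2⟩ := lg_lift hcp hcq q1 hp.fib q3 hfree F
  -- the local regularity of the lift
  have hreg : ∀ x : V4, ‖((Ψ x : V4) : E4)‖⁻¹ • ((Ψ x : V4) : E4) = v →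
      IsLocalDiffeomorphAt (𝓡 4) (𝓡 4) ∞ Ψ x := by
    intro x hx
    refine lg_loc hp.loc q2 k1 (hF _ ?_)
    rw [← k1 x, q4]
    exact hx
  -- it suffices to find a lift which extends
  have main : ∀ (Θ : V4 ≃ₜ V4) (T : E4 ≃ₜ E4), Extends T Θ →
      (Θ * g * Θ⁻¹ = τ ∨ Θ * g * Θ⁻¹ = τ⁻¹) →
      (∀ (x : V4) (t : ℝ), 0 < t → ((Θ x : V4) : E4) = t • v →
        IsLocalDiffeomorphAt (𝓡 4) (𝓡 4) ∞ Θ x) → Good G T v := by
    intro Θ T hT hΘ hr
    have hT0 : T 0 = 0 := hT.zero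
    have hTG : Extends (T * G * T⁻¹) (Θ * g * Θ⁻¹) := (hT.mul hG).mul hT.inv
    have hc2 : Contr (T * G * T⁻¹) := hcG.conj hT0
    have e1 : T * G * T⁻¹ = tau := by
      rcases hΘ with h | h
      · rw [h] at hTG
        exact hTG.unique h5
      · exfalso
        rw [h] at hTG
        have e2 : T * G * T⁻¹ = tau⁻¹ := hTG.unique h5.inv
        rw [e2] at hc2
        exact hctau.not_inv hc2
    refine ⟨hT0, ?_, fun t ht => ?_⟩
    · rw [← e1]
      group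
    · have hv0 : v ≠ 0 := by
        intro h
        rw [h, norm_zero] at hv
        exact zero_ne_one hv
      have hne : t • v ≠ 0 := smul_ne_zero ht.ne' hv0
      have e3 : (T⁻¹ : E4 ≃ₜ E4) (t • v) = (((Θ⁻¹ : V4 ≃ₜ V4) ⟨t • v, hne⟩ : V4) : E4) :=
        hT.inv ⟨t • v, hne⟩
      rw [e3]
      refine lg_reg hT (hr _ t ht ?_)
      have e4 : Θ ((Θ⁻¹ : V4 ≃ₜ V4) ⟨t • v, hne⟩) = ⟨t • v, hne⟩ := Θ.apply_symm_apply _
      rw [e4]
  have hgood : ∃ T : E4 ≃ₜ E4, Good G T v := by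
    by_cases hex : ∃ T : E4 ≃ₜ E4, Extends T Ψ
    · obtain ⟨T, hT⟩ := hex
      refine ⟨T, main Ψ T hT k2 fun x t ht hx => hreg x ?_⟩
      rw [hx]
      exact lg_dir' hv ht
    · obtain ⟨J, j1, j2, j3⟩ := inversion_data
      obtain ⟨T, hT⟩ := specSwapMul J Ψ j2 hex
      have hJτ : J * τ * J⁻¹ = τ⁻¹ := inversion_conj (L := LinearIsometryEquiv.refl ℝ E4) j3
        (fun _ => rfl) h6
      refine ⟨T, main (J * Ψ) T hT ?_ fun x t ht hx => ?_⟩
      · have e5 : J * Ψ * g * (J * Ψ)⁻¹ = J * (Ψ * g * Ψ⁻¹) * J⁻¹ := by group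
        rw [e5]
        rcases k2 with h | h
        · right
          rw [h, hJτ]
        · left
          rw [h]
          have e6 : J * τ⁻¹ * J⁻¹ = (J * τ * J⁻¹)⁻¹ := by group
          rw [e6, hJτ, inv_inv]
      · have e7 : (‖((Ψ x : V4) : E4)‖ ^ 2)⁻¹ • ((Ψ x : V4) : E4) = t • v := by
          rw [← j3 (Ψ x)]
          exact hx
        have e8 := hreg x (lg_dir hv ht (V4_ne _) e7)
        exact e8.comp (K := 𝓡 4) (hg := j1 (Ψ x))
  obtain ⟨T, hT⟩ := hgood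
  obtain ⟨T', hT'⟩ := hT.rotate hv
  exact ⟨p, g, G, T', hp, hG, hSm, hcG, hT'⟩

end Pool.Agent.HopfFin
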