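import Pool.Agent.HopfFin.Conj
import Pool.Agent.HopfCov.Twist2

/-!
# Conjugation by diffeomorphisms which may exchange the ends

A diffeomorphism of the orbit spaces of `g` and `g'` lifts to a diffeomorphism `Ψ` of `ℝ⁴ ∖ 0` with
`Ψ g Ψ⁻¹ = g'` or `Ψ g Ψ⁻¹ = g'⁻¹`; in the second case it exchanges the two ends. The property `Off`
is invariant under this relation: if `G''` maps the closed unit ball into the open one then so does
the conjugate of its inverse by the inversion `x ↦ x / ‖x‖²`.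
-/

set_option autoImplicit false

open scoped ContDiff Topology Manifold
open Set Filter Metric

namespace Pool.Agent.HopfFin

open Pool.Agent.HopfCov

/-- the orbit spaces of `G` and `G'` are diffeomorphic -/
def CjV (G G' : E4 ≃ₜ E4) : Prop := ∃ Ψ g g' : V4 ≃ₜ V4, IsLocalDiffeomorph (𝓡 4) (𝓡 4) ∞ Ψ ∧
  Extends G g ∧ Extends G' g' ∧ (Ψ * g * Ψ⁻¹ = g' ∨ Ψ * g * Ψ⁻¹ = g'⁻¹)

theorem loc_inv {Ψ : V4 ≃ₜ V4} (h : IsLocalDiffeomorph (𝓡 4) (𝓡 4) ∞ Ψ) :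
    IsLocalDiffeomorph (𝓡 4) (𝓡 4) ∞ (Ψ⁻¹ : V4 ≃ₜ V4) := by
  intro y
  obtain ⟨x, rfl⟩ := Ψ.surjective y
  exact (diffeoOfHomeo Ψ h).symm.isLocalDiffeomorph (Ψ x)

theorem CjV.symm {G G' : E4 ≃ₜ E4} (h : CjV G G') : CjV G' G := by
  obtain ⟨Ψ, g, g', h1, h2, h3, h4⟩ := h
  refine ⟨Ψ⁻¹, g', g, loc_inv h1, h3, h2, ?_⟩
  rcases h4 with h4 | h4
  · left
    rw [← h4]
    group
  · right
    have h5 : g' = (Ψ * g * Ψ⁻¹)⁻¹ := by rw [h4, inv_inv]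
    rw [h5]
    group

theorem Sm_of_loc {k : V4 ≃ₜ V4} {h : E4 ≃ₜ E4} (hk : IsLocalDiffeomorph (𝓡 4) (𝓡 4) ∞ k)
    (hE : Extends h k) : Sm h := by
  rcases pd k hk h hE.zero hE with h1 | h1 <;> exact Sm_of_PD h1

/-- the restriction of an element of `Sm` -/
theorem Sm.restr {h : E4 ≃ₜ E4} (hh : Sm h) : ∃ k : V4 ≃ₜ V4, Extends h k ∧
    IsLocalDiffeomorph (𝓡 4) (𝓡 4) ∞ k := by
  obtain ⟨s, -, hPD⟩ := hh.exists_sign
  exact exists_restr_PDs hPD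

/-- the conjugate of the inverse of a trapping homeomorphism by the inversion is trapping -/
theorem Trap_swap {J g : V4 ≃ₜ V4} {G H : E4 ≃ₜ E4}
    (hJ : ∀ x : V4, (J x : E4) = (‖(x : E4)‖ ^ 2)⁻¹ • (x : E4)) (hG : Extends G g)
    (hH : Extends H (J * g⁻¹ * J⁻¹)) (ht : Trap G) : Trap H := by
  have hn : ∀ x : V4, ‖(J x : E4)‖ = ‖(x : E4)‖⁻¹ := by
    intro x
    have h0 : ‖(x : E4)‖ ≠ 0 := norm_ne_zero_iff.2 (V4_ne x)
    rw [hJ, norm_smul, norm_inv, norm_pow, norm_norm]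
    field_simp
  intro x hx
  by_cases hx0 : x = 0
  · rw [hx0, hH.zero, norm_zero]
    exact one_pos
  obtain ⟨y, hy⟩ := J.surjective ⟨x, hx0⟩
  obtain ⟨z, hz⟩ := g.surjective y
  have h1 : H x = (J z : E4) := by
    have h2 : H x = ((J * g⁻¹ * J⁻¹ : V4 ≃ₜ V4) ⟨x, hx0⟩ : E4) := hH ⟨x, hx0⟩
    rw [h2, ← hy, ← hz]
    congr 1
    show J ((g⁻¹ : V4 ≃ₜ V4) ((J⁻¹ : V4 ≃ₜ V4) (J (g z)))) = J z
    have h7 : (J⁻¹ : V4 ≃ₜ V4) (J (g z)) = g z := J.symm_apply_apply _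
    have h8 : (g⁻¹ : V4 ≃ₜ V4) (g z) = z := g.symm_apply_apply _
    rw [h7, h8]
  have h3 : ‖(y : E4)‖⁻¹ ≤ 1 := by
    rw [← hn, hy]
    exact hx
  have hy0 : 0 < ‖(y : E4)‖ := norm_pos_iff.2 (V4_ne y)
  have hz0 : 0 < ‖(z : E4)‖ := norm_pos_iff.2 (V4_ne z)
  have h4 : 1 ≤ ‖(y : E4)‖ := (inv_le_one₀ hy0).1 h3
  have h5 : 1 < ‖(z : E4)‖ := by
    by_contra hcon
    have h6 := ht (z : E4) (not_lt.1 hcon)
    rw [hG z, hz] at h6
    linarith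
  rw [h1, hn]
  exact inv_lt_one_of_one_lt₀ h5

private theorem off_aux {G G' : E4 ≃ₜ E4} {g g' Ψ : V4 ≃ₜ V4} (hc : Contr G) (hc' : Contr G')
    (hG : Extends G g) (hG' : Extends G' g') (hΨ : IsLocalDiffeomorph (𝓡 4) (𝓡 4) ∞ Ψ)
    (h : Ψ * g * Ψ⁻¹ = g' ∨ Ψ * g * Ψ⁻¹ = g'⁻¹) (hO : Off G') : Off G := by
  obtain ⟨G'', ht, Θ, hΘ, hΘ'⟩ := hO
  by_cases hE : ∃ H : E4 ≃ₜ E4, Extends H Ψ
  · obtain ⟨H, hH⟩ := hE
    rcases h with h | h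
    · have e1 := hG.conj hH hG' h
      refine ⟨G'', ht, Cj.trans ⟨H, Sm_of_loc hΨ hH, ?_⟩ ⟨Θ, hΘ, hΘ'⟩⟩
      rw [← e1]
      group
    · exfalso
      have e1 := hG.conj hH hG'.inv h
      have e2 := hc.conj hH.zero
      rw [e1] at e2
      exact hc'.not_inv e2
  · rcases h with h | h
    · exact (specSwapContr Ψ g g' G G' hE hG hG' hc hc' h).elim
    · obtain ⟨J, j1, j2, j3⟩ := inversion_data
      obtain ⟨θ, t1, t2⟩ := hΘ.restr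
      have hE' : ¬ ∃ H : E4 ≃ₜ E4, Extends H (θ * Ψ) := by
        rintro ⟨H, hH⟩
        refine hE ⟨Θ⁻¹ * H, ?_⟩
        have := t1.inv.mul hH
        rwa [inv_mul_cancel_left] at this
      obtain ⟨H, hH⟩ := specSwapMul J (θ * Ψ) j2 hE'
      have e1 : Extends G'' (θ * g' * θ⁻¹) := by
        have := (t1.mul hG').mul t1.inv
        rwa [hΘ', mul_inv_cancel_right] at this
      have e2 : Extends (H * G * H⁻¹) (J * (θ * g' * θ⁻¹)⁻¹ * J⁻¹) := by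
        have := (hH.mul hG).mul hH.inv
        have e3 : J * (θ * Ψ) * g * (J * (θ * Ψ))⁻¹ = J * (θ * g' * θ⁻¹)⁻¹ * J⁻¹ := by
          calc J * (θ * Ψ) * g * (J * (θ * Ψ))⁻¹ = J * (θ * (Ψ * g * Ψ⁻¹) * θ⁻¹) * J⁻¹ := by group
            _ = J * (θ * g' * θ⁻¹)⁻¹ * J⁻¹ := by rw [h]; group
        rwa [e3] at this
      refine ⟨H * G * H⁻¹, Trap_swap j3 e1 e2 ht, H, Sm_of_loc (fun x => ?_) hH, by group⟩
      exact ((hΨ x).comp (K := 𝓡 4) (hg := t2 (Ψ x))).comp (K := 𝓡 4) (hg := j1 (θ (Ψ x)))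

/-- the property `Off` depends only on the orbit space -/
theorem CjV.off {G G' : E4 ≃ₜ E4} (hc : Contr G) (hc' : Contr G') (h : CjV G G') {n : ℕ}
    (hn : 0 < n) (hO : Off (G' ^ n)) : Off (G ^ n) := by
  obtain ⟨Ψ, g, g', h1, h2, h3, h4⟩ := h
  refine off_aux (hc.pow hn) (hc'.pow hn) (h2.pow n) (h3.pow n) h1 ?_ hO
  rcases h4 with h4 | h4
  · left
    rw [← h4, conj_pow]
  · right
    rw [← inv_pow, ← h4, conj_pow]

/-- if two powers have diffeomorphic orbit spaces then a power is extendable -/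
theorem CjV.ext {G : E4 ≃ₜ E4} (hG : PD 1 G) {a b : ℕ} (h : CjV (G ^ a) (G ^ b)) :
    Ext (G ^ (((b * b : ℕ) : ℤ) - ((a * a : ℕ) : ℤ))) := by
  obtain ⟨Ψ, g, g', h1, h2, h3, h4⟩ := h
  obtain ⟨k, k1, -⟩ := exists_restr_PD hG
  have e1 : g = k ^ a := h2.eq_of (k1.pow a)
  have e2 : g' = k ^ b := h3.eq_of (k1.pow b)
  rw [e1, e2] at h4
  obtain ⟨H, f1, f2⟩ := pair_square specSign specSwapMul k1 h1 h4
  exact ext_of_conj_nat hG f1 f2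

end Pool.Agent.HopfFin
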