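import Pool.Agent.HopfFin.Statement
import Pool.Agent.HopfRem.Final

/-!
# Manifolds which are standard off one point are in the class `S`
-/

set_option autoImplicit false

open scoped ContDiff Topology Manifold
open Set Filter Metric

namespace Pool.Agent.HopfFin

open Pool.Agent.HopfCov Pool.Agent.HopfCov.Smooth

/-- a manifold which is standard off one point is in the class `S`: by the hand-in `Classification`
it has an orbit map with trapping generator, hence a smooth covering by `ℝ⁴ ∖ 0`; the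
homeomorphism is a local diffeomorphism near the circles which avoid the singular point -/
theorem inS_of_offPoint {M X : Mfd4} (hX : DiffeoS1S3 X) (hM : AlmostDiffeo M X) : InS M := by
  obtain ⟨p, G, hG, -⟩ := (almost_pos hX).1 hM
  have h0 := orbit_eq.1 hG
  refine ⟨?_, p, h0.cov, h0.loc⟩
  obtain ⟨F, x₀, hF⟩ := (almost_off (Or.inl hX)).1 hM
  obtain ⟨Ψ⟩ := hX
  obtain ⟨v, hv⟩ : ∃ v : S3, v ≠ (Ψ (F x₀)).2 := by
    have h1 := mem_sphere_zero_iff_norm.1 (Ψ (F x₀)).2.2
    refine ⟨⟨-(Ψ (F x₀)).2.1, mem_sphere_zero_iff_norm.2 ((norm_neg _).trans h1)⟩, fun h => ?_⟩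
    have h2 : -(Ψ (F x₀)).2.1 = (Ψ (F x₀)).2.1 := congrArg Subtype.val h
    have h3 : (2 : ℝ) • (Ψ (F x₀)).2.1 = 0 := by
      rw [two_smul]
      nth_rewrite 1 [← h2]
      exact neg_add_cancel _
    rcases smul_eq_zero.1 h3 with h4 | h4
    · norm_num at h4
    · rw [h4, norm_zero] at h1
      exact zero_ne_one h1
  refine ⟨F.trans Ψ.toHomeomorph, v, fun x hx => ?_⟩
  have hne : x ≠ x₀ := by
    rintro rfl
    exact hv hx.symm
  have h1 : IsLocalDiffeomorphAt (𝓡 4) model13 ∞ Ψ (F x) := Ψ.isLocalDiffeomorph (F x)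
  exact (hF x hne).comp (K := model13) (hg := h1)

end Pool.Agent.HopfFin
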