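import Pool.Agent.HopfFin.Cones

/-!
# The screw motions
-/

set_option autoImplicit false

open scoped ContDiff Topology
open Set Filter Metric

namespace Pool.Agent.HopfFin

open Pool.Agent.HopfCov

/-! ### the screw motions `lam s` -/

/-- `lam s` as a continuous linear map -/
noncomputable def lamL (s : ℝ) : E4 →L[ℝ] E4 :=
  LinearMap.toContinuousLinearMap
    { toFun := lam s
      map_add' := fun x y => by
        ext i; fin_cases i <;> simp [lam] <;> ring
      map_smul' := fun c x => by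
        ext i; fin_cases i <;> simp [lam] <;> ring }

theorem lamL_apply (s : ℝ) (x : E4) : lamL s x = lam s x := rfl

theorem lam_zero (x : E4) : lam 0 x = x := by
  ext i; fin_cases i <;> simp [lam]

theorem lam_add (s t : ℝ) (x : E4) : lam (s + t) x = lam s (lam t x) := by
  have h1 : (2 : ℝ) ^ (-(s + t)) = 2 ^ (-s) * 2 ^ (-t) := by
    rw [neg_add, Real.rpow_add (by norm_num)]
  have h2 : 2 * Real.pi * (s + t) = 2 * Real.pi * s + 2 * Real.pi * t := by ring
  have h3 : ∀ u : ℝ, lam u x = (2 : ℝ) ^ (-u) • WithLp.toLp 2 ![x 0,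
    Real.cos (2 * Real.pi * u) * x 1 - Real.sin (2 * Real.pi * u) * x 2,
    Real.sin (2 * Real.pi * u) * x 1 + Real.cos (2 * Real.pi * u) * x 2, x 3] := fun u => rfl
  rw [h3 (s + t), h1, h2, Real.cos_add, Real.sin_add]
  ext i
  fin_cases i <;> simp [lam] <;> ring

theorem lam_one (x : E4) : lam 1 x = (2⁻¹ : ℝ) • x := by
  have h1 : (2 : ℝ) ^ (-1 : ℝ) = 2⁻¹ := Real.rpow_neg_one 2
  ext i; fin_cases i <;> simp [lam, h1]

theorem lam_smul (s c : ℝ) (x : E4) : lam s (c • x) = c • lam s x := (lamL s).map_smul c x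

theorem lam_neg_lam (s : ℝ) (x : E4) : lam (-s) (lam s x) = x := by
  rw [← lam_add, neg_add_cancel, lam_zero]

theorem lam_lam_neg (s : ℝ) (x : E4) : lam s (lam (-s) x) = x := by
  rw [← lam_add, add_neg_cancel, lam_zero]

theorem lam_apply_zero (s : ℝ) (x : E4) : lam s x 0 = (2 : ℝ) ^ (-s) * x 0 := by simp [lam]

theorem lam_smul_e0 (s t : ℝ) : lam s (t • e0) = ((2 : ℝ) ^ (-s) * t) • e0 := by
  ext i; fin_cases i <;> simp [lam, e0]

/-- `lam s` multiplies the norm by `2^(-s)` -/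
theorem norm_lam (s : ℝ) (x : E4) : ‖lam s x‖ = (2 : ℝ) ^ (-s) * ‖x‖ := by
  have h0 : (0 : ℝ) < (2 : ℝ) ^ (-s) := Real.rpow_pos_of_pos (by norm_num) _
  unfold lam
  rw [norm_smul, Real.norm_eq_abs, abs_of_pos h0]
  congr 1
  rw [EuclideanSpace.norm_eq, EuclideanSpace.norm_eq]
  congr 1
  simp only [Fin.sum_univ_four, Real.norm_eq_abs, sq_abs]
  simp only [Matrix.cons_val_zero, Matrix.cons_val_one, Matrix.cons_val]
  have h := Real.sin_sq_add_cos_sq (2 * Real.pi * s)
  linear_combination ((x 1) ^ 2 + (x 2) ^ 2) * h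

private theorem contDiff_lam_Lam : ContDiff ℝ ∞ fun p : ℝ × E4 => lam p.1 p.2 := by
  have h1 : ContDiff ℝ ∞ fun p : ℝ × E4 => (2 : ℝ) ^ (-p.1) := by
    have e : (fun p : ℝ × E4 => (2 : ℝ) ^ (-p.1)) =
        fun p : ℝ × E4 => Real.exp (Real.log 2 * (-p.1)) := by
      funext p
      rw [Real.rpow_def_of_pos (by norm_num)]
    rw [e]
    exact Real.contDiff_exp.comp (contDiff_const.mul contDiff_fst.neg)
  have hc : ∀ i : Fin 4, ContDiff ℝ ∞ fun p : ℝ × E4 => p.2 i := by
    intro i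
    exact (contDiff_euclidean.1 contDiff_snd) i
  have ha : ContDiff ℝ ∞ fun p : ℝ × E4 => 2 * Real.pi * p.1 :=
    contDiff_const.mul contDiff_fst
  have hcos : ContDiff ℝ ∞ fun p : ℝ × E4 => Real.cos (2 * Real.pi * p.1) :=
    Real.contDiff_cos.comp ha
  have hsin : ContDiff ℝ ∞ fun p : ℝ × E4 => Real.sin (2 * Real.pi * p.1) :=
    Real.contDiff_sin.comp ha
  refine h1.smul ?_
  rw [contDiff_euclidean]
  intro i
  fin_cases i
  · exact hc 0
  · exact (hcos.mul (hc 1)).sub (hsin.mul (hc 2))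
  · exact (hsin.mul (hc 1)).add (hcos.mul (hc 2))
  · exact hc 3

theorem continuous_lamL : Continuous lamL := by
  refine continuous_clm_apply.2 fun y => ?_
  exact (contDiff_lam_Lam.continuous).comp (Continuous.prodMk continuous_id continuous_const)

/-- `lam` is smooth in both variables -/
theorem contDiff_lam : ContDiff ℝ ∞ fun p : ℝ × E4 => lam p.1 p.2 := contDiff_lam_Lam

/-- `lam s` as a homeomorphism -/
noncomputable def lamH (s : ℝ) : E4 ≃ₜ E4 where
  toFun := lam s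
  invFun := lam (-s)
  left_inv := lam_neg_lam s
  right_inv := lam_lam_neg s
  continuous_toFun := (lamL s).continuous
  continuous_invFun := (lamL (-s)).continuous

theorem lamH_apply (s : ℝ) (x : E4) : lamH s x = lam s x := rfl

theorem lamH_add (s t : ℝ) : lamH (s + t) = lamH s * lamH t :=
  Homeomorph.ext fun x => lam_add s t x

theorem lamH_one : lamH 1 = tau := Homeomorph.ext fun x => lam_one x

theorem lamH_zero : lamH 0 = 1 := Homeomorph.ext fun x => lam_zero x

theorem lamH_inv (s : ℝ) : (lamH s)⁻¹ = lamH (-s) := by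
  rw [inv_eq_iff_mul_eq_one, ← lamH_add, add_neg_cancel, lamH_zero]

theorem lamH_pow (s : ℝ) (n : ℕ) : lamH s ^ n = lamH (n * s) := by
  induction n with
  | zero => simp [lamH_zero]
  | succ n ih => rw [pow_succ, ih, ← lamH_add]; congr 1; push_cast; ring

theorem det_lamL_pos (s : ℝ) : 0 < (lamL s).det := by
  have h1 : lamL s = (lamL (s / 2)).comp (lamL (s / 2)) := by
    ext1 x
    show lam s x = lam (s / 2) (lam (s / 2) x)
    rw [← lam_add, add_halves]
  have h2 : (lamL (-(s / 2))).comp (lamL (s / 2)) = ContinuousLinearMap.id ℝ E4 := by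
    ext1 x
    exact lam_neg_lam (s / 2) x
  have h3 : (lamL (-(s / 2))).det * (lamL (s / 2)).det = 1 := by
    rw [← det_comp_clm, h2]
    simp [ContinuousLinearMap.det]
  rw [h1, det_comp_clm]
  exact mul_self_pos.2 (right_ne_zero_of_mul_eq_one h3)

theorem lamH_LD (s : ℝ) (x : E4) : LD 1 (lamH s) x := by
  have h1 : (lamH s : E4 → E4) = lamL s := rfl
  rw [h1]
  exact LD_clm _ (by rw [one_mul]; exact det_lamL_pos s) x

theorem lamH_PD (s : ℝ) : PD 1 (lamH s) :=
  ⟨(lamL s).map_zero, fun x _ => lamH_LD s x⟩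

theorem lamH_pz (s : ℝ) : Pz (lamH s) := ⟨Sm_of_PD (lamH_PD s), fun x => lam_smul s _ x⟩

theorem lamH_Ext (s : ℝ) : Ext (lamH s) := Ext_of_LD (lamH_LD s)

/-- the power maps, for any factor `c` -/
private noncomputable def twL (c : ℝ) (x : E4) : E4 := lam (c * Real.logb 2 ‖x‖) x

private theorem norm_twL_Lam (c : ℝ) {x : E4} (hx : x ≠ 0) :
    ‖twL c x‖ = ‖x‖ ^ (1 - c) := by
  have h0 : 0 < ‖x‖ := norm_pos_iff.2 hx
  have h1 : (2 : ℝ) ^ (-(c * Real.logb 2 ‖x‖)) = ‖x‖ ^ (-c) := by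
    rw [show -(c * Real.logb 2 ‖x‖) = Real.logb 2 ‖x‖ * (-c) by ring,
      Real.rpow_mul (by norm_num), Real.rpow_logb (by norm_num) (by norm_num) h0]
  rw [twL, norm_lam, h1]
  rw [show (1 - c) = -c + 1 by ring, Real.rpow_add h0, Real.rpow_one]

private theorem twL_zero_Lam (c : ℝ) : twL c 0 = 0 := (lamL _).map_zero

private theorem twL_ne_Lam (c : ℝ) {x : E4} (hx : x ≠ 0) : twL c x ≠ 0 := by
  rw [← norm_pos_iff, norm_twL_Lam c hx]
  exact Real.rpow_pos_of_pos (norm_pos_iff.2 hx) _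

private theorem twL_twL_Lam {c c' : ℝ} (h : c + c' * (1 - c) = 0) (x : E4) :
    twL c' (twL c x) = x := by
  rcases eq_or_ne x 0 with rfl | hx
  · rw [twL_zero_Lam, twL_zero_Lam]
  have h0 : 0 < ‖x‖ := norm_pos_iff.2 hx
  have h1 : Real.logb 2 ‖twL c x‖ = (1 - c) * Real.logb 2 ‖x‖ := by
    rw [norm_twL_Lam c hx, Real.logb_rpow_eq_mul_logb_of_pos h0]
  rw [twL, h1, twL, ← lam_add]
  have h2 : c' * ((1 - c) * Real.logb 2 ‖x‖) + c * Real.logb 2 ‖x‖ = 0 := by
    linear_combination (Real.logb 2 ‖x‖) * h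
  rw [h2, lam_zero]

private theorem twL_smooth_Lam (c : ℝ) {x : E4} (hx : x ≠ 0) : ContDiffAt ℝ ∞ (twL c) x := by
  have h1 : ContDiffAt ℝ ∞ (fun x : E4 => ‖x‖) x := contDiffAt_norm ℝ hx
  have h2 : ContDiffAt ℝ ∞ (fun x : E4 => c * Real.logb 2 ‖x‖) x := by
    have h3 : ContDiffAt ℝ ∞ (fun x : E4 => Real.log ‖x‖) x := h1.log (norm_ne_zero_iff.2 hx)
    exact contDiffAt_const.mul (h3.div_const _)
  exact ContDiffAt.comp x (g := fun p : ℝ × E4 => lam p.1 p.2)
    (f := fun x : E4 => (c * Real.logb 2 ‖x‖, x)) contDiff_lam.contDiffAt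
    (h2.prodMk contDiffAt_id)

private theorem twL_cont_Lam {c : ℝ} (hc : c < 1) : Continuous (twL c) := by
  rw [continuous_iff_continuousAt]
  intro x
  rcases eq_or_ne x 0 with rfl | hx
  · have h1 : ∀ x : E4, ‖twL c x‖ ≤ ‖x‖ ^ (1 - c) := by
      intro x
      rcases eq_or_ne x 0 with rfl | hx
      · rw [twL_zero_Lam, norm_zero]
        exact Real.rpow_nonneg le_rfl _
      · exact (norm_twL_Lam c hx).le
    have h2 : Tendsto (fun x : E4 => ‖x‖ ^ (1 - c)) (𝓝 0) (𝓝 0) := by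
      have h3 : ContinuousAt (fun x : E4 => ‖x‖ ^ (1 - c)) 0 :=
        continuous_norm.continuousAt.rpow_const (Or.inr (by linarith))
      have h4 := h3.tendsto
      rwa [norm_zero, Real.zero_rpow (by linarith)] at h4
    have h5 := squeeze_zero_norm h1 h2
    rw [ContinuousAt, twL_zero_Lam]
    exact h5
  · exact (twL_smooth_Lam c hx).continuousAt

/-- **straightening the screw motion**: `T x = lam ((1 - n) * log₂ ‖x‖) x`. One has
`‖T x‖ = ‖x‖ ^ n`, `T (lam s x) = lam (n * s) (T x)`; the inverse is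
`y ↦ lam (-(1 - n) / n * log₂ ‖y‖) y`, and both are smooth off the origin (`contDiff_lam`). -/
theorem tn_mk (n : ℕ) (hn : 0 < n) : ∃ T : E4 ≃ₜ E4, Sm T ∧ T * lamH (1 / n) = tau * T ∧
    ∀ t : ℝ, 0 < t → T (t • e0) = t ^ n • e0 := by
  have hn' : (0 : ℝ) < n := by exact_mod_cast hn
  obtain ⟨c, hc⟩ : ∃ c : ℝ, c = 1 - n := ⟨_, rfl⟩
  obtain ⟨c', hc'⟩ : ∃ c' : ℝ, c' = 1 - 1 / n := ⟨_, rfl⟩
  have e1 : c + c' * (1 - c) = 0 := by
    rw [hc, hc']
    field_simp
    ring
  have e2 : c' + c * (1 - c') = 0 := by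
    rw [hc, hc']
    field_simp
    ring
  have hc1 : c < 1 := by rw [hc]; linarith
  have hc1' : c' < 1 := by
    rw [hc']
    have : 0 < 1 / (n : ℝ) := by positivity
    linarith
  let T : E4 ≃ₜ E4 :=
    { toFun := twL c
      invFun := twL c'
      left_inv := twL_twL_Lam e1
      right_inv := twL_twL_Lam e2
      continuous_toFun := twL_cont_Lam hc1
      continuous_invFun := twL_cont_Lam hc1' }
  refine ⟨T, ⟨twL_zero_Lam c, fun x hx => ⟨twL_smooth_Lam c hx, ?_⟩⟩, ?_, ?_⟩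
  · -- the derivative is invertible
    have hd1 : HasFDerivAt (twL c) (fderiv ℝ (twL c) x) x :=
      ((twL_smooth_Lam c hx).differentiableAt (by simp)).hasFDerivAt
    have hd2 : HasFDerivAt (twL c') (fderiv ℝ (twL c') (twL c x)) (twL c x) :=
      ((twL_smooth_Lam c' (twL_ne_Lam c hx)).differentiableAt (by simp)).hasFDerivAt
    have hd3 := hd2.comp x hd1
    have hid : twL c' ∘ twL c = fun y => y := by
      funext y
      exact twL_twL_Lam e1 y
    rw [hid] at hd3
    have h4 := hd3.fderiv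
    have h5 : (1 : ℝ) = (fderiv ℝ (twL c') (twL c x)).det * (fderiv ℝ (twL c) x).det := by
      rw [← det_comp_clm, ← h4, fderiv_fun_id]
      simp [ContinuousLinearMap.det]
    exact right_ne_zero_of_mul_eq_one h5.symm
  · apply Homeomorph.ext
    intro x
    show twL c (lam (1 / n) x) = (2⁻¹ : ℝ) • twL c x
    rcases eq_or_ne x 0 with rfl | hx
    · have h0 : lam (1 / n) (0 : E4) = 0 := (lamL _).map_zero
      rw [h0, twL_zero_Lam, smul_zero]
    have h0 : 0 < ‖x‖ := norm_pos_iff.2 hx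
    have h1 : Real.logb 2 ‖lam (1 / n) x‖ = -(1 / n) + Real.logb 2 ‖x‖ := by
      rw [norm_lam, Real.logb_mul (Real.rpow_pos_of_pos (by norm_num) _).ne' h0.ne',
        Real.logb_rpow (by norm_num) (by norm_num)]
    rw [← lam_one, twL, h1, twL, ← lam_add, ← lam_add]
    congr 1
    rw [hc]
    field_simp
    ring
  · intro t ht
    show twL c (t • e0) = t ^ n • e0
    have h1 : ‖(t • e0 : E4)‖ = t := by
      rw [norm_smul, e0, EuclideanSpace.norm_single, norm_one, mul_one, Real.norm_eq_abs,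
        abs_of_pos ht]
    have h2 : (2 : ℝ) ^ (-(c * Real.logb 2 t)) = t ^ (-c) := by
      rw [show -(c * Real.logb 2 t) = Real.logb 2 t * (-c) by ring,
        Real.rpow_mul (by norm_num), Real.rpow_logb (by norm_num) (by norm_num) ht]
    rw [twL, h1, lam_smul_e0, h2]
    congr 1
    have h3 : t ^ (-c) * t = t ^ (-c + 1) := by rw [Real.rpow_add ht, Real.rpow_one]
    rw [h3, hc, show -(1 - (n : ℝ)) + 1 = (n : ℝ) by ring, Real.rpow_natCast]

end Pool.Agent.HopfFin
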