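import Pool.Agent.HopfFin.Desc
import Pool.Agent.HopfFin.ModelDir
import Pool.Agent.HopfRem.OrbSp
import Pool.Agent.HopfRem.Final

/-!
# Manifolds which are standard off one point

Plan of `off_of_offPoint`. As in `almost_of_offPoint` (`Final.lean`; `exists_S1S3`, `almost_off`,
`almost_pos` of `HopfRem/Final.lean`) there are `p'` and `G' : Homeo4` with `Orbit M p' G'`; so `M` is
the orbit space of the restriction `g'` of `G'.old` (see the lemmas of `HopfRem/Class4.lean` and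
`HopfCov/Bridge2.lean` which translate `Orbit` into `OrbitMap`, `Extends`, `Trap`; `Contr` by
`Contr_of_orbit` or the corresponding lemma there). `cjV_of_diffeo` for the identity of `M` gives
`CjV G G'`; `CjV.off` with `n = 1` and `Off G'` (`⟨G', trap, Cj.refl _⟩`) gives `Off G`.

Plan of `offPoint_of_sing`. As in `space_good` (`Space.lean`): `restr_gen Φ`, `modelDir`,
`descend_gen` (`HopfRem/OrbSp.lean`) give a homeomorphism `F : M ≃ₜ Circle × S3` with
`F (p x) = q₀ (k x)` which is a local diffeomorphism at `p x` if `Φ` is `LD s` near `x` for some `s`.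
Take `x₀ = p b`: if `p x ≠ p b` then `x` is not in the orbit of `b` (`hp.fib`), and `Reg Φ x` gives
`LD s Φ y` for all `y` near `x` (see `LD_of_Reg_Space` in `Space.lean`).
-/

set_option autoImplicit false

open scoped ContDiff Topology Manifold
open Set Filter Metric

namespace Pool.Agent.HopfFin

open Pool.Agent.HopfCov Pool.Agent.HopfCov.Smooth

private theorem LD_of_Reg_OffIff {T : E4 ≃ₜ E4} {x : E4} (h : Reg T x) :
    ∃ s : ℝ, ∀ᶠ y in 𝓝 x, LD s T y := by
  have hx := h.self_of_nhds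
  have hc : ContinuousAt (fderiv ℝ T) x := hx.1.continuousAt_fderiv (by simp)
  have hd : ContinuousAt (fun y => (fderiv ℝ T y).det) x :=
    ContinuousLinearMap.continuous_det.continuousAt.comp hc
  refine ⟨(fderiv ℝ T x).det, ?_⟩
  have h0 : 0 < (fderiv ℝ T x).det * (fderiv ℝ T x).det := mul_self_pos.2 hx.2
  have h1 : ∀ᶠ y in 𝓝 x, 0 < (fderiv ℝ T x).det * (fderiv ℝ T y).det :=
    (continuousAt_const.mul hd).eventually (isOpen_Ioi.mem_nhds h0)
  filter_upwards [h, h1] with y hy hy1 using ⟨hy.1, hy1⟩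

/-- the generator of a manifold which is standard off one point is `Off` -/
theorem off_of_offPoint {M : Mfd4} (hM : T2Space M ∧ CompactSpace M) {p : V4 → M.carrier}
    {g : V4 ≃ₜ V4} {G : E4 ≃ₜ E4} (hp : OrbitMap g p) (hG : Extends G g) (hc : Contr G)
    (h : OffPoint M) : Off G := by
  obtain ⟨F, x₀, hF⟩ := h
  obtain ⟨X, hX⟩ := exists_S1S3
  have hMX : AlmostDiffeo M X := by
    refine (almost_off (Or.inl hX)).2 ?_
    obtain ⟨Ψ⟩ := hX
    refine ⟨F.trans Ψ.symm.toHomeomorph, x₀, fun x hx => ?_⟩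
    have h1 : IsLocalDiffeomorphAt model13 (𝓡 4) ∞ Ψ.symm (F x) :=
      Ψ.symm.isLocalDiffeomorph (F x)
    exact (hF x hx).comp (K := 𝓡 4) (hg := h1)
  obtain ⟨p', G', h1, -⟩ := (almost_pos hX).1 hMX
  obtain ⟨b1, b2, b3, b4, b5, g', b6, b7⟩ := (orbit_eq.1 h1).data
  have hd : Diffeomorphic M M :=
    ⟨id, Function.bijective_id, (Diffeomorph.refl (𝓡 4) M.carrier ∞).isLocalDiffeomorph⟩
  have h2 : CjV G (show E4 ≃ₜ E4 from G') :=
    cjV_of_diffeo hM ⟨b1, b2⟩ hp b7 hG b6 hc b5 hd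
  have h3 := h2.off hc b5 (n := 1) one_pos (by rw [pow_one]; exact ⟨_, b4, Cj.refl _⟩)
  rwa [pow_one] at h3

/-- a homeomorphism with one singular orbit which conjugates the generator to `x ↦ x / 2` -/
theorem offPoint_of_sing {M : Mfd4} (hM : T2Space M ∧ CompactSpace M) {p : V4 → M.carrier}
    {g : V4 ≃ₜ V4} {G Φ : E4 ≃ₜ E4} (hp : OrbitMap g p) (hG : Extends G g) (h0 : Φ 0 = 0)
    (hΦ : Φ * G = tau * Φ) {b : E4} (hb : b ≠ 0)
    (hr : ∀ x, x ≠ 0 → (∀ k : ℤ, x ≠ (G ^ k : E4 ≃ₜ E4) b) → Reg Φ x) : OffPoint M := by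
  obtain ⟨a1, a2⟩ := hM
  have a1' : T2Space M.carrier := a1
  have a2' : CompactSpace M.carrier := a2
  obtain ⟨τ, h5, h6⟩ := exists_tau
  obtain ⟨q₀, c1, c2, c3, -⟩ := modelDir τ h6
  obtain ⟨k, k1, -, k3⟩ := restr_gen Φ h0
  have k1' : Extends Φ k := fun x => (k1 x).symm
  have hconj : k * g = τ * k := by
    have d1 : Extends (Φ * G) (k * g) := k1'.mul hG
    have d2 : Extends (tau * Φ) (τ * k) := h5.mul k1'
    rw [hΦ] at d1
    exact d1.eq_of d2
  obtain ⟨F, F1, F2⟩ := descend_gen hp c1 c2 c3 k hconj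
  refine ⟨F, p ⟨b, hb⟩, fun x hx => ?_⟩
  obtain ⟨y, rfl⟩ := hp.surj x
  refine F2 y ?_
  have hy0 : (y : E4) ≠ 0 := y.2
  have hreg : Reg Φ (y : E4) := by
    refine hr _ hy0 fun n hn => hx ?_
    exact ((hp.fib ⟨b, hb⟩ y).2 ((orbit_iff hG ⟨b, hb⟩ y).1 ⟨n, hn⟩)).symm
  obtain ⟨s, hs⟩ := LD_of_Reg_OffIff hreg
  exact k3 s y hs

end Pool.Agent.HopfFin
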