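import Pool.Agent.HopfFin.Statement

/-!
# Virtually standard manifolds
-/

set_option autoImplicit false

open scoped ContDiff Topology Manifold
open Set Filter Metric

namespace Pool.Agent.HopfCov.Smooth

/-- all closed connected coverings of `M` with many sheets are diffeomorphic to `S¹ × S³` -/
def VirtuallyStandard (M : Mfd4) : Prop :=
  ∃ m₀ : ℕ, ∀ (m : ℕ) (N : Mfd4) (q : N → M), m₀ ≤ m → Closed N → Cover m q → DiffeoS1S3 N

end Pool.Agent.HopfCov.Smooth
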