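import Pool.Agent.HopfRem.Statement4

/-!
# The smooth Schoenflies problem in dimension four
-/

set_option autoImplicit false

open scoped ContDiff Topology Manifold
open Set Filter Metric

namespace Pool.Agent.HopfCov.Smooth

/-- The smooth Schoenflies problem: a homeomorphism of `ℝ⁴` which is a local diffeomorphism near the
unit sphere agrees near the unit sphere with a diffeomorphism of `ℝ⁴`. -/
def Schoenflies : Prop :=
  ∀ (h : Homeo4) (ε : ℝ), 0 < ε → (∀ x, |nrm x - 1| < ε → InvertibleAt h.fn x) →
    ∃ (H : Homeo4) (δ : ℝ), 0 < δ ∧ (∀ x, InvertibleAt H.fn x) ∧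
      ∀ x, |nrm x - 1| < δ → H.fn x = h.fn x

end Pool.Agent.HopfCov.Smooth
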