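import Pool.Agent.HopfFin.Basic

/-!
# Cones around the ray
-/

set_option autoImplicit false

open scoped ContDiff Topology
open Set Filter Metric

namespace Pool.Agent.HopfFin

open Pool.Agent.HopfCov

/-! ### cones -/

theorem pr_add (x y : E4) : pr (x + y) = pr x + pr y := by
  simp only [pr, PiLp.add_apply, add_smul]
  abel

theorem pr_smul (c : ℝ) (x : E4) : pr (c • x) = c • pr x := by
  simp only [pr, PiLp.smul_apply, smul_eq_mul, mul_smul, smul_sub]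

theorem pr_e0 : pr e0 = 0 := by simp [pr, e0]

theorem pr_zero : pr 0 = 0 := by simp [pr]

theorem e0_apply_zero : e0 0 = 1 := by simp [e0]

theorem norm_e0 : ‖e0‖ = 1 := by simp [e0]

theorem eq_add_pr (x : E4) : x = x 0 • e0 + pr x := by simp [pr]

theorem pr_apply_zero (x : E4) : pr x 0 = 0 := by simp [pr, e0]

theorem norm_sq_eq (x : E4) : ‖x‖ ^ 2 = x 0 ^ 2 + ‖pr x‖ ^ 2 := by
  rw [EuclideanSpace.norm_sq_eq, EuclideanSpace.norm_sq_eq, Fin.sum_univ_four, Fin.sum_univ_four]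
  simp only [pr, e0, PiLp.sub_apply, PiLp.smul_apply, PiLp.single_apply, smul_eq_mul,
    Real.norm_eq_abs, sq_abs]
  simp
  ring

private theorem continuous_apply_zero_Cones : Continuous fun x : E4 => x 0 :=
  (EuclideanSpace.proj (𝕜 := ℝ) (0 : Fin 4)).continuous

private theorem continuous_pr_Cones : Continuous pr :=
  continuous_id.sub (continuous_apply_zero_Cones.smul continuous_const)

theorem Cone_apply_nonneg {δ : ℝ} (hδ : 0 < δ) {x : E4} (hx : x ∈ Cone δ) : 0 ≤ x 0 := by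
  have h1 : ‖pr x‖ ≤ δ * x 0 := hx
  by_contra hcon
  push Not at hcon
  have h2 := mul_neg_of_pos_of_neg hδ hcon
  linarith [norm_nonneg (pr x)]

theorem Cone_mono {δ ε : ℝ} (hδ : 0 < δ) (h : δ ≤ ε) : Cone δ ⊆ Cone ε := by
  intro x hx
  have h1 : ‖pr x‖ ≤ δ * x 0 := hx
  exact h1.trans (mul_le_mul_of_nonneg_right h (Cone_apply_nonneg hδ hx))

theorem Cone_smul {δ c : ℝ} (hc : 0 ≤ c) {x : E4} (hx : x ∈ Cone δ) : c • x ∈ Cone δ := by
  have h1 : ‖pr x‖ ≤ δ * x 0 := hx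
  show ‖pr (c • x)‖ ≤ δ * (c • x) 0
  rw [pr_smul, norm_smul, Real.norm_of_nonneg hc, PiLp.smul_apply, smul_eq_mul]
  calc c * ‖pr x‖ ≤ c * (δ * x 0) := mul_le_mul_of_nonneg_left h1 hc
    _ = δ * (c * x 0) := by ring

theorem isClosed_Cone (δ : ℝ) : IsClosed (Cone δ) :=
  isClosed_le continuous_pr_Cones.norm (continuous_const.mul continuous_apply_zero_Cones)

theorem zero_mem_Cone (δ : ℝ) : (0 : E4) ∈ Cone δ := by simp [Cone, pr]

theorem smul_e0_mem_Cone {δ t : ℝ} (hδ : 0 ≤ δ) (ht : 0 ≤ t) : t • e0 ∈ Cone δ := by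
  show ‖pr (t • e0)‖ ≤ δ * (t • e0) 0
  rw [pr_smul, pr_e0, smul_zero, norm_zero, PiLp.smul_apply, e0_apply_zero, smul_eq_mul, mul_one]
  exact mul_nonneg hδ ht

/-- a point of a cone with vanishing first coordinate is the origin -/
theorem Cone_eq_zero {δ : ℝ} {x : E4} (hx : x ∈ Cone δ) (h0 : x 0 = 0) : x = 0 := by
  have h1 : ‖pr x‖ ≤ δ * x 0 := hx
  rw [h0, mul_zero] at h1
  have h2 : pr x = 0 := norm_le_zero_iff.mp h1
  rw [eq_add_pr x, h2, h0, zero_smul, add_zero]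

/-- a thin cone is a neighbourhood of the points of the ray -/
theorem Cone_mem_nhds {δ t : ℝ} (hδ : 0 < δ) (ht : 0 < t) : Cone δ ∈ 𝓝 (t • e0) := by
  have h1 : IsOpen {x : E4 | ‖pr x‖ < δ * x 0} :=
    isOpen_lt continuous_pr_Cones.norm (continuous_const.mul continuous_apply_zero_Cones)
  refine Filter.mem_of_superset (h1.mem_nhds ?_) fun x (hx : ‖pr x‖ < δ * x 0) => ?_
  swap
  · exact (le_of_lt hx : ‖pr x‖ ≤ δ * x 0)
  show ‖pr (t • e0)‖ < δ * (t • e0) 0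
  rw [pr_smul, pr_e0, smul_zero, norm_zero, PiLp.smul_apply, e0_apply_zero, smul_eq_mul, mul_one]
  exact mul_pos hδ ht

/-- a neighbourhood of a compact part of the ray contains the corresponding part of a thin cone,
uniformly: if `U` is open, contains `t • e0` for `1/2 ≤ t ≤ 2`, then it contains all `x` in some
`Cone δ` with `1/2 ≤ x 0 ≤ 2` -/
theorem exists_Cone_subset {U : Set E4} (hU : IsOpen U)
    (h : ∀ t : ℝ, 1 / 2 ≤ t → t ≤ 2 → t • e0 ∈ U) :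
    ∃ δ : ℝ, 0 < δ ∧ ∀ x ∈ Cone δ, 1 / 2 ≤ x 0 → x 0 ≤ 2 → x ∈ U := by
  have hK : IsCompact ((fun t : ℝ => t • e0) '' Icc (1 / 2) 2) :=
    isCompact_Icc.image (continuous_id.smul continuous_const)
  have hKU : (fun t : ℝ => t • e0) '' Icc (1 / 2) 2 ⊆ U := by
    rintro _ ⟨t, ht, rfl⟩
    exact h t ht.1 ht.2
  obtain ⟨ε, hε, hεU⟩ := hK.exists_thickening_subset_open hU hKU
  refine ⟨ε / 4, by positivity, fun x hx h1 h2 => hεU ?_⟩
  rw [Metric.mem_thickening_iff]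
  refine ⟨x 0 • e0, ⟨x 0, ⟨h1, h2⟩, rfl⟩, ?_⟩
  have h3 : ‖pr x‖ ≤ ε / 4 * x 0 := hx
  rw [dist_eq_norm]
  show ‖pr x‖ < ε
  nlinarith

/-- every `x` with `0 < x 0` is `2^(-k) • y` with `1 ≤ y 0 ≤ 2` -/
theorem exists_pow_smul {x : E4} (hx : 0 < x 0) :
    ∃ (k : ℤ) (y : E4), x = (2 : ℝ) ^ (-k) • y ∧ 1 ≤ y 0 ∧ y 0 ≤ 2 := by
  obtain ⟨n, hn1, hn2⟩ := exists_mem_Ico_zpow hx (one_lt_two : (1 : ℝ) < 2)
  have hp : (0 : ℝ) < 2 ^ n := zpow_pos two_pos n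
  refine ⟨-n, (2 : ℝ) ^ (-n) • x, ?_, ?_, ?_⟩
  · rw [smul_smul, ← zpow_add₀ (two_ne_zero : (2 : ℝ) ≠ 0)]
    simp
  · rw [PiLp.smul_apply, smul_eq_mul, zpow_neg, inv_mul_eq_div, le_div_iff₀ hp, one_mul]
    exact hn1
  · rw [PiLp.smul_apply, smul_eq_mul, zpow_neg, inv_mul_eq_div, div_le_iff₀ hp]
    rw [zpow_add₀ (two_ne_zero : (2 : ℝ) ≠ 0), zpow_one] at hn2
    linarith

theorem AgreeNear.symm {f g : E4 → E4} (h : AgreeNear f g) : AgreeNear g f := by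
  obtain ⟨δ, h1, h2⟩ := h
  exact ⟨δ, h1, fun x hx => (h2 x hx).symm⟩

theorem AgreeNear.trans {f g h : E4 → E4} (h1 : AgreeNear f g) (h2 : AgreeNear g h) :
    AgreeNear f h := by
  obtain ⟨δ, h3, h4⟩ := h1
  obtain ⟨ε, h5, h6⟩ := h2
  have h7 : 0 < min δ ε := lt_min h3 h5
  exact ⟨min δ ε, h7, fun x hx => (h4 x (Cone_mono h7 (min_le_left _ _) hx)).trans
    (h6 x (Cone_mono h7 (min_le_right _ _) hx))⟩

/-- if `g` is the identity on a thin cone then so is its inverse -/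
theorem AgreeNear.inv {g : E4 ≃ₜ E4} (h : AgreeNear g id) :
    AgreeNear (g⁻¹ : E4 ≃ₜ E4) id := by
  obtain ⟨δ, h1, h2⟩ := h
  exact ⟨δ, h1, fun x hx => g.injective (by rw [apply_inv_self']; exact (h2 x hx).symm)⟩

/-- if `ψ` in `Pz` agrees with `φ` on a thin cone then `ψ⁻¹ ∘ φ` is the identity on a thin cone -/
theorem agree_inv_comp {ψ : E4 ≃ₜ E4} {φ : E4 → E4} (h : AgreeNear ψ φ) :
    AgreeNear (fun x => (ψ⁻¹ : E4 ≃ₜ E4) (φ x)) id := by
  obtain ⟨δ, h1, h2⟩ := h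
  refine ⟨δ, h1, fun x hx => ?_⟩
  show (ψ⁻¹ : E4 ≃ₜ E4) (φ x) = x
  rw [← h2 x hx]
  exact inv_apply_self' _ _

end Pool.Agent.HopfFin
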