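import Pool.Agent.HopfFin.StatementSch
import Pool.Agent.HopfRem.Final
import Pool.Agent.HopfRem.Inner
import Pool.Agent.HopfRem.OuterBall
import Pool.Agent.HopfRem.PushE
import Pool.Agent.HopfCov.Crit
import Pool.Agent.HopfFin.Cones

/-!
# `D` is perfect if and only if the smooth Schoenflies problem has a positive answer
-/

set_option autoImplicit false

open scoped ContDiff Topology
open Set Filter Metric

namespace Pool.Agent.HopfFin

open Pool.Agent.HopfCov Pool.Agent.HopfCov.Smooth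

/-- an element of `D` which extends near infinity agrees off every ball around the origin with
a diffeomorphism -/
theorem ext_outside {g : E4 ≃ₜ E4} (hg : PD 1 g) (hE : Ext g) {r : ℝ} (hr : 0 < r) :
    ∃ H : E4 ≃ₜ E4, (∀ x, LD 1 H x) ∧ ∀ x, r ≤ ‖x‖ → H x = g x := by
  obtain ⟨Θ, hΘ, hinf⟩ := hE
  obtain ⟨S, hS, hS0, C, hC, -, hCS⟩ := push_open (E := E4) isOpen_univ isPreconnected_univ
    (mem_univ ((Θ⁻¹ * g : E4 ≃ₜ E4) 0)) (mem_univ (0 : E4))
  obtain ⟨k, hk⟩ : ∃ k : E4 ≃ₜ E4, k = S * (Θ⁻¹ * g) := ⟨_, rfl⟩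
  have hk0 : k 0 = 0 := by rw [hk, mul_apply', hS0]
  have hkP : PD 1 k := ⟨hk0, fun x hx => by
    rw [hk]
    exact LD.mul_one' (hS _) (LD.mul_one' (LD_all_inv hΘ _) (hg.2 x hx))⟩
  have hSi : CS S := by
    filter_upwards [hC.compl_mem_cocompact] with x hx
    exact hCS x hx
  have hkC : EqInf k 1 := by
    rw [hk]
    have h1 : EqInf (Θ⁻¹ * g) (Θ⁻¹ * Θ) := (EqInf.refl _).mul hinf.symm
    rw [inv_mul_cancel] at h1
    have h2 := hSi.eqInf.mul h1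
    rwa [one_mul] at h2
  have hkC' : CS (k⁻¹ : E4 ≃ₜ E4) := (CS.of_eqInf hkC).inv
  obtain ⟨R₀, -, hR₀⟩ := exists_radius hkC'
  obtain ⟨R, hR, hR1⟩ : ∃ R : ℝ, 0 < R ∧ ∀ x : E4, R ≤ ‖x‖ → (k⁻¹ : E4 ≃ₜ E4) x = x :=
    ⟨max R₀ 1, lt_max_of_lt_right one_pos, fun x hx => hR₀ x ((le_max_left _ _).trans hx)⟩
  obtain ⟨ε, hε, hε1, hεR⟩ : ∃ ε : ℝ, 0 < ε ∧ ε ≤ 1 ∧ ε * R ≤ r := by
    refine ⟨min 1 (r / R), lt_min one_pos (by positivity), min_le_left _ _, ?_⟩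
    calc min 1 (r / R) * R ≤ r / R * R := mul_le_mul_of_nonneg_right (min_le_right _ _) hR.le
      _ = r := div_mul_cancel₀ r hR.ne'
  obtain ⟨s, hs, hs1, hs2⟩ := hRad E4 ε (r / 2) r hε hε1 (by positivity) (by linarith)
  obtain ⟨σ, hσ⟩ : ∃ σ : E4 ≃ₜ E4, σ = Homeomorph.smulOfNeZero ε⁻¹ (inv_ne_zero hε.ne') * s :=
    ⟨_, rfl⟩
  have hσx : ∀ x, σ x = ε⁻¹ • s x := fun x => by rw [hσ]; rfl
  have hσ1 : ∀ x, ‖x‖ ≤ r / 2 → σ x = x := fun x hx => by
    rw [hσx, hs1 x hx, smul_smul, inv_mul_cancel₀ hε.ne', one_smul]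
  have hσ2 : ∀ x, r ≤ ‖x‖ → R ≤ ‖σ x‖ := fun x hx => by
    rw [hσx, hs2 x hx, norm_smul, norm_inv, Real.norm_of_nonneg hε.le, inv_mul_eq_div,
      le_div_iff₀ hε]
    linarith
  have hσ0 : σ 0 = 0 := hσ1 0 (by rw [norm_zero]; positivity)
  have hσL : ∀ x, LD 1 σ x := fun x => by
    have h1 : LD 1 (fun y : E4 => ε⁻¹ • y) (s x) := by
      have h2 := LD_clm (s := 1) ((ε⁻¹ : ℝ) • ContinuousLinearMap.id ℝ E4) (by
        have h3 : ((ε⁻¹ : ℝ) • ContinuousLinearMap.id ℝ E4).det = (ε⁻¹) ^ 4 := by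
          have h4 : ((ε⁻¹ : ℝ) • ContinuousLinearMap.id ℝ E4).det =
              LinearMap.det ((ε⁻¹ : ℝ) • (LinearMap.id : E4 →ₗ[ℝ] E4)) := rfl
          rw [h4, LinearMap.det_smul, LinearMap.det_id, mul_one, finrank_euclideanSpace_fin]
        rw [h3]
        positivity) (s x)
      exact h2
    have h2 := h1.comp (hs x)
    rw [one_mul] at h2
    have h3 : (σ : E4 → E4) = (fun y : E4 => ε⁻¹ • y) ∘ s := funext hσx
    rw [h3]
    exact h2
  have hσi0 : (σ⁻¹ : E4 ≃ₜ E4) 0 = 0 := σ.injective (by rw [apply_inv_self', hσ0])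
  obtain ⟨H, hH⟩ : ∃ H : E4 ≃ₜ E4, H = k * (σ⁻¹ * (k⁻¹ * σ)) := ⟨_, rfl⟩
  have hHr : ∀ x, r ≤ ‖x‖ → H x = k x := fun x hx => by
    rw [hH, mul_apply', mul_apply', mul_apply', hR1 _ (hσ2 x hx), inv_apply_self']
  have hHL : ∀ x, LD 1 H x := by
    intro x
    by_cases hx : x = 0
    · have h1 : ∀ᶠ y in 𝓝 (0 : E4), ‖y‖ < r / 2 := by
        filter_upwards [ball_mem_nhds (0 : E4) (show 0 < r / 2 by positivity)] with y hy
        rwa [mem_ball_zero_iff] at hy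
      have hki0 : (k⁻¹ : E4 ≃ₜ E4) 0 = 0 := hkP.inv_zero
      have h2 : ∀ᶠ y in 𝓝 (0 : E4), ‖(k⁻¹ : E4 ≃ₜ E4) y‖ < r / 2 := by
        have h3 := (k⁻¹ : E4 ≃ₜ E4).continuous.tendsto 0
        rw [hki0] at h3
        exact h3.eventually h1
      rw [hx]
      refine (LD_id (0 : E4)).congr ?_
      filter_upwards [h1, h2] with y hy1 hy2
      show y = H y
      have h4 : (σ⁻¹ : E4 ≃ₜ E4) ((k⁻¹ : E4 ≃ₜ E4) y) = (k⁻¹ : E4 ≃ₜ E4) y := by
        apply σ.injective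
        rw [apply_inv_self', hσ1 _ hy2.le]
      rw [hH, mul_apply', mul_apply', mul_apply', hσ1 y hy1.le, h4, apply_inv_self']
    · rw [hH]
      have h1 : σ x ≠ 0 := fun h => hx (σ.injective (by rw [h, hσ0]))
      have h2 : (k⁻¹ : E4 ≃ₜ E4) (σ x) ≠ 0 := hkP.inv.ne h1
      have h3 : (σ⁻¹ : E4 ≃ₜ E4) ((k⁻¹ : E4 ≃ₜ E4) (σ x)) ≠ 0 := fun h =>
        h2 ((σ⁻¹ : E4 ≃ₜ E4).injective (by rw [h, hσi0]))
      exact LD.mul_one' (hkP.2 _ h3) (LD.mul_one' (LD_all_inv hσL _)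
        (LD.mul_one' (hkP.inv.2 _ h1) (hσL x)))
  refine ⟨Θ * (S⁻¹ * H), fun x => LD.mul_one' (hΘ _) (LD.mul_one' (LD_all_inv hS _) (hHL x)),
    fun x hx => ?_⟩
  rw [mul_apply', mul_apply', hHr x hx, hk, mul_apply', inv_apply_self', mul_apply',
    apply_inv_self']

/-- if all elements of `D` extend then homeomorphisms which are smooth near the unit sphere agree
near the unit sphere with diffeomorphisms -/
theorem sch_of_ext (hall : ∀ g : E4 ≃ₜ E4, PD 1 g → Ext g) (h : E4 ≃ₜ E4) {ε : ℝ} (hε : 0 < ε)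
    (hr : ∀ x, |‖x‖ - 1| < ε → RG h x) :
    ∃ (H : E4 ≃ₜ E4) (δ : ℝ), 0 < δ ∧ (∀ x, RG H x) ∧ ∀ x, |‖x‖ - 1| < δ → H x = h x := by
  obtain ⟨e, he, heε, he2⟩ : ∃ e : ℝ, 0 < e ∧ e ≤ ε ∧ e ≤ 1 / 2 :=
    ⟨min ε (1 / 2), lt_min hε (by norm_num), min_le_left _ _, min_le_right _ _⟩
  obtain ⟨F, hF⟩ : ∃ F : E4 ≃ₜ E4, F = tr (-(h 0)) * h := ⟨_, rfl⟩
  have hFx : ∀ x, F x = h x - h 0 := fun x => by rw [hF, mul_apply', tr_apply, sub_eq_add_neg]
  have hF0 : F 0 = 0 := by rw [hFx, sub_self]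
  have hFr : ∀ x, |‖x‖ - 1| < ε → RG F x := fun x hx => by
    rw [hF]
    exact RG.mul (LD_tr _ _).rg (hr x hx)
  obtain ⟨G₁, g1, g2⟩ := outer_ball (E := E4) hdim4 (F := F) (K := closedBall 0 (1 - e / 2))
    (isCompact_closedBall 0 _) (c := 1 + e / 2) (b := 1 + e) (by linarith) (by linarith)
    (closedBall_subset_closedBall (by linarith)) (by
      intro x hx hxK
      rw [mem_ball_zero_iff] at hx
      rw [mem_closedBall_zero_iff, not_le] at hxK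
      exact hFr x (by rw [abs_lt]; constructor <;> linarith))
  have hG10 : G₁ 0 = 0 := by rw [g1 0 (mem_closedBall_self (by linarith)), hF0]
  obtain ⟨G₂, k0, k1, k2⟩ := inner_fix (E := E4) hdim4 hG10 (a := 1 - e / 4) (b := 1 - e / 8)
    (by linarith) (by linarith) (by
      intro x hx
      exact g2 x (by rw [mem_closedBall_zero_iff, not_le]; linarith))
  have hG2 : ∀ x, |‖x‖ - 1| < e / 8 → G₂ x = h x - h 0 := by
    intro x hx
    rw [abs_lt] at hx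
    rw [k2 x (by linarith), g1 x (by rw [mem_closedBall_zero_iff]; linarith), hFx]
  obtain ⟨s, hs, hs'⟩ := sign_const (f := G₂) (isOpen_compl_singleton (x := (0 : E4)))
    (preconnected_compl_singleton hdim4 (0 : E4)) k1
  have hfin : ∃ H : E4 ≃ₜ E4, (∀ x, RG H x) ∧ ∀ x, 1 - e / 8 ≤ ‖x‖ → H x = G₂ x := by
    rcases hs with rfl | rfl
    · have hP : PD 1 G₂ := ⟨k0, hs'⟩
      obtain ⟨H, h1, h2⟩ := ext_outside hP (hall _ hP) (r := 1 - e / 8) (by linarith)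
      exact ⟨H, fun x => (h1 x).rg, h2⟩
    · have hP : PD (-1) G₂ := ⟨k0, hs'⟩
      have hP' : PD 1 (G₂ * linH refl0) := hP.mul_neg PD_refl
      obtain ⟨H, h1, h2⟩ := ext_outside hP' (hall _ hP') (r := 1 - e / 8) (by linarith)
      have hL : ∀ x, RG (linH refl0 : E4 ≃ₜ E4) x := fun x => by
        have h3 : (linH refl0 : E4 → E4) = (refl0.toContinuousLinearEquiv : E4 →L[ℝ] E4) := rfl
        rw [h3]
        exact (LD_clm (s := -1) _ det_refl0_pos x).rg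
      have hLi : ∀ x, RG ((linH refl0)⁻¹ : E4 ≃ₜ E4) x := fun x => RG.inv' (hL _)
      have hn : ∀ x, ‖((linH refl0)⁻¹ : E4 ≃ₜ E4) x‖ = ‖x‖ := fun x => by
        have h3 : ‖(linH refl0 : E4 ≃ₜ E4) (((linH refl0)⁻¹ : E4 ≃ₜ E4) x)‖ =
            ‖((linH refl0)⁻¹ : E4 ≃ₜ E4) x‖ := refl0.norm_map _
        rw [← h3, apply_inv_self']
      refine ⟨H * (linH refl0)⁻¹, fun x => RG.mul (h1 _).rg (hLi x), fun x hx => ?_⟩
      rw [mul_apply', h2 _ (by rw [hn]; exact hx), mul_apply', apply_inv_self']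
  obtain ⟨H, h1, h2⟩ := hfin
  refine ⟨tr (h 0) * H, e / 8, by linarith, fun x => RG.mul (LD_tr _ _).rg (h1 x), fun x hx => ?_⟩
  rw [mul_apply', tr_apply, h2 x (by rw [abs_lt] at hx; linarith), hG2 x hx, sub_add_cancel]

/-- a homeomorphism which is the identity near the unit sphere preserves its exterior -/
private theorem sch_ext {u : E4 ≃ₜ E4} {δ : ℝ} (hδ : 0 < δ) (hu : ∀ x, |‖x‖ - 1| < δ → u x = x)
    {x : E4} (hx : 1 ≤ ‖x‖) : 1 ≤ ‖u x‖ := by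
  have h1 : 1 < Module.rank ℝ E4 := by
    rw [← Module.finrank_eq_rank]
    exact_mod_cast hdim4
  have hpre := (preconnected_outside1 (E := E4) h1).image u u.continuous.continuousOn
  by_contra hcon
  rw [not_le] at hcon
  have hne : ∀ y : E4, 1 ≤ ‖y‖ → ‖u y‖ = 1 → ‖y‖ = 1 := by
    intro y _ hy
    have h2 : u (u y) = u y := hu _ (by rw [hy, sub_self, abs_zero]; exact hδ)
    have h3 := u.injective h2
    rw [h3] at hy
    exact hy
  have hx1 : ‖x‖ ≠ 1 := by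
    intro h
    rw [hu x (by rw [h, sub_self, abs_zero]; exact hδ), h] at hcon
    exact lt_irrefl _ hcon
  have hx2 : 1 < ‖x‖ := lt_of_le_of_ne hx (Ne.symm hx1)
  -- the scaled exterior
  obtain ⟨v, hv⟩ : ∃ v : E4, ‖v‖ = 1 := ⟨e0, norm_e0⟩
  obtain ⟨c, hc1, hc2, hc3⟩ : ∃ c : ℝ, 1 < c ∧ c ≤ ‖x‖ ∧ c < 1 + δ := by
    refine ⟨min ‖x‖ (1 + δ / 2), lt_min hx2 (by linarith), min_le_left _ _, ?_⟩
    exact (min_le_right _ _).trans_lt (by linarith)
  have hpre2 : IsPreconnected ((fun y : E4 => c • y) '' {y : E4 | 1 ≤ ‖y‖}) :=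
    (preconnected_outside1 (E := E4) h1).image _ (by fun_prop)
  have hpre3 := hpre2.image (fun y => ‖u y‖) u.continuous.norm.continuousOn
  have hm1 : ‖u x‖ ∈ (fun y => ‖u y‖) '' ((fun y : E4 => c • y) '' {y : E4 | 1 ≤ ‖y‖}) := by
    refine ⟨x, ⟨c⁻¹ • x, ?_, ?_⟩, rfl⟩
    · show 1 ≤ ‖c⁻¹ • x‖
      rw [norm_smul, norm_inv, Real.norm_of_nonneg (by linarith), inv_mul_eq_div,
        le_div_iff₀ (by linarith), one_mul]
      exact hc2
    · show c • c⁻¹ • x = x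
      rw [smul_smul, mul_inv_cancel₀ (by linarith), one_smul]
  have hm2 : c ∈ (fun y => ‖u y‖) '' ((fun y : E4 => c • y) '' {y : E4 | 1 ≤ ‖y‖}) := by
    refine ⟨c • v, ⟨v, hv.ge, rfl⟩, ?_⟩
    have h2 : ‖c • v‖ = c := by rw [norm_smul, hv, mul_one, Real.norm_of_nonneg (by linarith)]
    show ‖u (c • v)‖ = c
    rw [hu (c • v) (by rw [h2, abs_lt]; constructor <;> linarith), h2]
  have hm3 := hpre3.Icc_subset hm1 hm2 ⟨hcon.le, hc1.le⟩
  obtain ⟨y, ⟨z, hz, rfl⟩, hy⟩ := hm3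
  have hz1 : c ≤ ‖c • z‖ := by
    rw [norm_smul, Real.norm_of_nonneg (by linarith)]
    have hz' : 1 ≤ ‖z‖ := hz
    nlinarith
  have h2 := hne (c • z) (by linarith) hy
  linarith

/-- if the Schoenflies problem has a positive answer then all elements of `D` extend -/
theorem ext_of_sch (hs : ∀ (h : E4 ≃ₜ E4) (ε : ℝ), 0 < ε → (∀ x, |‖x‖ - 1| < ε → RG h x) →
    ∃ (H : E4 ≃ₜ E4) (δ : ℝ), 0 < δ ∧ (∀ x, RG H x) ∧ ∀ x, |‖x‖ - 1| < δ → H x = h x)
    {g : E4 ≃ₜ E4} (hg : PD 1 g) : Ext g := by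
  obtain ⟨H, δ, hδ, h1, h2⟩ := hs g (1 / 2) (by norm_num) fun x hx => (hg.2 x (by
    rintro rfl
    rw [norm_zero] at hx
    norm_num at hx)).rg
  obtain ⟨u, hu⟩ : ∃ u : E4 ≃ₜ E4, u = H⁻¹ * g := ⟨_, rfl⟩
  have hux : ∀ x, |‖x‖ - 1| < δ → u x = x := fun x hx => by
    rw [hu, mul_apply', ← h2 x hx, inv_apply_self']
  have hux' : ∀ x, |‖x‖ - 1| < δ → (u⁻¹ : E4 ≃ₜ E4) x = x := fun x hx => by
    apply u.injective
    rw [apply_inv_self', hux x hx]
  have hcont : ∀ w : E4 ≃ₜ E4, (∀ x, |‖x‖ - 1| < δ → w x = x) →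
      Continuous fun x => if 1 ≤ ‖x‖ then w x else x := by
    intro w hw
    refine Continuous.if_le w.continuous continuous_id continuous_const continuous_norm ?_
    intro x hx
    rw [hw x (by rw [← hx, sub_self, abs_zero]; exact hδ)]
  have hinv : ∀ w w' : E4 ≃ₜ E4, (∀ x, |‖x‖ - 1| < δ → w x = x) → (∀ x, w' (w x) = x) → ∀ x,
      (if 1 ≤ ‖(if 1 ≤ ‖x‖ then w x else x)‖ then w' (if 1 ≤ ‖x‖ then w x else x)
        else (if 1 ≤ ‖x‖ then w x else x)) = x := by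
    intro w w' hw hww x
    by_cases hx : 1 ≤ ‖x‖
    · have h3 := sch_ext hδ hw hx
      simp only [if_pos hx, if_pos h3]
      exact hww x
    · simp only [if_neg hx]
  obtain ⟨v, hv⟩ : ∃ v : E4 ≃ₜ E4, ∀ x, v x = if 1 ≤ ‖x‖ then u x else x :=
    ⟨{ toFun := fun x => if 1 ≤ ‖x‖ then u x else x
       invFun := fun x => if 1 ≤ ‖x‖ then (u⁻¹ : E4 ≃ₜ E4) x else x
       left_inv := hinv u u⁻¹ hux (inv_apply_self' u)
       right_inv := hinv u⁻¹ u hux' (apply_inv_self' u)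
       continuous_toFun := hcont u hux
       continuous_invFun := hcont u⁻¹ hux' }, fun _ => rfl⟩
  have hv1 : ∀ x, 1 - δ < ‖x‖ → v x = u x := by
    intro x hx
    rw [hv]
    by_cases h3 : 1 ≤ ‖x‖
    · rw [if_pos h3]
    · rw [if_neg h3, hux x (by rw [abs_lt]; constructor <;> linarith)]
  have hv2 : ∀ x, ‖x‖ < 1 → v x = x := fun x hx => by rw [hv, if_neg (by linarith)]
  have hΘ : ∀ x, 1 - δ < ‖x‖ → (H * v : E4 ≃ₜ E4) x = g x := fun x hx => by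
    rw [mul_apply', hv1 x hx, hu, mul_apply', apply_inv_self']
  have hr : ∀ x, RG (H * v : E4 ≃ₜ E4) x := by
    intro x
    rcases lt_or_ge ‖x‖ 1 with hx | hx
    · refine (h1 x).congr ?_
      have h3 : ∀ᶠ y in 𝓝 x, ‖y‖ < 1 := continuous_norm.continuousAt.eventually_lt_const hx
      filter_upwards [h3] with y hy
      rw [mul_apply', hv2 y hy]
    · have hx0 : x ≠ 0 := by
        rintro rfl
        rw [norm_zero] at hx
        linarith
      refine (hg.2 x hx0).rg.congr ?_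
      have h3 : ∀ᶠ y in 𝓝 x, 1 - δ < ‖y‖ :=
        continuous_norm.continuousAt.eventually_const_lt (by linarith)
      filter_upwards [h3] with y hy
      rw [hΘ y hy]
  obtain ⟨s, hs1, hs2⟩ := sign_const (f := (H * v : E4 ≃ₜ E4)) isOpen_univ isPreconnected_univ
    fun x _ => hr x
  have hinf : EqInf (H * v) g := by
    have h3 : ∀ᶠ x : E4 in cocompact E4, 1 ≤ ‖x‖ :=
      tendsto_norm_cocompact_atTop.eventually (eventually_ge_atTop 1)
    exact h3.mono fun x hx => hΘ x (by linarith)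
  refine ⟨H * v, fun x => ?_, hinf⟩
  rcases hs1 with rfl | rfl
  · exact hs2 x (mem_univ x)
  · exfalso
    obtain ⟨y, hy⟩ : ∃ y : E4, ‖y‖ = 1 := ⟨e0, norm_e0⟩
    have hy0 : y ≠ 0 := by
      rintro rfl
      rw [norm_zero] at hy
      norm_num at hy
    have h3 : LD 1 (H * v : E4 ≃ₜ E4) y := by
      refine (hg.2 y hy0).congr ?_
      have h3 : ∀ᶠ z in 𝓝 y, 1 - δ < ‖z‖ :=
        continuous_norm.continuousAt.eventually_const_lt (by linarith)
      filter_upwards [h3] with z hz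
      rw [hΘ z hz]
    have h4 := (hs2 y (mem_univ y)).2
    have h5 := h3.2
    linarith

/-- `D` is perfect if and only if the smooth Schoenflies problem has a positive answer -/
theorem schoenflies_iff : derD = grpD ↔ Schoenflies := by
  constructor
  · intro h k ε hε hk
    have hall : ∀ g : E4 ≃ₜ E4, PD 1 g → Ext g := by
      intro g hg
      have h1 : (show Homeo4 from g) ∈ grpD := mem_groupD.2 hg
      rw [← h] at h1
      exact extendable_iff.1 (derD_iff.1 h1).2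
    obtain ⟨H, δ, h1, h2, h3⟩ := sch_of_ext hall (show E4 ≃ₜ E4 from k) hε hk
    exact ⟨H, δ, h1, h2, h3⟩
  · intro h
    refine le_antisymm (fun g hg => (derD_iff.1 hg).1) fun g hg => derD_iff.2 ⟨hg, ?_⟩
    have hg' : PD 1 (show E4 ≃ₜ E4 from g) := mem_groupD.1 hg
    refine extendable_iff.2 (ext_of_sch (fun k ε hε hk => ?_) hg')
    obtain ⟨H, δ, h1, h2, h3⟩ := h (show Homeo4 from k) ε hε hk
    exact ⟨H, δ, h1, h2, h3⟩

end Pool.Agent.HopfFin
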