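import Pool.Agent.HopfFin.Place

/-!
# The manifolds `V_n` and the `n`-fold circle sums

`K` is a homeomorphism supported in `Cone 1` such that `g = K tau K⁻¹ tau⁻¹` is a diffeomorphism off
`0`. `KK K n` is the product of the copies of `K` in the `n` placements,
`VV K n = KK lam(1/n) KK⁻¹`, `YY K n = KK tau KK⁻¹ = (VV K n)^n`.

Plan of `VV_eq`. The factors `F i = plN n i * K * (plN n i)⁻¹` have supports
`plN n i '' Cone 1` with disjoint interiors (`plN_disjoint`), so they commute (`Supp.commute`);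
`lamH (1/n) * F i * (lamH (1/n))⁻¹ = F (i+1)` (`plN_succ`), and `F n = plN n 0 * tau * K * tau⁻¹ *
(plN n 0)⁻¹` (`plN_self`, `tau` commutes with `plN n 0`). So
`KK * lamH (1/n) * KK⁻¹ = (∏_{i<n} F i) * (∏_{i<n} F (i+1))⁻¹ * lamH (1/n)
= F 0 * (F n)⁻¹ * lamH (1/n)`; `F n` has the same support as `F 0` (`Cone 1` is invariant under
`tau`), so it commutes with `F 1, ..., F (n-1)`.
-/

set_option autoImplicit false

open scoped ContDiff Topology
open Set Filter Metric

namespace Pool.Agent.HopfFin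

open Pool.Agent.HopfCov

/-- the product of the copies of `K` in the `n` placements -/
noncomputable def KK (K : E4 ≃ₜ E4) (n : ℕ) : E4 ≃ₜ E4 :=
  ((List.range n).map fun i => plN n i * K * (plN n i)⁻¹).prod

/-- the homeomorphism `V_n` -/
noncomputable def VV (K : E4 ≃ₜ E4) (n : ℕ) : E4 ≃ₜ E4 := KK K n * lamH (1 / n) * (KK K n)⁻¹

/-- the `n`-fold circle sum -/
noncomputable def YY (K : E4 ≃ₜ E4) (n : ℕ) : E4 ≃ₜ E4 := KK K n * tau * (KK K n)⁻¹

theorem VV_pow (K : E4 ≃ₜ E4) {n : ℕ} (hn : 0 < n) : VV K n ^ n = YY K n := by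
  have h1 : lamH (1 / n) ^ n = tau := by
    rw [lamH_pow, mul_one_div_cancel (by positivity), lamH_one]
  rw [VV, conj_pow, h1]
  rfl

private theorem sum_list_fix (x : E4) : ∀ l : List (E4 ≃ₜ E4), (∀ h ∈ l, h x = x) →
    l.prod x = x := by
  intro l
  induction l with
  | nil => intro _; rfl
  | cons g l ih =>
    intro h
    rw [List.prod_cons, mul_apply', ih fun k hk => h k (List.mem_cons_of_mem _ hk)]
    exact h g List.mem_cons_self

private theorem sum_plN_zero (n i : ℕ) : plN n i 0 = 0 := (plN_pz n i).sm.1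

private theorem sum_inv_zero {h : E4 ≃ₜ E4} (h0 : h 0 = 0) : (h⁻¹ : E4 ≃ₜ E4) 0 = 0 :=
  h.injective (by rw [apply_inv_self', h0])

private theorem sum_F_zero {K : E4 ≃ₜ E4} (h0 : K 0 = 0) (n i : ℕ) :
    (plN n i * K * (plN n i)⁻¹) 0 = 0 := by
  rw [mul_apply', mul_apply', sum_inv_zero (sum_plN_zero n i), h0, sum_plN_zero]

theorem KK_zero {K : E4 ≃ₜ E4} (h0 : K 0 = 0) (n : ℕ) : KK K n 0 = 0 := by
  refine sum_list_fix 0 _ fun h hh => ?_
  obtain ⟨i, -, rfl⟩ := List.mem_map.mp hh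
  exact sum_F_zero h0 n i

/-- the copies of `K` do not touch the ray `ℝ₊ e0` (`plN_off`) -/
theorem KK_near {K : E4 ≃ₜ E4} (h0 : K 0 = 0) (hK : Supp K (Cone 1)) {n : ℕ} (hn : 0 < n) :
    ∀ x ∈ Cone (1 / 2), KK K n x = x := by
  intro x hx
  refine sum_list_fix x _ fun h hh => ?_
  obtain ⟨i, -, rfl⟩ := List.mem_map.mp hh
  by_cases hxi : x ∈ plN n i '' Cone 1
  · obtain ⟨y, hy, rfl⟩ := hxi
    rw [plN_off hn i hy hx, sum_plN_zero]
    exact sum_F_zero h0 n i
  · exact hK.conj (plN n i) x hxi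

/-- the key formula -/
theorem VV_eq {K : E4 ≃ₜ E4} (h0 : K 0 = 0) (hK : Supp K (Cone 1)) {n : ℕ} (hn : 0 < n) :
    VV K n = plN n 0 * (K * tau * K⁻¹ * tau⁻¹) * (plN n 0)⁻¹ * lamH (1 / n) := by
  obtain ⟨m, rfl⟩ : ∃ m, n = m + 1 := ⟨n - 1, by omega⟩
  set n := m + 1 with hn'
  set L := lamH (1 / n) with hL
  let F : ℕ → (E4 ≃ₜ E4) := fun i => plN n i * K * (plN n i)⁻¹
  set Q := ((List.range m).map fun i => F (i + 1)).prod with hQ
  have hP : KK K n = F 0 * Q := by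
    unfold KK
    rw [hn', List.range_succ_eq_map, List.map_cons, List.prod_cons, List.map_map]
    rfl
  have hF : ∀ i, L * F i * L⁻¹ = F (i + 1) := by
    intro i
    change L * (plN n i * K * (plN n i)⁻¹) * L⁻¹ = plN n (i + 1) * K * (plN n (i + 1))⁻¹
    rw [← plN_succ, ← hL, mul_inv_rev]
    group
  have hLP : L * KK K n * L⁻¹ = Q * F n := by
    have h1 : ∀ l : List ℕ, L * (l.map F).prod * L⁻¹ = (l.map fun i => F (i + 1)).prod := by
      intro l
      induction l with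
      | nil => simp
      | cons a l ih =>
        rw [List.map_cons, List.prod_cons, List.map_cons, List.prod_cons, ← ih, ← hF a]
        group
    have h2 : KK K n = ((List.range n).map F).prod := rfl
    rw [h2, h1, hn', List.range_succ, List.map_append, List.prod_append]
    simp [hQ]
  have hFn : F n = plN n 0 * (tau * K * tau⁻¹) * (plN n 0)⁻¹ := by
    change plN n n * K * (plN n n)⁻¹ = _
    rw [plN_self hn, ← (plN_pz n 0).comm, mul_inv_rev]
    group
  have hsup : Supp (F n) (plN n 0 '' Cone 1) := by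
    rw [hFn]
    refine Supp.conj ?_ _
    refine (hK.conj tau).mono ?_
    rintro _ ⟨y, hy, rfl⟩
    exact Cone_smul (by norm_num) hy
  have hFn0 : F n 0 = 0 := sum_F_zero h0 n n
  have hcomm : Commute (F n) Q := by
    rw [hQ]
    refine Commute.list_prod_right _ _ fun h hh => ?_
    obtain ⟨i, hi, rfl⟩ := List.mem_map.mp hh
    have hi' := List.mem_range.mp hi
    refine hsup.commute (hK.conj (plN n (i + 1))) hFn0 (sum_F_zero h0 n (i + 1)) ?_
    rintro _ ⟨y, hy, rfl⟩ ⟨z, hz, hyz⟩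
    rw [plN_disjoint hn (by omega) (by omega) (by omega) hy hz hyz.symm, sum_plN_zero]
  have h3 : VV K n = KK K n * (L * KK K n * L⁻¹)⁻¹ * L := by
    unfold VV
    rw [← hL]
    group
  rw [h3, hLP, hP, mul_inv_rev]
  have h4 : F 0 * Q * ((F n)⁻¹ * Q⁻¹) = F 0 * (F n)⁻¹ := by
    have h5 : Q * (F n)⁻¹ = (F n)⁻¹ * Q := hcomm.symm.inv_right.eq
    rw [mul_assoc, ← mul_assoc Q, h5, mul_assoc (F n)⁻¹, mul_inv_cancel, mul_one]
  rw [h4, hFn]
  change plN n 0 * K * (plN n 0)⁻¹ * (plN n 0 * (tau * K * tau⁻¹) * (plN n 0)⁻¹)⁻¹ * L = _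
  group

/-- `V_n` is topologically the linear contraction, smoothly so near the ray (`tn_mk`, `KK_near`;
`T = T_n * (KK K n)⁻¹`) -/
theorem VV_good {K : E4 ≃ₜ E4} (h0 : K 0 = 0) (hK : Supp K (Cone 1)) {n : ℕ} (hn : 0 < n) :
    ∃ T : E4 ≃ₜ E4, Good (VV K n) T e0 := by
  obtain ⟨T, hT, hTc, hTe⟩ := tn_mk n hn
  have hnear := KK_near h0 hK hn
  have hinv : ∀ x ∈ Cone (1 / 2), ((KK K n)⁻¹ : E4 ≃ₜ E4) x = x := fun x hx =>
    (KK K n).injective (by rw [apply_inv_self', hnear x hx])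
  refine ⟨T * (KK K n)⁻¹, ?_, ?_, ?_⟩
  · rw [mul_apply', sum_inv_zero (KK_zero h0 n), hT.1]
  · unfold VV
    have h1 : T * (KK K n)⁻¹ * (KK K n * lamH (1 / n) * (KK K n)⁻¹) =
        (T * lamH (1 / n)) * (KK K n)⁻¹ := by group
    rw [h1, hTc, mul_assoc]
  · intro t ht
    set s : ℝ := t ^ (1 / (n : ℝ)) with hs
    have hs0 : 0 < s := Real.rpow_pos_of_pos ht _
    have hsn : s ^ n = t := by
      rw [hs, one_div]
      exact Real.rpow_inv_natCast_pow ht.le hn.ne'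
    have hpt : ((T * (KK K n)⁻¹)⁻¹ : E4 ≃ₜ E4) (t • e0) = s • e0 := by
      rw [mul_inv_rev, inv_inv, mul_apply']
      have h1 : (T⁻¹ : E4 ≃ₜ E4) (t • e0) = s • e0 :=
        T.injective (by rw [apply_inv_self', hTe s hs0, hsn])
      rw [h1]
      exact hnear _ (smul_e0_mem_Cone (by norm_num) hs0.le)
    rw [hpt]
    have hne : s • e0 ≠ 0 := by
      intro h1
      have h2 := congrArg norm h1
      rw [norm_smul, norm_e0, norm_zero, mul_one, Real.norm_eq_abs, abs_of_pos hs0] at h2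
      exact hs0.ne' h2
    have hreg := hT.reg hne
    have hev : ∀ᶠ y in 𝓝 (s • e0), ∀ᶠ z in 𝓝 y, (T * (KK K n)⁻¹ : E4 ≃ₜ E4) z = T z := by
      rw [eventually_eventually_nhds]
      filter_upwards [Cone_mem_nhds (δ := 1 / 2) (by norm_num) hs0] with z hz
      rw [mul_apply', hinv z hz]
    filter_upwards [hreg, hev] with y hy1 hy2
    have h3 : ((T * (KK K n)⁻¹ : E4 ≃ₜ E4) : E4 → E4) =ᶠ[𝓝 y] T := hy2
    exact ⟨hy1.1.congr_of_eventuallyEq h3, by rw [h3.fderiv_eq]; exact hy1.2⟩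

end Pool.Agent.HopfFin
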