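import Pool.Agent.HopfFin.Conj
import Pool.Agent.HopfFin.Sum
import Pool.Agent.HopfCov.ClassGroup

/-!
# Classes of the generators
-/

set_option autoImplicit false

open scoped ContDiff Topology
open Set Filter Metric

namespace Pool.Agent.HopfFin

open Pool.Agent.HopfCov

private theorem eq_conj {Φ G G' : E4 ≃ₜ E4} (h : Φ * G = G' * Φ) : G' = Φ * G * Φ⁻¹ := by
  rw [h, mul_assoc, mul_inv_cancel, mul_one]

private theorem Ext_conj' {Φ G : E4 ≃ₜ E4} (hΦ : Sm Φ) (hE : Ext G) : Ext (Φ * G * Φ⁻¹) := by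
  obtain ⟨s, hs, hP⟩ := hΦ.exists_sign
  exact Ext.conj hGerm hSwap hdim4 hs hE hP

private theorem PD_conj' {Φ G : E4 ≃ₜ E4} (hΦ : Sm Φ) (hG : PD 1 G) : PD 1 (Φ * G * Φ⁻¹) := by
  obtain ⟨s, hs, hP⟩ := hΦ.exists_sign
  exact PD_conj hs hP hG

theorem Off.congr {G G' : E4 ≃ₜ E4} (h : Cj G G') : Off G ↔ Off G' :=
  ⟨fun ⟨H, h1, h2⟩ => ⟨H, h1, h.symm.trans h2⟩, fun ⟨H, h1, h2⟩ => ⟨H, h1, h.trans h2⟩⟩

/-- large powers of a contraction are `Off` (`Contr.trap`) -/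
theorem Off_pow {G : E4 ≃ₜ E4} (hc : Contr G) : ∃ m₀ : ℕ, ∀ m ≥ m₀, Off (G ^ m) := by
  obtain ⟨m₀, hm⟩ := hc.trap
  exact ⟨m₀, fun m h => ⟨G ^ m, hm m h, Cj.refl _⟩⟩

/-- a contraction of trivial class which is `Off` is standard (`core_std`, `Ext.conj`) -/
theorem std_of_Off {G : E4 ≃ₜ E4} (hG : PD 1 G) (hc : Contr G) (hO : Off G) (hE : Ext G) :
    Cj G tau := by
  obtain ⟨G', ht, Φ, hΦ, he⟩ := hO
  have h1 := eq_conj he
  have h2 : Contr G' := by rw [h1]; exact hc.conj hΦ.1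
  have h3 : Ext G' := by rw [h1]; exact Ext_conj' hΦ hE
  have h4 : PD 1 G' := by rw [h1]; exact PD_conj' hΦ hG
  obtain ⟨Ψ, f1, f2⟩ := core_std hGerm hSwap hRad hdim4 h4 ht h2 h3
  have h5 : Cj tau G' := ⟨Ψ, Sm_of_PD f1, f2⟩
  exact Cj.trans ⟨Φ, hΦ, he⟩ h5.symm

/-- the class of a conjugate -/
theorem Ext_congr {G G' : E4 ≃ₜ E4} (h : Cj G G') (hE : Ext G) : Ext G' := by
  obtain ⟨Φ, hΦ, he⟩ := h
  rw [eq_conj he]
  exact Ext_conj' hΦ hE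

private theorem PD_g {K : E4 ≃ₜ E4} (hg : PD 1 (K * tau * K⁻¹)) :
    PD 1 (K * tau * K⁻¹ * tau⁻¹) := hg.mul_one' PD_tau.inv

theorem VV_PD {K : E4 ≃ₜ E4} (h0 : K 0 = 0) (hK : Supp K (Cone 1)) (hg : PD 1 (K * tau * K⁻¹))
    {n : ℕ} (hn : 0 < n) : PD 1 (VV K n) := by
  rw [VV_eq h0 hK hn]
  exact (PD_conj' (plN_pz n 0).sm (PD_g hg)).mul_one' (lamH_PD _)

/-- the class of `YY K n` is `n` times the class of `K tau K⁻¹` (`VV_pow`, `VV_eq`, `cls`; the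
conjugation by `plN n 0` does not change whether a power extends) -/
theorem YY_Ext {K : E4 ≃ₜ E4} (h0 : K 0 = 0) (hK : Supp K (Cone 1)) (hg : PD 1 (K * tau * K⁻¹))
    {m n : ℕ} (hm : 0 < m) (hn : 0 < n) (hmn : m ∣ n) (hE : Ext ((K * tau * K⁻¹) ^ m)) :
    Ext (YY K n) := by
  have _ := hm
  have hP := (plN_pz n 0).sm
  have hg1 := PD_g hg
  have hcg : cls _ hg1 = cls _ hg := by
    rw [cls_mul' hg PD_tau.inv hg1, (cls_eq_one PD_tau.inv).2 Ext_tau.inv, mul_one]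
  have hpow : ∀ (a : E4 ≃ₜ E4) (ha : PD 1 a) (k : ℕ), cls (a ^ k) (ha.pow k) = cls a ha ^ k := by
    intro a ha k
    rfl
  have hgn : Ext ((K * tau * K⁻¹ * tau⁻¹) ^ n) := by
    rw [← cls_eq_one (hg1.pow n), hpow _ hg1, hcg]
    obtain ⟨d, rfl⟩ := hmn
    rw [pow_mul, ← hpow _ hg m, (cls_eq_one (hg.pow m)).2 hE, one_pow]
  have hPg := PD_conj' hP hg1
  have hV := VV_PD h0 hK hg hn
  have hcV : cls _ hV = cls _ hPg := by
    have h1 : PD 1 (plN n 0 * (K * tau * K⁻¹ * tau⁻¹) * (plN n 0)⁻¹ * lamH (1 / n)) :=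
      hPg.mul_one' (lamH_PD _)
    rw [cls_congr hV (VV_eq h0 hK hn) h1, cls_mul' hPg (lamH_PD _) h1,
      (cls_eq_one (lamH_PD _)).2 (lamH_Ext _), mul_one]
  rw [← VV_pow K hn, ← cls_eq_one (hV.pow n), hpow _ hV, hcV, ← hpow _ hPg,
    cls_eq_one, conj_pow]
  exact Ext_conj' hP hgn

end Pool.Agent.HopfFin
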