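import Pool.Agent.HopfFin.Basic

/-!
# Conjugacy
-/

set_option autoImplicit false

open scoped ContDiff Topology
open Set Filter Metric

namespace Pool.Agent.HopfFin

open Pool.Agent.HopfCov

theorem Cj.refl (G : E4 ≃ₜ E4) : Cj G G := ⟨1, Sm.one, by simp⟩

theorem Cj.symm {G G' : E4 ≃ₜ E4} (h : Cj G G') : Cj G' G := by
  obtain ⟨Φ, h1, h2⟩ := h
  refine ⟨Φ⁻¹, h1.inv, ?_⟩
  rw [inv_mul_eq_iff_eq_mul, ← mul_assoc, h2, mul_assoc, mul_inv_cancel, mul_one]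

theorem Cj.trans {G G' G'' : E4 ≃ₜ E4} (h : Cj G G') (h' : Cj G' G'') : Cj G G'' := by
  obtain ⟨Φ, h1, h2⟩ := h
  obtain ⟨Φ', h3, h4⟩ := h'
  exact ⟨Φ' * Φ, h3.mul h1, by rw [mul_assoc, h2, ← mul_assoc, h4, mul_assoc]⟩

theorem Cj_conj (G : E4 ≃ₜ E4) {k : E4 ≃ₜ E4} (hk : Sm k) : Cj G (k * G * k⁻¹) :=
  ⟨k, hk, by group⟩

theorem Cj.pow {G G' : E4 ≃ₜ E4} (h : Cj G G') (n : ℕ) : Cj (G ^ n) (G' ^ n) := by
  obtain ⟨Φ, h1, h2⟩ := h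
  have h3 : SemiconjBy Φ G G' := h2
  exact ⟨Φ, h1, (h3.pow_right n).eq⟩

end Pool.Agent.HopfFin
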