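import Pool.Agent.HopfFin.Statement
import Pool.Agent.HopfFin.Conj
import Pool.Agent.HopfFin.Good
import Pool.Agent.HopfCov.Bridge2
import Pool.Agent.HopfFin.SwapCj

/-!
# From diffeomorphisms to conjugations
-/

set_option autoImplicit false

open scoped ContDiff Topology Manifold
open Set Filter Metric

namespace Pool.Agent.HopfFin

open Pool.Agent.HopfCov Pool.Agent.HopfCov.Smooth

/-- the generators of diffeomorphic orbit spaces are conjugate up to exchange of the ends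
(`SpecLift`) -/
theorem cjV_of_diffeo {M M' : Mfd4} (hM : T2Space M ∧ CompactSpace M)
    (hM' : T2Space M' ∧ CompactSpace M') {p : V4 → M.carrier} {p' : V4 → M'.carrier}
    {g g' : V4 ≃ₜ V4} {G G' : E4 ≃ₜ E4} (hp : OrbitMap g p) (hp' : OrbitMap g' p')
    (hG : Extends G g) (hG' : Extends G' g') (_hc : Contr G) (_hc' : Contr G')
    (h : Diffeomorphic M M') : CjV G G' := by
  obtain ⟨a1, a2⟩ := hM
  obtain ⟨b1, b2⟩ := hM'
  have a1' : T2Space M.carrier := a1
  have a2' : CompactSpace M.carrier := a2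
  have b1' : T2Space M'.carrier := b1
  have b2' : CompactSpace M'.carrier := b2
  obtain ⟨F, hF⟩ := h
  obtain ⟨Ψ, f1, -, f3⟩ := hLift g g' M.carrier M'.carrier p p' hp hp' (toDiffeo hF)
  exact ⟨Ψ, g, g', f1, hG, hG', f3⟩

/-- if the generator is `Off` then the orbit space is standard off one point (`off_point` for the
conjugate trapping generator) -/
theorem offPoint_of_Off {M : Mfd4} (hM : T2Space M ∧ CompactSpace M) {p : V4 → M.carrier}
    {g : V4 ≃ₜ V4} {G : E4 ≃ₜ E4} (hp : OrbitMap g p) (hG : Extends G g) (h1 : PD 1 G)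
    (hc : Contr G) (h : Off G) : OffPoint M := by
  obtain ⟨a1, a2⟩ := hM
  have a1' : T2Space M.carrier := a1
  have a2' : CompactSpace M.carrier := a2
  obtain ⟨G', ht, Φ, hΦ, hc1⟩ := h
  obtain ⟨s, hs, hPD⟩ := hΦ.exists_sign
  obtain ⟨ψ, hψ, hψl⟩ := exists_restr_PDs hPD.inv
  have hG'eq : Φ * G * Φ⁻¹ = G' := by rw [hc1, mul_assoc, mul_inv_cancel, mul_one]
  have e1 : Extends G' (ψ⁻¹ * g * ψ) := by
    have h2 := (hψ.inv.mul hG).mul hψ
    rw [inv_inv, hG'eq] at h2
    exact h2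
  have e2 : PD 1 G' := by
    have h2 := (hPD.mul h1).mul hPD.inv
    rw [hG'eq, mul_one, hs] at h2
    exact h2
  have e3 : Contr G' := by
    have h2 := hc.conj hPD.1
    rwa [hG'eq] at h2
  have e4 : OrbitMap (ψ⁻¹ * g * ψ) (fun x => p (ψ x)) :=
    hp.conj hψl (by group)
  obtain ⟨τ, h5, h6⟩ := exists_tau
  obtain ⟨q₀, c1, c2, c3⟩ := modelMap τ h6
  obtain ⟨F, n₀, hF⟩ := off_point (one_mul 1) e1 e2 ht e3 e4 det_refl_pos h5 c1 c2 c3
  exact ⟨F, n₀, hF⟩

end Pool.Agent.HopfFin
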