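import Pool.Agent.HopfFin.StatementPlus
import Pool.Agent.HopfFin.Desc
import Pool.Agent.HopfFin.Class
import Pool.Agent.HopfCov.Final3

/-!
# Coverings with many sheets

Plan of `std_of_Cj`: `Φ G = tau Φ`, `Φ` in `Sm`; restrict `Φ` (`Sm.restr`), `hp.conj` (as in
`offPoint_of_Off`, `Desc.lean`) shows that `M` is the orbit space of the restriction of `tau`;
`SpecModel` (the proved form: `specModel` or `hModel` in `HopfCov`).

Plan of `virtuallyStandard_of`: `Off_pow` gives `m₀` (take it positive) with `Off (G ^ m)` for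
`m ≥ m₀`; `Ext (G ^ m)` (`Ext_pow_level` in `Level.lean`, or repeat it), so `Cj (G ^ m) tau` by
`std_of_Off`. If `q : N → M` is a covering with `m` sheets then `N` is the orbit space of `g ^ m`
(`specCover`, `HopfCov/Cover.lean`; `Cover.cov`, `Cover.loc`, `Cover.sheets`), use `std_of_Cj`.

Plan of `std_of_virt`: `G` is `Off` by hypothesis. The orbit spaces of `g ^ m` are closed coverings
of `M` with `m` sheets (see how the existence of coverings is shown in `HopfCov/Cov.lean` or
`exists_space_of`; the orbit space of `g ^ m` exists by `exists_structure_gen` or the quotient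
construction `Push.lean`, and `q` is induced by `p`); so `Ext (G ^ m)` and `Ext (G ^ (m + 1))` for
some `m` (a contraction with standard orbit space is `Ext`: `std_iff_ext` or `conj` to `tau`
by `cjV_of_diffeo` and `Ext`-invariance), so `Ext G`, `Cj G tau` by `std_of_Off`, `std_of_Cj`.
-/

set_option autoImplicit false

open scoped ContDiff Topology Manifold
open Set Filter Metric

namespace Pool.Agent.HopfFin

open Pool.Agent.HopfCov Pool.Agent.HopfCov.Smooth

private theorem cvs_loc {N M : Mfd4} {p' : V4 → N.carrier} {p : V4 → M.carrier}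
    {q : N.carrier → M.carrier} (h : ∀ x, q (p' x) = p x) {x : V4}
    (hl : IsLocalDiffeomorphAt (𝓡 4) (𝓡 4) ∞ p' x)
    (h2 : IsLocalDiffeomorphAt (𝓡 4) (𝓡 4) ∞ p x) :
    IsLocalDiffeomorphAt (𝓡 4) (𝓡 4) ∞ q (p' x) := by
  obtain ⟨Ψ, hxΨ, hΨ⟩ := h2
  refine ⟨hl.localInverse.trans Ψ, ?_, ?_⟩
  · refine ⟨hl.localInverse_mem_source, ?_⟩
    have h3 : hl.localInverse (p' x) = x :=
      hl.localInverse_left_inv hl.localInverse_mem_target
    change hl.localInverse (p' x) ∈ Ψ.source
    rw [h3]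
    exact hxΨ
  · rintro y ⟨hy1, hy2⟩
    have h3 : p' (hl.localInverse y) = y := hl.localInverse_right_inv hy1
    change q y = Ψ (hl.localInverse y)
    have h4 : p (hl.localInverse y) = Ψ (hl.localInverse y) := hΨ hy2
    rw [← h4]
    conv_lhs => rw [← h3]
    exact h _

private theorem cvs_sheets {N M : Type} [TopologicalSpace N] [ChartedSpace E4 N]
    [TopologicalSpace M] [ChartedSpace E4 M] {p' : V4 → N} {p : V4 → M} {q : N → M}
    {g : V4 ≃ₜ V4} {G : E4 ≃ₜ E4} (hp : OrbitMap g p) (hG : Extends G g) (hc : Contr G) {m : ℕ}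
    (hm : 0 < m) (hp' : OrbitMap (g ^ m) p') (hq : ∀ x, q (p' x) = p x) (y : M) :
    (q ⁻¹' {y}).ncard = m := by
  obtain ⟨x, rfl⟩ := hp.surj y
  have hm0 : (m : ℤ) ≠ 0 := by exact_mod_cast hm.ne'
  have hmp : (0 : ℤ) < m := by exact_mod_cast hm
  have h : q ⁻¹' {p x} =
      (fun j : ℕ => p' ((g ^ j) x)) '' ((Finset.range m : Finset ℕ) : Set ℕ) := by
    ext n
    constructor
    · intro hn
      obtain ⟨z, rfl⟩ := hp'.surj n
      have hn' : q (p' z) = p x := hn
      rw [hq] at hn'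
      obtain ⟨k, hk⟩ := (hp.fib x z).1 hn'.symm
      have h0 := Int.emod_nonneg k hm0
      have h1 := Int.emod_lt_of_pos k hmp
      have h2 : (((k % m).toNat : ℕ) : ℤ) = k % m := Int.toNat_of_nonneg h0
      refine ⟨(k % m).toNat, ?_, ?_⟩
      · rw [Finset.mem_coe, Finset.mem_range]
        omega
      · show p' ((g ^ (k % m).toNat) x) = p' z
        rw [hp'.fib]
        refine ⟨k / m, ?_⟩
        have h3 : g ^ k = (g ^ m) ^ (k / (m : ℤ)) * g ^ (k % m).toNat := by
          rw [← zpow_natCast g m, ← zpow_natCast g (k % m).toNat, h2, ← zpow_mul, ← zpow_add,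
            Int.mul_ediv_add_emod]
        rw [hk, h3]
        rfl
    · rintro ⟨j, -, rfl⟩
      show q (p' ((g ^ j) x)) = p x
      rw [hq]
      exact ((hp.fib _ _).2 ⟨j, by rw [zpow_natCast]⟩).symm
  rw [h, Set.InjOn.ncard_image, Set.ncard_coe_finset, Finset.card_range]
  intro i hi j hj hij
  rw [Finset.mem_coe, Finset.mem_range] at hi hj
  obtain ⟨l, hl⟩ := (hp'.fib _ _).1 hij
  have h1 : (g ^ (-(j : ℤ) + (m * l + i))) x = x := by
    have h2 : g ^ (-(j : ℤ) + (m * l + i)) = (g ^ j)⁻¹ * ((g ^ m) ^ l * g ^ i) := by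
      rw [zpow_add, zpow_neg, zpow_natCast, zpow_add, zpow_mul, zpow_natCast, zpow_natCast]
    rw [h2]
    show ((g ^ j)⁻¹ : V4 ≃ₜ V4) (((g ^ m) ^ l) ((g ^ i) x)) = x
    rw [← hl]
    exact (g ^ j).symm_apply_apply x
  have h3 := free_of_contr hG hc _ x h1
  have h4 : (j : ℤ) = m * l + i := by omega
  have h5 : (j : ℤ) % m = i % m := by
    rw [h4, Int.mul_add_emod_self_left]
  rw [Int.emod_eq_of_lt (by positivity) (by exact_mod_cast hj),
    Int.emod_eq_of_lt (by positivity) (by exact_mod_cast hi)] at h5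
  exact_mod_cast h5.symm

/-- the orbit space of a power of the generator as a covering -/
private theorem cvs_exists {M : Mfd4} (hM : T2Space M ∧ CompactSpace M) {p : V4 → M.carrier}
    {g : V4 ≃ₜ V4} {G : E4 ≃ₜ E4} (hp : OrbitMap g p) (hG : Extends G g) (h1 : PD 1 G)
    (hc : Contr G) {m : ℕ} (hm : 0 < m) (ht : Trap (G ^ m)) :
    ∃ (N : Mfd4) (q : N → M) (p' : V4 → N.carrier), Closed N ∧ Cover m q ∧
      OrbitMap (g ^ m) p' := by
  obtain ⟨a1, a2⟩ := hM
  have a1' : T2Space M.carrier := a1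
  obtain ⟨g', C, p', g1, g2, g3⟩ := exists_orbit_space (h1.pow m) ht (hc.pow hm)
  have e : g' = g ^ m := g1.eq_of (hG.pow m)
  subst e
  let N : Mfd4 := ⟨Circle × sphere (0 : E4) 1, inferInstance, C, g2⟩
  have b1 : T2Space N.carrier := inferInstanceAs (T2Space (Circle × sphere (0 : E4) 1))
  have b2 : CompactSpace N.carrier :=
    inferInstanceAs (CompactSpace (Circle × sphere (0 : E4) 1))
  have g3' : OrbitMap (g ^ m) (M := N.carrier) p' := g3
  let q : N.carrier → M.carrier := fun n => p (Function.surjInv g3'.surj n)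
  have hq : ∀ x, q (p' x) = p x := by
    intro x
    obtain ⟨n, hn⟩ := (g3'.fib _ x).1 (Function.surjInv_eq g3'.surj (p' x))
    refine (hp.fib _ _).2 ⟨m * n, ?_⟩
    rw [zpow_mul, zpow_natCast]
    exact hn
  have hl : IsLocalDiffeomorph (𝓡 4) (𝓡 4) ∞ q := by
    intro n
    obtain ⟨x, rfl⟩ := g3'.surj n
    exact cvs_loc (N := N) (M := M) hq (g3'.loc x) (hp.loc x)
  exact ⟨N, q, p', ⟨b2, b1, g3'.connected⟩,
    ⟨isLocalHomeomorph_iff_isCoveringMap.1 hl.isLocalHomeomorph, hl,
      cvs_sheets hp hG hc hm g3' hq⟩, g3'⟩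

/-- the orbit space of a generator conjugate to `x ↦ x / 2` -/
theorem std_of_Cj {M : Mfd4} (hM : T2Space M ∧ CompactSpace M) {p : V4 → M.carrier}
    {g : V4 ≃ₜ V4} {G : E4 ≃ₜ E4} (hp : OrbitMap g p) (hG : Extends G g) (h : Cj G tau) :
    DiffeoS1S3 M := by
  have _ := hM
  obtain ⟨Φ, h1, h2⟩ := h.symm
  obtain ⟨t, ht, hP⟩ := h1.exists_sign
  exact std_of_conj hp hG ht hP h2

/-- if the class of the generator is trivial then all coverings with many sheets are standard -/
theorem virtuallyStandard_of {M : Mfd4} (hM : T2Space M ∧ CompactSpace M) {p : V4 → M.carrier}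
    {g : V4 ≃ₜ V4} {G : E4 ≃ₜ E4} (hp : OrbitMap g p) (hG : Extends G g) (h1 : PD 1 G)
    (hc : Contr G) (hE : Ext G) : VirtuallyStandard M := by
  obtain ⟨a1, a2⟩ := hM
  have a1' : T2Space M.carrier := a1
  have a2' : CompactSpace M.carrier := a2
  obtain ⟨m₀, hm₀⟩ := Off_pow hc
  refine ⟨max m₀ 1, fun m N q hm hN hq => ?_⟩
  have hmpos : 0 < m := lt_of_lt_of_le one_pos ((le_max_right _ _).trans hm)
  have c1 := hN.compact
  have c2 := hN.hausdorff
  have c3 : ConnectedSpace N.carrier := hN.connected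
  obtain ⟨p', i1, -⟩ := cover_data hp hmpos hq.old
  exact std_of_Cj ⟨c2, c1⟩ i1 (hG.pow m) (std_of_Off (h1.pow m) (hc.pow hmpos)
    (hm₀ m ((le_max_left _ _).trans hm)) (Ext_pow hE m))

/-- a virtually standard manifold with `Off` generator is standard -/
theorem std_of_virt {M : Mfd4} (hM : T2Space M ∧ CompactSpace M) {p : V4 → M.carrier}
    {g : V4 ≃ₜ V4} {G : E4 ≃ₜ E4} (hp : OrbitMap g p) (hG : Extends G g) (h1 : PD 1 G)
    (hc : Contr G) (hO : Off G) (hV : VirtuallyStandard M) : DiffeoS1S3 M := by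
  obtain ⟨m₀, hm₀⟩ := hV
  obtain ⟨m₁, hm₁⟩ := hc.trap
  have key : ∀ m, max m₀ (max m₁ 1) ≤ m → Ext (G ^ m) := by
    intro m hm
    have e1 : m₀ ≤ m := (le_max_left _ _).trans hm
    have e2 : m₁ ≤ m := ((le_max_left _ _).trans (le_max_right _ _)).trans hm
    have e3 : 0 < m := lt_of_lt_of_le one_pos
      (((le_max_right _ _).trans (le_max_right _ _)).trans hm)
    obtain ⟨N, q, p', hN, hq, hp'⟩ := cvs_exists hM hp hG h1 hc e3 (hm₁ m e2)
    have b1 : T2Space N.carrier := hN.hausdorff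
    have b2 : CompactSpace N.carrier := hN.compact
    exact ext_of_std specSwapMul specSwapContr specInversion specModelOrbit hp' (hG.pow m)
      (hc.pow e3) (hm₀ m N q e1 hN hq)
  have h3 := key _ le_rfl
  have h4 := key _ (Nat.le_succ (max m₀ (max m₁ 1)))
  have hE : Ext G := by
    have h5 := h4.mul h3.inv
    rwa [Nat.succ_eq_add_one, pow_succ', mul_inv_cancel_right] at h5
  exact std_of_Cj hM hp hG (std_of_Off h1 hc hO hE)

end Pool.Agent.HopfFin
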