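import Pool.Agent.HopfFin.Level

/-!
# Infinitely many generators of trivial class which are not `Off`
-/

set_option autoImplicit false

open scoped ContDiff Topology
open Set Filter Metric

namespace Pool.Agent.HopfFin

open Pool.Agent.HopfCov

/-- powers of `Off` generators are `Off` -/
theorem Off_of_pow {G : E4 ≃ₜ E4} (hO : Off G) {n : ℕ} (hn : 0 < n) : Off (G ^ n) := by
  obtain ⟨G', ht, hc⟩ := hO
  refine ⟨G' ^ n, ?_, hc.pow n⟩
  obtain ⟨k, rfl⟩ : ∃ k, n = k + 1 := ⟨n - 1, by omega⟩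
  clear hn
  induction k with
  | zero => simpa using ht
  | succ k ih =>
    intro x hx
    rw [pow_succ, mul_apply']
    exact ih _ (ht x hx).le

/-- the class of `VV K n` is the class of `K tau K⁻¹` -/
theorem VV_Ext {K : E4 ≃ₜ E4} (h0 : K 0 = 0) (hK : Supp K (Cone 1)) {n : ℕ} (hn : 0 < n)
    (hE : Ext (K * tau * K⁻¹)) : Ext (VV K n) := by
  rw [VV_eq h0 hK hn]
  have h1 : Ext (K * tau * K⁻¹ * tau⁻¹) := hE.mul Ext_tau.inv
  have h2 : Ext (plN n 0 * (K * tau * K⁻¹ * tau⁻¹) * (plN n 0)⁻¹) :=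
    Ext_congr (Cj_conj _ (plN_pz n 0).sm) h1
  exact h2.mul (lamH_Ext _)

/-- **Theorem F for generators of trivial class** -/
theorem main_E {G T : E4 ≃ₜ E4} (hG : Sm G) (hT : Good G T e0) (hO : ¬ Off G) (hE : Ext G) :
    ∃ V : ℕ → (E4 ≃ₜ E4), (∀ k, Sm (V k) ∧ Ext (V k) ∧ ¬ Off (V k) ∧
      ∃ T' : E4 ≃ₜ E4, Good (V k) T' e0) ∧ ∀ i j, i ≠ j → ¬ CjV (V i) (V j) := by
  have he0 := e0_ne_level
  have hPD : PD 1 G := hT.PD hG he0
  have hc : Contr G := hT.contr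
  obtain ⟨m₀, hm₀⟩ := Off_pow hc
  have hM : 0 < m₀ + 1 := Nat.succ_pos _
  obtain ⟨φ, hφ, hφm⟩ := std_of_Off (hPD.pow _) (hc.pow hM) (hm₀ _ (Nat.le_succ m₀))
    (Ext_pow_level hE _)
  obtain ⟨κ, K, hκ, h0, hK, hκK⟩ := normal_form hT hM hφ hφm
  have hcj : Cj G (K * tau * K⁻¹) := by
    rw [← hκK]
    exact Cj_conj G hκ
  have hg : PD 1 (K * tau * K⁻¹) := by
    rw [← hκK]
    obtain ⟨s, hs, hκs⟩ := hκ.exists_sign
    have h1 := (hκs.mul hPD).mul hκs.inv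
    rwa [mul_one, hs] at h1
  have hEg : Ext (K * tau * K⁻¹) := Ext_congr hcj hE
  have hVc : ∀ n : ℕ, 0 < n → Contr (VV K n) := fun n hn => by
    obtain ⟨T', hT'⟩ := VV_good h0 hK hn
    exact hT'.contr
  have hlarge : ∀ N : ℕ, ∃ n : ℕ, N ≤ n ∧ 0 < n ∧ ¬ Off (VV K n ^ n) := by
    intro N
    have hn : 0 < N + 1 := Nat.succ_pos _
    by_cases h1 : Off (VV K (N + 1) ^ (N + 1))
    · by_cases h2 : Off (VV K (N + 1 + 1) ^ (N + 1 + 1))
      · exfalso
        rw [VV_pow K hn] at h1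
        rw [VV_pow K (Nat.succ_pos _)] at h2
        have h3 : Ext (YY K (N + 1)) := by
          rw [← VV_pow K hn]
          exact Ext_pow_level (VV_Ext h0 hK hn hEg) _
        have h4 : PD 1 (YY K (N + 1)) := by
          rw [← VV_pow K hn]
          exact (VV_PD h0 hK hg hn).pow _
        have h5 : Contr (YY K (N + 1)) := by
          rw [← VV_pow K hn]
          exact (hVc _ hn).pow hn
        have h6 : Cj (YY K (N + 1)) tau := std_of_Off h4 h5 h1 h3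
        have h7 := removal h0 hK hn h6
        exact hO ((Off.congr hcj).2 ((Off.congr h7).1 h2))
      · exact ⟨_, by omega, Nat.succ_pos _, h2⟩
    · exact ⟨_, by omega, Nat.succ_pos _, h1⟩
  obtain ⟨f, hf1, hf2⟩ := exists_seq_of_forall_finset_exists
    (fun n : ℕ => 0 < n ∧ ¬ Off (VV K n ^ n)) (fun x y : ℕ => Off (VV K x ^ y)) (by
      intro s hs
      have hb : ∀ x ∈ s, ∃ b : ℕ, ∀ y ≥ b, Off (VV K x ^ y) := fun x hx =>
        Off_pow (hVc x (hs x hx).1)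
      choose! b hb' using hb
      obtain ⟨y, hy1, hy2, hy3⟩ := hlarge (s.sup b)
      exact ⟨y, ⟨hy2, hy3⟩, fun x hx => hb' x hx y (le_trans (Finset.le_sup hx) hy1)⟩)
  have hkey : ∀ i j : ℕ, i < j → ¬ CjV (VV K (f i)) (VV K (f j)) := fun i j hij hcon =>
    (hf1 j).2 (hcon.symm.off (hVc _ (hf1 j).1) (hVc _ (hf1 i).1) (hf1 j).1 (hf2 i j hij))
  refine ⟨fun k => VV K (f k), fun k => ⟨Sm_of_PD (VV_PD h0 hK hg (hf1 k).1),
    VV_Ext h0 hK (hf1 k).1 hEg, fun hcon => (hf1 k).2 (Off_of_pow hcon (hf1 k).1),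
    VV_good h0 hK (hf1 k).1⟩, fun i j hij hcon => ?_⟩
  rcases lt_or_gt_of_ne hij with h | h
  · exact hkey i j h hcon
  · exact hkey j i h hcon.symm

end Pool.Agent.HopfFin
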