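import Pool.Agent.HopfFin.TwoChain
import Pool.Agent.HopfCov.ClassGroup

/-!
# Change of the class by a change of the smooth structure at one orbit

Plan of `resmooth`. Let `e = tr b * G * tr (-b)` (`tr c x = x + c`): `e b = b`, `LD 1` off `b`. Let
`Q₁ Q₂ S₁ S₂` be given by `two_chain`, `Q = Q₁ * Q₂` (`= Q₂ * Q₁`, disjoint supports). Write
`b k = (G ^ k) b` (pairwise different: `T (b k) = 2^(-k) • T b`), `E k = G ^ k * e * (G ^ k)⁻¹`.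
(1) `Q` is `LD 1` off `0` and the `b k`, fixes the `b k`, and is `E k` near `b k`.
(2) `Q * G * Q⁻¹` is `PD 1`: at `y ≠ 0` put `x = Q⁻¹ y`; if `x` is not a `b k`, compose `LD`s (`G x`
is not a `b k` either); if `x = b k` then near `y = b k` the map is
`E (k+1) * G * (E k)⁻¹ = G`.
(3) Class. `W = Q * G * Q⁻¹ * G⁻¹` is `PD 1`. `W₁ = Q₁ * G * Q₁⁻¹ * G⁻¹`: near `0` it agrees with `W`
(`Q₂ = id` near `0`), it is the identity near infinity; it is `LD 1` off `0` and `b 0`, and equal to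
`e` near `b 0`: at `z ≠ 0` put `w = Q₁⁻¹ (G⁻¹ z)`, so `W₁ z = Q₁ (G w)`; if `w` is not a `b k`,
`k ≥ 0`, and `G w` is not a `b k`, `k ≥ 0`, compose. If `w = b k`, `k ≥ 0`, then `z = b (k+1)` and near
`z` the map is `E (k+1) * G * (E k)⁻¹ * G⁻¹ = id`. If `w` is not a `b k`, `k ≥ 0`, but `G w = b k`,
then `k = 0`, `w = b (-1)`, `z = b 0`, and near `z` the map is `E 0 = e` (`Q₁ = id` near `b (-1)`).
(4) Let `c = e 0 ≠ b`, `X = W₁ * e⁻¹ * tr c`. `X 0 = W₁ 0 = 0`; `X` is `PD 1`: at `x ≠ 0`,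
`e⁻¹ (x + c) ≠ 0`; if it is `≠ b` compose, if it is `b` (`x + c = b`) then `W₁ * e⁻¹ = id` near `b`.
`Y = W⁻¹ * X` is `PD 1`, and near `0` it is `e⁻¹ * tr c`, which is `LD 1` at `0`: so `Y` is `LD 1`
everywhere, `Ext Y`. Near infinity `X = e⁻¹ * tr c = tr b * G⁻¹ * tr (c - b)`, so `G * X` is near
infinity `G * tr b * G⁻¹ * tr (c - b)`; `Ext (G * X)`: choose a compactly supported diffeomorphism `S`
with `S b = 0` (`push_open` with `U = univ`): `S * tr b` is `LD 1` everywhere and fixes `0`, so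
`Ext (G * (S * tr b) * G⁻¹)` by `Ext.conj` (`hGerm hSwap hdim4`), and `tr b` agrees with `S * tr b`
near infinity. In the class group (`cls`, `cls_mul'`, `cls_inv`, `cls_eq_one` of
`HopfCov/ClassGroup.lean`): `[W] = [X] = [G]⁻¹`, `[Q G Q⁻¹] = [W * G] = 1`.
-/

set_option autoImplicit false

open scoped ContDiff Topology
open Set Filter Metric

namespace Pool.Agent.HopfFin

open Pool.Agent.HopfCov

private theorem resm_tendsto (h : E4 ≃ₜ E4) {p q : E4} (hq : h p = q) :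
    Tendsto h (𝓝 p) (𝓝 q) := by
  have := h.continuous.tendsto p
  rwa [hq] at this

private theorem resm_inv {Q F : E4 ≃ₜ E4} {p q : E4} (h : ∀ᶠ x in 𝓝 p, Q x = F x)
    (hq : F p = q) : ∀ᶠ z in 𝓝 q, (Q⁻¹ : E4 ≃ₜ E4) z = (F⁻¹ : E4 ≃ₜ E4) z := by
  have h1 : (F⁻¹ : E4 ≃ₜ E4) q = p := by rw [← hq]; exact inv_apply_self' F p
  filter_upwards [(resm_tendsto F⁻¹ h1).eventually h] with z hz
  rw [apply_inv_self'] at hz
  conv_lhs => rw [← hz]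
  exact inv_apply_self' Q _

/-- the class can be changed by a change of the smooth structure along one orbit -/
theorem resmooth_gen {s : ℝ} (hs : s * s = 1) {G T u : E4 ≃ₜ E4} (hG : PD s G) (h0 : T 0 = 0)
    {b : E4} (hb : b ≠ 0) (hk : ∀ k : ℤ, T ((G ^ k : E4 ≃ₜ E4) b) = ((2 : ℝ) ^ (-k)) • T b)
    (hu : PD 1 u) :
    ∃ Q : E4 ≃ₜ E4, Q 0 = 0 ∧ (∀ x, x ≠ 0 → (∀ k : ℤ, x ≠ (G ^ k : E4 ≃ₜ E4) b) → LD 1 Q x) ∧
      PD s (Q * G * Q⁻¹) ∧ Ext (Q * G * Q⁻¹ * G⁻¹ * u) := by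
  set e : E4 ≃ₜ E4 := tr b * u * tr (-b) with he
  have heb : e b = b := by
    show u (b + -b) + b = b
    rw [add_neg_cancel, hu.1, zero_add]
  have her : ∀ x, x ≠ b → LD 1 e x := by
    intro x hx
    have h2 : tr (-b) x ≠ 0 := by
      show x + -b ≠ 0
      rwa [← sub_eq_add_neg, sub_ne_zero]
    exact ((LD_tr b _).mul_one' (hu.2 _ h2)).mul_one' (LD_tr (-b) x)
  obtain ⟨Q₁, Q₂, S₁, S₂, -, q10, q20, -, -, c1, c2, a1, a2, a3, a4, l1, l2⟩ :=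
    two_chain_gen hs hG h0 hb hk heb her
  have hbk1 : ∀ k : ℤ, G ((G ^ k : E4 ≃ₜ E4) b) = (G ^ (k + 1) : E4 ≃ₜ E4) b := by
    intro k
    have : (G ^ (k + 1) : E4 ≃ₜ E4) = G * G ^ k := by rw [add_comm, zpow_one_add]
    rw [this]
    rfl
  have hbk0 : ∀ k : ℤ, (G ^ k : E4 ≃ₜ E4) b ≠ 0 := fun k => (hG.zpow' hs k).ne hb
  have hEk : ∀ k : ℤ, (G ^ k * e * (G ^ k)⁻¹ : E4 ≃ₜ E4) ((G ^ k : E4 ≃ₜ E4) b) =
      (G ^ k : E4 ≃ₜ E4) b := by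
    intro k
    show (G ^ k : E4 ≃ₜ E4) (e (((G ^ k)⁻¹ : E4 ≃ₜ E4) ((G ^ k : E4 ≃ₜ E4) b))) = _
    rw [inv_apply_self', heb]
  have hEG : ∀ k : ℤ, (G ^ (k + 1) * e * (G ^ (k + 1))⁻¹) * G * (G ^ k * e * (G ^ k)⁻¹)⁻¹ = G := by
    intro k
    have : (G ^ (k + 1) : E4 ≃ₜ E4) = G * G ^ k := by rw [add_comm, zpow_one_add]
    rw [this]
    generalize (G ^ k : E4 ≃ₜ E4) = g
    group
  set Q : E4 ≃ₜ E4 := Q₁ * Q₂ with hQ
  have hQ0 : Q 0 = 0 := by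
    show Q₁ (Q₂ 0) = 0
    rw [q20, q10]
  have hQi0 : (Q⁻¹ : E4 ≃ₜ E4) 0 = 0 := by
    conv_lhs => rw [← hQ0]
    exact inv_apply_self' Q 0
  have hQnear : ∀ k : ℤ, ∀ᶠ x in 𝓝 ((G ^ k : E4 ≃ₜ E4) b),
      Q x = (G ^ k * e * (G ^ k)⁻¹ : E4 ≃ₜ E4) x := by
    intro k
    rcases le_or_gt 0 k with hk | hk
    · filter_upwards [a4 k hk, a1 k hk] with x h1 h2
      show Q₁ (Q₂ x) = _
      rw [h1, h2]
    · filter_upwards [a2 k hk, (resm_tendsto _ (hEk k)).eventually (a3 k hk)] with x h1 h2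
      show Q₁ (Q₂ x) = _
      rw [h1, h2]
  have hQb : ∀ k : ℤ, Q ((G ^ k : E4 ≃ₜ E4) b) = (G ^ k : E4 ≃ₜ E4) b := fun k =>
    (hQnear k).self_of_nhds.trans (hEk k)
  have hQL : ∀ x, x ≠ 0 → (∀ k : ℤ, x ≠ (G ^ k : E4 ≃ₜ E4) b) → LD 1 Q x := by
    intro x hx hk
    refine (l1 (Q₂ x) ?_ ?_).mul_one' (l2 x hx (fun k _ => hk k))
    · intro h
      exact hx (Q₂.injective (h.trans q20.symm))
    · intro k hk0 h
      exact hk k (Q₂.injective (h.trans (a4 k hk0).self_of_nhds.symm))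
  -- the new generator
  have hP : PD s (Q * G * Q⁻¹) := by
    refine ⟨?_, fun y hy => ?_⟩
    · show Q (G ((Q⁻¹ : E4 ≃ₜ E4) 0)) = 0
      rw [hQi0, hG.1, hQ0]
    · have hx0 : (Q⁻¹ : E4 ≃ₜ E4) y ≠ 0 := by
        intro h
        apply hy
        rw [← apply_inv_self' Q y, h, hQ0]
      by_cases hk : ∃ k : ℤ, (Q⁻¹ : E4 ≃ₜ E4) y = (G ^ k : E4 ≃ₜ E4) b
      · obtain ⟨k, hk⟩ := hk
        have hyb : y = (G ^ k : E4 ≃ₜ E4) b := by
          rw [← apply_inv_self' Q y, hk, hQb]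
        have h1 := resm_inv (hQnear k) (hEk k)
        have h2 : (((G ^ k * e * (G ^ k)⁻¹)⁻¹ : E4 ≃ₜ E4)) ((G ^ k : E4 ≃ₜ E4) b) =
            (G ^ k : E4 ≃ₜ E4) b := by
          conv_lhs => rw [← hEk k]
          exact inv_apply_self' _ _
        have h3 : (G * (G ^ k * e * (G ^ k)⁻¹)⁻¹ : E4 ≃ₜ E4) ((G ^ k : E4 ≃ₜ E4) b) =
            (G ^ (k + 1) : E4 ≃ₜ E4) b := by
          show G ((((G ^ k * e * (G ^ k)⁻¹)⁻¹ : E4 ≃ₜ E4)) ((G ^ k : E4 ≃ₜ E4) b)) = _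
          rw [h2, hbk1]
        have hev : (G : E4 → E4) =ᶠ[𝓝 y] (Q * G * Q⁻¹ : E4 ≃ₜ E4) := by
          rw [hyb]
          filter_upwards [h1, (resm_tendsto _ h3).eventually (hQnear (k + 1))] with z z1 z2
          show G z = Q (G ((Q⁻¹ : E4 ≃ₜ E4) z))
          rw [z1]
          have z3 : G ((((G ^ k * e * (G ^ k)⁻¹)⁻¹ : E4 ≃ₜ E4)) z) =
            (G * (G ^ k * e * (G ^ k)⁻¹)⁻¹ : E4 ≃ₜ E4) z := rfl
          rw [z3, z2]
          have z4 := DFunLike.congr_fun (hEG k) z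
          rw [← z4]
          rfl
        exact (hG.2 y hy).congr hev
      · push Not at hk
        have h1 : LD 1 (Q⁻¹ : E4 ≃ₜ E4) y := LD.inv' (hQL _ hx0 hk)
        have h2 : LD s G ((Q⁻¹ : E4 ≃ₜ E4) y) := hG.2 _ hx0
        have h3 : LD 1 Q (G ((Q⁻¹ : E4 ≃ₜ E4) y)) := by
          refine hQL _ (hG.ne hx0) (fun k h => ?_)
          refine hk (k - 1) (G.injective (h.trans ?_))
          rw [hbk1, sub_add_cancel]
        have h4 := (h3.mul h2).mul h1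
        rwa [one_mul, mul_one] at h4
  refine ⟨Q, hQ0, hQL, hP, ?_⟩
  -- the class
  set W : E4 ≃ₜ E4 := Q * G * Q⁻¹ * G⁻¹ with hWdef
  have hW : PD 1 W := by
    have h1 := hP.mul hG.inv
    rwa [hs] at h1
  set W₁ : E4 ≃ₜ E4 := Q₁ * G * Q₁⁻¹ * G⁻¹ with hW₁def
  have q1i0 : (Q₁⁻¹ : E4 ≃ₜ E4) 0 = 0 := by
    conv_lhs => rw [← q10]
    exact inv_apply_self' Q₁ 0
  have q2i0 : (Q₂⁻¹ : E4 ≃ₜ E4) 0 = 0 := by
    conv_lhs => rw [← q20]
    exact inv_apply_self' Q₂ 0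
  have hb0 : (G ^ (0 : ℤ) : E4 ≃ₜ E4) b = b := by rw [zpow_zero]; rfl
  have hbm : (G⁻¹ : E4 ≃ₜ E4) b = (G ^ (-1 : ℤ) : E4 ≃ₜ E4) b := by rw [zpow_neg_one]
  have q1b : ∀ k : ℤ, 0 ≤ k → Q₁ ((G ^ k : E4 ≃ₜ E4) b) = (G ^ k : E4 ≃ₜ E4) b := fun k hk =>
    (a1 k hk).self_of_nhds.trans (hEk k)
  have hW1b : ∀ᶠ z in 𝓝 b, W₁ z = e z := by
    have t1 := resm_tendsto G⁻¹ hbm
    have t2 := resm_inv (F := 1) (a3 (-1) (by norm_num)) rfl
    have t3 := a1 0 le_rfl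
    rw [zpow_zero, one_mul, inv_one, mul_one] at t3
    filter_upwards [t1.eventually t2, t3] with z z1 z2
    show Q₁ (G ((Q₁⁻¹ : E4 ≃ₜ E4) ((G⁻¹ : E4 ≃ₜ E4) z))) = e z
    rw [z1]
    show Q₁ (G (((1 : E4 ≃ₜ E4)⁻¹ : E4 ≃ₜ E4) ((G⁻¹ : E4 ≃ₜ E4) z))) = e z
    rw [inv_one, one_apply', apply_inv_self', z2]
  have hW1L : ∀ z, z ≠ 0 → z ≠ b → LD 1 W₁ z := by
    intro z hz hzb
    set w : E4 := (Q₁⁻¹ : E4 ≃ₜ E4) ((G⁻¹ : E4 ≃ₜ E4) z) with hw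
    have hGz : (G⁻¹ : E4 ≃ₜ E4) z ≠ 0 := hG.inv.ne hz
    have hw0 : w ≠ 0 := by
      intro h
      apply hGz
      rw [← apply_inv_self' Q₁ ((G⁻¹ : E4 ≃ₜ E4) z), ← hw, h, q10]
    have hwz : Q₁ w = (G⁻¹ : E4 ≃ₜ E4) z := by rw [hw, apply_inv_self']
    by_cases hk : ∃ k : ℤ, 0 ≤ k ∧ w = (G ^ k : E4 ≃ₜ E4) b
    · obtain ⟨k, hk0, hk⟩ := hk
      have hz2 : (G⁻¹ : E4 ≃ₜ E4) z = (G ^ k : E4 ≃ₜ E4) b := by
        rw [← hwz, hk, q1b k hk0]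
      have h1 := resm_inv (a1 k hk0) (hEk k)
      have h2 : (((G ^ k * e * (G ^ k)⁻¹)⁻¹ : E4 ≃ₜ E4)) ((G ^ k : E4 ≃ₜ E4) b) =
          (G ^ k : E4 ≃ₜ E4) b := by
        conv_lhs => rw [← hEk k]
        exact inv_apply_self' _ _
      have h3 : (G * (G ^ k * e * (G ^ k)⁻¹)⁻¹ : E4 ≃ₜ E4) ((G ^ k : E4 ≃ₜ E4) b) =
          (G ^ (k + 1) : E4 ≃ₜ E4) b := by
        show G ((((G ^ k * e * (G ^ k)⁻¹)⁻¹ : E4 ≃ₜ E4)) ((G ^ k : E4 ≃ₜ E4) b)) = _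
        rw [h2, hbk1]
      have h4 : ∀ᶠ y in 𝓝 ((G ^ k : E4 ≃ₜ E4) b), Q₁ (G ((Q₁⁻¹ : E4 ≃ₜ E4) y)) = G y := by
        filter_upwards [h1, (resm_tendsto _ h3).eventually (a1 (k + 1) (by omega))] with y y1 y2
        rw [y1]
        have y3 : G ((((G ^ k * e * (G ^ k)⁻¹)⁻¹ : E4 ≃ₜ E4)) y) =
          (G * (G ^ k * e * (G ^ k)⁻¹)⁻¹ : E4 ≃ₜ E4) y := rfl
        rw [y3, y2]
        have y4 := DFunLike.congr_fun (hEG k) y
        conv_rhs => rw [← y4]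
        rfl
      have hev : ((1 : E4 ≃ₜ E4) : E4 → E4) =ᶠ[𝓝 z] W₁ := by
        filter_upwards [(resm_tendsto G⁻¹ hz2).eventually h4] with y hy
        show y = Q₁ (G ((Q₁⁻¹ : E4 ≃ₜ E4) ((G⁻¹ : E4 ≃ₜ E4) y)))
        rw [hy, apply_inv_self']
      exact (LD_one z).congr hev
    · push Not at hk
      have h1 : LD s (G⁻¹ : E4 ≃ₜ E4) z := hG.inv.2 z hz
      have h2 : LD 1 (Q₁⁻¹ : E4 ≃ₜ E4) ((G⁻¹ : E4 ≃ₜ E4) z) := LD.inv' (l1 w hw0 hk)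
      have h3 : LD s G w := hG.2 w hw0
      have h4 : LD 1 Q₁ (G w) := by
        refine l1 _ (hG.ne hw0) (fun k hk0 h => ?_)
        have hwk : w = (G ^ (k - 1) : E4 ≃ₜ E4) b := by
          refine G.injective (h.trans ?_)
          rw [hbk1, sub_add_cancel]
        rcases le_or_gt 0 (k - 1) with h5 | h5
        · exact hk _ h5 hwk
        · have h6 : k = 0 := by omega
          subst h6
          apply hzb
          have h7 : Q₁ w = w := by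
            rw [hwk]
            exact (a3 (0 - 1) h5).self_of_nhds
          have h8 : (G⁻¹ : E4 ≃ₜ E4) z = (G ^ ((0 : ℤ) - 1) : E4 ≃ₜ E4) b := by
            rw [← hwz, h7, hwk]
          have h9 : z = G ((G ^ ((0 : ℤ) - 1) : E4 ≃ₜ E4) b) := by
            rw [← h8, apply_inv_self']
          rw [h9, hbk1, sub_add_cancel, hb0]
      have h10 := ((h4.mul h3).mul h2).mul h1
      rwa [one_mul, mul_one, hs] at h10
  have hGi0 : (G⁻¹ : E4 ≃ₜ E4) 0 = 0 := hG.inv_zero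
  have hW10 : ∀ᶠ z in 𝓝 (0 : E4), W₁ z = W z := by
    have t0 : (Q₁⁻¹ * G⁻¹ : E4 ≃ₜ E4) 0 = 0 := by
      show (Q₁⁻¹ : E4 ≃ₜ E4) ((G⁻¹ : E4 ≃ₜ E4) 0) = 0
      rw [hGi0, q1i0]
    have t1 := resm_inv (F := 1) c2 rfl
    have t2 : (G * Q₁⁻¹ * G⁻¹ : E4 ≃ₜ E4) 0 = 0 := by
      show G ((Q₁⁻¹ : E4 ≃ₜ E4) ((G⁻¹ : E4 ≃ₜ E4) 0)) = 0
      rw [hGi0, q1i0, hG.1]
    filter_upwards [(resm_tendsto _ t0).eventually t1, (resm_tendsto _ t2).eventually c2]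
      with z z1 z2
    show Q₁ (G ((Q₁⁻¹ : E4 ≃ₜ E4) ((G⁻¹ : E4 ≃ₜ E4) z))) =
      Q (G ((Q⁻¹ : E4 ≃ₜ E4) ((G⁻¹ : E4 ≃ₜ E4) z)))
    have z3 : (Q⁻¹ : E4 ≃ₜ E4) ((G⁻¹ : E4 ≃ₜ E4) z) =
        (Q₁⁻¹ : E4 ≃ₜ E4) ((G⁻¹ : E4 ≃ₜ E4) z) := by
      have z4 : (Q⁻¹ : E4 ≃ₜ E4) = Q₂⁻¹ * Q₁⁻¹ := by rw [hQ, mul_inv_rev]
      rw [z4]
      exact z1
    rw [z3]
    show _ = Q₁ (Q₂ (G ((Q₁⁻¹ : E4 ≃ₜ E4) ((G⁻¹ : E4 ≃ₜ E4) z))))
    congr 1
    exact z2.symm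
  have hW1inf : EqInf W₁ 1 := by
    have t1 : EqInf Q₁ 1 := c1
    have t2 : EqInf W₁ (1 * G * 1⁻¹ * G⁻¹) :=
      ((t1.mul (EqInf.refl G)).mul t1.inv).mul (EqInf.refl _)
    rwa [one_mul, inv_one, mul_one, mul_inv_cancel] at t2
  -- the auxiliary map
  set c : E4 := e 0 with hc
  have hcb : c ≠ b := by
    intro h
    exact hb ((e.injective (h.trans heb.symm)).symm)
  have hei : (e⁻¹ : E4 ≃ₜ E4) c = 0 := by rw [hc]; exact inv_apply_self' e 0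
  have heib : (e⁻¹ : E4 ≃ₜ E4) b = b := by
    conv_lhs => rw [← heb]
    exact inv_apply_self' e b
  have hW₁0 : W₁ 0 = 0 := hW10.self_of_nhds.trans hW.1
  set X : E4 ≃ₜ E4 := W₁ * e⁻¹ * tr c with hX
  have hXP : PD 1 X := by
    refine ⟨?_, fun x hx => ?_⟩
    · show W₁ ((e⁻¹ : E4 ≃ₜ E4) (0 + c)) = 0
      rw [zero_add, hei, hW₁0]
    · by_cases hxb : x + c = b
      · have h1 : ∀ᶠ y in 𝓝 b, W₁ ((e⁻¹ : E4 ≃ₜ E4) y) = y := by
          filter_upwards [(resm_tendsto e⁻¹ heib).eventually hW1b] with y hy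
          rw [hy, apply_inv_self']
        have hev : (tr c : E4 → E4) =ᶠ[𝓝 x] X := by
          filter_upwards [(resm_tendsto (tr c) hxb).eventually h1] with y hy
          exact hy.symm
        exact (LD_tr c x).congr hev
      · have h1 : LD 1 (e⁻¹ : E4 ≃ₜ E4) (tr c x) := by
          refine LD.inv' (her _ (fun h => hxb ?_))
          have := congrArg e h
          rwa [apply_inv_self', heb] at this
        have h2 : LD 1 W₁ ((e⁻¹ : E4 ≃ₜ E4) (tr c x)) := by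
          refine hW1L _ (fun h => hx ?_) (fun h => hxb ?_)
          · have := congrArg e h
            rw [apply_inv_self'] at this
            have h3 : x + c = c := this
            simpa using h3
          · have := congrArg e h
            rwa [apply_inv_self', heb] at this
        exact (h2.mul_one' h1).mul_one' (LD_tr c x)
  have hY : Ext (W⁻¹ * X) := by
    refine Ext_of_LD (fun x => ?_)
    by_cases hx : x = 0
    · subst hx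
      have t1 : (e⁻¹ * tr c : E4 ≃ₜ E4) 0 = 0 := by
        show (e⁻¹ : E4 ≃ₜ E4) (0 + c) = 0
        rw [zero_add, hei]
      have hev : (e⁻¹ * tr c : E4 ≃ₜ E4) =ᶠ[𝓝 (0 : E4)] (W⁻¹ * X : E4 ≃ₜ E4) := by
        filter_upwards [(resm_tendsto _ t1).eventually hW10] with y hy
        show _ = (W⁻¹ : E4 ≃ₜ E4) (W₁ ((e⁻¹ * tr c : E4 ≃ₜ E4) y))
        rw [hy, inv_apply_self']
      have h1 : LD 1 (e⁻¹ : E4 ≃ₜ E4) (tr c 0) := by
        refine LD.inv' (her _ ?_)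
        show (e⁻¹ : E4 ≃ₜ E4) (0 + c) ≠ b
        rw [zero_add, hei]
        exact hb.symm
      exact (h1.mul_one' (LD_tr c 0)).congr hev
    · exact (hW.inv.mul_one' hXP).2 x hx
  -- near infinity
  have huX : Ext (u * X) := by
    obtain ⟨K, k1, k2, k3, k4⟩ := hSwap E4 hdim4 b hb
    have hKb : K b = 0 := by
      have := k3.self_of_nhds
      rw [this, sub_self]
    have hDE : Ext (K * tr b) := Ext_of_LD (fun x => (k1 _).mul_one' (LD_tr b x))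
    have h1 : Ext (u * (K * tr b) * u⁻¹) := Ext.conj hGerm hSwap hdim4 (one_mul 1) hDE hu
    have h2 : Ext (tr (-b) * tr c : E4 ≃ₜ E4) :=
      Ext_of_LD (fun x => (LD_tr (-b) _).mul_one' (LD_tr c x))
    obtain ⟨Θ, t1, t2⟩ := h1.mul h2
    refine ⟨Θ, t1, t2.trans ?_⟩
    have e1 : EqInf (u * (K * tr b) * u⁻¹ * (tr (-b) * tr c))
        (u * (1 * tr b) * u⁻¹ * (tr (-b) * tr c)) :=
      (((EqInf.refl u).mul (k4.eqInf.mul (EqInf.refl _))).mul (EqInf.refl _)).mul (EqInf.refl _)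
    have e2 : EqInf (u * X) (u * (1 * e⁻¹ * tr c)) :=
      (EqInf.refl u).mul ((hW1inf.mul (EqInf.refl _)).mul (EqInf.refl _))
    have e3 : u * (1 * tr b) * u⁻¹ * (tr (-b) * tr c) = u * (1 * e⁻¹ * tr c) := by
      have htr : (tr (-b) : E4 ≃ₜ E4)⁻¹ = tr b := by
        rw [inv_eq_iff_mul_eq_one]
        ext1 x
        show x + b + -b = x
        abel
      have htr' : (tr b : E4 ≃ₜ E4)⁻¹ = tr (-b) := by rw [← htr, inv_inv]
      rw [he, mul_inv_rev, mul_inv_rev, htr, htr']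
      simp only [one_mul, mul_assoc]
    exact e1.trans (e3 ▸ e2.symm)
  have hXm : cls W hW = cls X hXP := by
    have h1 : cls (W⁻¹ * X) (hW.inv.mul_one' hXP) = 1 := (cls_eq_one _).2 hY
    rw [cls_mul hW.inv hXP, cls_inv hW hW.inv, inv_mul_eq_one] at h1
    exact h1
  have huXm : cls u hu * cls X hXP = 1 := by
    rw [← cls_mul hu hXP]
    exact (cls_eq_one _).2 huX
  have hfin : cls (W * u) (hW.mul_one' hu) = 1 := by
    rw [cls_mul hW hu, hXm, mul_comm, huXm]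
  exact (cls_eq_one _).1 hfin

private theorem resm_tau (k : ℤ) (x : E4) : (tau ^ k : E4 ≃ₜ E4) x = ((2 : ℝ) ^ (-k)) • x := by
  induction k using Int.induction_on with
  | zero => simp
  | succ n ih =>
    have h1 : (tau ^ ((n : ℤ) + 1) : E4 ≃ₜ E4) = tau * tau ^ (n : ℤ) := by
      rw [add_comm, zpow_one_add]
    rw [h1, mul_apply', ih, tau_apply, smul_smul, neg_add, zpow_add₀ (by norm_num),
      zpow_neg_one, mul_comm]
  | pred n ih =>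
    have h1 : (tau ^ (-(n : ℤ) - 1) : E4 ≃ₜ E4) = tau⁻¹ * tau ^ (-(n : ℤ)) := by
      rw [sub_eq_add_neg, add_comm, zpow_add, zpow_neg_one]
    have h2 : ∀ y : E4, (tau⁻¹ : E4 ≃ₜ E4) y = (2 : ℝ) • y := by
      intro y
      refine (tau : E4 ≃ₜ E4).injective ?_
      rw [apply_inv_self', tau_apply, smul_smul, inv_mul_cancel₀ (by norm_num), one_smul]
    rw [h1, mul_apply', ih, h2, smul_smul]
    congr 1
    rw [show -(-(n : ℤ) - 1) = 1 + -(-(n : ℤ)) by ring, zpow_add₀ (by norm_num), zpow_one]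

/-- a contraction becomes a contraction of trivial class after a change of the smooth structure
along one orbit -/
theorem resmooth {G T : E4 ≃ₜ E4} (hG : PD 1 G) (h0 : T 0 = 0) (hT : T * G = tau * T) {b : E4}
    (hb : b ≠ 0) :
    ∃ Q : E4 ≃ₜ E4, Q 0 = 0 ∧ (∀ x, x ≠ 0 → (∀ k : ℤ, x ≠ (G ^ k : E4 ≃ₜ E4) b) → LD 1 Q x) ∧
      PD 1 (Q * G * Q⁻¹) ∧ Ext (Q * G * Q⁻¹) := by
  have hk : ∀ k : ℤ, T ((G ^ k : E4 ≃ₜ E4) b) = ((2 : ℝ) ^ (-k)) • T b := by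
    intro k
    have h1 : T * G ^ k = tau ^ k * T := (show SemiconjBy T G tau from hT).zpow_right k
    have h2 := DFunLike.congr_fun h1 b
    rw [← resm_tau]
    exact h2
  obtain ⟨Q, q1, q2, q3, q4⟩ := resmooth_gen (one_mul 1) hG h0 hb hk hG
  refine ⟨Q, q1, q2, q3, ?_⟩
  rwa [inv_mul_cancel_right] at q4

end Pool.Agent.HopfFin
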