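import Pool.Agent.HopfFin.FinIdx
import Pool.Agent.HopfFin.MainE
import Pool.Agent.HopfFin.Resmooth
import Pool.Agent.HopfFin.OffIff
import Pool.Agent.HopfFin.CovStd

/-!
# Infinitely many virtually standard manifolds which are not standard off one point
-/

set_option autoImplicit false

open scoped ContDiff Topology Manifold
open Set Filter Metric

namespace Pool.Agent.HopfFin

open Pool.Agent.HopfCov Pool.Agent.HopfCov.Smooth

private theorem tau_zpow_fp (k : ℤ) (x : E4) :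
    (tau ^ k : E4 ≃ₜ E4) x = ((2 : ℝ) ^ (-k)) • x := by
  induction k using Int.induction_on with
  | zero => simp
  | succ n ih =>
    have h1 : (tau ^ ((n : ℤ) + 1) : E4 ≃ₜ E4) = tau * tau ^ (n : ℤ) := by
      rw [add_comm, zpow_add, zpow_one]
    rw [h1, mul_apply', ih]
    show (2⁻¹ : ℝ) • ((2 : ℝ) ^ (-(n : ℤ)) • x) = (2 : ℝ) ^ (-((n : ℤ) + 1)) • x
    rw [smul_smul, neg_add, zpow_add₀ two_ne_zero, zpow_neg_one, mul_comm]
  | pred n ih =>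
    have h1 : (tau ^ (-(n : ℤ) - 1) : E4 ≃ₜ E4) = tau⁻¹ * tau ^ (-(n : ℤ)) := by
      rw [sub_eq_neg_add, zpow_add, zpow_neg_one]
    have h2 : ∀ y : E4, (tau⁻¹ : E4 ≃ₜ E4) y = (2 : ℝ) • y := by
      intro y
      apply (tau : E4 ≃ₜ E4).injective
      rw [apply_inv_self']
      show y = (2⁻¹ : ℝ) • ((2 : ℝ) • y)
      rw [smul_smul, inv_mul_cancel₀ two_ne_zero, one_smul]
    rw [h1, mul_apply', ih, h2, smul_smul]
    congr 1
    have h3 : (-(-(n : ℤ) - 1)) = 1 + (n : ℤ) := by ring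
    rw [h3, neg_neg, zpow_add₀ two_ne_zero, zpow_one]

/-- the orbit of `b` and `0` do not accumulate at `x` -/
theorem ev_off_gen {G T : E4 ≃ₜ E4} (h0 : T 0 = 0) {b x : E4}
    (hk : ∀ k : ℤ, T ((G ^ k : E4 ≃ₜ E4) b) = ((2 : ℝ) ^ (-k)) • T b)
    (hx : x ≠ 0) (hb : b ≠ 0) (hxb : ∀ k : ℤ, x ≠ (G ^ k : E4 ≃ₜ E4) b) :
    ∀ᶠ y in 𝓝 x, y ≠ 0 ∧ ∀ k : ℤ, y ≠ (G ^ k : E4 ≃ₜ E4) b := by
  have hTx : T x ≠ 0 := fun h => hx (T.injective (by rw [h, h0]))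
  have hTb : T b ≠ 0 := fun h => hb (T.injective (by rw [h, h0]))
  have hx1 : 0 < ‖T x‖ := norm_pos_iff.2 hTx
  have hb1 : 0 < ‖T b‖ := norm_pos_iff.2 hTb
  have hnorm : ∀ k : ℤ, ‖T ((G ^ k : E4 ≃ₜ E4) b)‖ = 2 ^ (-k) * ‖T b‖ := by
    intro k
    rw [hk, norm_smul, norm_zpow]
    norm_num
  obtain ⟨N₁, hN₁⟩ : ∃ N : ℕ, 2 * ‖T x‖ / ‖T b‖ < 2 ^ N := pow_unbounded_of_one_lt _ one_lt_two
  obtain ⟨N₂, hN₂⟩ : ∃ N : ℕ, 2 * ‖T b‖ / ‖T x‖ < 2 ^ N := pow_unbounded_of_one_lt _ one_lt_two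
  have e1 : ∀ᶠ y in 𝓝 x, ‖T x‖ / 2 < ‖T y‖ :=
    (T.continuous.norm.tendsto x).eventually (lt_mem_nhds (by linarith))
  have e2 : ∀ᶠ y in 𝓝 x, ‖T y‖ < 2 * ‖T x‖ :=
    (T.continuous.norm.tendsto x).eventually (gt_mem_nhds (by linarith))
  have e3 : ∀ᶠ y in 𝓝 x, ∀ k ∈ Finset.Icc (-(N₁ : ℤ)) N₂, y ≠ (G ^ k : E4 ≃ₜ E4) b := by
    rw [Filter.eventually_all_finset]
    intro k _
    exact isOpen_ne.mem_nhds (hxb k)
  filter_upwards [e1, e2, e3] with y h1 h2 h3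
  refine ⟨fun h => ?_, fun k hk => ?_⟩
  · rw [h, h0, norm_zero] at h1
    linarith
  · refine h3 k ?_ hk
    have h4 := hnorm k
    rw [← hk] at h4
    rw [Finset.mem_Icc]
    constructor
    · by_contra hcon
      have h5 : (N₁ : ℤ) ≤ -k := by omega
      have h6 : (2 : ℝ) ^ (N₁ : ℤ) ≤ 2 ^ (-k) := zpow_le_zpow_right₀ one_le_two h5
      rw [zpow_natCast] at h6
      have h7 : 2 * ‖T x‖ < 2 ^ N₁ * ‖T b‖ := (div_lt_iff₀ hb1).1 hN₁
      have h8 := mul_le_mul_of_nonneg_right h6 hb1.le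
      linarith
    · by_contra hcon
      have h5 : (N₂ : ℤ) ≤ k := by omega
      have h6 : (2 : ℝ) ^ (N₂ : ℤ) ≤ 2 ^ k := zpow_le_zpow_right₀ one_le_two h5
      rw [zpow_natCast] at h6
      have h7 : 2 * ‖T b‖ < 2 ^ N₂ * ‖T x‖ := (div_lt_iff₀ hx1).1 hN₂
      have h8 : 2 * ‖T b‖ < 2 ^ k * ‖T x‖ := lt_of_lt_of_le h7
        (mul_le_mul_of_nonneg_right h6 hx1.le)
      have h9 : (2 : ℝ) ^ k * ‖T y‖ = ‖T b‖ := by
        rw [h4, zpow_neg, ← mul_assoc, mul_inv_cancel₀ (zpow_ne_zero _ two_ne_zero), one_mul]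
      have h10 : (0 : ℝ) < 2 ^ k := zpow_pos two_pos k
      have h11 : (2 : ℝ) ^ k * (‖T x‖ / 2) < 2 ^ k * ‖T y‖ := mul_lt_mul_of_pos_left h1 h10
      rw [h9] at h11
      linarith

private theorem ev_off {G T : E4 ≃ₜ E4} (h0 : T 0 = 0) (hT : T * G = tau * T) {b x : E4}
    (hx : x ≠ 0) (hb : b ≠ 0) (hxb : ∀ k : ℤ, x ≠ (G ^ k : E4 ≃ₜ E4) b) :
    ∀ᶠ y in 𝓝 x, y ≠ 0 ∧ ∀ k : ℤ, y ≠ (G ^ k : E4 ≃ₜ E4) b := by
  refine ev_off_gen h0 (fun k => ?_) hx hb hxb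
  have hconj : T * G ^ k = tau ^ k * T := ((show SemiconjBy T G tau from hT).zpow_right k).eq
  rw [← mul_apply', hconj, mul_apply', tau_zpow_fp]

/-- the generator of a manifold which is not standard off one point, after a change of the smooth
structure along one orbit -/
theorem exists_star {M : Mfd4} (hM : InS M) (hO : ¬ OffPoint M) :
    ∃ G T : E4 ≃ₜ E4, Sm G ∧ Good G T e0 ∧ ¬ Off G ∧ Ext G := by
  obtain ⟨h1, h2, p, g, G, T, h3, h4, h5, h6, h7⟩ := lift_good hM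
  have he0 := e0_ne_level
  have hPD : PD 1 G := h7.PD h5 he0
  have hT0 := h7.zero
  -- a point off the ray
  obtain ⟨b, hb⟩ : ∃ b : E4, b = (T⁻¹ : E4 ≃ₜ E4) e1 := ⟨_, rfl⟩
  have hTb : T b = e1 := by rw [hb, apply_inv_self']
  have he1 : e1 ≠ 0 := by
    intro h
    have h8 := congrArg (fun x : E4 => x 1) h
    simp [e1] at h8
  have hb0 : b ≠ 0 := fun h => he1 (by rw [← hTb, h, hT0])
  obtain ⟨Q, q1, q2, q3, q4⟩ := resmooth hPD hT0 h7.conj hb0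
  have hconj : ∀ k : ℤ, T * G ^ k = tau ^ k * T := fun k =>
    ((show SemiconjBy T G tau from h7.conj).zpow_right k).eq
  have hreg : ∀ x, x ≠ 0 → (∀ k : ℤ, x ≠ (G ^ k : E4 ≃ₜ E4) b) → Reg Q x := by
    intro x hx hxb
    filter_upwards [ev_off hT0 h7.conj hx hb0 hxb] with y hy
    have h8 := q2 y hy.1 hy.2
    exact ⟨h8.1, fun h9 => by
      have h10 := h8.2
      rw [h9, mul_zero] at h10
      exact lt_irrefl _ h10⟩
  have hSm : Sm (Q * G * Q⁻¹) := Sm_of_PD q3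
  refine ⟨Q * G * Q⁻¹, T * Q⁻¹, hSm, ⟨?_, ?_, ?_⟩, ?_, q4⟩
  · have h8 : (Q⁻¹ : E4 ≃ₜ E4) 0 = 0 := Q.injective (by rw [apply_inv_self', q1])
    rw [mul_apply', h8, hT0]
  · calc T * Q⁻¹ * (Q * G * Q⁻¹) = (T * G) * Q⁻¹ := by group
      _ = tau * (T * Q⁻¹) := by rw [h7.conj]; group
  · intro t ht
    obtain ⟨x, hx⟩ : ∃ x : E4, x = (T⁻¹ : E4 ≃ₜ E4) (t • e0) := ⟨_, rfl⟩
    have hTx : T x = t • e0 := by rw [hx, apply_inv_self']
    have h8 : ((T * Q⁻¹)⁻¹ : E4 ≃ₜ E4) (t • e0) = Q x := by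
      rw [mul_inv_rev, inv_inv, mul_apply', hx]
    have hx0 : x ≠ 0 := by
      intro h
      rw [h, hT0] at hTx
      exact smul_ne_zero ht.ne' he0 hTx.symm
    have hxb : ∀ k : ℤ, x ≠ (G ^ k : E4 ≃ₜ E4) b := by
      intro k hk
      have h9 : T x = (tau ^ k : E4 ≃ₜ E4) e1 := by
        rw [hk, ← mul_apply', hconj, mul_apply', hTb]
      rw [hTx, tau_zpow_fp] at h9
      have h10 := congrArg (fun x : E4 => x 0) h9
      simp [e0, e1, ht.ne'] at h10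
    have h9 : Reg Q x := hreg x hx0 hxb
    have h10 : Reg T x := by
      have := h7.reg t ht
      rwa [← hx] at this
    rw [h8]
    have h11 : Reg (Q⁻¹ : E4 ≃ₜ E4) (Q x) := h9.symm
    have h12 : Reg T ((Q⁻¹ : E4 ≃ₜ E4) (Q x)) := by rwa [inv_apply_self']
    show Reg ((T : E4 → E4) ∘ (Q⁻¹ : E4 ≃ₜ E4)) (Q x)
    exact Reg.comp h12 h11
  · intro hoff
    have hc : Contr (Q * G * Q⁻¹) := h6.conj q1
    obtain ⟨φ, f1, f2⟩ := std_of_Off q3 hc hoff q4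
    refine hO (offPoint_of_sing (Φ := φ * Q) ⟨h1, h2⟩ h3 h4 (by rw [mul_apply', q1, f1.1]) ?_ hb0 ?_)
    · calc φ * Q * G = (φ * (Q * G * Q⁻¹)) * Q := by group
        _ = tau * (φ * Q) := by rw [f2]; group
    · intro x hx hxb
      have h8 : Q x ≠ 0 := fun h => hx (Q.injective (by rw [h, q1]))
      show Reg ((φ : E4 → E4) ∘ Q) x
      exact Reg.comp (f1.reg h8) (hreg x hx hxb)

/-- **Theorem F+** -/
theorem infinite_plus {M : Mfd4} (hM : InS M) (hO : ¬ OffPoint M) :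
    ∃ N : ℕ → Mfd4, (∀ k, InS (N k) ∧ ¬ OffPoint (N k) ∧ VirtuallyStandard (N k)) ∧
      ∀ i j, i ≠ j → ¬ Diffeomorphic (N i) (N j) := by
  obtain ⟨G, T, h1, h2, h3, h4⟩ := exists_star hM hO
  obtain ⟨V, h8, h9⟩ := main_E h1 h2 h3 h4
  choose T' h10 using fun k => (h8 k).2.2.2
  choose N q γ i1 i2 i3 i4 i5 using fun k => space_good (h8 k).1 (h10 k)
  refine ⟨N, fun k => ⟨i1 k, fun hoff => (h8 k).2.2.1 (off_of_offPoint ⟨i2 k, i3 k⟩ (i4 k) (i5 k)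
    (h10 k).contr hoff), virtuallyStandard_of ⟨i2 k, i3 k⟩ (i4 k) (i5 k)
    ((h10 k).PD (h8 k).1 e0_ne_level) (h10 k).contr (h8 k).2.1⟩, fun i j hij hd => h9 i j hij
      (cjV_of_diffeo ⟨i2 i, i3 i⟩ ⟨i2 j, i3 j⟩ (i4 i) (i4 j) (i5 i) (i5 j) (h10 i).contr
        (h10 j).contr hd)⟩

/-- all members of `S` are standard off one point if and only if all the virtually standard ones
are standard -/
theorem offPoint_iff_virt : (∀ M : Mfd4, InS M → OffPoint M) ↔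
    ∀ M : Mfd4, InS M → VirtuallyStandard M → DiffeoS1S3 M := by
  constructor
  · intro h M hM hV
    obtain ⟨h1, h2, p, g, G, T, h3, h4, h5, h6, h7⟩ := lift_good hM
    exact std_of_virt ⟨h1, h2⟩ h3 h4 (h7.PD h5 e0_ne_level) h6
      (off_of_offPoint ⟨h1, h2⟩ h3 h4 h6 (h M hM)) hV
  · intro h M hM
    by_contra hO
    obtain ⟨N, h1, -⟩ := infinite_plus hM hO
    obtain ⟨h2, h3, h4⟩ := h1 0
    obtain ⟨F⟩ := h _ h2 h4
    obtain ⟨-, v, -⟩ := h2.circle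
    exact h3 ⟨F.toHomeomorph, F.symm (1, v), fun x _ => F.isLocalDiffeomorph x⟩

end Pool.Agent.HopfFin
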