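import Pool.Agent.HopfFin.Statement
import Pool.Agent.HopfFin.ModelDir
import Pool.Agent.HopfFin.Good
import Pool.Agent.HopfCov.Bridge2
import Pool.Agent.HopfRem.OrbSp

/-!
# From generators to manifolds

Plan. Let `k : V4 ≃ₜ V4` be the restriction of `T`, `τ` the restriction of `tau`, `q₀` from
`modelDir`; `p = q₀ ∘ k : V4 → Circle × S3` is a surjective local homeomorphism whose fibres are the
orbits of `g`, the restriction of `G`; `exists_structure_gen` (`HopfRem/OrbSp.lean`) gives the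
smooth structure on `Circle × S3` for which `p` is an orbit map. `p` is a covering by
`isCoveringMap_of_orbits` and `free_of_contr` (`HopfCov/Deck.lean`, `Bridge2.lean`; `Contr G` by
`Good.contr`). For `NearCircle` take the identity homeomorphism and `v = e0`: if
`x = p y` and `x.2 = e0` then `k y` is on the ray, so `T` is regular near `y` (`Good.reg`), and the
identity is `q₀ ∘ k ∘ (local inverse of p)` near `x` (`descend_gen` with `Φ = k`, `g' = τ`).
-/

set_option autoImplicit false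

open scoped ContDiff Topology Manifold
open Set Filter Metric

namespace Pool.Agent.HopfFin

open Pool.Agent.HopfCov Pool.Agent.HopfCov.Smooth

private theorem LD_of_Reg_Space {T : E4 ≃ₜ E4} {x : E4} (h : Reg T x) :
    ∃ s : ℝ, ∀ᶠ y in 𝓝 x, LD s T y := by
  have hx := h.self_of_nhds
  have hc : ContinuousAt (fderiv ℝ T) x := hx.1.continuousAt_fderiv (by simp)
  have hd : ContinuousAt (fun y => (fderiv ℝ T y).det) x :=
    ContinuousLinearMap.continuous_det.continuousAt.comp hc
  refine ⟨(fderiv ℝ T x).det, ?_⟩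
  have h0 : 0 < (fderiv ℝ T x).det * (fderiv ℝ T x).det := mul_self_pos.2 hx.2
  have h1 : ∀ᶠ y in 𝓝 x, 0 < (fderiv ℝ T x).det * (fderiv ℝ T y).det :=
    (continuousAt_const.mul hd).eventually (isOpen_Ioi.mem_nhds h0)
  filter_upwards [h, h1] with y hy hy1 using ⟨hy.1, hy1⟩

/-- the orbit space of a good generator is a manifold of the class `S` -/
theorem space_good {G T : E4 ≃ₜ E4} (hG : Sm G) (hT : Good G T e0) :
    ∃ (M : Mfd4) (p : V4 → M.carrier) (g : V4 ≃ₜ V4), InS M ∧ T2Space M ∧ CompactSpace M ∧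
      OrbitMap g p ∧ Extends G g := by
  have he0 : e0 ≠ 0 := by
    intro h
    have h1 := norm_e0
    rw [h, norm_zero] at h1
    exact zero_ne_one h1
  have hPD : PD 1 G := hT.PD hG he0
  have hC : Contr G := hT.contr
  obtain ⟨τ, h5, h6⟩ := exists_tau
  obtain ⟨q₀, c1, c2, c3, c4⟩ := modelDir τ h6
  obtain ⟨g, hGg⟩ := exists_restr hPD
  obtain ⟨k, k1, -, k3⟩ := restr_gen T hT.zero
  have k1' : Extends T k := fun x => (k1 x).symm
  have hconj : k * g = τ * k := by
    have d1 : Extends (T * G) (k * g) := k1'.mul hGg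
    have d2 : Extends (tau * T) (τ * k) := h5.mul k1'
    rw [hT.conj] at d1
    exact d1.eq_of d2
  have hsc : SemiconjBy k g τ := hconj
  have hpow : ∀ (n : ℤ) (x : V4), k ((g ^ n) x) = (τ ^ n) (k x) := fun n x =>
    DFunLike.congr_fun (hsc.zpow_right n).eq x
  have hsu : Function.Surjective fun x => q₀ (k x) := c1.comp k.surjective
  have hl : IsLocalHomeomorph fun x => q₀ (k x) := c2.isLocalHomeomorph.comp k.isLocalHomeomorph
  have hf : ∀ x y, q₀ (k x) = q₀ (k y) ↔ ∃ n : ℤ, y = (g ^ n) x := by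
    intro x y
    rw [c3]
    constructor
    · rintro ⟨n, hn⟩
      exact ⟨n, k.injective (by rw [hn, hpow])⟩
    · rintro ⟨n, hn⟩
      exact ⟨n, by rw [hn, hpow]⟩
  obtain ⟨C, hman, hp⟩ := exists_structure_gen (one_mul 1) (p := fun x => q₀ (k x)) hGg hPD
    hsu hl hf
  let M : Mfd4 := ⟨Circle × sphere (0 : E4) 1, inferInstance, C, hman⟩
  have a1 : T2Space M.carrier := inferInstanceAs (T2Space (Circle × sphere (0 : E4) 1))
  have a2 : CompactSpace M.carrier := inferInstanceAs (CompactSpace (Circle × sphere (0 : E4) 1))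
  have hp' : OrbitMap g (M := M.carrier) (fun x => q₀ (k x)) := hp
  obtain ⟨F, F1, F2⟩ := descend_gen hp' c1 c2 c3 k hconj
  refine ⟨M, fun x => q₀ (k x), g, ⟨?_, ?_⟩, a1, a2, hp', hGg⟩
  · refine ⟨F, (⟨e0, by rw [mem_sphere_zero_iff_norm]; exact norm_e0⟩ : sphere (0 : E4) 1), ?_⟩
    intro x hx
    obtain ⟨y, rfl⟩ := hp'.surj x
    refine F2 y ?_
    have e1 : (q₀ (k y)).2 = ⟨e0, by rw [mem_sphere_zero_iff_norm]; exact norm_e0⟩ := by
      rw [← F1 y]
      exact hx
    have e2 := c4 (k y)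
    rw [e1] at e2
    have hk : ((k y : V4) : E4) ≠ 0 := (k y).2
    have hn : 0 < ‖((k y : V4) : E4)‖ := norm_pos_iff.2 hk
    have e3 : ((k y : V4) : E4) = ‖((k y : V4) : E4)‖ • e0 := by
      have e4 : e0 = ‖((k y : V4) : E4)‖⁻¹ • ((k y : V4) : E4) := e2
      rw [e4, smul_smul, mul_inv_cancel₀ hn.ne', one_smul]
    have e5 : ((T⁻¹ : E4 ≃ₜ E4) (‖((k y : V4) : E4)‖ • e0)) = (y : E4) := by
      rw [← e3, k1 y]
      exact T.symm_apply_apply _
    have e6 := hT.reg _ hn
    rw [e5] at e6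
    obtain ⟨s, hs⟩ := LD_of_Reg_Space e6
    exact k3 s y hs
  · exact ⟨fun x => q₀ (k x), isCoveringMap_of_orbits hp'.loc.isLocalHomeomorph hp'.surj hp'.fib
      fun n x hx => free_of_contr hGg hC n x hx, hp'.loc⟩

end Pool.Agent.HopfFin
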