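import Pool.Agent.HopfFin.Defs

/-!
# Elementary properties of the definitions
-/

set_option autoImplicit false

open scoped ContDiff Topology
open Set Filter Metric

namespace Pool.Agent.HopfFin

open Pool.Agent.HopfCov

/-! ### diffeomorphisms of the punctured space -/

private theorem ld_of {f : E4 → E4} {x : E4}
    (h : ContDiffAt ℝ ∞ f x ∧ (fderiv ℝ f x).det ≠ 0) : LD (fderiv ℝ f x).det f x :=
  ⟨h.1, mul_self_pos.2 h.2⟩

private theorem of_ld {s : ℝ} {f : E4 → E4} {x : E4} (h : LD s f x) :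
    ContDiffAt ℝ ∞ f x ∧ (fderiv ℝ f x).det ≠ 0 := ⟨h.1, fun h0 => by
  have := h.2
  rw [h0, mul_zero] at this
  exact lt_irrefl _ this⟩

theorem Sm.one : Sm 1 := ⟨rfl, fun x _ => of_ld (LD_one x)⟩

private theorem sm_ne {h : E4 ≃ₜ E4} (hh : Sm h) {x : E4} (hx : x ≠ 0) : h x ≠ 0 := fun h0 =>
  hx (h.injective (h0.trans hh.1.symm))

theorem Sm.mul {g h : E4 ≃ₜ E4} (hg : Sm g) (hh : Sm h) : Sm (g * h) := by
  refine ⟨?_, fun x hx => ?_⟩
  · rw [mul_apply', hh.1, hg.1]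
  · exact of_ld ((ld_of (hg.2 _ (sm_ne hh hx))).mul (ld_of (hh.2 x hx)))

theorem Sm.inv {h : E4 ≃ₜ E4} (hh : Sm h) : Sm h⁻¹ := by
  have h0 : (h⁻¹ : E4 ≃ₜ E4) 0 = 0 := by
    conv_lhs => rw [← hh.1]
    exact inv_apply_self' h 0
  refine ⟨h0, fun x hx => ?_⟩
  have hne : (h⁻¹ : E4 ≃ₜ E4) x ≠ 0 := by
    intro h1
    apply hx
    rw [← apply_inv_self' h x, h1, hh.1]
  exact of_ld (LD.inv' (ld_of (hh.2 _ hne)))

theorem Sm.pow {h : E4 ≃ₜ E4} (hh : Sm h) (n : ℕ) : Sm (h ^ n) := by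
  induction n with
  | zero => simpa using Sm.one
  | succ n ih => rw [pow_succ]; exact ih.mul hh

theorem Sm.ne {h : E4 ≃ₜ E4} (hh : Sm h) {x : E4} (hx : x ≠ 0) : h x ≠ 0 := fun h0 =>
  hx (h.injective (h0.trans hh.1.symm))

theorem Sm.reg {h : E4 ≃ₜ E4} (hh : Sm h) {x : E4} (hx : x ≠ 0) : Reg h x := by
  filter_upwards [isOpen_ne.mem_nhds hx] with y hy using hh.2 y hy

theorem Sm_of_PD {s : ℝ} {h : E4 ≃ₜ E4} (hh : PD s h) : Sm h :=
  ⟨hh.1, fun x hx => ⟨(hh.2 x hx).1, fun h0 => by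
    have := (hh.2 x hx).2
    rw [h0, mul_zero] at this
    exact lt_irrefl _ this⟩⟩

/-- the sign of the determinant is constant (`ℝ⁴ ∖ 0` is connected) -/
theorem Sm.exists_sign {h : E4 ≃ₜ E4} (hh : Sm h) : ∃ s : ℝ, s * s = 1 ∧ PD s h := by
  have hpre : IsPreconnected ({(0 : E4)}ᶜ : Set E4) := by
    refine (isConnected_compl_singleton_of_one_lt_rank ?_ 0).isPreconnected
    rw [← Module.finrank_eq_rank, finrank_euclideanSpace_fin]
    norm_num
  have hcont : ContinuousOn (fun x => (fderiv ℝ h x).det) ({(0 : E4)}ᶜ : Set E4) := by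
    intro x hx
    have h1 : ContDiffAt ℝ 0 (fderiv ℝ h) x := (hh.2 x hx).1.fderiv_right (by simp)
    exact (ContinuousLinearMap.continuous_det.continuousAt.comp
      h1.continuousAt).continuousWithinAt
  obtain ⟨a, ha⟩ := exists_ne (0 : E4)
  have hsign : ∀ x, x ≠ 0 → 0 < (fderiv ℝ h a).det * (fderiv ℝ h x).det := by
    intro x hx
    by_contra hcon
    rw [not_lt] at hcon
    have hane := (hh.2 a ha).2
    have hxne := (hh.2 x hx).2
    have key : ∃ z ∈ ({(0 : E4)}ᶜ : Set E4), (fderiv ℝ h z).det = 0 := by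
      rcases lt_or_gt_of_ne hane with h1 | h1
      · have h2 : 0 ≤ (fderiv ℝ h x).det := by
          by_contra h3
          rw [not_le] at h3
          have := mul_pos_of_neg_of_neg h1 h3
          linarith
        exact hpre.intermediate_value (show a ∈ ({(0 : E4)}ᶜ : Set E4) from ha)
          (show x ∈ ({(0 : E4)}ᶜ : Set E4) from hx) hcont ⟨h1.le, h2⟩
      · have h2 : (fderiv ℝ h x).det ≤ 0 := by
          by_contra h3
          rw [not_le] at h3
          have := mul_pos h1 h3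
          linarith
        exact hpre.intermediate_value (show x ∈ ({(0 : E4)}ᶜ : Set E4) from hx)
          (show a ∈ ({(0 : E4)}ᶜ : Set E4) from ha) hcont ⟨h2, h1.le⟩
    obtain ⟨z, hz, hz0⟩ := key
    exact (hh.2 z hz).2 hz0
  rcases lt_or_gt_of_ne (hh.2 a ha).2 with h1 | h1
  · refine ⟨-1, by norm_num, hh.1, fun x hx => ⟨(hh.2 x hx).1, ?_⟩⟩
    have := hsign x hx
    nlinarith
  · refine ⟨1, by norm_num, hh.1, fun x hx => ⟨(hh.2 x hx).1, ?_⟩⟩
    have := hsign x hx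
    rw [one_mul]
    exact (pos_iff_pos_of_mul_pos this).1 h1

theorem Reg.comp {f g : E4 → E4} {x : E4} (hg : Reg g (f x)) (hf : Reg f x) :
    Reg (g ∘ f) x := by
  have hc : ContinuousAt f x := (Filter.Eventually.self_of_nhds hf).1.continuousAt
  filter_upwards [hc.eventually hg, hf] with y h1 h2
  exact of_ld ((ld_of h1).comp (ld_of h2))

private theorem basic_eqv_nat {F : E4 → E4}
    (he : ∀ x, F ((2⁻¹ : ℝ) • x) = (2⁻¹ : ℝ) • F x) (n : ℕ) (x : E4) :
    F ((2 : ℝ) ^ n • x) = (2 : ℝ) ^ n • F x := by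
  have h2 : ∀ x, F ((2 : ℝ) • x) = (2 : ℝ) • F x := by
    intro x
    have := he ((2 : ℝ) • x)
    rw [smul_smul, inv_mul_cancel₀ (by norm_num), one_smul] at this
    rw [this, smul_smul, mul_inv_cancel₀ (by norm_num), one_smul]
  induction n with
  | zero => simp
  | succ n ih => rw [pow_succ', mul_smul, h2, ih, ← mul_smul]

private theorem basic_eqv {F : E4 → E4}
    (he : ∀ x, F ((2⁻¹ : ℝ) • x) = (2⁻¹ : ℝ) • F x) (n : ℤ) (x : E4) :
    F ((2 : ℝ) ^ n • x) = (2 : ℝ) ^ n • F x := by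
  rcases Int.eq_nat_or_neg n with ⟨m, rfl | rfl⟩
  · rw [zpow_natCast]
    exact basic_eqv_nat he m x
  · have h1 := basic_eqv_nat he m ((2 : ℝ) ^ (-(m : ℤ)) • x)
    rw [zpow_neg, zpow_natCast] at h1 ⊢
    rw [smul_smul, mul_inv_cancel₀ (by positivity), one_smul] at h1
    rw [h1, smul_smul, inv_mul_cancel₀ (by positivity), one_smul]

/-- upper and lower bounds of an equivariant map -/
private theorem basic_bounds {F : E4 → E4} (hi : Function.Injective F) (h0 : F 0 = 0)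
    (hc : ∀ x, x ≠ 0 → ContinuousAt F x)
    (he : ∀ x, F ((2⁻¹ : ℝ) • x) = (2⁻¹ : ℝ) • F x) :
    ∃ c C : ℝ, 0 < c ∧ ∀ x, ‖F x‖ ≤ C * ‖x‖ ∧ c * ‖x‖ ≤ ‖F x‖ := by
  set K : Set E4 := closedBall 0 2 \ ball 0 1 with hK
  have hKc : IsCompact K := (isCompact_closedBall _ _).diff isOpen_ball
  have hK0 : ∀ x ∈ K, x ≠ 0 := by
    rintro x hx rfl
    exact hx.2 (mem_ball_self one_pos)
  have hFc : ContinuousOn F K := fun x hx => (hc x (hK0 x hx)).continuousWithinAt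
  have hKne : K.Nonempty := by
    refine ⟨EuclideanSpace.single 0 1, ?_, ?_⟩
    · simp
    · simp
  obtain ⟨a, haK, ha⟩ := hKc.exists_isMinOn hKne hFc.norm
  obtain ⟨b, hbK, hb⟩ := hKc.exists_isMaxOn hKne hFc.norm
  have ha0 : 0 < ‖F a‖ := by
    rw [norm_pos_iff]
    intro h1
    exact hK0 a haK (hi (h1.trans h0.symm))
  refine ⟨‖F a‖ / 2, ‖F b‖, by positivity, fun x => ?_⟩
  by_cases hx : x = 0
  · subst hx
    rw [h0]
    simp
  have hxn : 0 < ‖x‖ := norm_pos_iff.2 hx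
  obtain ⟨n, hn1, hn2⟩ := exists_mem_Ico_zpow hxn (by norm_num : (1 : ℝ) < 2)
  have hp : (0 : ℝ) < (2 : ℝ) ^ n := by positivity
  set z : E4 := (2 : ℝ) ^ (-n) • x with hz
  have hzx : x = (2 : ℝ) ^ n • z := by
    rw [hz, smul_smul, ← zpow_add₀ (by norm_num), add_neg_cancel, zpow_zero, one_smul]
  have hzn : ‖x‖ = (2 : ℝ) ^ n * ‖z‖ := by
    conv_lhs => rw [hzx]
    rw [norm_smul, Real.norm_of_nonneg hp.le]
  have hz1 : 1 ≤ ‖z‖ := by
    rw [hzn] at hn1
    exact (le_mul_iff_one_le_right hp).1 hn1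
  have hz2 : ‖z‖ ≤ 2 := by
    rw [hzn, zpow_add_one₀ (by norm_num)] at hn2
    exact ((mul_lt_mul_iff_right₀ hp).1 hn2).le
  have hzK : z ∈ K := by
    refine ⟨by rwa [mem_closedBall_zero_iff], ?_⟩
    rw [mem_ball_zero_iff, not_lt]
    exact hz1
  have hFx : ‖F x‖ = (2 : ℝ) ^ n * ‖F z‖ := by
    conv_lhs => rw [hzx]
    rw [basic_eqv he, norm_smul, Real.norm_of_nonneg hp.le]
  have h3 : ‖F z‖ ≤ ‖F b‖ := hb hzK
  have h4 : ‖F a‖ ≤ ‖F z‖ := ha hzK
  rw [hFx, hzn]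
  constructor
  · calc (2 : ℝ) ^ n * ‖F z‖ ≤ (2 : ℝ) ^ n * ‖F b‖ := by gcongr
      _ = ‖F b‖ * ((2 : ℝ) ^ n * 1) := by ring
      _ ≤ ‖F b‖ * ((2 : ℝ) ^ n * ‖z‖) := by gcongr
  · calc ‖F a‖ / 2 * ((2 : ℝ) ^ n * ‖z‖) ≤ ‖F a‖ / 2 * ((2 : ℝ) ^ n * 2) := by gcongr
      _ = (2 : ℝ) ^ n * ‖F a‖ := by ring
      _ ≤ (2 : ℝ) ^ n * ‖F z‖ := by gcongr

/-- a bijective equivariant map which is a local diffeomorphism off `0` is in `Pz`; continuity of
the map and of its inverse at the origin follow from the equivariance and from the compactness of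
the annulus `1 ≤ ‖x‖ ≤ 2` -/
theorem mk_Pz (F : E4 → E4) (hb : Function.Bijective F) (h0 : F 0 = 0)
    (hs : ∀ x, x ≠ 0 → ContDiffAt ℝ ∞ F x ∧ (fderiv ℝ F x).det ≠ 0)
    (he : ∀ x, F ((2⁻¹ : ℝ) • x) = (2⁻¹ : ℝ) • F x) :
    ∃ h : E4 ≃ₜ E4, Pz h ∧ ∀ x, h x = F x := by
  obtain ⟨c, C, hc, hb'⟩ := basic_bounds hb.1 h0 (fun x hx => (hs x hx).1.continuousAt) he
  set e : E4 ≃ E4 := Equiv.ofBijective F hb with hedef
  have heF : ∀ x, e x = F x := fun x => rfl
  have hcont : Continuous F := by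
    rw [continuous_iff_continuousAt]
    intro x
    by_cases hx : x = 0
    · subst hx
      rw [ContinuousAt, h0]
      refine squeeze_zero_norm (fun y => (hb' y).1) ?_
      have h1 : Tendsto (fun y : E4 => C * ‖y‖) (𝓝 0) (𝓝 (C * ‖(0 : E4)‖)) :=
        (continuous_const.mul continuous_norm).tendsto 0
      simpa using h1
    · exact (hs x hx).1.continuousAt
  have hsymm : Continuous e.symm := by
    rw [continuous_iff_continuousAt]
    intro y
    by_cases hy : y = 0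
    · subst hy
      have he0 : e.symm 0 = 0 := by rw [Equiv.symm_apply_eq]; exact h0.symm
      rw [ContinuousAt, he0]
      have hbd : ∀ y, ‖e.symm y‖ ≤ c⁻¹ * ‖y‖ := by
        intro y
        have h1 := (hb' (e.symm y)).2
        have h2 : F (e.symm y) = y := e.apply_symm_apply y
        rw [h2] at h1
        rw [inv_mul_eq_div, le_div_iff₀ hc]
        linarith
      refine squeeze_zero_norm hbd ?_
      have h1 : Tendsto (fun y : E4 => c⁻¹ * ‖y‖) (𝓝 0) (𝓝 (c⁻¹ * ‖(0 : E4)‖)) :=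
        (continuous_const.mul continuous_norm).tendsto 0
      simpa using h1
    · set x := e.symm y with hx
      have hxy : F x = y := e.apply_symm_apply y
      have hx0 : x ≠ 0 := by
        intro h1
        rw [h1, h0] at hxy
        exact hy hxy.symm
      obtain ⟨h1, h2⟩ := hs x hx0
      set A : E4 ≃L[ℝ] E4 := (fderiv ℝ F x).toContinuousLinearEquivOfDetNeZero h2 with hA
      have hAc : (A : E4 →L[ℝ] E4) = fderiv ℝ F x := by
        rw [hA]; exact ContinuousLinearMap.coe_toContinuousLinearEquivOfDetNeZero _ _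
      have hstr : HasStrictFDerivAt F (A : E4 →L[ℝ] E4) x := by
        rw [hAc]
        exact h1.hasStrictFDerivAt (by simp)
      have hmap : map F (𝓝 x) = 𝓝 (F x) := hstr.map_nhds_eq_of_equiv
      rw [ContinuousAt, ← hx, ← hxy, ← hmap, tendsto_map'_iff]
      have h3 : (fun y => e.symm y) ∘ F = id := by
        funext z
        exact e.symm_apply_apply z
      exact (by rw [show (⇑e.symm ∘ F) = id from h3]; exact tendsto_id)
  refine ⟨⟨e, hcont, hsymm⟩, ⟨⟨h0, hs⟩, he⟩, fun x => rfl⟩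

/-! ### equivariant diffeomorphisms -/

theorem Pz.one : Pz 1 := ⟨Sm.one, fun _ => rfl⟩

theorem Pz.mul {g h : E4 ≃ₜ E4} (hg : Pz g) (hh : Pz h) : Pz (g * h) :=
  ⟨hg.sm.mul hh.sm, fun x => by
    rw [mul_apply', mul_apply', hh.eqv, hg.eqv]⟩

theorem Pz.inv {h : E4 ≃ₜ E4} (hh : Pz h) : Pz h⁻¹ :=
  ⟨hh.sm.inv, fun x => h.injective (by
    rw [apply_inv_self', hh.eqv, apply_inv_self'])⟩

theorem Pz.comm {h : E4 ≃ₜ E4} (hh : Pz h) : h * tau = tau * h := Homeomorph.ext hh.eqv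

theorem Pz.pow {h : E4 ≃ₜ E4} (hh : Pz h) (n : ℕ) : Pz (h ^ n) := by
  induction n with
  | zero => simpa using Pz.one
  | succ n ih => rw [pow_succ]; exact ih.mul hh

theorem Pz_of_comm {h : E4 ≃ₜ E4} (hh : Sm h) (hc : h * tau = tau * h) : Pz h :=
  ⟨hh, fun x => DFunLike.congr_fun hc x⟩

/-! ### supports -/

theorem Supp.mono {h : E4 ≃ₜ E4} {A B : Set E4} (hh : Supp h A) (hAB : A ⊆ B) : Supp h B :=
  fun x hx => hh x fun h' => hx (hAB h')

theorem Supp.mem {h : E4 ≃ₜ E4} {A : Set E4} (hh : Supp h A) {x : E4} (hx : x ∈ A) : h x ∈ A := by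
  by_contra hcon
  exact hcon (by rw [h.injective (hh _ hcon)]; exact hx)

theorem Supp.mul {g h : E4 ≃ₜ E4} {A : Set E4} (hg : Supp g A) (hh : Supp h A) :
    Supp (g * h) A := fun x hx => by rw [mul_apply', hh x hx, hg x hx]

theorem Supp.inv {h : E4 ≃ₜ E4} {A : Set E4} (hh : Supp h A) : Supp h⁻¹ A := fun x hx =>
  h.injective (by rw [apply_inv_self', hh x hx])

theorem Supp.conj {h : E4 ≃ₜ E4} {A : Set E4} (hh : Supp h A) (k : E4 ≃ₜ E4) :
    Supp (k * h * k⁻¹) (k '' A) := fun x hx => by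
  have h1 : (k⁻¹ : E4 ≃ₜ E4) x ∉ A := fun h' => hx ⟨_, h', apply_inv_self' k x⟩
  rw [mul_apply', mul_apply', hh _ h1, apply_inv_self']

/-- homeomorphisms with disjoint supports commute -/
theorem Supp.commute {g h : E4 ≃ₜ E4} {A B : Set E4} (hg : Supp g A) (hh : Supp h B)
    (hg0 : g 0 = 0) (hh0 : h 0 = 0) (hAB : ∀ x, x ∈ A → x ∈ B → x = 0) : Commute g h := by
  ext1 x
  show g (h x) = h (g x)
  by_cases h0 : x = 0
  · rw [h0, hh0, hg0, hh0]
  have hne : ∀ k : E4 ≃ₜ E4, k 0 = 0 → k x ≠ 0 := fun k hk h' =>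
    h0 (k.injective (h'.trans hk.symm))
  by_cases hA : x ∈ A
  · have hB : x ∉ B := fun h' => h0 (hAB x hA h')
    have hB' : g x ∉ B := fun h' => hne g hg0 (hAB _ (hg.mem hA) h')
    rw [hh x hB, hh _ hB']
  · rw [hg x hA]
    by_cases hB : x ∈ B
    · exact hg _ fun h' => hne h hh0 (hAB _ h' (hh.mem hB))
    · rw [hh x hB, hg x hA]

end Pool.Agent.HopfFin
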