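import Pool.Agent.HopfFin.Basic

/-!
# A generic direction

Plan. The sets `{l • (c t - c s)}`, `{l • deriv c t}`, `{l • c t}` are the ranges of smooth maps
from `ℝ × ℝ × ℝ`, `ℝ × ℝ`, `ℝ × ℝ` to `ℝ⁴`, all three are contained in the range of one smooth map
after adding dummy variables, or use that the complements of the ranges of `C¹` maps from spaces of
smaller dimension have dense complement (`ContDiff.dense_compl_range_of_finrank_lt_finrank`); to
treat the three sets at once use measure zero (`MeasureTheory.addHaar_image...`) or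
`dimH` (`dimH_union`, `ContDiff.dimH_range_le`, `dense_compl_of_dimH_lt_finrank`). Take a point
`q` of the complement; `q ≠ 0` as `l = 0` is allowed; the sets are invariant under multiplication
by scalars, so `q / ‖q‖` works.
-/

set_option autoImplicit false

open scoped ContDiff Topology
open Set Filter Metric

namespace Pool.Agent.HopfFin

open Pool.Agent.HopfCov

/-- for every smooth curve in `ℝ⁴` there is a unit vector which is not parallel to any secant,
tangent vector or position vector -/
theorem exists_dir (c : ℝ → E4) (hc : ContDiff ℝ ∞ c) :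
    ∃ q : E4, ‖q‖ = 1 ∧ (∀ s t l : ℝ, l • (c t - c s) ≠ q) ∧ (∀ t l : ℝ, l • deriv c t ≠ q) ∧
      ∀ t l : ℝ, l • c t ≠ q := by
  have hc1 : ContDiff ℝ 1 c := hc.of_le (by exact_mod_cast le_top)
  have hd1 : ContDiff ℝ 1 (deriv c) := by
    have h2 : ContDiff ℝ ∞ (deriv c) := (contDiff_infty_iff_deriv.mp hc).2
    exact h2.of_le (by exact_mod_cast le_top)
  set F1 : ℝ × ℝ × ℝ → E4 := fun p => p.2.2 • (c p.2.1 - c p.1) with hF1
  set F2 : ℝ × ℝ → E4 := fun p => p.2 • deriv c p.1 with hF2
  set F3 : ℝ × ℝ → E4 := fun p => p.2 • c p.1 with hF3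
  have h1 : ContDiff ℝ 1 F1 :=
    contDiff_snd.snd.smul ((hc1.comp contDiff_snd.fst).sub (hc1.comp contDiff_fst))
  have h2 : ContDiff ℝ 1 F2 := contDiff_snd.smul (hd1.comp contDiff_fst)
  have h3 : ContDiff ℝ 1 F3 := contDiff_snd.smul (hc1.comp contDiff_fst)
  have hE : Module.finrank ℝ E4 = 4 := by
    change Module.finrank ℝ (EuclideanSpace ℝ (Fin 4)) = 4
    rw [finrank_euclideanSpace_fin]
  have d1 : dimH (range F1) < 4 := by
    refine lt_of_le_of_lt h1.dimH_range_le ?_
    rw [Module.finrank_prod, Module.finrank_prod, Module.finrank_self]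
    norm_num
  have d2 : dimH (range F2) < 4 := by
    refine lt_of_le_of_lt h2.dimH_range_le ?_
    rw [Module.finrank_prod, Module.finrank_self]
    norm_num
  have d3 : dimH (range F3) < 4 := by
    refine lt_of_le_of_lt h3.dimH_range_le ?_
    rw [Module.finrank_prod, Module.finrank_self]
    norm_num
  have hd : dimH (range F1 ∪ (range F2 ∪ range F3)) < Module.finrank ℝ E4 := by
    rw [dimH_union, dimH_union, hE]
    exact max_lt (by exact_mod_cast d1) (max_lt (by exact_mod_cast d2) (by exact_mod_cast d3))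
  obtain ⟨q, hq⟩ := (dense_compl_of_dimH_lt_finrank hd).nonempty
  simp only [mem_compl_iff, mem_union, mem_range, not_or, not_exists] at hq
  obtain ⟨q1, q2, q3⟩ := hq
  have hq0 : q ≠ 0 := by
    rintro rfl
    exact q3 (0, 0) (zero_smul _ _)
  have hn : ‖q‖ ≠ 0 := norm_ne_zero_iff.mpr hq0
  have key : ∀ (v : E4) (l : ℝ), l • v = ‖q‖⁻¹ • q → (‖q‖ * l) • v = q := by
    intro v l hv
    rw [mul_smul, hv, smul_inv_smul₀ hn]
  refine ⟨‖q‖⁻¹ • q, ?_, fun s t l h => ?_, fun t l h => ?_, fun t l h => ?_⟩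
  · rw [norm_smul, norm_inv, norm_norm, inv_mul_cancel₀ hn]
  · exact q1 (s, t, ‖q‖ * l) (key _ _ h)
  · exact q2 (t, ‖q‖ * l) (key _ _ h)
  · exact q3 (t, ‖q‖ * l) (key _ _ h)

end Pool.Agent.HopfFin
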