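import Pool.Agent.HopfFin.Basic

/-!
# Perturbations of the identity

Plan: `u` is Lipschitz with constant `1/2` on `ℝ⁴` (mean value inequality on segments; a segment
through `0` is a limit of segments which avoid `0`, or cut it at `0`; `u` is continuous at `0`:
it is homogeneous in the sense of `he`, so bounded by `C ‖x‖`). Then `x ↦ x + u x` is a bijection
(Mathlib: `ApproximatesLinearOn.toHomeomorph` or `LipschitzWith` + contraction principle; compare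
`near_id` in `Pool/Agent/HopfCov/Germ.lean`), the derivative `1 + Du` is invertible off `0`; apply
`mk_Pz`.
-/

set_option autoImplicit false

open scoped ContDiff Topology
open Set Filter Metric

namespace Pool.Agent.HopfFin

open Pool.Agent.HopfCov

/-- if `‖A‖ ≤ 1 / 2` then `1 + A` is invertible -/
private theorem ni_det {A : E4 →L[ℝ] E4} (hA : ‖A‖ ≤ 1 / 2) :
    (ContinuousLinearMap.id ℝ E4 + A).det ≠ 0 := by
  intro h0
  have h1 : LinearMap.det ((ContinuousLinearMap.id ℝ E4 + A : E4 →L[ℝ] E4) : E4 →ₗ[ℝ] E4) = 0 :=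
    h0
  have h2 : ¬ Function.Injective
      ((ContinuousLinearMap.id ℝ E4 + A : E4 →L[ℝ] E4) : E4 →ₗ[ℝ] E4) := by
    intro hinj
    have h3 := LinearMap.isUnit_det _ ((LinearMap.isUnit_iff_ker_eq_bot
      ((ContinuousLinearMap.id ℝ E4 + A : E4 →L[ℝ] E4) : E4 →ₗ[ℝ] E4)).2
        (LinearMap.ker_eq_bot.2 hinj))
    rw [h1] at h3
    exact not_isUnit_zero h3
  apply h2
  rw [injective_iff_map_eq_zero]
  intro x hx
  have h4 : x + A x = 0 := hx
  by_contra hx0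
  have h5 : ‖x‖ = ‖A x‖ := by
    have : x = -(A x) := eq_neg_of_add_eq_zero_left h4
    calc ‖x‖ = ‖-(A x)‖ := by rw [← this]
      _ = ‖A x‖ := norm_neg _
  have h6 := A.le_opNorm x
  have h7 : 0 < ‖x‖ := norm_pos_iff.2 hx0
  nlinarith

private theorem ni_half {u : E4 → E4} (hs : ∀ x, x ≠ 0 → ContDiffAt ℝ ∞ u x)
    (hd : ∀ x, x ≠ 0 → ‖fderiv ℝ u x‖ ≤ 1 / 2) {x y : E4} (h : (0 : E4) ∉ segment ℝ x y) :
    ‖u y - u x‖ ≤ 1 / 2 * ‖y - x‖ := by
  refine (convex_segment x y).norm_image_sub_le_of_norm_fderiv_le (𝕜 := ℝ) (f := u) ?_ ?_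
    (left_mem_segment ℝ x y) (right_mem_segment ℝ x y)
  · intro z hz
    exact (hs z fun h0 => h (h0 ▸ hz)).differentiableAt (by simp)
  · intro z hz
    exact hd z fun h0 => h (h0 ▸ hz)

private theorem ni_norm {u : E4 → E4} (h0 : u 0 = 0) (hs : ∀ x, x ≠ 0 → ContDiffAt ℝ ∞ u x)
    (hd : ∀ x, x ≠ 0 → ‖fderiv ℝ u x‖ ≤ 1 / 2)
    (he : ∀ x, u ((2⁻¹ : ℝ) • x) = (2⁻¹ : ℝ) • u x) (x : E4) : ‖u x‖ ≤ 1 / 2 * ‖x‖ := by
  by_cases hx : x = 0
  · simp [hx, h0]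
  have hseg : (0 : E4) ∉ segment ℝ ((2⁻¹ : ℝ) • x) x := by
    rintro ⟨a, b, ha, hb, hab, h⟩
    rw [smul_smul, ← add_smul] at h
    rcases smul_eq_zero.1 h with h1 | h1
    · nlinarith
    · exact hx h1
  have h1 := ni_half hs hd hseg
  rw [he] at h1
  have h2 : ∀ y : E4, ‖y - (2⁻¹ : ℝ) • y‖ = 2⁻¹ * ‖y‖ := by
    intro y
    have : y - (2⁻¹ : ℝ) • y = (2⁻¹ : ℝ) • y := by
      rw [sub_eq_iff_eq_add, ← add_smul]
      norm_num
    rw [this, norm_smul]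
    norm_num
  rw [h2, h2] at h1
  linarith

private theorem ni_lip {u : E4 → E4} (h0 : u 0 = 0) (hs : ∀ x, x ≠ 0 → ContDiffAt ℝ ∞ u x)
    (hd : ∀ x, x ≠ 0 → ‖fderiv ℝ u x‖ ≤ 1 / 2)
    (he : ∀ x, u ((2⁻¹ : ℝ) • x) = (2⁻¹ : ℝ) • u x) (x y : E4) :
    ‖u x - u y‖ ≤ 1 / 2 * ‖x - y‖ := by
  by_cases h : (0 : E4) ∈ segment ℝ y x
  · have h1 := ni_norm h0 hs hd he x
    have h2 := ni_norm h0 hs hd he y
    have h3 : ‖x - y‖ = ‖x‖ + ‖y‖ := by
      have h4 := dist_add_dist_of_mem_segment h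
      rw [dist_zero_right, dist_zero_left, dist_comm, dist_eq_norm] at h4
      rw [← h4, add_comm]
    rw [h3]
    refine (norm_sub_le _ _).trans ?_
    linarith
  · exact ni_half hs hd h

/-- an equivariant map with small differential is a perturbation of the identity in `Pz` -/
theorem near_id_mk (u : E4 → E4) (h0 : u 0 = 0) (hs : ∀ x, x ≠ 0 → ContDiffAt ℝ ∞ u x)
    (hd : ∀ x, x ≠ 0 → ‖fderiv ℝ u x‖ ≤ 1 / 2)
    (he : ∀ x, u ((2⁻¹ : ℝ) • x) = (2⁻¹ : ℝ) • u x) :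
    ∃ F : E4 ≃ₜ E4, Pz F ∧ ∀ x, F x = x + u x := by
  have happ : ApproximatesLinearOn (fun x => x + u x)
      ((ContinuousLinearEquiv.refl ℝ E4 : E4 ≃L[ℝ] E4) : E4 →L[ℝ] E4) univ (1 / 2) := by
    intro x _ y _
    have h1 : (x + u x) - (y + u y) -
        ((ContinuousLinearEquiv.refl ℝ E4 : E4 ≃L[ℝ] E4) : E4 →L[ℝ] E4) (x - y) = u x - u y := by
      simp only [ContinuousLinearEquiv.coe_refl, ContinuousLinearMap.coe_id', id_eq]
      abel
    rw [h1]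
    have := ni_lip h0 hs hd he x y
    simpa using this
  have hcc : Subsingleton E4 ∨
      (1 / 2 : NNReal) < ‖((ContinuousLinearEquiv.refl ℝ E4).symm : E4 →L[ℝ] E4)‖₊⁻¹ := by
    right
    have h1 : ‖((ContinuousLinearEquiv.refl ℝ E4).symm : E4 →L[ℝ] E4)‖₊ = 1 := by
      simp
    rw [h1, inv_one]
    exact NNReal.half_lt_self one_ne_zero
  have hb : Function.Bijective (fun x => x + u x) := (happ.toHomeomorph _ hcc).bijective
  obtain ⟨F, h1, h2⟩ := mk_Pz (fun x => x + u x) hb (by simp [h0]) (fun x hx => by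
    refine ⟨contDiffAt_id.add (hs x hx), ?_⟩
    have hdf : DifferentiableAt ℝ u x := (hs x hx).differentiableAt (by simp)
    have h1 : fderiv ℝ (fun x => x + u x) x = ContinuousLinearMap.id ℝ E4 + fderiv ℝ u x := by
      rw [fderiv_fun_add differentiableAt_fun_id hdf, fderiv_fun_id]
    rw [h1]
    exact ni_det (hd x hx)) (fun x => by rw [he, smul_add])
  exact ⟨F, h1, h2⟩

/-- a function on the punctured space which is invariant under `x ↦ x / 2` is invariant under all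
powers of this map -/
theorem zpow_invariant {α : Type*} {F : E4 → α} (h : ∀ x, x ≠ 0 → F ((2⁻¹ : ℝ) • x) = F x)
    (k : ℤ) {x : E4} (hx : x ≠ 0) : F ((2 : ℝ) ^ k • x) = F x := by
  have h2 : ∀ x, x ≠ 0 → F ((2 : ℝ) • x) = F x := by
    intro x hx
    have h1 := h ((2 : ℝ) • x) (smul_ne_zero two_ne_zero hx)
    rw [smul_smul] at h1
    norm_num at h1
    exact h1.symm
  induction k with
  | zero => simp
  | succ k ih =>
    rw [← ih, zpow_add_one₀ two_ne_zero, mul_comm, ← smul_smul]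
    exact h2 _ (smul_ne_zero (zpow_ne_zero _ two_ne_zero) hx)
  | pred k ih =>
    rw [← ih, zpow_sub_one₀ two_ne_zero, mul_comm, ← smul_smul]
    exact h _ (smul_ne_zero (zpow_ne_zero _ two_ne_zero) hx)

/-- the powers of `2` move every point to the annulus -/
theorem exists_zpow_annulus2 {x : E4} (hx : x ≠ 0) :
    ∃ k : ℤ, 1 ≤ ‖(2 : ℝ) ^ k • x‖ ∧ ‖(2 : ℝ) ^ k • x‖ ≤ 2 := by
  obtain ⟨n, h1, h2⟩ := exists_mem_Ico_zpow (norm_pos_iff.2 hx) one_lt_two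
  have h3 : (0 : ℝ) < 2 ^ n := zpow_pos two_pos n
  have h4 : ‖(2 : ℝ) ^ (-n) • x‖ = (2 ^ n)⁻¹ * ‖x‖ := by
    rw [norm_smul, zpow_neg, norm_inv, Real.norm_eq_abs, abs_of_pos h3]
  refine ⟨-n, ?_, ?_⟩
  · rw [h4, le_inv_mul_iff₀ h3, mul_one]
    exact h1
  · rw [h4, inv_mul_le_iff₀ h3, ← zpow_add_one₀ two_ne_zero]
    exact h2.le

/-- an invariant continuous function is bounded -/
theorem bounded_of_invariant {V : Type*} [NormedAddCommGroup V] {F : E4 → V}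
    (hc : ∀ x, x ≠ 0 → ContinuousAt F x) (h : ∀ x, x ≠ 0 → F ((2⁻¹ : ℝ) • x) = F x) :
    ∃ C : ℝ, 0 < C ∧ ∀ x, x ≠ 0 → ‖F x‖ ≤ C := by
  have hK : IsCompact (closedBall (0 : E4) 2 ∩ {x | 1 ≤ ‖x‖}) :=
    (isCompact_closedBall _ _).inter_right (isClosed_le continuous_const continuous_norm)
  have hcn : ContinuousOn F (closedBall (0 : E4) 2 ∩ {x | 1 ≤ ‖x‖}) := by
    intro x hx
    have hx0 : x ≠ 0 := by
      rintro rfl
      have : (1 : ℝ) ≤ ‖(0 : E4)‖ := hx.2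
      rw [norm_zero] at this
      linarith
    exact (hc x hx0).continuousWithinAt
  obtain ⟨C, hC⟩ := hK.exists_bound_of_continuousOn hcn
  refine ⟨max C 1, by positivity, fun x hx => ?_⟩
  obtain ⟨k, h1, h2⟩ := exists_zpow_annulus2 hx
  rw [← zpow_invariant h k hx]
  refine (hC _ ⟨?_, h1⟩).trans (le_max_left _ _)
  rw [mem_closedBall_zero_iff]
  exact h2

/-- the differential of an equivariant map is invariant -/
theorem fderiv_invariant {u : E4 → E4} (he : ∀ x, u ((2⁻¹ : ℝ) • x) = (2⁻¹ : ℝ) • u x) (x : E4) :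
    fderiv ℝ u ((2⁻¹ : ℝ) • x) = fderiv ℝ u x := by
  have h1 : (fun y => u ((2⁻¹ : ℝ) • y)) = fun y => (2⁻¹ : ℝ) • u y := funext he
  have h2 : fderiv ℝ (fun y => u ((2⁻¹ : ℝ) • y)) x = (2⁻¹ : ℝ) • fderiv ℝ u ((2⁻¹ : ℝ) • x) :=
    fderiv_comp_smul (2⁻¹ : ℝ)
  have h3 : fderiv ℝ (fun y => (2⁻¹ : ℝ) • u y) x = (2⁻¹ : ℝ) • fderiv ℝ u x :=
    congrFun (fderiv_const_smul_field (𝕜 := ℝ) (f := u) (2⁻¹ : ℝ)) x
  rw [h1, h3] at h2
  exact (smul_right_injective _ (by norm_num : (2⁻¹ : ℝ) ≠ 0) h2).symm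

/-- the differential of an equivariant map is bounded (it is invariant under `x ↦ x / 2`, and
continuous on the compact annulus `1 ≤ ‖x‖ ≤ 2`) -/
theorem fderiv_bounded (u : E4 → E4) (hs : ∀ x, x ≠ 0 → ContDiffAt ℝ ∞ u x)
    (he : ∀ x, u ((2⁻¹ : ℝ) • x) = (2⁻¹ : ℝ) • u x) :
    ∃ C : ℝ, 0 < C ∧ ∀ x, x ≠ 0 → ‖fderiv ℝ u x‖ ≤ C := by
  refine bounded_of_invariant (F := fderiv ℝ u) (fun x hx => ?_) fun x _ => fderiv_invariant he x
  exact (hs x hx).continuousAt_fderiv (by simp)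

/-- small multiples of an equivariant vector field -/
theorem near_id_smul (u : E4 → E4) (h0 : u 0 = 0) (hs : ∀ x, x ≠ 0 → ContDiffAt ℝ ∞ u x)
    (he : ∀ x, u ((2⁻¹ : ℝ) • x) = (2⁻¹ : ℝ) • u x) :
    ∃ δ : ℝ, 0 < δ ∧ ∀ s : ℝ, |s| < δ → ∃ F : E4 ≃ₜ E4, Pz F ∧ ∀ x, F x = x + s • u x := by
  obtain ⟨C, hC, hCb⟩ := fderiv_bounded u hs he
  refine ⟨1 / (2 * C), by positivity, fun s hs' => ?_⟩
  refine near_id_mk (fun x => s • u x) (by simp [h0]) (fun x hx => (hs x hx).const_smul s)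
    (fun x hx => ?_) (fun x => by rw [he, smul_comm])
  have hdf : DifferentiableAt ℝ u x := (hs x hx).differentiableAt (by simp)
  have h1 : fderiv ℝ (fun x => s • u x) x = s • fderiv ℝ u x := fderiv_fun_const_smul hdf s
  rw [h1, norm_smul, Real.norm_eq_abs]
  calc |s| * ‖fderiv ℝ u x‖ ≤ 1 / (2 * C) * C := by
        gcongr
        exact hCb x hx
    _ = 1 / 2 := by field_simp

end Pool.Agent.HopfFin
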