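import Pool.Agent.HopfFin.Basic

/-!
# An equivariant partition of unity

Plan: `ρ₀ x = β (‖x‖²)` with a smooth bump function `β` of one variable, `β > 0` on `[1/4, 4]`,
`β = 0` off `(1/16, 16)`; `S x = ∑ᶠ k, ρ₀ (2^k x)` is a locally finite sum of smooth functions on
`ℝ⁴ ∖ 0`, positive, and invariant under `x ↦ 2 x` (reindexing); `ρ = ρ₀ / S` (and `0` at `0`).
-/

set_option autoImplicit false

open scoped ContDiff Topology
open Set Filter Metric

namespace Pool.Agent.HopfFin

open Pool.Agent.HopfCov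

/-- `σ (t + 1) - σ t` with the smooth transition function `σ` -/
private noncomputable def fRho (t : ℝ) : ℝ :=
  Real.smoothTransition (t + 1) - Real.smoothTransition t

private theorem fRho_contDiff : ContDiff ℝ ∞ fRho := by
  unfold fRho
  exact (Real.smoothTransition.contDiff.comp (contDiff_id.add contDiff_const)).sub
    Real.smoothTransition.contDiff

private theorem fRho_nonneg (t : ℝ) : 0 ≤ fRho t := by
  unfold fRho
  rcases le_total t 0 with h | h
  · rw [Real.smoothTransition.zero_of_nonpos h, sub_zero]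
    exact Real.smoothTransition.nonneg _
  · rw [Real.smoothTransition.one_of_one_le (by linarith : 1 ≤ t + 1)]
    linarith [Real.smoothTransition.le_one t]

private theorem fRho_zero (t : ℝ) (h : -1 < t → 1 ≤ t) : fRho t = 0 := by
  unfold fRho
  by_cases h1 : -1 < t
  · rw [Real.smoothTransition.one_of_one_le (h h1),
      Real.smoothTransition.one_of_one_le (by linarith [h h1] : 1 ≤ t + 1), sub_self]
  · rw [Real.smoothTransition.zero_of_nonpos (by linarith),
      Real.smoothTransition.zero_of_nonpos (by linarith), sub_self]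

private theorem fRho_sum (t : ℝ) : ∑ᶠ k : ℤ, fRho (t + k) = 1 := by
  have h0 := Int.floor_le t
  have h1 := Int.lt_floor_add_one t
  have hsub : Function.support (fun k : ℤ => fRho (t + k)) ⊆
      (({-⌊t⌋, -⌊t⌋ - 1} : Finset ℤ) : Set ℤ) := by
    intro k hk
    rw [Finset.coe_insert, Finset.coe_singleton, mem_insert_iff, mem_singleton_iff]
    by_contra hc
    push Not at hc
    apply hk
    apply fRho_zero
    intro h2
    by_contra h3
    push Not at h3
    have h4 : -⌊t⌋ - 2 < k := by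
      have h5 : ((-⌊t⌋ - 2 : ℤ) : ℝ) < (k : ℝ) := by
        push_cast
        linarith
      exact_mod_cast h5
    have h6 : k < -⌊t⌋ + 1 := by
      have h5 : (k : ℝ) < ((-⌊t⌋ + 1 : ℤ) : ℝ) := by
        push_cast
        linarith
      exact_mod_cast h5
    omega
  rw [finsum_eq_sum_of_support_subset _ hsub, Finset.sum_pair (by omega)]
  unfold fRho
  push_cast
  have h2 : Real.smoothTransition (t + -(⌊t⌋ : ℝ) + 1) = 1 :=
    Real.smoothTransition.one_of_one_le (by linarith)
  have h3 : Real.smoothTransition (t + (-(⌊t⌋ : ℝ) - 1)) = 0 :=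
    Real.smoothTransition.zero_of_nonpos (by linarith)
  have h4 : t + (-(⌊t⌋ : ℝ) - 1) + 1 = t + -(⌊t⌋ : ℝ) := by ring
  rw [h2, h3, h4]
  ring

/-- an equivariant partition of unity on `ℝ⁴ ∖ 0` with respect to `x ↦ x / 2`: the sum of
`ρ (2^k x)` over `k` is `1`, and the sum is finite near every point -/
theorem exists_rho : ∃ ρ : E4 → ℝ, ContDiffOn ℝ ∞ ρ {x | x ≠ 0} ∧ (∀ x, 0 ≤ ρ x) ∧
    (∀ x, ρ x ≠ 0 → 1 / 4 < ‖x‖ ∧ ‖x‖ < 4) ∧
    ∀ x, x ≠ 0 → ∑ᶠ k : ℤ, ρ ((2 : ℝ) ^ k • x) = 1 := by
  classical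
  have hl2 : 0 < Real.log 2 := Real.log_pos (by norm_num)
  refine ⟨fun x => if x = 0 then 0 else fRho (Real.log ‖x‖ / Real.log 2), ?_, fun x => ?_, ?_, ?_⟩
  · have h0 : ContDiffOn ℝ ∞ (fun x : E4 => fRho (Real.log ‖x‖ / Real.log 2)) {x | x ≠ 0} := by
      intro x hx
      have hx' : ‖x‖ ≠ 0 := norm_ne_zero_iff.2 hx
      have h1 : ContDiffAt ℝ ∞ (fun y : E4 => Real.log ‖y‖) x :=
        (contDiffAt_norm ℝ hx).log hx'
      have h2 : ContDiffAt ℝ ∞ (fun y : E4 => Real.log ‖y‖ / Real.log 2) x :=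
        h1.div_const _
      exact (fRho_contDiff.contDiffAt.comp x h2).contDiffWithinAt
    exact h0.congr fun x hx => if_neg hx
  · dsimp only
    by_cases hx : x = 0
    · rw [if_pos hx]
    · rw [if_neg hx]
      exact fRho_nonneg _
  · intro x hx
    by_cases hx0 : x = 0
    · exact absurd (if_pos hx0) hx
    dsimp only at hx
    rw [if_neg hx0] at hx
    have h1 : -1 < Real.log ‖x‖ / Real.log 2 ∧ Real.log ‖x‖ / Real.log 2 < 1 := by
      by_contra hc
      refine hx (fRho_zero _ ?_)
      by_contra hd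
      push Not at hd
      exact hc hd
    have hx1 : 0 < ‖x‖ := norm_pos_iff.2 hx0
    rw [lt_div_iff₀ hl2, div_lt_iff₀ hl2] at h1
    have h3 : Real.log (1 / 2) < Real.log ‖x‖ := by
      rw [one_div, Real.log_inv]
      linarith [h1.1]
    have h4 : Real.log ‖x‖ < Real.log 2 := by linarith [h1.2]
    have h5 := (Real.log_lt_log_iff (by norm_num) hx1).1 h3
    have h6 := (Real.log_lt_log_iff hx1 (by norm_num)).1 h4
    constructor <;> linarith
  · intro x hx
    have hx0 : 0 < ‖x‖ := norm_pos_iff.2 hx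
    have h1 : ∀ k : ℤ, (if (2 : ℝ) ^ k • x = 0 then (0 : ℝ) else
        fRho (Real.log ‖(2 : ℝ) ^ k • x‖ / Real.log 2)) =
        fRho (Real.log ‖x‖ / Real.log 2 + k) := by
      intro k
      have h2 : (2 : ℝ) ^ k ≠ 0 := (zpow_pos (by norm_num) k).ne'
      rw [if_neg (smul_ne_zero h2 hx), norm_smul, norm_zpow, Real.norm_eq_abs,
        abs_of_pos (by norm_num : (0 : ℝ) < 2), Real.log_mul h2 hx0.ne', Real.log_zpow, add_div,
        mul_div_assoc, div_self hl2.ne', mul_one, add_comm]
    simp only [h1]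
    exact fRho_sum _

end Pool.Agent.HopfFin
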