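import Pool.Agent.HopfFin.Cones
import Pool.Agent.HopfFin.Rho

/-!
# The time function of an embedded equivariant curve

Plan. `c` has no zero (`c t = 0` gives `c (t+1) = c t`). By periodicity and compactness of
`[0,1]`: `a * 2^(-t) ≤ ‖c t‖ ≤ b * 2^(-t)` with `0 < a ≤ b`, so `c` is proper onto its image in
`ℝ⁴ ∖ 0`. LOCAL: for `t₀` there are a neighbourhood `U` of `c t₀` and a smooth `τ` on `U` with
`τ (c t) = t` whenever `c t ∈ U`: take the functional `ℓ = ⟪deriv c t₀, ·⟫`; `ℓ ∘ c` has nonzero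
derivative at `t₀`, so it has a smooth local inverse (`HasStrictDerivAt.localInverse` or
`ContDiffAt.toOpenPartialHomeomorph`), `τ = (ℓ ∘ c)⁻¹ ∘ ℓ`; by injectivity and properness the
parameters `t` with `c t` near `c t₀` are near `t₀`. GLOBAL: let `N` be the compact annulus
`{1/4 ≤ ‖x‖ ≤ 4}`; `exists_contMDiff_forall_mem_convex_of_local` (or
`exists_contDiff_forall_mem_convex_of_local`) with the convex sets `{t}` at `c t ∈ N` and `univ`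
elsewhere (the set `c '' ℝ ∩ N` is closed) gives a smooth `T₀ : ℝ⁴ → ℝ` with `T₀ (c t) = t` for
`c t ∈ N`. AVERAGE: a smooth `ρ ≥ 0` supported in `{1/4 < ‖x‖ < 4}`, positive on
`{1/2 ≤ ‖x‖ ≤ 2}`, divided by `∑_k ρ (2^k x)` (locally finite sum over `k : ℤ`, at most five
terms); `T x = ∑_k ρ (2^k x) (T₀ (2^k x) + k)`. Then `T (x/2) = T x + 1`, and `T (c t) = t` since
`2^k c t = c (t - k)`.
-/

set_option autoImplicit false

open scoped ContDiff Topology Manifold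
open Set Filter Metric

namespace Pool.Agent.HopfFin

open Pool.Agent.HopfCov

/-! ### the curve -/

private theorem tm_two_zpow_mul (x : E4) (k l : ℤ) :
    (2 : ℝ) ^ k • (2 : ℝ) ^ l • x = (2 : ℝ) ^ (k + l) • x := by
  rw [smul_smul, ← zpow_add₀ (two_ne_zero)]

private theorem tm_half (x : E4) : (2⁻¹ : ℝ) • x = (2 : ℝ) ^ (-1 : ℤ) • x := by
  rw [zpow_neg_one]

private theorem tm_shift {c : ℝ → E4} (he : ∀ t, c (t + 1) = (2⁻¹ : ℝ) • c t) (n : ℕ) (t : ℝ) :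
    c (t + n) = (2 : ℝ) ^ (-(n : ℤ)) • c t := by
  induction n with
  | zero => simp
  | succ n ih =>
    rw [Nat.cast_succ, ← add_assoc, he, ih, tm_half, tm_two_zpow_mul]
    congr 2
    push_cast
    ring

private theorem tm_shiftZ {c : ℝ → E4} (he : ∀ t, c (t + 1) = (2⁻¹ : ℝ) • c t) (k : ℤ) (t : ℝ) :
    (2 : ℝ) ^ k • c t = c (t - k) := by
  rcases Int.eq_nat_or_neg k with ⟨n, rfl | rfl⟩
  · have h := tm_shift he n (t - n)
    rw [sub_add_cancel] at h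
    rw [h, tm_two_zpow_mul]
    simp
  · rw [← tm_shift he n t]
    push_cast
    rw [sub_neg_eq_add]

private theorem tm_ne {c : ℝ → E4} (hi : Function.Injective c)
    (he : ∀ t, c (t + 1) = (2⁻¹ : ℝ) • c t) (t : ℝ) : c t ≠ 0 := by
  intro h0
  have h1 : c (t + 1) = c t := by rw [he, h0, smul_zero]
  have h2 := hi h1
  linarith

private theorem tm_compact {c : ℝ → E4} (hc : Continuous c) (hi : Function.Injective c)
    (he : ∀ t, c (t + 1) = (2⁻¹ : ℝ) • c t) {α β : ℝ} (hα : 0 < α) :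
    IsCompact {t | α ≤ ‖c t‖ ∧ ‖c t‖ ≤ β} := by
  have hcl : IsClosed {t | α ≤ ‖c t‖ ∧ ‖c t‖ ≤ β} :=
    (isClosed_le continuous_const hc.norm).inter (isClosed_le hc.norm continuous_const)
  obtain ⟨s0, hs0, hmin⟩ := (isCompact_Icc (a := (0 : ℝ)) (b := 1)).exists_isMinOn
    ⟨0, by simp⟩ hc.norm.continuousOn
  obtain ⟨s1, hs1, hmax⟩ := (isCompact_Icc (a := (0 : ℝ)) (b := 1)).exists_isMaxOn
    ⟨0, by simp⟩ hc.norm.continuousOn
  have ha : 0 < ‖c s0‖ := norm_pos_iff.mpr (tm_ne hi he s0)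
  have hfl : ∀ t, ∃ s ∈ Icc (0 : ℝ) 1, ‖c t‖ = (2 : ℝ) ^ (-⌊t⌋) * ‖c s‖ := by
    intro t
    refine ⟨Int.fract t, ⟨Int.fract_nonneg t, (Int.fract_lt_one t).le⟩, ?_⟩
    have h := tm_shiftZ he (-⌊t⌋) (Int.fract t)
    have h2 : Int.fract t - ((-⌊t⌋ : ℤ) : ℝ) = t := by
      push_cast
      rw [sub_neg_eq_add, Int.fract_add_floor]
    rw [h2] at h
    rw [← h, norm_smul, Real.norm_of_nonneg (by positivity)]
  obtain ⟨m, hm⟩ : ∃ m : ℕ, ‖c s1‖ / α < 2 ^ m := pow_unbounded_of_one_lt _ one_lt_two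
  obtain ⟨m', hm'⟩ : ∃ m : ℕ, β / ‖c s0‖ < 2 ^ m := pow_unbounded_of_one_lt _ one_lt_two
  refine (isCompact_Icc (a := -(m' : ℝ)) (b := m)).of_isClosed_subset hcl fun t ht => ?_
  obtain ⟨s, hs, hst⟩ := hfl t
  have h1 : ‖c s0‖ ≤ ‖c s‖ := hmin hs
  have h2 : ‖c s‖ ≤ ‖c s1‖ := hmax hs
  have hp : 0 < (2 : ℝ) ^ (-⌊t⌋) := by positivity
  have h3 : ⌊t⌋ < m := by
    by_contra hcon
    rw [not_lt] at hcon
    rw [div_lt_iff₀ hα] at hm
    have h4 : (2 : ℝ) ^ (-⌊t⌋) * (2 : ℝ) ^ m ≤ 1 := by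
      rw [← zpow_natCast, ← zpow_add₀ two_ne_zero]
      exact zpow_le_one_of_nonpos₀ one_le_two (by omega)
    have h5 : α ≤ (2 : ℝ) ^ (-⌊t⌋) * ‖c s1‖ :=
      ht.1.trans (hst ▸ mul_le_mul_of_nonneg_left h2 hp.le)
    have h6 : (2 : ℝ) ^ (-⌊t⌋) * ‖c s1‖ < (2 : ℝ) ^ (-⌊t⌋) * (2 ^ m * α) :=
      mul_lt_mul_of_pos_left hm hp
    have h7 : (2 : ℝ) ^ (-⌊t⌋) * (2 ^ m * α) ≤ 1 * α := by
      rw [← mul_assoc]
      exact mul_le_mul_of_nonneg_right h4 hα.le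
    linarith
  have h3' : -(m' : ℤ) ≤ ⌊t⌋ := by
    by_contra hcon
    rw [not_le] at hcon
    rw [div_lt_iff₀ ha] at hm'
    have h4 : (2 : ℝ) ^ m' ≤ (2 : ℝ) ^ (-⌊t⌋) := by
      rw [← zpow_natCast]
      exact zpow_le_zpow_right₀ one_le_two (by omega)
    have h5 : (2 : ℝ) ^ (-⌊t⌋) * ‖c s0‖ ≤ β :=
      (mul_le_mul_of_nonneg_left h1 hp.le).trans (hst ▸ ht.2)
    have h6 : (2 : ℝ) ^ m' * ‖c s0‖ ≤ (2 : ℝ) ^ (-⌊t⌋) * ‖c s0‖ :=
      mul_le_mul_of_nonneg_right h4 ha.le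
    linarith
  constructor
  · have := Int.floor_le t
    have h8 : (-(m' : ℤ) : ℝ) ≤ ((⌊t⌋ : ℤ) : ℝ) := by exact_mod_cast h3'
    push_cast at h8
    linarith
  · have := Int.lt_floor_add_one t
    have h8 : ((⌊t⌋ : ℤ) : ℝ) + 1 ≤ (m : ℝ) := by exact_mod_cast h3
    linarith

/-! ### the local time function -/

private theorem tm_local {c : ℝ → E4} (hc : ContDiff ℝ ∞ c) (hi : Function.Injective c)
    (hd : ∀ t, deriv c t ≠ 0) (he : ∀ t, c (t + 1) = (2⁻¹ : ℝ) • c t) (t₀ : ℝ) :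
    ∃ (U : Set E4) (τ : E4 → ℝ), IsOpen U ∧ c t₀ ∈ U ∧ (∀ x ∈ U, ContDiffAt ℝ ∞ τ x) ∧
      ∀ t, c t ∈ U → τ (c t) = t := by
  set l : E4 →L[ℝ] ℝ := innerSL ℝ (deriv c t₀) with hl
  set f : ℝ → ℝ := fun t => l (c t) with hf
  have hfs : ContDiff ℝ ∞ f := l.contDiff.comp hc
  have hfd : ∀ t, HasDerivAt f (l (deriv c t)) t := fun t =>
    l.hasFDerivAt.comp_hasDerivAt t ((hc.differentiable (by simp)) t).hasDerivAt
  have hne : l (deriv c t₀) ≠ 0 := by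
    rw [hl, innerSL_apply_apply, real_inner_self_eq_norm_sq]
    exact pow_ne_zero _ (norm_ne_zero_iff.mpr (hd t₀))
  have hn : (∞ : WithTop ℕ∞) ≠ 0 := by simp
  set e := hfs.contDiffAt.toOpenPartialHomeomorph f ((hfd t₀).hasFDerivAt_equiv hne) hn with hee
  have hes : t₀ ∈ e.source :=
    hfs.contDiffAt.mem_toOpenPartialHomeomorph_source ((hfd t₀).hasFDerivAt_equiv hne) hn
  have hef : ∀ t, e t = f t := fun t => rfl
  have hdc : Continuous fun t => l (deriv c t) :=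
    l.continuous.comp (hc.continuous_deriv (by simp))
  set V : Set ℝ := e.source ∩ {t | l (deriv c t) ≠ 0} with hV
  have hVo : IsOpen V := e.open_source.inter (isOpen_ne_fun hdc continuous_const)
  have hVt : t₀ ∈ V := ⟨hes, hne⟩
  set W : Set ℝ := e.target ∩ e.symm ⁻¹' V with hW
  have hWo : IsOpen W := e.isOpen_inter_preimage_symm hVo
  have hWf : ∀ t ∈ V, f t ∈ W := fun t ht => by
    refine ⟨e.map_source ht.1, ?_⟩
    show e.symm (e t) ∈ V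
    rw [e.left_inv ht.1]
    exact ht
  have hpos : 0 < ‖c t₀‖ := norm_pos_iff.mpr (tm_ne hi he t₀)
  set K : Set ℝ := {t | ‖c t₀‖ / 2 ≤ ‖c t‖ ∧ ‖c t‖ ≤ 2 * ‖c t₀‖} ∩ Vᶜ with hK
  have hKc : IsCompact K :=
    (tm_compact hc.continuous hi he (by positivity)).inter_right hVo.isClosed_compl
  refine ⟨({x | ‖c t₀‖ / 2 < ‖x‖} ∩ {x | ‖x‖ < 2 * ‖c t₀‖}) ∩ (c '' K)ᶜ ∩ l ⁻¹' W,
    fun x => e.symm (l x), ?_, ?_, ?_, ?_⟩
  · exact (((isOpen_lt continuous_const continuous_norm).inter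
      (isOpen_lt continuous_norm continuous_const)).inter
      (hKc.image hc.continuous).isClosed.isOpen_compl).inter (hWo.preimage l.continuous)
  · refine ⟨⟨⟨?_, ?_⟩, ?_⟩, hWf _ hVt⟩
    · show ‖c t₀‖ / 2 < ‖c t₀‖
      linarith
    · show ‖c t₀‖ < 2 * ‖c t₀‖
      linarith
    · rintro ⟨t, ht, h⟩
      rw [hi h] at ht
      exact ht.2 hVt
  · rintro x ⟨-, hx⟩
    have h1 : ContDiffAt ℝ ∞ e.symm (l x) :=
      e.contDiffAt_symm_deriv hx.2.2 hx.1 (hfd _) hfs.contDiffAt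
    exact h1.comp x l.contDiff.contDiffAt
  · rintro t ⟨⟨⟨h1, h2⟩, h3⟩, -⟩
    have ht : t ∈ V := by
      by_contra hcon
      exact h3 ⟨t, ⟨⟨le_of_lt h1, le_of_lt h2⟩, hcon⟩, rfl⟩
    show e.symm (e t) = t
    exact e.left_inv ht.1

/-! ### the time function on an annulus -/

private theorem tm_annulus {c : ℝ → E4} (hc : ContDiff ℝ ∞ c) (hi : Function.Injective c)
    (hd : ∀ t, deriv c t ≠ 0) (he : ∀ t, c (t + 1) = (2⁻¹ : ℝ) • c t) :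
    ∃ T : E4 → ℝ, ContDiff ℝ ∞ T ∧ ∀ t, 1 / 4 ≤ ‖c t‖ → ‖c t‖ ≤ 4 → T (c t) = t := by
  set K : Set ℝ := {t | 1 / 4 ≤ ‖c t‖ ∧ ‖c t‖ ≤ 4} with hK
  have hKc : IsCompact K := tm_compact hc.continuous hi he (by norm_num)
  have hKcl : IsClosed (c '' K) := (hKc.image hc.continuous).isClosed
  obtain ⟨g, hg⟩ := exists_contMDiffMap_forall_mem_convex_of_local (n := ⊤) (𝓘(ℝ, E4))
    (t := fun x : E4 => {y : ℝ | ∀ t ∈ K, c t = x → y = t}) (fun x => by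
      intro y hy z hz a b ha hb hab t ht hx
      have h1 : y = t := hy t ht hx
      have h2 : z = t := hz t ht hx
      rw [h1, h2, ← add_smul, hab, one_smul]) (fun x => by
      by_cases hx : x ∈ c '' K
      · obtain ⟨t₀, -, rfl⟩ := hx
        obtain ⟨U, τ, hU, hxU, hτ, hτc⟩ := tm_local hc hi hd he t₀
        refine ⟨U, hU.mem_nhds hxU, τ, ?_, ?_⟩
        · exact (fun y hy => ((hτ y hy).contMDiffAt).contMDiffWithinAt)
        · intro y hy t _ hty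
          rw [← hty] at hy ⊢
          exact hτc t hy
      · refine ⟨(c '' K)ᶜ, hKcl.isOpen_compl.mem_nhds hx, fun _ => 0, contMDiffOn_const, ?_⟩
        intro y hy t ht hty
        exact absurd ⟨t, ht, hty⟩ hy)
  exact ⟨g, g.contMDiff.contDiff, fun t h1 h2 => hg (c t) t ⟨h1, h2⟩ rfl⟩

/-! ### averaging -/

private theorem tm_finite {a b r : ℝ} (ha : 0 < a) (hr : 0 < r) :
    {k : ℤ | a < (2 : ℝ) ^ k * r ∧ (2 : ℝ) ^ k * r < b}.Finite := by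
  obtain ⟨m, hm⟩ : ∃ m : ℕ, b / r < 2 ^ m := pow_unbounded_of_one_lt _ one_lt_two
  obtain ⟨m', hm'⟩ : ∃ m : ℕ, r / a < 2 ^ m := pow_unbounded_of_one_lt _ one_lt_two
  refine (Set.finite_Icc (-(m' : ℤ)) m).subset fun k hk => ⟨?_, ?_⟩
  · by_contra hcon
    rw [not_le] at hcon
    rw [div_lt_iff₀ ha] at hm'
    have hp : 0 < (2 : ℝ) ^ k := by positivity
    have h4 : (2 : ℝ) ^ k * (2 : ℝ) ^ m' ≤ 1 := by
      rw [← zpow_natCast, ← zpow_add₀ two_ne_zero]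
      exact zpow_le_one_of_nonpos₀ one_le_two (by omega)
    have h6 : (2 : ℝ) ^ k * r < (2 : ℝ) ^ k * (2 ^ m' * a) := mul_lt_mul_of_pos_left hm' hp
    have h7 : (2 : ℝ) ^ k * (2 ^ m' * a) ≤ 1 * a := by
      rw [← mul_assoc]
      exact mul_le_mul_of_nonneg_right h4 ha.le
    linarith [hk.1]
  · by_contra hcon
    rw [not_le] at hcon
    rw [div_lt_iff₀ hr] at hm
    have h4 : (2 : ℝ) ^ m ≤ (2 : ℝ) ^ k := by
      rw [← zpow_natCast]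
      exact zpow_le_zpow_right₀ one_le_two (by omega)
    have h6 : (2 : ℝ) ^ m * r ≤ (2 : ℝ) ^ k * r := mul_le_mul_of_nonneg_right h4 hr.le
    linarith [hk.2]

private theorem tm_norm_zpow (k : ℤ) (x : E4) : ‖(2 : ℝ) ^ k • x‖ = (2 : ℝ) ^ k * ‖x‖ := by
  rw [norm_smul, Real.norm_of_nonneg (by positivity)]

/-- the time function -/
theorem exists_time (c : ℝ → E4) (hc : ContDiff ℝ ∞ c) (hi : Function.Injective c)
    (hd : ∀ t, deriv c t ≠ 0) (he : ∀ t, c (t + 1) = (2⁻¹ : ℝ) • c t) :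
    ∃ T : E4 → ℝ, (∀ x, x ≠ 0 → ContDiffAt ℝ ∞ T x) ∧
      (∀ x, x ≠ 0 → T ((2⁻¹ : ℝ) • x) = T x + 1) ∧ ∀ t, T (c t) = t := by
  obtain ⟨T₀, hT₀, hTc⟩ := tm_annulus hc hi hd he
  obtain ⟨ρ, hρs, hρ0, hρN, hρ1⟩ := exists_rho
  have hfin : ∀ x : E4, x ≠ 0 → {k : ℤ | 1 / 4 < ‖(2 : ℝ) ^ k • x‖ ∧
      ‖(2 : ℝ) ^ k • x‖ < 4}.Finite := by
    intro x hx
    simp only [tm_norm_zpow]
    exact tm_finite (by norm_num) (norm_pos_iff.mpr hx)
  have hsup : ∀ (x : E4) (F : ℤ → ℝ), x ≠ 0 →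
      (Function.support fun k : ℤ => ρ ((2 : ℝ) ^ k • x) * F k).Finite := by
    intro x F hx
    refine (hfin x hx).subset fun k hk => ?_
    exact hρN _ (left_ne_zero_of_mul hk)
  have hsup1 : ∀ x : E4, x ≠ 0 →
      (Function.support fun k : ℤ => ρ ((2 : ℝ) ^ k • x)).Finite := by
    intro x hx
    refine (hfin x hx).subset fun k hk => ?_
    exact hρN _ hk
  refine ⟨fun x => ∑ᶠ k : ℤ, ρ ((2 : ℝ) ^ k • x) * (T₀ ((2 : ℝ) ^ k • x) + k), ?_, ?_, ?_⟩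
  · intro x hx
    have hxp : 0 < ‖x‖ := norm_pos_iff.mpr hx
    set S := (tm_finite (a := 1 / 8) (b := 8) (by norm_num) hxp).toFinset with hS
    have hU : {y : E4 | ‖x‖ / 2 < ‖y‖ ∧ ‖y‖ < 2 * ‖x‖} ∈ 𝓝 x :=
      ((isOpen_lt continuous_const continuous_norm).inter
        (isOpen_lt continuous_norm continuous_const)).mem_nhds
        ⟨show ‖x‖ / 2 < ‖x‖ by linarith, show ‖x‖ < 2 * ‖x‖ by linarith⟩
    have heq : (fun x => ∑ᶠ k : ℤ, ρ ((2 : ℝ) ^ k • x) * (T₀ ((2 : ℝ) ^ k • x) + k)) =ᶠ[𝓝 x]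
        fun x => ∑ k ∈ S, ρ ((2 : ℝ) ^ k • x) * (T₀ ((2 : ℝ) ^ k • x) + k) := by
      filter_upwards [hU] with y hy
      refine finsum_eq_sum_of_support_subset _ fun k hk => ?_
      have h1 := hρN _ (left_ne_zero_of_mul hk)
      rw [tm_norm_zpow] at h1
      rw [hS, Set.Finite.coe_toFinset]
      have hp : 0 < (2 : ℝ) ^ k := by positivity
      have h2 : (2 : ℝ) ^ k * (‖x‖ / 2) < (2 : ℝ) ^ k * ‖y‖ := mul_lt_mul_of_pos_left hy.1 hp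
      have h3 : (2 : ℝ) ^ k * ‖y‖ < (2 : ℝ) ^ k * (2 * ‖x‖) := mul_lt_mul_of_pos_left hy.2 hp
      exact ⟨by linarith [h1.1], by linarith [h1.2]⟩
    refine ContDiffAt.congr_of_eventuallyEq ?_ heq
    refine ContDiffAt.sum fun k _ => ?_
    have hk : ContDiff ℝ ∞ fun y : E4 => (2 : ℝ) ^ k • y := contDiff_const_smul _
    have hkx : (2 : ℝ) ^ k • x ≠ 0 := smul_ne_zero (by positivity) hx
    have h1 : ContDiffAt ℝ ∞ ρ ((2 : ℝ) ^ k • x) :=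
      (hρs _ hkx).contDiffAt (isOpen_ne.mem_nhds hkx)
    exact (ContDiffAt.comp x h1 hk.contDiffAt).mul
      (((hT₀.comp hk).contDiffAt).add contDiffAt_const)
  · intro x hx
    have h1 : ∀ k : ℤ, (2 : ℝ) ^ k • (2⁻¹ : ℝ) • x = (2 : ℝ) ^ (k - 1) • x := by
      intro k
      rw [tm_half, tm_two_zpow_mul]
      rfl
    have h2 : (∑ᶠ k : ℤ, ρ ((2 : ℝ) ^ k • (2⁻¹ : ℝ) • x) *
        (T₀ ((2 : ℝ) ^ k • (2⁻¹ : ℝ) • x) + k)) =
        ∑ᶠ k : ℤ, ρ ((2 : ℝ) ^ k • x) * (T₀ ((2 : ℝ) ^ k • x) + (k + 1)) := by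
      rw [← finsum_comp_equiv (Equiv.addRight (1 : ℤ))]
      refine finsum_congr fun k => ?_
      rw [h1, Equiv.coe_addRight, add_sub_cancel_right]
      push_cast
      rfl
    have h3 : ∀ k : ℤ, ρ ((2 : ℝ) ^ k • x) * (T₀ ((2 : ℝ) ^ k • x) + (k + 1)) =
        ρ ((2 : ℝ) ^ k • x) * (T₀ ((2 : ℝ) ^ k • x) + k) + ρ ((2 : ℝ) ^ k • x) := by
      intro k
      ring
    show (∑ᶠ k : ℤ, ρ ((2 : ℝ) ^ k • (2⁻¹ : ℝ) • x) *
        (T₀ ((2 : ℝ) ^ k • (2⁻¹ : ℝ) • x) + k)) = _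
    rw [h2, finsum_congr h3, finsum_add_distrib (hsup x _ hx) (hsup1 x hx), hρ1 x hx]
  · intro t
    have hct := tm_ne hi he t
    have h1 : ∀ k : ℤ, ρ ((2 : ℝ) ^ k • c t) * (T₀ ((2 : ℝ) ^ k • c t) + k) =
        ρ ((2 : ℝ) ^ k • c t) * t := by
      intro k
      by_cases h0 : ρ ((2 : ℝ) ^ k • c t) = 0
      · rw [h0, zero_mul, zero_mul]
      · have h2 := hρN _ h0
        rw [tm_shiftZ he] at h2 ⊢
        rw [hTc _ h2.1.le h2.2.le, sub_add_cancel]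
    show (∑ᶠ k : ℤ, ρ ((2 : ℝ) ^ k • c t) * (T₀ ((2 : ℝ) ^ k • c t) + k)) = t
    rw [finsum_congr h1, ← finsum_mul' _ _ (hsup1 _ hct), hρ1 _ hct, one_mul]

end Pool.Agent.HopfFin
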