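import Pool.Agent.HopfFin.Isom
import Pool.Agent.HopfFin.NearId
import Pool.Agent.HopfFin.Cones
import Pool.Agent.HopfFin.Dir
import Pool.Agent.HopfFin.Time

/-!
# Straightening of equivariant curves

Plan. `move_curve`: with the time function `T` of `c` put `ω x = u (T x)` (`ω 0 = 0`); it is
equivariant and smooth off `0`, `ω (c t) = u t`; apply `near_id_smul`.
`straighten_curve`: take `q` from `exists_dir`; for every real `σ` the curve
`C σ t = (1 - σ) • c t + (σ * 2^(-t)) • q` is smooth, equivariant, injective and immersed (a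
coincidence `C σ t = C σ s` gives `(1 - σ) • (c t - c s) = (-σ (2^(-t) - 2^(-s))) • q`; if
`σ ≠ 1` this contradicts the choice of `q` unless both sides vanish, then `c t = c s`; if `σ = 1`
then `2^(-t) = 2^(-s)`; the same for the derivatives), and
`C (σ + τ) t = C σ t + τ • (2^(-t) • q - c t)`. By `move_curve` the relation
`σ ~ σ' :⟺ ∃ ψ ∈ Pz, ∀ t, ψ (C σ t) = C σ' t` is an equivalence relation on `ℝ` with open classes,
so there is one class (`ℝ` is connected) and `0 ~ 1`. Finally a linear isometry takes `q` to `e0`.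
-/

set_option autoImplicit false

open scoped ContDiff Topology
open Set Filter Metric

namespace Pool.Agent.HopfFin

open Pool.Agent.HopfCov

/-- small equivariant displacements of an embedded equivariant curve are realised by `Pz` -/
theorem move_curve (c : ℝ → E4) (hc : ContDiff ℝ ∞ c) (hi : Function.Injective c)
    (hd : ∀ t, deriv c t ≠ 0) (he : ∀ t, c (t + 1) = (2⁻¹ : ℝ) • c t) (u : ℝ → E4)
    (hu : ContDiff ℝ ∞ u) (hue : ∀ t, u (t + 1) = (2⁻¹ : ℝ) • u t) :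
    ∃ δ : ℝ, 0 < δ ∧ ∀ s : ℝ, |s| < δ → ∃ ψ : E4 ≃ₜ E4, Pz ψ ∧ ∀ t, ψ (c t) = c t + s • u t := by
  obtain ⟨T, hT, hTe, hTc⟩ := exists_time c hc hi hd he
  have hc0 : ∀ t, c t ≠ 0 := by
    intro t h0
    have h1 := he t
    rw [h0, smul_zero, ← h0] at h1
    have h2 := hi h1
    linarith
  set w : E4 → E4 := fun x => if x = 0 then 0 else u (T x) with hw
  have hw0 : w 0 = 0 := if_pos rfl
  have hwx : ∀ x, x ≠ 0 → w x = u (T x) := fun x hx => if_neg hx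
  obtain ⟨δ, hδ, h⟩ := near_id_smul w hw0 (fun x hx => by
    have h1 : ContDiffAt ℝ ∞ (fun y => u (T y)) x := hu.contDiffAt.comp x (hT x hx)
    refine h1.congr_of_eventuallyEq ?_
    filter_upwards [isOpen_ne.mem_nhds hx] with y hy using hwx y hy) (fun x => by
    by_cases hx : x = 0
    · rw [hx, smul_zero, hw0, smul_zero]
    · rw [hwx _ (smul_ne_zero (by norm_num) hx), hwx x hx, hTe x hx, hue])
  refine ⟨δ, hδ, fun s hs => ?_⟩
  obtain ⟨F, hF, hFx⟩ := h s hs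
  refine ⟨F, hF, fun t => ?_⟩
  rw [hFx, hwx _ (hc0 t), hTc]

/-- the family of curves from `c` to the ray through `q` -/
private noncomputable def crvC (c : ℝ → E4) (q : E4) (σ t : ℝ) : E4 :=
  (1 - σ) • c t + (σ * (2 : ℝ) ^ (-t)) • q

private theorem crv_pow_smooth : ContDiff ℝ ∞ (fun t : ℝ => (2 : ℝ) ^ (-t)) := by
  have h : (fun t : ℝ => (2 : ℝ) ^ (-t)) = fun t => Real.exp (Real.log 2 * -t) := by
    funext t
    rw [Real.rpow_def_of_pos two_pos]
  rw [h]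
  exact Real.contDiff_exp.comp (contDiff_const.mul contDiff_neg)

private theorem crv_pow_deriv (t : ℝ) :
    HasDerivAt (fun t : ℝ => (2 : ℝ) ^ (-t)) (-(Real.log 2 * (2 : ℝ) ^ (-t))) t := by
  have h : (fun t : ℝ => (2 : ℝ) ^ (-t)) = fun t => Real.exp (Real.log 2 * -t) := by
    funext t
    rw [Real.rpow_def_of_pos two_pos]
  have h1 : HasDerivAt (fun t : ℝ => Real.log 2 * -t) (-Real.log 2) t := by
    have := (hasDerivAt_neg t).const_mul (Real.log 2)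
    simpa using this
  have h2 := h1.exp
  rw [h]
  convert h2 using 1
  rw [Real.rpow_def_of_pos two_pos]
  ring

private theorem crv_pow_pos (t : ℝ) : 0 < (2 : ℝ) ^ (-t) := Real.rpow_pos_of_pos two_pos _

private theorem crv_pow_add (t : ℝ) : (2 : ℝ) ^ (-(t + 1)) = 2⁻¹ * (2 : ℝ) ^ (-t) := by
  rw [neg_add, Real.rpow_add two_pos, Real.rpow_neg_one]
  ring

private theorem crv_smooth {c : ℝ → E4} (hc : ContDiff ℝ ∞ c) (q : E4) (σ : ℝ) :
    ContDiff ℝ ∞ (crvC c q σ) := by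
  unfold crvC
  exact (hc.const_smul (1 - σ)).add ((contDiff_const.mul crv_pow_smooth).smul contDiff_const)

private theorem crv_inj {c : ℝ → E4} (hi : Function.Injective c) {q : E4} (hq : ‖q‖ = 1)
    (hq1 : ∀ s t l : ℝ, l • (c t - c s) ≠ q) (σ : ℝ) : Function.Injective (crvC c q σ) := by
  intro t s hts
  have hq0 : q ≠ 0 := by
    rintro rfl
    rw [norm_zero] at hq
    exact zero_ne_one hq
  have h1 : (1 - σ) • (c t - c s) = (σ * ((2 : ℝ) ^ (-s) - (2 : ℝ) ^ (-t))) • q := by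
    unfold crvC at hts
    have h2 : (1 - σ) • c t - (1 - σ) • c s =
        (σ * (2 : ℝ) ^ (-s)) • q - (σ * (2 : ℝ) ^ (-t)) • q := by
      rw [sub_eq_sub_iff_add_eq_add, hts, add_comm]
    rw [smul_sub, h2, ← sub_smul]
    congr 1
    ring
  by_cases h0 : σ * ((2 : ℝ) ^ (-s) - (2 : ℝ) ^ (-t)) = 0
  · rw [h0, zero_smul] at h1
    rcases smul_eq_zero.1 h1 with h2 | h2
    · have hσ : σ = 1 := by linarith
      rw [hσ, one_mul, sub_eq_zero] at h0
      have h3 := congrArg Real.log h0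
      rw [Real.log_rpow two_pos, Real.log_rpow two_pos] at h3
      have h4 := mul_right_cancel₀ (Real.log_pos one_lt_two).ne' h3
      linarith
    · exact hi (sub_eq_zero.1 h2)
  · exfalso
    refine hq1 s t ((σ * ((2 : ℝ) ^ (-s) - (2 : ℝ) ^ (-t)))⁻¹ * (1 - σ)) ?_
    rw [mul_smul, h1, inv_smul_smul₀ h0]

private theorem crv_deriv {c : ℝ → E4} (hc : ContDiff ℝ ∞ c) (hd : ∀ t, deriv c t ≠ 0) {q : E4}
    (hq : ‖q‖ = 1) (hq2 : ∀ t l : ℝ, l • deriv c t ≠ q) (σ t : ℝ) :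
    deriv (crvC c q σ) t ≠ 0 := by
  have hq0 : q ≠ 0 := by
    rintro rfl
    rw [norm_zero] at hq
    exact zero_ne_one hq
  have h1 : HasDerivAt c (deriv c t) t := (hc.differentiable (by simp) t).hasDerivAt
  have h2 : HasDerivAt (crvC c q σ)
      ((1 - σ) • deriv c t + (σ * -(Real.log 2 * (2 : ℝ) ^ (-t))) • q) t :=
    (h1.const_smul (1 - σ)).add (((crv_pow_deriv t).const_mul σ).smul_const q)
  rw [h2.deriv]
  intro h3
  have h4 : (1 - σ) • deriv c t = (σ * (Real.log 2 * (2 : ℝ) ^ (-t))) • q := by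
    rw [add_eq_zero_iff_eq_neg, ← neg_smul] at h3
    rw [h3]
    congr 1
    ring
  have hL : 0 < Real.log 2 * (2 : ℝ) ^ (-t) :=
    mul_pos (Real.log_pos one_lt_two) (crv_pow_pos t)
  by_cases h0 : σ * (Real.log 2 * (2 : ℝ) ^ (-t)) = 0
  · have hσ : σ = 0 := by
      rcases mul_eq_zero.1 h0 with h | h
      · exact h
      · exact absurd h hL.ne'
    rw [hσ, sub_zero, one_smul, zero_mul, zero_smul] at h4
    exact hd t h4
  · refine hq2 t ((σ * (Real.log 2 * (2 : ℝ) ^ (-t)))⁻¹ * (1 - σ)) ?_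
    rw [mul_smul, h4, inv_smul_smul₀ h0]

private theorem crv_eqv {c : ℝ → E4} (he : ∀ t, c (t + 1) = (2⁻¹ : ℝ) • c t) (q : E4) (σ t : ℝ) :
    crvC c q σ (t + 1) = (2⁻¹ : ℝ) • crvC c q σ t := by
  unfold crvC
  rw [he, crv_pow_add, smul_add, smul_smul, smul_smul, smul_smul]
  congr 1
  · rw [mul_comm]
  · congr 1
    ring

/-- an embedded equivariant curve is equivalent to the ray `ℝ₊ e0` -/
theorem straighten_curve (c : ℝ → E4) (hc : ContDiff ℝ ∞ c) (hi : Function.Injective c)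
    (hd : ∀ t, deriv c t ≠ 0) (he : ∀ t, c (t + 1) = (2⁻¹ : ℝ) • c t) :
    ∃ A : E4 ≃ₜ E4, Pz A ∧ ∀ t : ℝ, A (c t) = (2 : ℝ) ^ (-t) • e0 := by
  obtain ⟨q, hq, hq1, hq2, -⟩ := exists_dir c hc
  have hu : ContDiff ℝ ∞ (fun t : ℝ => (2 : ℝ) ^ (-t) • q - c t) :=
    (crv_pow_smooth.smul contDiff_const).sub hc
  have hue : ∀ t : ℝ, (2 : ℝ) ^ (-(t + 1)) • q - c (t + 1) =
      (2⁻¹ : ℝ) • ((2 : ℝ) ^ (-t) • q - c t) := by
    intro t
    rw [he, crv_pow_add, smul_sub, smul_smul]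
  have hloc : ∀ σ : ℝ, ∃ δ : ℝ, 0 < δ ∧ ∀ σ' : ℝ, |σ' - σ| < δ →
      ∃ ψ : E4 ≃ₜ E4, Pz ψ ∧ ∀ t, ψ (crvC c q σ t) = crvC c q σ' t := by
    intro σ
    obtain ⟨δ, hδ, h⟩ := move_curve (crvC c q σ) (crv_smooth hc q σ) (crv_inj hi hq hq1 σ)
      (crv_deriv hc hd hq hq2 σ) (crv_eqv he q σ) _ hu hue
    refine ⟨δ, hδ, fun σ' hσ' => ?_⟩
    obtain ⟨ψ, hψ, h1⟩ := h (σ' - σ) hσ'
    refine ⟨ψ, hψ, fun t => ?_⟩
    rw [h1]
    unfold crvC
    module
  set S : Set ℝ := {σ | ∃ ψ : E4 ≃ₜ E4, Pz ψ ∧ ∀ t, ψ (crvC c q 0 t) = crvC c q σ t} with hS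
  have hopen : IsOpen S := by
    rw [Metric.isOpen_iff]
    rintro σ ⟨ψ, hψ, h1⟩
    obtain ⟨δ, hδ, h⟩ := hloc σ
    refine ⟨δ, hδ, fun σ' hσ' => ?_⟩
    obtain ⟨ψ', hψ', h2⟩ := h σ' (by rwa [mem_ball, Real.dist_eq] at hσ')
    exact ⟨ψ' * ψ, hψ'.mul hψ, fun t => by rw [mul_apply', h1, h2]⟩
  have hclosed : IsClosed S := by
    rw [← isOpen_compl_iff, Metric.isOpen_iff]
    intro σ hσ
    obtain ⟨δ, hδ, h⟩ := hloc σ
    refine ⟨δ, hδ, fun σ' hσ' hmem => hσ ?_⟩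
    obtain ⟨ψ', hψ', h2⟩ := h σ' (by rwa [mem_ball, Real.dist_eq] at hσ')
    obtain ⟨ψ, hψ, h1⟩ := hmem
    refine ⟨ψ'⁻¹ * ψ, hψ'.inv.mul hψ, fun t => ?_⟩
    rw [mul_apply', h1, ← h2]
    exact ψ'.injective (apply_inv_self' _ _)
  have h0 : (0 : ℝ) ∈ S := ⟨1, Pz.one, fun t => rfl⟩
  have huniv : S = univ := IsClopen.eq_univ ⟨hclosed, hopen⟩ ⟨0, h0⟩
  have h1 : (1 : ℝ) ∈ S := by
    rw [huniv]
    exact mem_univ _
  obtain ⟨ψ, hψ, h2⟩ := h1
  obtain ⟨L, hL⟩ := exists_isom q hq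
  refine ⟨linH L * ψ, (isom_pz L).mul hψ, fun t => ?_⟩
  have h3 : crvC c q 0 t = c t := by
    unfold crvC
    rw [sub_zero, one_smul, zero_mul, zero_smul, add_zero]
  have h4 : crvC c q 1 t = (2 : ℝ) ^ (-t) • q := by
    unfold crvC
    rw [sub_self, zero_smul, one_mul, zero_add]
  rw [mul_apply', ← h3, h2, h4]
  have h5 : linH L ((2 : ℝ) ^ (-t) • q) = L ((2 : ℝ) ^ (-t) • q) := rfl
  rw [h5, L.map_smul, hL]

end Pool.Agent.HopfFin
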