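import Pool.Agent.HopfCov.Twist2

/-!
# Basic definitions for the finiteness theorem (library `HopfFin`, owners helper29, helper64)

`ℝ⁴ = ℝ e0 ⊕ e0^⊥`, cones around the ray `ℝ₊ e0`, diffeomorphisms of `ℝ⁴ ∖ 0` commuting with
`x ↦ x / 2`, the screw motions `lam s`, supports. The paper proof is note 3182 with the
simplifications of helper64 (see the docstrings of the files of this folder).
-/

set_option autoImplicit false

open scoped ContDiff Topology
open Set Filter Metric

namespace Pool.Agent.HopfFin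

open Pool.Agent.HopfCov

/-- `f` is smooth with invertible derivative near `x` -/
def Reg (f : E4 → E4) (x : E4) : Prop :=
  ∀ᶠ y in 𝓝 x, ContDiffAt ℝ ∞ f y ∧ (fderiv ℝ f y).det ≠ 0

/-- `h` fixes the origin and is a diffeomorphism of `ℝ⁴ ∖ 0` (of any orientation character) -/
def Sm (h : E4 ≃ₜ E4) : Prop :=
  h 0 = 0 ∧ ∀ x, x ≠ 0 → ContDiffAt ℝ ∞ h x ∧ (fderiv ℝ h x).det ≠ 0

/-- `h` is a diffeomorphism of `ℝ⁴ ∖ 0` commuting with `x ↦ x / 2` -/
structure Pz (h : E4 ≃ₜ E4) : Prop where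
  sm : Sm h
  eqv : ∀ x, h ((2⁻¹ : ℝ) • x) = (2⁻¹ : ℝ) • h x

/-- the first basis vector -/
noncomputable def e0 : E4 := EuclideanSpace.single 0 1

/-- the second basis vector -/
noncomputable def e1 : E4 := EuclideanSpace.single 1 1

/-- the component of `x` orthogonal to `e0` -/
noncomputable def pr (x : E4) : E4 := x - x 0 • e0

/-- the closed round cone around the ray `ℝ₊ e0` (it contains the origin) -/
def Cone (δ : ℝ) : Set E4 := {x | ‖pr x‖ ≤ δ * x 0}

/-- the map `f` commutes with `x ↦ x / 2` on a thin cone -/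
def EqvNear (f : E4 → E4) : Prop :=
  ∃ δ : ℝ, 0 < δ ∧ ∀ x ∈ Cone δ, f ((2⁻¹ : ℝ) • x) = (2⁻¹ : ℝ) • f x

/-- two maps agree on a thin cone -/
def AgreeNear (f g : E4 → E4) : Prop := ∃ δ : ℝ, 0 < δ ∧ ∀ x ∈ Cone δ, f x = g x

/-- `f` is smooth with invertible derivative near the points of the ray `ℝ₊ e0` -/
def RegRay (f : E4 → E4) : Prop := ∀ t : ℝ, 0 < t → Reg f (t • e0)

/-- `h` is the identity off `A` -/
def Supp (h : E4 ≃ₜ E4) (A : Set E4) : Prop := ∀ x, x ∉ A → h x = x

/-- the screw motion `x ↦ 2^(-s) (rotation of (x 1, x 2) by the angle 2 π s)` -/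
noncomputable def lam (s : ℝ) (x : E4) : E4 :=
  (2 : ℝ) ^ (-s) • WithLp.toLp 2 ![x 0,
    Real.cos (2 * Real.pi * s) * x 1 - Real.sin (2 * Real.pi * s) * x 2,
    Real.sin (2 * Real.pi * s) * x 1 + Real.cos (2 * Real.pi * s) * x 2, x 3]

/-- the linear map which sends `Cone 1` to the cone over the ball of radius `r` around `e1` in the
affine chart `x 0 = 1` -/
noncomputable def plc (r : ℝ) (x : E4) : E4 := x 0 • e0 + x 0 • e1 + r • pr x

/-- the radius used for `n` cones -/
noncomputable def rad (n : ℕ) : ℝ := 1 / (8 * n)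

/-- the `i`-th of `n` placements of `Cone 1` -/
noncomputable def pl (n i : ℕ) (x : E4) : E4 := lam (i / n) (plc (rad n) x)

/-- `G` and `G'` are conjugate by a diffeomorphism of `ℝ⁴ ∖ 0` of any orientation character -/
def Cj (G G' : E4 ≃ₜ E4) : Prop := ∃ Φ : E4 ≃ₜ E4, Sm Φ ∧ Φ * G = G' * Φ

/-- `G` is conjugate to a homeomorphism which maps the closed unit ball into the open one (the orbit
space is standard off one point) -/
def Off (G : E4 ≃ₜ E4) : Prop := ∃ G' : E4 ≃ₜ E4, Trap G' ∧ Cj G G'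

/-- `T` is a homeomorphism conjugating `G` to `x ↦ x / 2`, and a local diffeomorphism near the points
which it maps to the ray through `v` -/
structure Good (G T : E4 ≃ₜ E4) (v : E4) : Prop where
  zero : T 0 = 0
  conj : T * G = tau * T
  reg : ∀ t : ℝ, 0 < t → Reg T ((T⁻¹ : E4 ≃ₜ E4) (t • v))

end Pool.Agent.HopfFin
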