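import Pool.Agent.HopfFin.GermNear
import Pool.Agent.SmoothDegree.NullLagrangian

/-!
# Loops of shears

Plan of `germ_shear`. Let `N` be large; the germ `x ↦ x + (1/N) • l (x 0) x • e0` (near the ray)
has derivative `v ↦ v + (1/N) l t v • e0` on the ray (as `l t e0 = 0`) which is within `ε` of the
identity for all `t` (periodicity and compactness); let `A` in `Pz` be its extension; `A` fixes the
ray pointwise and `Ψ = A ^ N` has the derivative `v ↦ v + l t v • e0` (as `l t e0 = 0`).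
-/

set_option autoImplicit false

open scoped ContDiff Topology
open Set Filter Metric

namespace Pool.Agent.HopfFin

open Pool.Agent.HopfCov

/-- the coordinate `x 0` -/
private noncomputable def co_GermShear : E4 →L[ℝ] ℝ := EuclideanSpace.proj 0

/-- the germ `x ↦ x + c l (x 0) x • e0` -/
private noncomputable def sh_GermShear (l : ℝ → E4 →L[ℝ] ℝ) (c : ℝ) (x : E4) : E4 :=
  x + (c * l (co_GermShear x) x) • e0

private theorem co_e0_GermShear (t : ℝ) : co_GermShear (t • e0) = t := by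
  rw [map_smul]
  have h1 : co_GermShear e0 = 1 := e0_apply_zero
  rw [h1, smul_eq_mul, mul_one]

/-- the derivative on the ray -/
private noncomputable def dv_GermShear (m : E4 →L[ℝ] ℝ) (c : ℝ) : E4 →L[ℝ] E4 :=
  ContinuousLinearMap.id ℝ E4 + (c • m).smulRight e0

private theorem dv_apply_GermShear (m : E4 →L[ℝ] ℝ) (c : ℝ) (v : E4) :
    dv_GermShear m c v = v + (c * m v) • e0 := rfl

private theorem dv_det_GermShear {m : E4 →L[ℝ] ℝ} (h : m e0 = 0) (c : ℝ) :
    (dv_GermShear m c).det ≠ 0 := by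
  apply SmoothDegree.det_ne_zero_of_inj
  intro v hv
  rw [dv_apply_GermShear] at hv
  have h1 := congrArg m hv
  rw [map_add, map_smul, h, smul_zero, add_zero, map_zero] at h1
  rw [h1, mul_zero, zero_smul, add_zero] at hv
  exact hv

private theorem hasFDerivAt_GermShear {l : ℝ → E4 →L[ℝ] ℝ}
    (hl : ∀ s, 0 < s → ContDiffAt ℝ ∞ l s) (h0 : ∀ s, 0 < s → l s e0 = 0) (c : ℝ) {t : ℝ}
    (ht : 0 < t) : HasFDerivAt (sh_GermShear l c) (dv_GermShear (l t) c) (t • e0) := by
  have h1 : HasDerivAt l (deriv l t) t :=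
    ((hl t ht).differentiableAt (by simp)).hasDerivAt
  have h2 : deriv l t e0 = 0 := by
    have h3 : HasDerivAt (fun s => l s e0) (deriv l t e0) t := by
      have h4 := h1.clm_apply (hasDerivAt_const t e0)
      simpa using h4
    have h5 : (fun s => l s e0) =ᶠ[𝓝 t] fun _ => (0 : ℝ) := by
      filter_upwards [Ioi_mem_nhds ht] with s hs using h0 s hs
    exact h3.unique ((hasDerivAt_const t (0 : ℝ)).congr_of_eventuallyEq h5)
  have h3 : HasFDerivAt (fun x : E4 => l (co_GermShear x))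
      (co_GermShear.smulRight (deriv l t)) (t • e0) := by
    have h4 : HasDerivAt l (deriv l t) (co_GermShear (t • e0)) := by
      rw [co_e0_GermShear]
      exact h1
    have h5 := h4.hasFDerivAt.comp (t • e0) co_GermShear.hasFDerivAt
    refine h5.congr_fderiv ?_
    ext v
    rfl
  have h4 := h3.clm_apply (hasFDerivAt_id (𝕜 := ℝ) (t • e0))
  have h5 := ((hasFDerivAt_id (𝕜 := ℝ) (t • e0)).add ((h4.const_mul c).smul_const e0))
  refine h5.congr_fderiv ?_
  ext1 v
  rw [dv_apply_GermShear]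
  change v + (c * (l (co_GermShear (t • e0)) v +
    (co_GermShear v • deriv l t) (t • e0))) • e0 = _
  rw [co_e0_GermShear]
  have h6 : (co_GermShear v • deriv l t) (t • e0) = 0 := by
    change co_GermShear v * deriv l t (t • e0) = 0
    rw [map_smul, h2, smul_zero, mul_zero]
  rw [h6, add_zero]

private theorem reg_GermShear {l : ℝ → E4 →L[ℝ] ℝ}
    (hl : ∀ s, 0 < s → ContDiffAt ℝ ∞ l s) (h0 : ∀ s, 0 < s → l s e0 = 0) (c : ℝ) :
    RegRay (sh_GermShear l c) := by
  intro t ht
  have hcd : ∀ x : E4, 0 < co_GermShear x → ContDiffAt ℝ ∞ (sh_GermShear l c) x := by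
    intro x hx
    have h1 : ContDiffAt ℝ ∞ (fun y : E4 => l (co_GermShear y)) x :=
      ContDiffAt.comp (g := l) x (hl _ hx) co_GermShear.contDiff.contDiffAt
    exact contDiffAt_id.add ((contDiffAt_const.mul (h1.clm_apply contDiffAt_id)).smul
      contDiffAt_const)
  have hpos : ∀ᶠ x in 𝓝 (t • e0), 0 < co_GermShear x := by
    refine co_GermShear.continuous.continuousAt.eventually (Ioi_mem_nhds ?_)
    rw [co_e0_GermShear]
    exact ht
  have hct : 0 < co_GermShear (t • e0) := by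
    rw [co_e0_GermShear]
    exact ht
  have h2 : ContinuousAt (fun x => (fderiv ℝ (sh_GermShear l c) x).det) (t • e0) :=
    ContinuousLinearMap.continuous_det.continuousAt.comp
      (((hcd _ hct).fderiv_right (m := 0) (by simp)).continuousAt)
  have h3 : (fderiv ℝ (sh_GermShear l c) (t • e0)).det ≠ 0 := by
    rw [(hasFDerivAt_GermShear hl h0 c ht).fderiv]
    exact dv_det_GermShear (h0 t ht) c
  filter_upwards [hpos, h2.eventually_ne h3] with x hx hx'
  exact ⟨hcd x hx, hx'⟩

private theorem eqv_GermShear {l : ℝ → E4 →L[ℝ] ℝ} (he : ∀ s, 0 < s → l (2⁻¹ * s) = l s)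
    (c : ℝ) : EqvNear (sh_GermShear l c) := by
  refine ⟨1, one_pos, fun x hx => ?_⟩
  rcases (Cone_apply_nonneg one_pos hx).eq_or_lt with h | h
  · rw [Cone_eq_zero hx h.symm]
    unfold sh_GermShear
    simp
  · unfold sh_GermShear
    have h1 : co_GermShear ((2⁻¹ : ℝ) • x) = 2⁻¹ * co_GermShear x := by
      rw [map_smul, smul_eq_mul]
    have h2 : 0 < co_GermShear x := h
    rw [h1, he _ h2, map_smul, smul_eq_mul, smul_add, smul_smul]
    congr 2
    ring

private theorem per_GermShear {l : ℝ → E4 →L[ℝ] ℝ} (he : ∀ s, 0 < s → l (2⁻¹ * s) = l s)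
    (k : ℤ) {s : ℝ} (hs : 0 < s) : l ((2 : ℝ) ^ k * s) = l s := by
  have h1 : ∀ (n : ℕ) {s : ℝ}, 0 < s → l ((2 : ℝ) ^ n * s) = l s := by
    intro n
    induction n with
    | zero => intro s _; rw [pow_zero, one_mul]
    | succ n ih =>
      intro s hs
      have h2 := he ((2 : ℝ) ^ (n + 1) * s) (mul_pos (pow_pos two_pos _) hs)
      rw [← h2, ← ih hs]
      congr 1
      rw [pow_succ]
      ring
  rcases Int.eq_nat_or_neg k with ⟨n, rfl | rfl⟩
  · rw [zpow_natCast]
    exact h1 n hs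
  · have hpos : 0 < (2 : ℝ) ^ (-(n : ℤ)) * s := mul_pos (zpow_pos two_pos _) hs
    rw [← h1 n hpos, zpow_neg, zpow_natCast, ← mul_assoc, mul_inv_cancel₀ (by positivity),
      one_mul]

private theorem bdd_GermShear {l : ℝ → E4 →L[ℝ] ℝ} (hl : ∀ s, 0 < s → ContDiffAt ℝ ∞ l s)
    (he : ∀ s, 0 < s → l (2⁻¹ * s) = l s) : ∃ C : ℝ, 0 ≤ C ∧ ∀ t, 0 < t → ‖l t‖ ≤ C := by
  have h1 : ContinuousOn l (Icc 1 2) := fun s hs =>
    (hl s (by linarith [hs.1])).continuousAt.continuousWithinAt
  obtain ⟨C, hC⟩ := isCompact_Icc.exists_bound_of_continuousOn h1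
  refine ⟨C, (norm_nonneg _).trans (hC 1 ⟨le_rfl, one_le_two⟩), fun t ht => ?_⟩
  obtain ⟨k, y, hy, hy1, hy2⟩ := exists_pow_smul (x := t • e0) (by
    change 0 < co_GermShear (t • e0)
    rw [co_e0_GermShear]
    exact ht)
  have h2 : t = (2 : ℝ) ^ (-k) * y 0 := by
    have h3 := congrArg co_GermShear hy
    rw [co_e0_GermShear, map_smul, smul_eq_mul] at h3
    exact h3
  rw [h2, per_GermShear he (-k) (by linarith)]
  exact hC _ ⟨hy1, hy2⟩

/-- realisation of a loop of shears in the direction `e0` -/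
theorem germ_shear (l : ℝ → E4 →L[ℝ] ℝ) (hl : ∀ s, 0 < s → ContDiffAt ℝ ∞ l s)
    (he : ∀ s, 0 < s → l (2⁻¹ * s) = l s) (h0 : ∀ s, 0 < s → l s e0 = 0) :
    ∃ Ψ : E4 ≃ₜ E4, Pz Ψ ∧ (∀ t : ℝ, 0 < t → Ψ (t • e0) = t • e0) ∧
      ∀ t : ℝ, 0 < t → ∀ v, fderiv ℝ Ψ (t • e0) v = v + l t v • e0 := by
  obtain ⟨ε, hε, hgerm⟩ := germ_near
  obtain ⟨C, hC0, hC⟩ := bdd_GermShear hl he
  obtain ⟨N, hN⟩ := exists_nat_gt (C / ε)
  have hN0 : (0 : ℝ) < (N : ℝ) := (div_nonneg hC0 hε.le).trans_lt hN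
  set c : ℝ := (N : ℝ)⁻¹ with hc
  have hc0 : 0 < c := inv_pos.2 hN0
  have hray : ∀ t : ℝ, 0 < t → sh_GermShear l c (t • e0) = t • e0 := by
    intro t ht
    unfold sh_GermShear
    rw [co_e0_GermShear, map_smul, h0 t ht, smul_zero, mul_zero, zero_smul, add_zero]
  obtain ⟨A, hA, δ, hδ, hAδ⟩ := hgerm (sh_GermShear l c) (reg_GermShear hl h0 c)
    (eqv_GermShear he c) hray (by
      intro t ht
      rw [(hasFDerivAt_GermShear hl h0 c ht).fderiv]
      have h1 : dv_GermShear (l t) c - ContinuousLinearMap.id ℝ E4 = (c • l t).smulRight e0 := by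
        unfold dv_GermShear
        abel
      rw [h1, ContinuousLinearMap.norm_smulRight_apply, norm_e0, mul_one, norm_smul,
        Real.norm_of_nonneg hc0.le]
      calc c * ‖l t‖ ≤ c * C := mul_le_mul_of_nonneg_left (hC t ht) hc0.le
        _ ≤ ε := by
          rw [hc, inv_mul_le_iff₀ hN0]
          rw [div_lt_iff₀ hε] at hN
          exact hN.le)
  have hAray : ∀ t : ℝ, 0 < t → A (t • e0) = t • e0 := by
    intro t ht
    rw [hAδ _ (smul_e0_mem_Cone hδ.le ht.le), hray t ht]
  have hAd : ∀ t : ℝ, 0 < t → HasFDerivAt A (dv_GermShear (l t) c) (t • e0) := by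
    intro t ht
    refine (hasFDerivAt_GermShear hl h0 c ht).congr_of_eventuallyEq ?_
    filter_upwards [Cone_mem_nhds hδ ht] with x hx using hAδ x hx
  have hpow : ∀ (n : ℕ) (t : ℝ), 0 < t → (A ^ n : E4 ≃ₜ E4) (t • e0) = t • e0 ∧
      HasFDerivAt (A ^ n : E4 ≃ₜ E4) (dv_GermShear (l t) (n * c)) (t • e0) := by
    intro n
    induction n with
    | zero =>
      intro t _
      refine ⟨rfl, ?_⟩
      have h1 : dv_GermShear (l t) (((0 : ℕ) : ℝ) * c) = ContinuousLinearMap.id ℝ E4 := by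
        ext1 v
        rw [dv_apply_GermShear, Nat.cast_zero, zero_mul, zero_mul, zero_smul, add_zero]
        rfl
      rw [h1]
      exact hasFDerivAt_id _
    | succ n ih =>
      intro t ht
      obtain ⟨h1, h2⟩ := ih t ht
      refine ⟨?_, ?_⟩
      · rw [pow_succ, mul_apply', hAray t ht, h1]
      · have h3 : HasFDerivAt (A ^ n : E4 ≃ₜ E4) (dv_GermShear (l t) (n * c)) (A (t • e0)) := by
          rw [hAray t ht]
          exact h2
        have h4 := h3.comp (t • e0) (hAd t ht)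
        have h5 : (dv_GermShear (l t) (n * c)).comp (dv_GermShear (l t) c) =
            dv_GermShear (l t) (((n + 1 : ℕ) : ℝ) * c) := by
          ext1 v
          rw [ContinuousLinearMap.comp_apply, dv_apply_GermShear, dv_apply_GermShear,
            dv_apply_GermShear, map_add, map_smul, h0 t ht, smul_zero, add_zero, add_assoc,
            ← add_smul]
          congr 2
          push_cast
          ring
        rw [← h5, pow_succ]
        exact h4
  refine ⟨A ^ N, hA.pow N, fun t ht => (hpow N t ht).1, fun t ht v => ?_⟩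
  rw [(hpow N t ht).2.fderiv, dv_apply_GermShear, hc, mul_inv_cancel₀ hN0.ne', one_mul]

end Pool.Agent.HopfFin
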