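import Pool.Agent.HopfFin.Final

/-!
# Finiteness of the class `S` and the index of `[D, D]` in `D`
-/

set_option autoImplicit false

open scoped ContDiff Topology Manifold
open Set Filter Metric

namespace Pool.Agent.HopfFin

open Pool.Agent.HopfCov Pool.Agent.HopfCov.Smooth

private theorem derD_le : derD ≤ grpD := fun _ hh => (derD_iff.1 hh).1

private theorem grpD_le : grpD ≤ grpP := by
  have h0 : groupD ≤ groupP := by
    rw [groupD_eq, groupP_eq]
    exact DD_le_PP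
  exact h0

private theorem conj_mem {k g : Homeo4} (hk : k ∈ grpP) (hg : g ∈ derD) : k * g * k⁻¹ ∈ derD := by
  obtain ⟨h1, h2⟩ := derD_iff.1 hg
  rw [derD_iff]
  have h3 : PD 1 (show E4 ≃ₜ E4 from g) := mem_groupD.1 h1
  have h4 : PD 1 (show E4 ≃ₜ E4 from k) ∨ PD (-1) (show E4 ≃ₜ E4 from k) := mem_groupP.1 hk
  have h5 : Ext (show E4 ≃ₜ E4 from g) := extendable_iff.1 h2
  obtain ⟨s, hs, h6⟩ : ∃ s : ℝ, s * s = 1 ∧ PD s (show E4 ≃ₜ E4 from k) := by
    rcases h4 with h | h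
    · exact ⟨1, by norm_num, h⟩
    · exact ⟨-1, by norm_num, h⟩
  have h7 : PD 1 ((show E4 ≃ₜ E4 from k) * (show E4 ≃ₜ E4 from g) *
      (show E4 ≃ₜ E4 from k)⁻¹) := PD_conj hs h6 h3
  have h8 : Ext ((show E4 ≃ₜ E4 from k) * (show E4 ≃ₜ E4 from g) *
      (show E4 ≃ₜ E4 from k)⁻¹) := Ext.conj hGerm hSwap hdim4 hs h5 h6
  exact ⟨mem_groupD.2 h7, extendable_iff.2 h8⟩

private theorem orbit_inS {M : Mfd4} {p : Punctured → M} {G : Homeo4} (h : Orbit M p G)
    (hG : G ∈ grpD) : InS M := by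
  obtain ⟨X, hX⟩ := exists_S1S3
  exact inS_of_offPoint hX ((almost_pos hX).2 ⟨p, G, h, hG⟩)

private theorem mem_of_mul {g h : Homeo4} (hgh : g * h⁻¹ ∈ derD) (hh : h ∈ grpD) : g ∈ grpD := by
  have h1 := grpD.mul_mem (derD_le hgh) hh
  rwa [inv_mul_cancel_right] at h1

/-- the relation modulo `[D, D]` -/
private def Eqv (g h : Homeo4) : Prop := g * h⁻¹ ∈ derD

private theorem Eqv.refl (g : Homeo4) : Eqv g g := by
  show g * g⁻¹ ∈ derD
  rw [mul_inv_cancel]
  exact derD.one_mem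

private theorem Eqv.symm {g h : Homeo4} (e : Eqv g h) : Eqv h g := by
  have h1 := derD.inv_mem (show g * h⁻¹ ∈ derD from e)
  rwa [mul_inv_rev, inv_inv] at h1

private theorem Eqv.trans {g h k : Homeo4} (e : Eqv g h) (e' : Eqv h k) : Eqv g k := by
  have h1 := derD.mul_mem (show g * h⁻¹ ∈ derD from e) (show h * k⁻¹ ∈ derD from e')
  have h2 : g * h⁻¹ * (h * k⁻¹) = g * k⁻¹ := by group
  rwa [h2] at h1

private theorem Eqv.conj {g h k : Homeo4} (hk : k ∈ grpP) (e : Eqv g h) :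
    Eqv (k * g * k⁻¹) (k * h * k⁻¹) := by
  have h1 := conj_mem hk (show g * h⁻¹ ∈ derD from e)
  have h2 : k * (g * h⁻¹) * k⁻¹ = k * g * k⁻¹ * (k * h * k⁻¹)⁻¹ := by group
  rwa [h2] at h1

private theorem Eqv.inner {g k : Homeo4} (hk : k ∈ grpD) (hg : g ∈ grpD) :
    Eqv (k * g * k⁻¹) g := Subgroup.commutator_mem_commutator hk hg

private theorem rho_mem : rho ∈ grpP ∧ rho ∉ grpD := by
  constructor
  · have h3 : PD (-1) (show E4 ≃ₜ E4 from rho) := by rw [rho_eq]; exact PD_TT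
    exact mem_groupP.2 (Or.inr h3)
  · intro h
    have h1 : PD 1 (show E4 ≃ₜ E4 from rho) := mem_groupD.1 h
    have h2 := h1.2 (EuclideanSpace.single 0 1) (by simp)
    have h3 : PD (-1) (show E4 ≃ₜ E4 from rho) := by rw [rho_eq]; exact PD_TT
    have h4 := h3.2 (EuclideanSpace.single 0 1) (by simp)
    have h5 := h2.2
    have h6 := h4.2
    linarith

private theorem quot_rho {k : Homeo4} (hk : k ∈ grpP) (hk' : k ∉ grpD) : k * rho⁻¹ ∈ grpD := by
  have h1 : PD 1 (show E4 ≃ₜ E4 from k) ∨ PD (-1) (show E4 ≃ₜ E4 from k) := mem_groupP.1 hk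
  have h2 : PD (-1) (show E4 ≃ₜ E4 from k) := h1.resolve_left fun h => hk' (mem_groupD.2 h)
  have h3 : PD (-1) (show E4 ≃ₜ E4 from rho) := by rw [rho_eq]; exact PD_TT
  have h4 := h2.mul h3.inv
  rw [show (-1 : ℝ) * -1 = 1 by norm_num] at h4
  exact mem_groupD.2 h4

/-- conjugate classes: at most two -/
private theorem two_classes {g g' k : Homeo4} (hg : g ∈ grpD) (hk : k ∈ grpP)
    (h : g' * (k * g * k⁻¹)⁻¹ ∈ derD) : Eqv g' g ∨ Eqv g' (rho * g * rho⁻¹) := by
  by_cases hkD : k ∈ grpD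
  · exact Or.inl (Eqv.trans h (Eqv.inner hkD hg))
  · refine Or.inr (Eqv.trans h ?_)
    have h1 : k * g * k⁻¹ = (k * rho⁻¹) * (rho * g * rho⁻¹) * (k * rho⁻¹)⁻¹ := by group
    rw [h1]
    refine Eqv.inner (quot_rho hk hkD) ?_
    have h2 : PD 1 (show E4 ≃ₜ E4 from g) := mem_groupD.1 hg
    have h3 : PD (-1) (show E4 ≃ₜ E4 from rho) := by rw [rho_eq]; exact PD_TT
    exact mem_groupD.2 (PD_conj (by norm_num) h3 h2)

/-- a finite set of representatives of `D` modulo `[D, D]` -/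
private theorem index_iff : derD.relIndex grpD ≠ 0 ↔
    ∃ s : Set Homeo4, s.Finite ∧ s ⊆ grpD ∧ ∀ g ∈ grpD, ∃ h ∈ s, Eqv g h := by
  have hnorm : ∀ a b : grpD, (a⁻¹ * b ∈ derD.subgroupOf grpD) ↔ Eqv (b : Homeo4) (a : Homeo4) := by
    intro a b
    rw [Subgroup.mem_subgroupOf]
    have e1 : ((a⁻¹ * b : grpD) : Homeo4) = (a : Homeo4)⁻¹ * (b : Homeo4) := rfl
    rw [e1]
    constructor
    · intro h
      have h1 := conj_mem (grpD_le a.2) h
      have h2 : (a : Homeo4) * ((a : Homeo4)⁻¹ * (b : Homeo4)) * (a : Homeo4)⁻¹ =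
          (b : Homeo4) * (a : Homeo4)⁻¹ := by group
      rwa [h2] at h1
    · intro h
      have h1 := conj_mem (grpP.inv_mem (grpD_le a.2)) (show (b : Homeo4) * (a : Homeo4)⁻¹ ∈ derD
        from h)
      have h2 : (a : Homeo4)⁻¹ * ((b : Homeo4) * (a : Homeo4)⁻¹) * ((a : Homeo4)⁻¹)⁻¹ =
          (a : Homeo4)⁻¹ * (b : Homeo4) := by group
      rwa [h2] at h1
  constructor
  · intro h
    have hfin : Finite (grpD ⧸ derD.subgroupOf grpD) := by
      have : (derD.subgroupOf grpD).FiniteIndex := ⟨h⟩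
      infer_instance
    refine ⟨range fun q : grpD ⧸ derD.subgroupOf grpD => ((Quotient.out q : grpD) : Homeo4),
      finite_range _, ?_, fun g hg => ?_⟩
    · rintro _ ⟨q, rfl⟩
      exact (Quotient.out q).2
    · set q : grpD ⧸ derD.subgroupOf grpD := ((⟨g, hg⟩ : grpD) : grpD ⧸ derD.subgroupOf grpD)
        with hq
      refine ⟨_, ⟨q, rfl⟩, ?_⟩
      have h1 : ((Quotient.out q : grpD) : grpD ⧸ derD.subgroupOf grpD) = (⟨g, hg⟩ : grpD) := by
        rw [← hq]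
        exact Quotient.out_eq' q
      exact (hnorm _ _).1 (QuotientGroup.eq.1 h1)
  · rintro ⟨s, hs, hsD, hrep⟩
    have hfin : Finite (grpD ⧸ derD.subgroupOf grpD) := by
      have hsf : Finite s := hs
      let f : s → grpD ⧸ derD.subgroupOf grpD := fun h => ((⟨h.1, hsD h.2⟩ : grpD) : _)
      refine Finite.of_surjective f fun q => ?_
      induction q using QuotientGroup.induction_on with | H a => ?_
      obtain ⟨h, hh, he⟩ := hrep a a.2
      refine ⟨⟨h, hh⟩, ?_⟩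
      exact QuotientGroup.eq.2 ((hnorm ⟨h, hsD hh⟩ a).2 he)
    have : (derD.subgroupOf grpD).FiniteIndex := Subgroup.finiteIndex_of_finite_quotient
    exact this.index_ne_zero

/-- **finiteness**: the class `S` is finite up to diffeomorphism if and only if all its members are
standard off one point and `[D, D]` has finite index in `D` -/
theorem finite_iff :
    FinitelyMany ↔ (∀ M : Mfd4, InS M → OffPoint M) ∧ derD.relIndex grpD ≠ 0 := by
  -- representatives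
  have hrep : ∀ g : grpD, ∃ (M : Mfd4) (p : Punctured → M) (G : Homeo4), Orbit M p G ∧
      Eqv G (g : Homeo4) := fun g => realise (grpD_le g.2)
  choose Mq pq Gq h1 h2 using hrep
  have hGD : ∀ g, Gq g ∈ grpD := fun g => mem_of_mul (h2 g) g.2
  rw [index_iff]
  constructor
  · intro hf
    refine ⟨fun M hM => offPoint_of_finite hf hM, ?_⟩
    obtain ⟨n, F, hF⟩ := hf
    -- for every type which occurs choose a representative
    let t : Fin n → Set Homeo4 := fun i =>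
      {g | ∃ hi : ∃ g₀ : grpD, Diffeomorphic (Mq g₀) (F i),
        g = Gq hi.choose ∨ g = rho * Gq hi.choose * rho⁻¹}
    refine ⟨⋃ i, t i, Set.finite_iUnion fun i => ?_, ?_, fun g hg => ?_⟩
    · by_cases hi : ∃ g₀ : grpD, Diffeomorphic (Mq g₀) (F i)
      · refine Set.Finite.subset (Set.toFinite {Gq hi.choose, rho * Gq hi.choose * rho⁻¹}) ?_
        rintro g ⟨_, hg | hg⟩
        · exact Or.inl hg
        · exact Or.inr hg
      · refine Set.Finite.subset Set.finite_empty ?_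
        rintro g ⟨hi', _⟩
        exact absurd hi' hi
    · refine Set.iUnion_subset fun i => ?_
      rintro g ⟨hi, rfl | rfl⟩
      · exact hGD _
      · have e2 : PD 1 (show E4 ≃ₜ E4 from Gq hi.choose) := mem_groupD.1 (hGD _)
        have e3 : PD (-1) (show E4 ≃ₜ E4 from rho) := by rw [rho_eq]; exact PD_TT
        exact mem_groupD.2 (PD_conj (by norm_num) e3 e2)
    · obtain ⟨i, hi⟩ := hF _ (orbit_inS (h1 ⟨g, hg⟩) (hGD _))
      have hi' : ∃ g₀ : grpD, Diffeomorphic (Mq g₀) (F i) := ⟨_, hi⟩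
      have h3 : Diffeomorphic (Mq hi'.choose) (Mq ⟨g, hg⟩) :=
        diffeo_trans hi'.choose_spec (diffeo_symm hi)
      obtain ⟨k, hk, hk'⟩ := (conj_final (h1 _) (h1 _)).1 h3
      rcases two_classes (hGD _) hk hk' with h4 | h4
      · exact ⟨_, Set.mem_iUnion.2 ⟨i, hi', Or.inl rfl⟩, (Eqv.symm (h2 ⟨g, hg⟩)).trans h4⟩
      · exact ⟨_, Set.mem_iUnion.2 ⟨i, hi', Or.inr rfl⟩, (Eqv.symm (h2 ⟨g, hg⟩)).trans h4⟩
  · rintro ⟨hO, s, hs, hsD, hs'⟩
    have hsf : Finite s := hs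
    obtain ⟨n, ⟨e⟩⟩ := Finite.exists_equiv_fin s
    refine ⟨n, fun i => Mq ⟨(e.symm i).1, hsD (e.symm i).2⟩, fun M hM => ?_⟩
    obtain ⟨X, hX, hMX⟩ := almost_of_offPoint (hO M hM)
    obtain ⟨p, G, h3, h4⟩ := (almost_pos hX).1 hMX
    obtain ⟨h, hh, hh'⟩ := hs' G h4
    refine ⟨e ⟨h, hh⟩, ?_⟩
    have h5 : (⟨(e.symm (e ⟨h, hh⟩)).1, hsD (e.symm (e ⟨h, hh⟩)).2⟩ : grpD) = ⟨h, hsD hh⟩ := by
      rw [Subtype.mk.injEq, Equiv.symm_apply_apply]
    show Diffeomorphic M (Mq _)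
    rw [h5]
    refine (conj_final h3 (h1 _)).2 ⟨1, grpP.one_mem, ?_⟩
    have h6 := (h2 ⟨h, hsD hh⟩).trans (Eqv.symm hh')
    have h7 : (1 : Homeo4) * G * (1 : Homeo4)⁻¹ = G := by group
    rw [h7]
    exact h6

end Pool.Agent.HopfFin
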