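import Pool.Agent.HopfFin.Level
import Pool.Agent.HopfFin.Lift
import Pool.Agent.HopfFin.Desc
import Pool.Agent.HopfFin.Space
import Pool.Agent.HopfFin.OffIn
import Pool.Agent.HopfRem.Final

/-!
# The finiteness theorem
-/

set_option autoImplicit false

open scoped ContDiff Topology Manifold
open Set Filter Metric

namespace Pool.Agent.HopfFin

open Pool.Agent.HopfCov Pool.Agent.HopfCov.Smooth

/-- **Theorem F** -/
theorem infinite_family {M : Mfd4} (hM : InS M) (hO : ¬ OffPoint M) :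
    ∃ N : ℕ → Mfd4, (∀ k, InS (N k)) ∧ ∀ i j, i ≠ j → ¬ Diffeomorphic (N i) (N j) := by
  obtain ⟨h1, h2, p, g, G, T, h3, h4, h5, h6, h7⟩ := lift_good hM
  have hO' : ¬ Off G := fun h =>
    hO (offPoint_of_Off ⟨h1, h2⟩ h3 h4 (h7.PD h5 (by rw [← norm_ne_zero_iff, norm_e0]; norm_num))
      h6 h)
  obtain ⟨V, h8, h9⟩ := main_G h5 h7 hO'
  choose T' h10 using fun k => (h8 k).2
  choose N q γ i1 i2 i3 i4 i5 using fun k => space_good (h8 k).1 (h10 k)
  exact ⟨N, i1, fun i j hij hd => h9 i j hij (cjV_of_diffeo ⟨i2 i, i3 i⟩ ⟨i2 j, i3 j⟩ (i4 i) (i4 j)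
    (i5 i) (i5 j) (h10 i).contr (h10 j).contr hd)⟩

theorem diffeo_symm {M N : Mfd4} (h : Diffeomorphic M N) : Diffeomorphic N M := h.symm

theorem diffeo_trans {M N L : Mfd4} (h : Diffeomorphic M N) (h' : Diffeomorphic N L) :
    Diffeomorphic M L := by
  obtain ⟨f, hf⟩ := h
  obtain ⟨f', hf'⟩ := h'
  let Φ : Diffeomorph (𝓡 4) (𝓡 4) M.carrier L.carrier ∞ := (toDiffeo hf).trans (toDiffeo hf')
  exact ⟨Φ, Φ.bijective, Φ.isLocalDiffeomorph⟩

/-- two manifolds diffeomorphic to `S¹ × S³` are diffeomorphic -/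
theorem diffeo_of_std {M N : Mfd4} (h : DiffeoS1S3 M) (h' : DiffeoS1S3 N) : Diffeomorphic M N := by
  obtain ⟨Φ⟩ := h
  obtain ⟨Φ'⟩ := h'
  let Ψ : Diffeomorph (𝓡 4) (𝓡 4) M.carrier N.carrier ∞ := Φ.trans Φ'.symm
  exact ⟨Ψ, Ψ.bijective, Ψ.isLocalDiffeomorph⟩

/-- if the class `S` is finite up to diffeomorphism then all its members are standard off one
point -/
theorem offPoint_of_finite (h : FinitelyMany) {M : Mfd4} (hM : InS M) : OffPoint M := by
  by_contra hO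
  obtain ⟨N, h1, h2⟩ := infinite_family hM hO
  obtain ⟨n, F, hF⟩ := h
  choose i hi using fun k => hF (N k) (h1 k)
  obtain ⟨a, b, hab, he⟩ := Finite.exists_ne_map_eq_of_infinite i
  exact h2 a b hab (diffeo_trans (hi a) (by rw [he]; exact diffeo_symm (hi b)))

/-- a manifold which is standard off one point is almost diffeomorphic to `S¹ × S³` in the sense of
the hand-in `Classification` (`exists_S1S3`, `almost_off`) -/
theorem almost_of_offPoint {M : Mfd4} (h : OffPoint M) :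
    ∃ X : Mfd4, DiffeoS1S3 X ∧ AlmostDiffeo M X := by
  obtain ⟨F, x₀, hF⟩ := h
  obtain ⟨X, hX⟩ := exists_S1S3
  refine ⟨X, hX, (almost_off (Or.inl hX)).2 ?_⟩
  obtain ⟨Ψ⟩ := hX
  refine ⟨F.trans Ψ.symm.toHomeomorph, x₀, fun x hx => ?_⟩
  have h1 : IsLocalDiffeomorphAt model13 (𝓡 4) ∞ Ψ.symm (F x) := Ψ.symm.isLocalDiffeomorph (F x)
  exact (hF x hx).comp (K := 𝓡 4) (hg := h1)

/-- all members of `S` are standard if and only if `D` is perfect and `S` is finite. Plan: `→`: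
`FinitelyMany` with one manifold (`exists_S1S3`), `derD = grpD` by `uniq_pos` and
`inS_of_offPoint`; `←`: `offPoint_of_finite`, `almost_of_offPoint`, `uniq_pos`. -/
theorem unique_iff : (∀ M : Mfd4, InS M → DiffeoS1S3 M) ↔ derD = grpD ∧ FinitelyMany := by
  constructor
  · intro h
    refine ⟨uniq_pos.1 fun M X hX hM => h M (inS_of_offPoint hX hM), ?_⟩
    obtain ⟨X, hX⟩ := exists_S1S3
    exact ⟨1, fun _ => X, fun M hM => ⟨0, diffeo_of_std (h M hM) hX⟩⟩
  · rintro ⟨h1, h2⟩ M hM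
    obtain ⟨X, hX, hMX⟩ := almost_of_offPoint (offPoint_of_finite h2 hM)
    exact uniq_pos.2 h1 M X hX hMX

end Pool.Agent.HopfFin
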