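import Pool.Agent.HopfFin.NearId
import Pool.Agent.HopfFin.Cones

/-!
# Extension of germs along the ray whose derivative is near the identity

Plan of `germ_near`. `u x = ψ x - x` vanishes on the ray; by compactness of `{t • e0 : 1/2 ≤ t ≤ 2}`
and equivariance there is `δ` (at most `1` and at most the `δ` of `he`) such that on `Cone δ` off
`0` the map `u` is smooth, commutes with `x ↦ x/2` and `‖fderiv u‖ ≤ 2 ε`; so
`‖u x‖ ≤ 2 ε ‖pr x‖` on `Cone δ` (mean value inequality on the segment from `x 0 • e0` to `x`).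
Put `w x = f (q x) • u x` for `0 < x 0` and `‖pr x‖ < δ x 0`, `0` otherwise, where
`q x = (δ x 0)⁻¹ • pr x` and `f` is a bump function, `f = 1` on the ball of radius `1/2`, `f = 0`
off the ball of radius `3/4`. Then `‖D w‖ ≤ 2 ε + 8 L ε`, where `L` is a bound for the derivative of
`f`. Take `ε = 1/(4 + 16 L)` and apply `near_id_mk`.
-/

set_option autoImplicit false

open scoped ContDiff Topology
open Set Filter Metric

namespace Pool.Agent.HopfFin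

open Pool.Agent.HopfCov

/-! ### elementary estimates -/

private theorem gn_pr_le (x : E4) : ‖pr x‖ ≤ ‖x‖ := by
  have h1 := norm_sq_eq x
  have h2 : ‖pr x‖ ^ 2 ≤ ‖x‖ ^ 2 := by nlinarith [sq_nonneg (x 0)]
  exact (sq_le_sq₀ (norm_nonneg _) (norm_nonneg _)).1 h2

private theorem gn_abs_le (x : E4) : |x 0| ≤ ‖x‖ := by
  have h1 := norm_sq_eq x
  have h2 : |x 0| ^ 2 ≤ ‖x‖ ^ 2 := by
    rw [sq_abs]
    nlinarith [sq_nonneg ‖pr x‖]
  exact (sq_le_sq₀ (abs_nonneg _) (norm_nonneg _)).1 h2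

private theorem gn_pr_sub (x y : E4) : pr (x - y) = pr x - pr y := by
  have h1 : x - y = x + (-1 : ℝ) • y := by rw [neg_one_smul, sub_eq_add_neg]
  rw [h1, pr_add, pr_smul, neg_one_smul, ← sub_eq_add_neg]

private theorem gn_contDiff_coord : ContDiff ℝ ∞ (fun y : E4 => y 0) :=
  (EuclideanSpace.proj (𝕜 := ℝ) (0 : Fin 4)).contDiff

private theorem gn_contDiff_pr : ContDiff ℝ ∞ pr := by
  have h1 : pr = fun y : E4 => y - y 0 • e0 := rfl
  rw [h1]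
  exact contDiff_id.sub (gn_contDiff_coord.smul contDiff_const)

/-- the coordinate in the cone -/
private noncomputable def gnq (δ : ℝ) (x : E4) : E4 := (δ * x 0)⁻¹ • pr x

private theorem gnq_smooth {δ : ℝ} (hδ : 0 < δ) {x : E4} (hx : 0 < x 0) :
    ContDiffAt ℝ ∞ (gnq δ) x := by
  have h1 : ContDiffAt ℝ ∞ (fun y : E4 => (δ * y 0)⁻¹) x :=
    (contDiffAt_const.mul gn_contDiff_coord.contDiffAt).inv (mul_pos hδ hx).ne'
  exact h1.smul gn_contDiff_pr.contDiffAt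

private theorem gnq_lip {δ : ℝ} (hδ : 0 < δ) (hδ1 : δ ≤ 1) {x : E4} (hx : 0 < x 0)
    (hxδ : ‖pr x‖ ≤ δ * x 0) {y : E4} (hy : x 0 / 2 < y 0) :
    ‖gnq δ y - gnq δ x‖ ≤ 4 / (δ * x 0) * ‖y - x‖ := by
  have hy0 : 0 < y 0 := by linarith
  have h1 : gnq δ y - gnq δ x = (δ * y 0)⁻¹ • pr (y - x) +
      (-(y 0 - x 0) / (δ * y 0 * x 0)) • pr x := by
    have h2 : (δ * x 0)⁻¹ = (δ * y 0)⁻¹ - -(y 0 - x 0) / (δ * y 0 * x 0) := by
      field_simp
      ring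
    rw [gnq, gnq, h2, gn_pr_sub, smul_sub, sub_smul]
    abel
  have h3 : |y 0 - x 0| ≤ ‖y - x‖ := by
    have := gn_abs_le (y - x)
    rwa [PiLp.sub_apply] at this
  have h4 : (δ * y 0)⁻¹ ≤ 2 / (δ * x 0) := by
    rw [inv_le_comm₀ (by positivity) (by positivity), inv_div]
    nlinarith
  rw [h1]
  calc ‖(δ * y 0)⁻¹ • pr (y - x) + (-(y 0 - x 0) / (δ * y 0 * x 0)) • pr x‖
      ≤ ‖(δ * y 0)⁻¹ • pr (y - x)‖ + ‖(-(y 0 - x 0) / (δ * y 0 * x 0)) • pr x‖ :=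
        norm_add_le _ _
    _ = (δ * y 0)⁻¹ * ‖pr (y - x)‖ + |y 0 - x 0| / (δ * y 0 * x 0) * ‖pr x‖ := by
        rw [norm_smul, norm_smul, Real.norm_eq_abs, Real.norm_eq_abs, abs_div, abs_neg,
          abs_of_pos (inv_pos.2 (mul_pos hδ hy0)),
          abs_of_pos (mul_pos (mul_pos hδ hy0) hx)]
    _ ≤ (δ * y 0)⁻¹ * ‖y - x‖ + ‖y - x‖ / (δ * y 0 * x 0) * (δ * x 0) := by
        gcongr
        exact gn_pr_le _
    _ = (δ * y 0)⁻¹ * ‖y - x‖ + (δ * y 0)⁻¹ * (δ * ‖y - x‖) := by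
        field_simp
    _ ≤ (δ * y 0)⁻¹ * ‖y - x‖ + (δ * y 0)⁻¹ * (1 * ‖y - x‖) := by gcongr
    _ = (δ * y 0)⁻¹ * (2 * ‖y - x‖) := by ring
    _ ≤ 2 / (δ * x 0) * (2 * ‖y - x‖) := by gcongr
    _ = 4 / (δ * x 0) * ‖y - x‖ := by ring

/-- a bump function with bounded derivative -/
private theorem gn_bump : ∃ (f : E4 → ℝ) (L : ℝ), 0 ≤ L ∧ ContDiff ℝ ∞ f ∧
    (∀ y, ‖y‖ ≤ 1 / 2 → f y = 1) ∧ (∀ y, 3 / 4 ≤ ‖y‖ → f y = 0) ∧ (∀ y, 0 ≤ f y) ∧
    (∀ y, f y ≤ 1) ∧ ∀ x y, ‖f y - f x‖ ≤ L * ‖y - x‖ := by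
  obtain ⟨f, hf⟩ : ∃ f : ContDiffBump (0 : E4), f = ⟨1 / 2, 3 / 4, by norm_num, by norm_num⟩ :=
    ⟨_, rfl⟩
  have hf1 : f.rIn = 1 / 2 := by rw [hf]
  have hf2 : f.rOut = 3 / 4 := by rw [hf]
  have hs : ContDiff ℝ ∞ f := f.contDiff
  have hc : Continuous (fderiv ℝ f) := hs.continuous_fderiv (by simp)
  obtain ⟨L, hL⟩ := hc.bounded_above_of_compact_support (f.hasCompactSupport.fderiv (𝕜 := ℝ))
  have hL0 : 0 ≤ L := (norm_nonneg _).trans (hL 0)
  refine ⟨f, L, hL0, hs, ?_, ?_, fun y => f.nonneg, fun y => f.le_one, ?_⟩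
  · intro y hy
    refine f.one_of_mem_closedBall ?_
    rw [mem_closedBall_zero_iff, hf1]
    exact hy
  · intro y hy
    refine f.zero_of_le_dist ?_
    rw [dist_zero_right, hf2]
    exact hy
  · intro x y
    exact convex_univ.norm_image_sub_le_of_norm_fderiv_le (𝕜 := ℝ)
      (fun z _ => hs.contDiffAt.differentiableAt (by simp)) (fun z _ => hL z) (mem_univ x)
      (mem_univ y)

/-! ### the germ on a thin cone -/

/-- the open cone -/
private theorem gn_isOpen (η : ℝ) : IsOpen {x : E4 | ‖pr x‖ < η * x 0} :=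
  isOpen_lt gn_contDiff_pr.continuous.norm (continuous_const.mul gn_contDiff_coord.continuous)

private theorem gn_zpow {ψ : E4 → E4} {η : ℝ}
    (he : ∀ x ∈ Cone η, ψ ((2⁻¹ : ℝ) • x) = (2⁻¹ : ℝ) • ψ x) {x : E4} (hx : x ∈ Cone η) (k : ℤ) :
    ψ ((2 : ℝ) ^ k • x) = (2 : ℝ) ^ k • ψ x := by
  have hz : ∀ k : ℤ, (2 : ℝ) ^ k • x ∈ Cone η := fun k => Cone_smul (zpow_pos two_pos k).le hx
  induction k with
  | zero => simp
  | succ k ih =>
    have h1 := he _ (hz (k + 1))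
    have h2 : (2⁻¹ : ℝ) • (2 : ℝ) ^ ((k : ℤ) + 1) • x = (2 : ℝ) ^ (k : ℤ) • x := by
      rw [smul_smul, zpow_add_one₀ two_ne_zero]
      congr 1
      ring
    rw [h2, ih] at h1
    have h3 : (2 : ℝ) • (2 : ℝ) ^ (k : ℤ) • ψ x = ψ ((2 : ℝ) ^ ((k : ℤ) + 1) • x) := by
      rw [h1, smul_smul (2 : ℝ) 2⁻¹, mul_inv_cancel₀ two_ne_zero, one_smul]
    rw [← h3, smul_smul, zpow_add_one₀ two_ne_zero, mul_comm]
  | pred k ih =>
    have h1 := he _ (hz (-k))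
    rw [smul_smul, ih, smul_smul] at h1
    have h2 : (2⁻¹ : ℝ) * (2 : ℝ) ^ (-(k : ℤ)) = (2 : ℝ) ^ (-(k : ℤ) - 1) := by
      rw [zpow_sub_one₀ two_ne_zero, mul_comm]
    rw [h2] at h1
    exact h1

/-- smoothness and the bound of the derivative on a thin cone -/
private theorem gn_thin {ψ : E4 → E4} {ε : ℝ} (hε : 0 < ε) (hr : RegRay ψ) (he : EqvNear ψ)
    (hd : ∀ t : ℝ, 0 < t → ‖fderiv ℝ ψ (t • e0) - ContinuousLinearMap.id ℝ E4‖ ≤ ε) :
    ∃ δ : ℝ, 0 < δ ∧ δ ≤ 1 ∧ (∀ x ∈ Cone δ, ψ ((2⁻¹ : ℝ) • x) = (2⁻¹ : ℝ) • ψ x) ∧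
      ∀ x ∈ Cone δ, x ≠ 0 → ContDiffAt ℝ ∞ ψ x ∧
        ‖fderiv ℝ ψ x - ContinuousLinearMap.id ℝ E4‖ ≤ 2 * ε := by
  obtain ⟨η, hη, he⟩ := he
  obtain ⟨δ₁, hδ₁, h1⟩ := exists_Cone_subset (U := interior {x | ContDiffAt ℝ ∞ ψ x ∧
    ‖fderiv ℝ ψ x - ContinuousLinearMap.id ℝ E4‖ < 2 * ε}) isOpen_interior (by
      intro t ht _
      have ht0 : 0 < t := by linarith
      rw [mem_interior_iff_mem_nhds]
      have h2 := hr t ht0
      have h3 : ContDiffAt ℝ ∞ ψ (t • e0) := h2.self_of_nhds.1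
      have h4 : ContinuousAt (fderiv ℝ ψ) (t • e0) := h3.continuousAt_fderiv (by simp)
      have h5 : ContinuousAt (fun x => ‖fderiv ℝ ψ x - ContinuousLinearMap.id ℝ E4‖) (t • e0) :=
        (h4.sub continuousAt_const).norm
      have h6 := h5.eventually_lt_const (lt_of_le_of_lt (hd t ht0) (by linarith : ε < 2 * ε))
      filter_upwards [h2, h6] with x h7 h8
      exact ⟨h7.1, h8⟩)
  obtain ⟨δ, hδ, hδ1, hδη, hδδ⟩ : ∃ δ : ℝ, 0 < δ ∧ δ ≤ 1 ∧ 2 * δ ≤ η ∧ δ ≤ δ₁ := by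
    refine ⟨min 1 (min (η / 2) δ₁), by positivity, min_le_left _ _, ?_, ?_⟩
    · have : min 1 (min (η / 2) δ₁) ≤ η / 2 := (min_le_right _ _).trans (min_le_left _ _)
      linarith
    · exact (min_le_right _ _).trans (min_le_right _ _)
  refine ⟨δ, hδ, hδ1, fun x hx => he x (Cone_mono hδ (by linarith) hx), ?_⟩
  intro x hx hx0
  have hpos : 0 < x 0 := lt_of_le_of_ne (Cone_apply_nonneg hδ hx)
    fun h => hx0 (Cone_eq_zero hx h.symm)
  obtain ⟨k, y, hxy, hy1, hy2⟩ := exists_pow_smul hpos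
  have hyx : y = (2 : ℝ) ^ k • x := by
    rw [hxy, smul_smul, ← zpow_add₀ two_ne_zero, add_neg_cancel, zpow_zero, one_smul]
  have hyC : y ∈ Cone δ₁ := by
    rw [hyx]
    exact Cone_mono hδ hδδ (Cone_smul (zpow_pos two_pos k).le hx)
  obtain ⟨h2, h3⟩ := interior_subset (h1 y hyC (by linarith) hy2)
  -- near `x` the map is a conjugate
  have h4 : ψ =ᶠ[𝓝 x] fun z => ((2 : ℝ) ^ k)⁻¹ • ψ ((2 : ℝ) ^ k • z) := by
    have h5 : x ∈ {z : E4 | ‖pr z‖ < η * z 0} := by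
      have h6 : ‖pr x‖ ≤ δ * x 0 := hx
      show ‖pr x‖ < η * x 0
      nlinarith
    filter_upwards [(gn_isOpen η).mem_nhds h5] with z hz
    rw [gn_zpow he (show z ∈ Cone η from le_of_lt hz) k, smul_smul,
      inv_mul_cancel₀ (zpow_ne_zero k two_ne_zero), one_smul]
  have hk : (2 : ℝ) ^ k ≠ 0 := zpow_ne_zero k two_ne_zero
  rw [hyx] at h2 h3
  constructor
  · refine ContDiffAt.congr_of_eventuallyEq ?_ h4
    have h5 : ContDiffAt ℝ ∞ (fun z : E4 => (2 : ℝ) ^ k • z) x := contDiffAt_id.const_smul _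
    exact (ContDiffAt.comp x h2 h5).const_smul _
  · have h5 : fderiv ℝ ψ x = fderiv ℝ ψ ((2 : ℝ) ^ k • x) := by
      rw [h4.fderiv_eq]
      have h6 : fderiv ℝ (fun z => ((2 : ℝ) ^ k)⁻¹ • ψ ((2 : ℝ) ^ k • z)) x =
          ((2 : ℝ) ^ k)⁻¹ • fderiv ℝ (fun z => ψ ((2 : ℝ) ^ k • z)) x :=
        congrFun (fderiv_const_smul_field (𝕜 := ℝ) (f := fun z => ψ ((2 : ℝ) ^ k • z))
          ((2 : ℝ) ^ k)⁻¹) x
      have h7 : fderiv ℝ (fun z => ψ ((2 : ℝ) ^ k • z)) x =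
          (2 : ℝ) ^ k • fderiv ℝ ψ ((2 : ℝ) ^ k • x) := fderiv_comp_smul ((2 : ℝ) ^ k)
      rw [h6, h7, smul_smul, inv_mul_cancel₀ hk, one_smul]
    rw [h5]
    exact h3.le

/-- germs along the ray with derivative near the identity extend to elements of `Pz` -/
theorem germ_near : ∃ ε : ℝ, 0 < ε ∧ ∀ ψ : E4 → E4, RegRay ψ → EqvNear ψ →
    (∀ t : ℝ, 0 < t → ψ (t • e0) = t • e0) →
    (∀ t : ℝ, 0 < t → ‖fderiv ℝ ψ (t • e0) - ContinuousLinearMap.id ℝ E4‖ ≤ ε) →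
    ∃ A : E4 ≃ₜ E4, Pz A ∧ AgreeNear A ψ := by
  classical
  obtain ⟨f, L, hL, hf, hf1, hf0, hfn, hfl, hlip⟩ := gn_bump
  have hε : (0 : ℝ) < 1 / (4 + 16 * L) := by positivity
  refine ⟨1 / (4 + 16 * L), hε, ?_⟩
  intro ψ hr he hray hd
  obtain ⟨δ, hδ, hδ1, hhalf, hsm⟩ := gn_thin hε hr he hd
  obtain ⟨ε, hεdef⟩ : ∃ ε : ℝ, ε = 1 / (4 + 16 * L) := ⟨_, rfl⟩
  rw [← hεdef] at hε hsm
  obtain ⟨u, hu⟩ : ∃ u : E4 → E4, ∀ x, u x = ψ x - x := ⟨fun x => ψ x - x, fun _ => rfl⟩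
  have huf : u = fun x => ψ x - x := funext hu
  -- properties of `u`
  have husm : ∀ x ∈ Cone δ, x ≠ 0 → ContDiffAt ℝ ∞ u x := by
    intro x hx hx0
    rw [huf]
    exact (hsm x hx hx0).1.sub contDiffAt_id
  have hud : ∀ x ∈ Cone δ, x ≠ 0 → ‖fderiv ℝ u x‖ ≤ 2 * ε := by
    intro x hx hx0
    have h1 : fderiv ℝ u x = fderiv ℝ ψ x - ContinuousLinearMap.id ℝ E4 := by
      rw [huf, fderiv_fun_sub ((hsm x hx hx0).1.differentiableAt (by simp))
        differentiableAt_fun_id, fderiv_fun_id]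
    rw [h1]
    exact (hsm x hx hx0).2
  have huhalf : ∀ x ∈ Cone δ, u ((2⁻¹ : ℝ) • x) = (2⁻¹ : ℝ) • u x := by
    intro x hx
    rw [hu, hu, hhalf x hx, smul_sub]
  have hunorm : ∀ x ∈ Cone δ, x ≠ 0 → ‖u x‖ ≤ 2 * ε * ‖pr x‖ := by
    intro x hx hx0
    have hpos : 0 < x 0 := lt_of_le_of_ne (Cone_apply_nonneg hδ hx)
      fun h => hx0 (Cone_eq_zero hx h.symm)
    have hseg : ∀ z ∈ segment ℝ (x 0 • e0) x, z ∈ Cone δ ∧ z ≠ 0 := by
      rintro z ⟨a, b, ha, hb, hab, rfl⟩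
      have h1 : (a • x 0 • e0 + b • x) 0 = x 0 := by
        simp only [PiLp.add_apply, PiLp.smul_apply, smul_eq_mul, e0_apply_zero, mul_one]
        rw [← add_mul, hab, one_mul]
      refine ⟨?_, fun h0 => ?_⟩
      · show ‖pr (a • x 0 • e0 + b • x)‖ ≤ δ * (a • x 0 • e0 + b • x) 0
        rw [h1, pr_add, pr_smul, pr_smul, pr_smul, pr_e0, smul_zero, smul_zero, zero_add,
          norm_smul, Real.norm_eq_abs, abs_of_nonneg hb]
        have h2 : ‖pr x‖ ≤ δ * x 0 := hx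
        have h3 : b ≤ 1 := by linarith
        nlinarith [norm_nonneg (pr x)]
      · rw [h0] at h1
        rw [← h1] at hpos
        exact lt_irrefl _ hpos
    have h4 := (convex_segment (x 0 • e0) x).norm_image_sub_le_of_norm_fderiv_le (𝕜 := ℝ)
      (f := u) (C := 2 * ε)
      (fun z hz => (husm z (hseg z hz).1 (hseg z hz).2).differentiableAt (by simp))
      (fun z hz => hud z (hseg z hz).1 (hseg z hz).2)
      (left_mem_segment ℝ _ _) (right_mem_segment ℝ _ _)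
    have h5 : u (x 0 • e0) = 0 := by rw [hu, hray _ hpos, sub_self]
    rw [h5, sub_zero] at h4
    exact h4
  -- the extension
  obtain ⟨O, hO⟩ : ∃ O : Set E4, O = {x | 0 < x 0 ∧ ‖pr x‖ < δ * x 0} := ⟨_, rfl⟩
  have hOmem : ∀ x, x ∈ O ↔ 0 < x 0 ∧ ‖pr x‖ < δ * x 0 := fun x => by rw [hO]; exact Iff.rfl
  have hOopen : IsOpen O := by
    rw [hO]
    exact (isOpen_lt continuous_const gn_contDiff_coord.continuous).inter (gn_isOpen δ)
  have hOcone : ∀ x ∈ O, x ∈ Cone δ ∧ x ≠ 0 := by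
    intro x hx
    obtain ⟨h1, h2⟩ := (hOmem x).1 hx
    refine ⟨h2.le, ?_⟩
    rintro rfl
    exact lt_irrefl _ h1
  have hOhalf : ∀ x, (2⁻¹ : ℝ) • x ∈ O ↔ x ∈ O := by
    intro x
    rw [hOmem, hOmem, pr_smul, norm_smul, PiLp.smul_apply, smul_eq_mul, Real.norm_eq_abs,
      abs_of_pos (by norm_num : (0 : ℝ) < 2⁻¹)]
    constructor
    · rintro ⟨h1, h2⟩
      exact ⟨by linarith, by linarith⟩
    · rintro ⟨h1, h2⟩
      exact ⟨by linarith, by linarith⟩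
  obtain ⟨w, hw1, hw0⟩ : ∃ w : E4 → E4, (∀ x ∈ O, w x = f (gnq δ x) • u x) ∧
      ∀ x, x ∉ O → w x = 0 :=
    ⟨fun x => if x ∈ O then f (gnq δ x) • u x else 0, fun x hx => if_pos hx,
      fun x hx => if_neg hx⟩
  have hq : ∀ x : E4, 0 < x 0 → ‖gnq δ x‖ = ‖pr x‖ / (δ * x 0) := by
    intro x hx
    rw [gnq, norm_smul, norm_inv, Real.norm_eq_abs, abs_of_pos (mul_pos hδ hx)]
    field_simp
  have hfar : ∀ x, x ∉ Cone (3 / 4 * δ) → w =ᶠ[𝓝 x] fun _ => 0 := by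
    intro x hx
    filter_upwards [(isClosed_Cone (3 / 4 * δ)).isOpen_compl.mem_nhds hx] with y hy
    by_cases hyO : y ∈ O
    · have h1 := ((hOmem y).1 hyO).1
      have h2 : 3 / 4 * δ * y 0 < ‖pr y‖ := not_le.1 hy
      rw [hw1 y hyO, hf0, zero_smul]
      rw [hq y h1, le_div_iff₀ (mul_pos hδ h1)]
      linarith
    · exact hw0 y hyO
  have hnear : ∀ x ∈ Cone (3 / 4 * δ), x ≠ 0 → x ∈ O := by
    intro x hx hx0
    have hδ' : 0 < 3 / 4 * δ := by positivity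
    have hpos : 0 < x 0 := lt_of_le_of_ne (Cone_apply_nonneg hδ' hx)
      fun h => hx0 (Cone_eq_zero hx h.symm)
    have h1 : ‖pr x‖ ≤ 3 / 4 * δ * x 0 := hx
    have h2 : 0 < δ * x 0 := mul_pos hδ hpos
    exact (hOmem x).2 ⟨hpos, by linarith⟩
  have hgsm : ∀ x ∈ O, ContDiffAt ℝ ∞ (fun y => f (gnq δ y)) x := fun x hx =>
    ContDiffAt.comp x hf.contDiffAt (gnq_smooth hδ ((hOmem x).1 hx).1)
  have hwO : ∀ x ∈ O, w =ᶠ[𝓝 x] fun y => f (gnq δ y) • u y := by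
    intro x hx
    filter_upwards [hOopen.mem_nhds hx] with y hy using hw1 y hy
  have hws : ∀ x, x ≠ 0 → ContDiffAt ℝ ∞ w x := by
    intro x hx0
    by_cases hx : x ∈ Cone (3 / 4 * δ)
    · have hxO := hnear x hx hx0
      exact ((hgsm x hxO).smul (husm x (hOcone x hxO).1 hx0)).congr_of_eventuallyEq (hwO x hxO)
    · exact contDiffAt_const.congr_of_eventuallyEq (hfar x hx)
  have hwd : ∀ x, x ≠ 0 → ‖fderiv ℝ w x‖ ≤ 1 / 2 := by
    intro x hx0
    by_cases hx : x ∈ Cone (3 / 4 * δ)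
    · have hxO := hnear x hx hx0
      obtain ⟨hpos, hlt⟩ := (hOmem x).1 hxO
      have h1 : HasFDerivAt (fun y => f (gnq δ y)) (fderiv ℝ (fun y => f (gnq δ y)) x) x :=
        ((hgsm x hxO).differentiableAt (by simp)).hasFDerivAt
      have h2 : HasFDerivAt u (fderiv ℝ u x) x :=
        ((husm x (hOcone x hxO).1 hx0).differentiableAt (by simp)).hasFDerivAt
      have h12 : HasFDerivAt (fun y => f (gnq δ y) • u y) (f (gnq δ x) • fderiv ℝ u x +
          (fderiv ℝ (fun y => f (gnq δ y)) x).smulRight (u x)) x := h1.smul h2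
      rw [(hwO x hxO).fderiv_eq, h12.fderiv]
      have h3 : ‖fderiv ℝ (fun y => f (gnq δ y)) x‖ ≤ L * (4 / (δ * x 0)) := by
        refine h1.le_of_lip' (by positivity) ?_
        have h4 : {y : E4 | x 0 / 2 < y 0} ∈ 𝓝 x :=
          (isOpen_lt continuous_const gn_contDiff_coord.continuous).mem_nhds
            (show x 0 / 2 < x 0 by linarith)
        filter_upwards [h4] with y hy
        calc ‖f (gnq δ y) - f (gnq δ x)‖ ≤ L * ‖gnq δ y - gnq δ x‖ := hlip _ _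
          _ ≤ L * (4 / (δ * x 0) * ‖y - x‖) := by
              gcongr
              exact gnq_lip hδ hδ1 hpos hlt.le hy
          _ = L * (4 / (δ * x 0)) * ‖y - x‖ := by ring
      have h5 : ‖f (gnq δ x) • fderiv ℝ u x‖ ≤ 2 * ε := by
        rw [norm_smul, Real.norm_eq_abs, abs_of_nonneg (hfn _)]
        calc f (gnq δ x) * ‖fderiv ℝ u x‖ ≤ 1 * (2 * ε) := by
              gcongr
              · exact hfl _
              · exact hud x (hOcone x hxO).1 hx0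
          _ = 2 * ε := one_mul _
      have h6 : ‖(fderiv ℝ (fun y => f (gnq δ y)) x).smulRight (u x)‖ ≤ 8 * L * ε := by
        rw [ContinuousLinearMap.norm_smulRight_apply]
        calc ‖fderiv ℝ (fun y => f (gnq δ y)) x‖ * ‖u x‖
            ≤ L * (4 / (δ * x 0)) * (2 * ε * (δ * x 0)) := by
              gcongr
              refine (hunorm x (hOcone x hxO).1 hx0).trans ?_
              gcongr
          _ = 8 * L * ε := by
              field_simp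
              ring
      refine (norm_add_le _ _).trans ((add_le_add h5 h6).trans (le_of_eq ?_))
      rw [hεdef]
      field_simp
      ring
    · rw [(hfar x hx).fderiv_eq]
      simp
  obtain ⟨A, hA, hAx⟩ := near_id_mk w (hw0 0 fun h => (hOcone 0 h).2 rfl) hws hwd (by
    intro x
    by_cases hx : x ∈ O
    · have hx' := (hOhalf x).2 hx
      have h1 : gnq δ ((2⁻¹ : ℝ) • x) = gnq δ x := by
        have h2 := ((hOmem x).1 hx).1
        rw [gnq, gnq, pr_smul, PiLp.smul_apply, smul_eq_mul, smul_smul]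
        congr 1
        field_simp
      rw [hw1 _ hx', hw1 x hx, h1, huhalf x (hOcone x hx).1, smul_comm]
    · have hx' : (2⁻¹ : ℝ) • x ∉ O := fun h => hx ((hOhalf x).1 h)
      rw [hw0 _ hx', hw0 x hx, smul_zero])
  refine ⟨A, hA, δ / 2, by positivity, ?_⟩
  intro x hx
  by_cases hx0 : x = 0
  · have h1 := hhalf 0 (zero_mem_Cone δ)
    rw [smul_zero] at h1
    have h2 : ψ 0 = 0 := by
      have h3 : (2⁻¹ : ℝ) • ψ 0 = 0 := by
        have h4 : (1 : ℝ) • ψ 0 = (2⁻¹ : ℝ) • ψ 0 := by rw [one_smul]; exact h1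
        have h5 : ((1 : ℝ) - 2⁻¹) • ψ 0 = 0 := by rw [sub_smul, h4, sub_self]
        norm_num at h5
        rw [h5, smul_zero]
      rw [h1, h3]
    rw [hx0, h2]
    exact hA.sm.1
  · have h1 : x ∈ Cone (3 / 4 * δ) := Cone_mono (by positivity) (by linarith) hx
    have h2 := hnear x h1 hx0
    have h3 := ((hOmem x).1 h2).1
    have h4 : ‖pr x‖ ≤ δ / 2 * x 0 := hx
    rw [hAx, hw1 x h2, hf1, one_smul, hu]
    · abel
    · rw [hq x h3, div_le_iff₀ (mul_pos hδ h3)]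
      linarith

end Pool.Agent.HopfFin
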