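import Pool.Agent.HopfFin.Basic

/-!
# Homeomorphisms with disjoint supports

Plan of `glue_disjoint`. `Q x = σ n x` if `x ∈ C n` (unique `n`), `Q x = x` otherwise; the same with
the inverses (`σ n` maps `C n` onto itself, being the identity off `C n`). Continuity at `x ≠ 0`:
a neighbourhood `O` of `x` meets only finitely many of the closed sets `C n`; shrinking it we may
assume that it meets only those which contain `x`, so at most one, and there `Q = σ n` on `O`.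
Continuity at `0`: if `O` is a neighbourhood of `0` and `O'` is as in `hz`, then `Q` maps `O' ∩ O`
into `O`.
-/

set_option autoImplicit false

open scoped ContDiff Topology
open Set Filter Metric

namespace Pool.Agent.HopfFin

open Pool.Agent.HopfCov

open scoped Classical in
private noncomputable def gluF (σ : ℕ → (E4 ≃ₜ E4)) (C : ℕ → Set E4) (x : E4) : E4 :=
  if h : ∃ n, x ∈ C n then σ h.choose x else x

private theorem gluF_mem {σ : ℕ → (E4 ≃ₜ E4)} {C : ℕ → Set E4}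
    (hd : ∀ n m, n ≠ m → Disjoint (C n) (C m)) {n : ℕ} {x : E4} (hx : x ∈ C n) :
    gluF σ C x = σ n x := by
  have h : ∃ n, x ∈ C n := ⟨n, hx⟩
  rw [gluF, dif_pos h]
  by_cases hn : h.choose = n
  · rw [hn]
  · exact absurd hx (Set.disjoint_left.1 (hd _ _ hn) h.choose_spec)

private theorem gluF_not {σ : ℕ → (E4 ≃ₜ E4)} {C : ℕ → Set E4} {x : E4} (hx : ∀ n, x ∉ C n) :
    gluF σ C x = x := by
  rw [gluF, dif_neg]
  rintro ⟨n, hn⟩
  exact hx n hn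

private theorem gluF_maps {σ : E4 ≃ₜ E4} {C : Set E4} (hs : ∀ x, x ∉ C → σ x = x) {x : E4}
    (hx : x ∈ C) : σ x ∈ C := by
  by_contra h
  have h1 := σ.injective (hs _ h)
  rw [h1] at h
  exact h hx

private theorem gluF_inv {σ : E4 ≃ₜ E4} {C : Set E4} (hs : ∀ x, x ∉ C → σ x = x) {x : E4}
    (hx : x ∉ C) : (σ⁻¹ : E4 ≃ₜ E4) x = x :=
  σ.injective (by rw [apply_inv_self', hs x hx])

private theorem gluF_local {σ : ℕ → (E4 ≃ₜ E4)} {C : ℕ → Set E4} (hC : ∀ n, IsClosed (C n))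
    (hs : ∀ n x, x ∉ C n → σ n x = x) (hd : ∀ n m, n ≠ m → Disjoint (C n) (C m))
    (hf : ∀ x : E4, x ≠ 0 → ∃ O ∈ 𝓝 x, {n | (C n ∩ O).Nonempty}.Finite) (x : E4) (hx : x ≠ 0) :
    (∃ n, x ∈ C n ∧ ∀ᶠ y in 𝓝 x, gluF σ C y = σ n y) ∨ ∀ᶠ y in 𝓝 x, gluF σ C y = y := by
  obtain ⟨O, hO, hfin⟩ := hf x hx
  have h1 : ∀ᶠ y in 𝓝 x, ∀ n ∈ {n | (C n ∩ O).Nonempty}, y ∈ C n → x ∈ C n := by
    rw [eventually_all_finite hfin]
    intro n _
    by_cases hn : x ∈ C n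
    · exact Eventually.of_forall fun _ _ => hn
    · filter_upwards [(hC n).isOpen_compl.mem_nhds hn] with y hy hy'
      exact absurd hy' hy
  have h2 : ∀ᶠ y in 𝓝 x, ∀ n, y ∈ C n → x ∈ C n := by
    filter_upwards [h1, hO] with y hy hyO n hn
    exact hy n ⟨y, hn, hyO⟩ hn
  by_cases hx' : ∃ n, x ∈ C n
  · obtain ⟨n, hn⟩ := hx'
    refine Or.inl ⟨n, hn, ?_⟩
    filter_upwards [h2] with y hy
    by_cases hyn : y ∈ C n
    · exact gluF_mem hd hyn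
    · rw [hs n y hyn]
      refine gluF_not fun m hm => ?_
      by_cases hmn : m = n
      · exact hyn (hmn ▸ hm)
      · exact Set.disjoint_left.1 (hd m n hmn) (hy m hm) hn
  · refine Or.inr ?_
    filter_upwards [h2] with y hy
    exact gluF_not fun m hm => hx' ⟨m, hy m hm⟩

private theorem gluF_cont {σ : ℕ → (E4 ≃ₜ E4)} {C : ℕ → Set E4} (hC : ∀ n, IsClosed (C n))
    (hs : ∀ n x, x ∉ C n → σ n x = x) (hd : ∀ n m, n ≠ m → Disjoint (C n) (C m))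
    (hf : ∀ x : E4, x ≠ 0 → ∃ O ∈ 𝓝 x, {n | (C n ∩ O).Nonempty}.Finite)
    (hz : ∀ O ∈ 𝓝 (0 : E4), ∃ O' ∈ 𝓝 (0 : E4), ∀ n, (C n ∩ O').Nonempty → C n ⊆ O)
    (h0 : ∀ n, (0 : E4) ∉ C n) : Continuous (gluF σ C) := by
  rw [continuous_iff_continuousAt]
  intro x
  by_cases hx : x = 0
  · subst hx
    rw [ContinuousAt, gluF_not h0]
    intro O hO
    obtain ⟨O', hO', h⟩ := hz O hO
    rw [mem_map]
    filter_upwards [hO, hO'] with y hy hy'
    show gluF σ C y ∈ O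
    by_cases hyn : ∃ n, y ∈ C n
    · obtain ⟨n, hn⟩ := hyn
      rw [gluF_mem hd hn]
      exact h n ⟨y, hn, hy'⟩ (gluF_maps (hs n) hn)
    · rw [gluF_not fun n hn => hyn ⟨n, hn⟩]
      exact hy
  · rcases gluF_local hC hs hd hf x hx with ⟨n, -, h⟩ | h
    · exact (σ n).continuous.continuousAt.congr (h.mono fun y hy => hy.symm)
    · exact continuousAt_id.congr (h.mono fun y hy => hy.symm)

private theorem gluF_left {σ τ : ℕ → (E4 ≃ₜ E4)} {C : ℕ → Set E4}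
    (hs : ∀ n x, x ∉ C n → σ n x = x) (hd : ∀ n m, n ≠ m → Disjoint (C n) (C m))
    (h : ∀ n x, τ n (σ n x) = x) (x : E4) : gluF τ C (gluF σ C x) = x := by
  by_cases hx : ∃ n, x ∈ C n
  · obtain ⟨n, hn⟩ := hx
    rw [gluF_mem hd hn, gluF_mem hd (gluF_maps (hs n) hn), h]
  · have h1 : ∀ n, x ∉ C n := fun n hn => hx ⟨n, hn⟩
    rw [gluF_not (σ := σ) h1, gluF_not h1]

/-- a family of homeomorphisms with pairwise disjoint supports which is locally finite off `0` -/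
theorem glue_disjoint {σ : ℕ → (E4 ≃ₜ E4)} {C : ℕ → Set E4} (hC : ∀ n, IsClosed (C n))
    (hs : ∀ n x, x ∉ C n → σ n x = x) (hd : ∀ n m, n ≠ m → Disjoint (C n) (C m))
    (hf : ∀ x : E4, x ≠ 0 → ∃ O ∈ 𝓝 x, {n | (C n ∩ O).Nonempty}.Finite)
    (hz : ∀ O ∈ 𝓝 (0 : E4), ∃ O' ∈ 𝓝 (0 : E4), ∀ n, (C n ∩ O').Nonempty → C n ⊆ O)
    (h0 : ∀ n, (0 : E4) ∉ C n) :
    ∃ Q : E4 ≃ₜ E4, (∀ n, ∀ x ∈ C n, Q x = σ n x) ∧ (∀ x, (∀ n, x ∉ C n) → Q x = x) ∧
      ∀ x : E4, x ≠ 0 → (∃ n, x ∈ C n ∧ ∀ᶠ y in 𝓝 x, Q y = σ n y) ∨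
        ∀ᶠ y in 𝓝 x, Q y = y := by
  have hs' : ∀ n x, x ∉ C n → ((σ n)⁻¹ : E4 ≃ₜ E4) x = x := fun n x hx => gluF_inv (hs n) hx
  refine ⟨⟨⟨gluF σ C, gluF (fun n => (σ n)⁻¹) C,
    gluF_left hs hd fun n x => (σ n).symm_apply_apply x,
    gluF_left hs' hd fun n x => (σ n).apply_symm_apply x⟩, gluF_cont hC hs hd hf hz h0,
    gluF_cont hC hs' hd hf hz h0⟩, fun n x hx => gluF_mem hd hx, fun x hx => gluF_not hx,
    fun x hx => gluF_local hC hs hd hf x hx⟩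

end Pool.Agent.HopfFin
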