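import Pool.Agent.HopfFin.Slide
import Pool.Agent.HopfFin.Glue

/-!
# Prescribed singularities along a sequence of points

Plan of `half_chain`. Recursively choose `σ n` by `slide` in `U n` with the points `p n`, `p (n+1)`
and the germ `g n` at `p n`: `g 0 = e 0`; `g (n+1) = e (n+1) * (σ n)⁻¹` if `n + 1` is even and
`g (n+1) = (σ n)⁻¹ * e (n+1)` if `n + 1` is odd (both fix `p (n+1)` and are `LD 1` near `p (n+1)`
off `p (n+1)`, as `σ n` fixes `p (n+1)` and is `LD 1` off `p n`, `p (n+1)`). (The recursion: a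
sequence in the subtype of pairs, or `exists_seq`-style dependent choice: given `σ n` with
`Slid n (σ n)` there is `σ (n+1)` with `Slid (n+1)` and the relation between the germs.) Let `C n` be
the compact support in `U n`. `Q₀` glues the `σ n`, `n` even, `Q₁` glues the `σ n`, `n` odd
(`glue_disjoint`, for the families `n ↦ σ (2 n)`, `n ↦ σ (2 n + 1)`; the supports are disjoint by
`hd`). `Q = Q₀ * Q₁`. Near `p n`, `n` even: `p n ∈ C n` or `Q₀ = σ n` near `p n` anyway (off `C n` both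
are the identity), and near `p n` the map `Q₁` is `σ (n-1)` (the identity if `n = 0`; note
`p n ∉ U m` for `m ≠ n, n-1`: `p n ∈ U n` and `p n ∈ U (n-1)`, use `hd`); so
`Q = σ n * σ (n-1) = e n` near `p n`. Near `p n`, `n` odd: `Q = σ (n-1) * σ n = e n`. At the other
points `x ≠ 0`: `Q₁` is `LD 1` at `x`, fixes all `p n`, so `Q₁ x` is not `0` and not a `p n`, and
`Q₀` is `LD 1` there. Off the union of the `U n` both are the identity.
-/

set_option autoImplicit false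

open scoped ContDiff Topology
open Set Filter Metric

namespace Pool.Agent.HopfFin

open Pool.Agent.HopfCov

private theorem punct_ball_HC (q : E4) (ε : ℝ) : IsPreconnected (ball q ε ∩ {q}ᶜ) := by
  have h1 : 1 < Module.rank ℝ E4 := by
    rw [← Module.finrank_eq_rank]
    have h2 : Module.finrank ℝ E4 = 4 := by simp [E4]
    rw [h2]
    norm_num
  have h : ball q ε ∩ {q}ᶜ =
      (fun p : ℝ × E4 => q + p.1 • p.2) '' (Ioo 0 ε ×ˢ sphere (0 : E4) 1) := by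
    ext y
    constructor
    · rintro ⟨hy, hyq⟩
      have hne : y - q ≠ 0 := sub_ne_zero.2 hyq
      have hpos : 0 < ‖y - q‖ := norm_pos_iff.2 hne
      refine ⟨(‖y - q‖, ‖y - q‖⁻¹ • (y - q)), ⟨⟨hpos, ?_⟩, ?_⟩, ?_⟩
      · simpa [dist_eq_norm] using hy
      · simp [norm_smul, hpos.ne']
      · simp [smul_smul, hpos.ne']
    · rintro ⟨⟨t, u⟩, ⟨ht, hu⟩, rfl⟩
      have hu' : ‖u‖ = 1 := by simpa using hu
      have ht1 : 0 < t := ht.1
      have ht2 : t < ε := ht.2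
      have h3 : ‖t • u‖ = t := by
        rw [norm_smul, hu', mul_one, Real.norm_eq_abs, abs_of_pos ht1]
      constructor
      · change dist (q + t • u) q < ε
        rw [dist_eq_norm, add_sub_cancel_left, h3]
        exact ht2
      · intro hq
        have h4 : q + t • u = q := hq
        have h5 : t • u = 0 := by simpa using h4
        rw [h5, norm_zero] at h3
        exact ht1.ne h3
  rw [h]
  exact (isPreconnected_Ioo.prod (isPreconnected_sphere h1 0 1)).image _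
    (by fun_prop)

/-- an open connected set minus a point is connected -/
private theorem diff_HC {U : Set E4} (hU : IsOpen U) (hc : IsPreconnected U) (a : E4) :
    IsPreconnected (U \ {a}) := by
  by_cases ha : a ∈ U
  swap
  · rwa [sdiff_singleton_eq_self ha]
  obtain ⟨r, hr, hrU⟩ := Metric.isOpen_iff.1 hU a ha
  have hB := punct_ball_HC a r
  have hS : IsOpen (U \ {a}) := hU.sdiff isClosed_singleton
  have hBS : ball a r ∩ {a}ᶜ ⊆ U \ {a} := fun x hx => ⟨hrU hx.1, hx.2⟩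
  -- the open sets contain the punctured ball
  have key : ∀ u v : Set E4, IsOpen u → IsOpen v → U \ {a} ⊆ u ∪ v →
      ((U \ {a}) ∩ v).Nonempty → ball a r ∩ {a}ᶜ ⊆ u → ((U \ {a}) ∩ (u ∩ v)).Nonempty := by
    intro u v hu hv huv hsv hBu
    obtain ⟨x, hx1, hx2, hx3⟩ := hc (u ∪ ball a r) (v ∩ (U \ {a})) (hu.union isOpen_ball)
      (hv.inter hS)
      (by
        intro x hx
        by_cases hxa : x = a
        · left; right; rw [hxa]; exact mem_ball_self hr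
        · rcases huv ⟨hx, hxa⟩ with h | h
          · exact Or.inl (Or.inl h)
          · exact Or.inr ⟨h, hx, hxa⟩)
      ⟨a, ha, Or.inr (mem_ball_self hr)⟩
      (by
        obtain ⟨y, hy1, hy2⟩ := hsv
        exact ⟨y, hy1.1, hy2, hy1⟩)
    refine ⟨x, hx3.2, ?_, hx3.1⟩
    rcases hx2 with h | h
    · exact h
    · exact hBu ⟨h, hx3.2.2⟩
  intro u v hu hv huv hsu hsv
  by_contra hne
  rw [not_nonempty_iff_eq_empty] at hne
  have hdis : Disjoint (u ∩ (U \ {a})) (v ∩ (U \ {a})) := by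
    rw [Set.disjoint_left]
    rintro x ⟨h1, h2⟩ ⟨h3, -⟩
    have : x ∈ (U \ {a}) ∩ (u ∩ v) := ⟨h2, h1, h3⟩
    rw [hne] at this
    exact this
  rcases IsPreconnected.subset_or_subset (hu.inter hS) (hv.inter hS) hdis
    (fun x hx => by
      rcases huv (hBS hx) with h | h
      · exact Or.inl ⟨h, hBS hx⟩
      · exact Or.inr ⟨h, hBS hx⟩) hB with h | h
  · have h1 := key u v hu hv huv hsv (fun x hx => (h hx).1)
    rw [hne] at h1
    exact not_nonempty_empty h1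
  · have h1 := key v u hv hu (by rwa [union_comm]) hsu (fun x hx => (h hx).1)
    rw [inter_comm v u, hne] at h1
    exact not_nonempty_empty h1

private theorem tendsto_HC {b : E4 ≃ₜ E4} {p : E4} (hb : b p = p) :
    Tendsto b (𝓝[≠] p) (𝓝[≠] p) := by
  have h := b.map_punctured_nhds_eq p
  rw [hb] at h
  exact h.le

private theorem ldmul_HC {a b : E4 ≃ₜ E4} {p : E4} (hb : b p = p)
    (ha : ∀ᶠ x in 𝓝[≠] p, LD 1 a x) (hb' : ∀ᶠ x in 𝓝[≠] p, LD 1 b x) :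
    ∀ᶠ x in 𝓝[≠] p, LD 1 (a * b : E4 ≃ₜ E4) x := by
  filter_upwards [(tendsto_HC hb).eventually ha, hb'] with x h1 h2
  exact LD.mul_one' h1 h2

private theorem inv_fix_HC {a : E4 ≃ₜ E4} {p : E4} (ha : a p = p) :
    (a⁻¹ : E4 ≃ₜ E4) p = p := by
  conv_lhs => rw [← ha]
  exact inv_apply_self' a p

private theorem ldinv_HC {a : E4 ≃ₜ E4} {p : E4} (ha : a p = p)
    (ha' : ∀ᶠ x in 𝓝[≠] p, LD 1 a x) : ∀ᶠ x in 𝓝[≠] p, LD 1 (a⁻¹ : E4 ≃ₜ E4) x := by
  filter_upwards [(tendsto_HC (inv_fix_HC ha)).eventually ha'] with x h1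
  exact LD.inv' h1

/-- the properties of the `n`-th map -/
private def SlidHC (U : ℕ → Set E4) (p : ℕ → E4) (n : ℕ) (σ : E4 ≃ₜ E4) : Prop :=
  σ (p n) = p n ∧ σ (p (n + 1)) = p (n + 1) ∧
    (∀ x, x ≠ p n → x ≠ p (n + 1) → LD 1 σ x) ∧
    ∃ C : Set E4, IsCompact C ∧ C ⊆ U n ∧ ∀ x, x ∉ C → σ x = x

private theorem seq_HC {U : ℕ → Set E4} {p : ℕ → E4} {e : ℕ → (E4 ≃ₜ E4)}
    (hU : ∀ n, IsOpen (U n)) (hc : ∀ n, IsPreconnected (U n)) (h1 : ∀ n, p n ∈ U n)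
    (h2 : ∀ n, p (n + 1) ∈ U n) (hp : Function.Injective p)
    (he : ∀ n, e n (p n) = p n) (her : ∀ n, ∀ᶠ x in 𝓝[≠] p n, LD 1 (e n) x) :
    ∃ σ : ℕ → (E4 ≃ₜ E4), (∀ n, SlidHC U p n (σ n)) ∧ (∀ᶠ x in 𝓝 (p 0), σ 0 x = e 0 x) ∧
      ∀ n, (Even (n + 1) → ∀ᶠ x in 𝓝 (p (n + 1)), σ (n + 1) (σ n x) = e (n + 1) x) ∧
        (¬ Even (n + 1) → ∀ᶠ x in 𝓝 (p (n + 1)), σ n (σ (n + 1) x) = e (n + 1) x) := by
  have hne : ∀ n, p n ≠ p (n + 1) := fun n h => by
    have := hp h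
    omega
  have step : ∀ (n : ℕ) (σ : {σ : E4 ≃ₜ E4 // SlidHC U p n σ}),
      ∃ σ' : {σ : E4 ≃ₜ E4 // SlidHC U p (n + 1) σ},
        (Even (n + 1) → ∀ᶠ x in 𝓝 (p (n + 1)), σ'.1 (σ.1 x) = e (n + 1) x) ∧
        (¬ Even (n + 1) → ∀ᶠ x in 𝓝 (p (n + 1)), σ.1 (σ'.1 x) = e (n + 1) x) := by
    rintro n ⟨σ, hσ⟩
    have ha : ∀ᶠ x in 𝓝[≠] p (n + 1), LD 1 σ x := by
      have h3 : ∀ᶠ x in 𝓝[≠] p (n + 1), x ≠ p n :=
        (isOpen_ne.mem_nhds (hne n).symm : {x | x ≠ p n} ∈ 𝓝 (p (n + 1))) |>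
          mem_nhdsWithin_of_mem_nhds
      filter_upwards [h3, self_mem_nhdsWithin] with x h4 h5
      exact hσ.2.2.1 x h4 h5
    by_cases hev : Even (n + 1)
    · obtain ⟨σ', s1, s2, s3, s4, s5⟩ := slide (hU (n + 1)) (hc (n + 1)) (h1 (n + 1))
        (h2 (n + 1)) (hne (n + 1)) (g := e (n + 1) * σ⁻¹)
        (by rw [mul_apply', inv_fix_HC hσ.2.1, he])
        (ldmul_HC (inv_fix_HC hσ.2.1) (her (n + 1)) (ldinv_HC hσ.2.1 ha))
      refine ⟨⟨σ', s1, s2, s4, s5⟩, fun _ => ?_, fun h => absurd hev h⟩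
      have h3 : Tendsto σ (𝓝 (p (n + 1))) (𝓝 (p (n + 1))) := by
        have := σ.continuous.tendsto (p (n + 1))
        rwa [hσ.2.1] at this
      filter_upwards [h3.eventually s3] with x hx
      rw [hx, mul_apply', inv_apply_self']
    · obtain ⟨σ', s1, s2, s3, s4, s5⟩ := slide (hU (n + 1)) (hc (n + 1)) (h1 (n + 1))
        (h2 (n + 1)) (hne (n + 1)) (g := σ⁻¹ * e (n + 1))
        (by rw [mul_apply', he, inv_fix_HC hσ.2.1])
        (ldmul_HC (he (n + 1)) (ldinv_HC hσ.2.1 ha) (her (n + 1)))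
      refine ⟨⟨σ', s1, s2, s4, s5⟩, fun h => absurd h hev, fun _ => ?_⟩
      filter_upwards [s3] with x hx
      rw [hx, mul_apply', apply_inv_self']
  choose f hf using step
  obtain ⟨σ₀, s1, s2, s3, s4, s5⟩ := slide (hU 0) (hc 0) (h1 0) (h2 0) (hne 0) (he 0) (her 0)
  let a : (n : ℕ) → {σ : E4 ≃ₜ E4 // SlidHC U p n σ} := fun n =>
    Nat.rec (motive := fun n => {σ : E4 ≃ₜ E4 // SlidHC U p n σ}) ⟨σ₀, s1, s2, s4, s5⟩ f n
  exact ⟨fun n => (a n).1, fun n => (a n).2, s3, fun n => hf n (a n)⟩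

private theorem glue_HC {U C : ℕ → Set E4} {σ : ℕ → (E4 ≃ₜ E4)}
    (hC : ∀ n, IsCompact (C n)) (hCU : ∀ n, C n ⊆ U n) (hs : ∀ n x, x ∉ C n → σ n x = x)
    (hd : ∀ n m, n + 2 ≤ m → Disjoint (U n) (U m)) (h0 : ∀ n, (0 : E4) ∉ U n)
    (hf : ∀ x : E4, x ≠ 0 → ∃ O ∈ 𝓝 x, {n | (U n ∩ O).Nonempty}.Finite)
    (hz : ∀ O ∈ 𝓝 (0 : E4), ∃ O' ∈ 𝓝 (0 : E4), ∀ n, (U n ∩ O').Nonempty → U n ⊆ O) (b : ℕ) :
    ∃ Q : E4 ≃ₜ E4, (∀ k, ∀ x ∈ U (2 * k + b), Q x = σ (2 * k + b) x) ∧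
      (∀ x, (∀ k, x ∉ U (2 * k + b)) → Q x = x) ∧
      ∀ x, x ≠ 0 → (∃ k, x ∈ U (2 * k + b)) ∨ ∀ᶠ y in 𝓝 x, Q y = y := by
  have hdis : ∀ n m, n ≠ m → Disjoint (U (2 * n + b)) (U (2 * m + b)) := by
    intro n m hnm
    rcases lt_or_gt_of_ne hnm with h | h
    · exact hd _ _ (by omega)
    · exact (hd _ _ (by omega)).symm
  obtain ⟨Q, q1, q2, q3⟩ := glue_disjoint (σ := fun k => σ (2 * k + b))
    (C := fun k => C (2 * k + b)) (fun k => (hC _).isClosed) (fun k => hs _)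
    (fun n m hnm => (hdis n m hnm).mono (hCU _) (hCU _))
    (fun x hx => by
      obtain ⟨O, hO, hfin⟩ := hf x hx
      refine ⟨O, hO, ?_⟩
      have h3 : Function.Injective (fun k : ℕ => 2 * k + b) := fun k l hkl => by
        have : 2 * k + b = 2 * l + b := hkl
        omega
      refine (hfin.preimage h3.injOn).subset ?_
      rintro k ⟨y, hy1, hy2⟩
      exact ⟨y, hCU _ hy1, hy2⟩)
    (fun O hO => by
      obtain ⟨O', hO', h3⟩ := hz O hO
      refine ⟨O', hO', fun n hn => (hCU _).trans (h3 _ ?_)⟩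
      obtain ⟨y, hy1, hy2⟩ := hn
      exact ⟨y, hCU _ hy1, hy2⟩)
    (fun k h => h0 _ (hCU _ h))
  refine ⟨Q, ?_, ?_, ?_⟩
  · intro k x hx
    by_cases hxC : x ∈ C (2 * k + b)
    · exact q1 k x hxC
    · rw [hs _ x hxC]
      refine q2 x fun n hn => ?_
      by_cases hnk : n = k
      · rw [hnk] at hn
        exact hxC hn
      · exact (Set.disjoint_left.1 (hdis n k hnk)) (hCU _ hn) hx
  · intro x hx
    exact q2 x fun n hn => hx n (hCU _ hn)
  · intro x hx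
    rcases q3 x hx with ⟨n, hn, -⟩ | h
    · exact Or.inl ⟨n, hCU _ hn⟩
    · exact Or.inr h

private theorem aux_HC {U : ℕ → Set E4} {p : ℕ → E4} {e : ℕ → (E4 ≃ₜ E4)}
    (hU : ∀ n, IsOpen (U n)) (hc : ∀ n, IsPreconnected (U n)) (h1 : ∀ n, p n ∈ U n)
    (h2 : ∀ n, p (n + 1) ∈ U n) (hp : Function.Injective p) (h01 : p 0 ∉ U 1)
    (hd : ∀ n m, n + 2 ≤ m → Disjoint (U n) (U m)) (h0 : ∀ n, (0 : E4) ∉ U n)
    (hf : ∀ x : E4, x ≠ 0 → ∃ O ∈ 𝓝 x, {n | (U n ∩ O).Nonempty}.Finite)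
    (hz : ∀ O ∈ 𝓝 (0 : E4), ∃ O' ∈ 𝓝 (0 : E4), ∀ n, (U n ∩ O').Nonempty → U n ⊆ O)
    (he : ∀ n, e n (p n) = p n) (her : ∀ n, ∀ᶠ x in 𝓝[≠] p n, LD 1 (e n) x) :
    ∃ Q : E4 ≃ₜ E4, Q 0 = 0 ∧ (∀ n, ∀ᶠ x in 𝓝 (p n), Q x = e n x) ∧
      (∀ x, x ≠ 0 → (∀ n, x ≠ p n) → LD 1 Q x) ∧ ∀ x, (∀ n, x ∉ U n) → Q x = x := by
  obtain ⟨σ, hσ, hσ0, hσn⟩ := seq_HC hU hc h1 h2 hp he her
  have hC := fun n => (hσ n).2.2.2
  choose C c1 c2 c3 using hC
  obtain ⟨Q₀, a1, a2, a3⟩ := glue_HC c1 c2 c3 hd h0 hf hz 0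
  obtain ⟨Q₁, b1, b2, b3⟩ := glue_HC c1 c2 c3 hd h0 hf hz 1
  have hmem : ∀ n m, p n ∈ U m → m = n ∨ m + 1 = n := by
    intro n m h
    by_contra hcon
    push Not at hcon
    have hcase : n + 2 ≤ m ∨ m = n + 1 ∨ m + 2 ≤ n := by omega
    rcases hcase with h3 | h3 | h3
    · exact (Set.disjoint_left.1 (hd n m h3)) (h1 n) h
    · subst h3
      cases n with
      | zero => exact h01 h
      | succ n' => exact (Set.disjoint_left.1 (hd n' (n' + 1 + 1) le_rfl)) (h2 n') h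
    · exact (Set.disjoint_left.1 (hd m n h3)) h (h1 n)
  have hfix : ∀ n m, p n ∈ U m → σ m (p n) = p n := by
    intro n m h
    rcases hmem n m h with h3 | h3
    · rw [h3]; exact (hσ n).1
    · rw [← h3]; exact (hσ m).2.1
  have hp0 : ∀ n, p n ≠ 0 := fun n h => h0 n (h ▸ h1 n)
  have hQ0z : Q₀ 0 = 0 := a2 0 fun k => h0 _
  have hQ1z : Q₁ 0 = 0 := b2 0 fun k => h0 _
  have hQ1p : ∀ n, Q₁ (p n) = p n := by
    intro n
    by_cases h : ∃ k, p n ∈ U (2 * k + 1)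
    · obtain ⟨k, hk⟩ := h
      rw [b1 k _ hk, hfix n _ hk]
    · push Not at h
      exact b2 _ h
  have ld : ∀ (Q : E4 ≃ₜ E4) (b : ℕ), (∀ k, ∀ x ∈ U (2 * k + b), Q x = σ (2 * k + b) x) →
      (∀ x, x ≠ 0 → (∃ k, x ∈ U (2 * k + b)) ∨ ∀ᶠ y in 𝓝 x, Q y = y) →
      ∀ x, x ≠ 0 → (∀ n, x ≠ p n) → LD 1 Q x := by
    intro Q b q1 q3 x hx hxp
    rcases q3 x hx with ⟨k, hk⟩ | h
    · refine ((hσ (2 * k + b)).2.2.1 x (hxp _) (hxp _)).congr ?_
      filter_upwards [(hU _).mem_nhds hk] with y hy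
      exact (q1 k y hy).symm
    · refine (LD_one x).congr ?_
      filter_upwards [h] with y hy
      rw [hy, one_apply']
  refine ⟨Q₀ * Q₁, ?_, ?_, ?_, ?_⟩
  · rw [mul_apply', hQ1z, hQ0z]
  · intro n
    rcases Nat.even_or_odd' n with ⟨k, hk | hk⟩
    · -- even index
      have h3 : ∀ x ∈ U n, Q₀ x = σ n x := by
        rw [hk]; exact a1 k
      cases n with
      | zero =>
        have h4 : ∀ᶠ y in 𝓝 (p 0), Q₁ y = y := by
          rcases b3 (p 0) (hp0 0) with ⟨j, hj⟩ | h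
          · have := hmem 0 _ hj
            omega
          · exact h
        filter_upwards [h4, (hU 0).mem_nhds (h1 0), hσ0] with x h5 h6 h7
        rw [mul_apply', h5, h3 x h6, h7]
      | succ m =>
        obtain ⟨j, hj⟩ : ∃ j, m = 2 * j + 1 := ⟨k - 1, by omega⟩
        have h4 : ∀ x ∈ U m, Q₁ x = σ m x := by
          rw [hj]; exact b1 j
        have h5 : Tendsto (σ m) (𝓝 (p (m + 1))) (𝓝 (p (m + 1))) := by
          have := (σ m).continuous.tendsto (p (m + 1))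
          rwa [(hσ m).2.1] at this
        filter_upwards [(hU m).mem_nhds (h2 m), h5.eventually ((hU (m + 1)).mem_nhds (h1 (m + 1))),
          (hσn m).1 ⟨k, by omega⟩] with x h6 h7 h8
        rw [mul_apply', h4 x h6, h3 _ h7, h8]
    · -- odd index
      obtain ⟨m, hm⟩ : ∃ m, n = m + 1 := ⟨n - 1, by omega⟩
      subst hm
      have h3 : ∀ x ∈ U (m + 1), Q₁ x = σ (m + 1) x := by
        rw [hk]; exact b1 k
      have hmk : m = 2 * k := by omega
      have h4 : ∀ x ∈ U m, Q₀ x = σ m x := by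
        rw [hmk]; exact a1 k
      have h5 : Tendsto (σ (m + 1)) (𝓝 (p (m + 1))) (𝓝 (p (m + 1))) := by
        have := (σ (m + 1)).continuous.tendsto (p (m + 1))
        rwa [(hσ (m + 1)).1] at this
      filter_upwards [(hU (m + 1)).mem_nhds (h1 (m + 1)), h5.eventually ((hU m).mem_nhds (h2 m)),
        (hσn m).2 (by rw [Nat.not_even_iff_odd]; exact ⟨k, by omega⟩)] with x h6 h7 h8
      rw [mul_apply', h3 x h6, h4 _ h7, h8]
  · intro x hx hxp
    refine LD.mul_one' (ld Q₀ 0 a1 a3 (Q₁ x) ?_ ?_) (ld Q₁ 1 b1 b3 x hx hxp)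
    · intro h
      rw [← hQ1z] at h
      exact hx (Q₁.injective h)
    · intro n h
      rw [← hQ1p n] at h
      exact hxp n (Q₁.injective h)
  · intro x hx
    rw [mul_apply', b2 x fun k => hx _, a2 x fun k => hx _]

/-- a homeomorphism with prescribed singular germs at the points of a sequence which converges to
`0` or to infinity -/
theorem half_chain {U : ℕ → Set E4} {p : ℕ → E4} {e : ℕ → (E4 ≃ₜ E4)}
    (hU : ∀ n, IsOpen (U n)) (hc : ∀ n, IsPreconnected (U n)) (h1 : ∀ n, p n ∈ U n)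
    (h2 : ∀ n, p (n + 1) ∈ U n) (hp : Function.Injective p)
    (hd : ∀ n m, n + 2 ≤ m → Disjoint (U n) (U m)) (h0 : ∀ n, (0 : E4) ∉ U n)
    (hf : ∀ x : E4, x ≠ 0 → ∃ O ∈ 𝓝 x, {n | (U n ∩ O).Nonempty}.Finite)
    (hz : ∀ O ∈ 𝓝 (0 : E4), ∃ O' ∈ 𝓝 (0 : E4), ∀ n, (U n ∩ O').Nonempty → U n ⊆ O)
    (he : ∀ n, e n (p n) = p n) (her : ∀ n, ∀ᶠ x in 𝓝[≠] p n, LD 1 (e n) x) :
    ∃ Q : E4 ≃ₜ E4, Q 0 = 0 ∧ (∀ n, ∀ᶠ x in 𝓝 (p n), Q x = e n x) ∧
      (∀ x, x ≠ 0 → (∀ n, x ≠ p n) → LD 1 Q x) ∧ ∀ x, (∀ n, x ∉ U n) → Q x = x := by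
  -- remove `p 0` from `U 1`
  set U' : ℕ → Set E4 := Function.update U 1 (U 1 \ {p 0}) with hU'
  have e1 : U' 1 = U 1 \ {p 0} := Function.update_self _ _ _
  have e2 : ∀ n, n ≠ 1 → U' n = U n := fun n hn => Function.update_of_ne hn _ _
  have hsub : ∀ n, U' n ⊆ U n := by
    intro n
    by_cases hn : n = 1
    · rw [hn, e1]; exact sdiff_subset
    · rw [e2 n hn]
  obtain ⟨Q, q1, q2, q3, q4⟩ := aux_HC (U := U') (p := p) (e := e)
    (fun n => by
      by_cases hn : n = 1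
      · rw [hn, e1]; exact (hU 1).sdiff isClosed_singleton
      · rw [e2 n hn]; exact hU n)
    (fun n => by
      by_cases hn : n = 1
      · rw [hn, e1]; exact diff_HC (hU 1) (hc 1) (p 0)
      · rw [e2 n hn]; exact hc n)
    (fun n => by
      by_cases hn : n = 1
      · rw [hn, e1]
        exact ⟨h1 1, fun h => by have := hp h; omega⟩
      · rw [e2 n hn]; exact h1 n)
    (fun n => by
      by_cases hn : n = 1
      · rw [hn, e1]
        exact ⟨h2 1, fun h => by have := hp h; omega⟩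
      · rw [e2 n hn]; exact h2 n)
    hp (by rw [e1]; exact fun h => h.2 rfl)
    (fun n m hnm => (hd n m hnm).mono (hsub n) (hsub m))
    (fun n h => h0 n (hsub n h))
    (fun x hx => by
      obtain ⟨O, hO, hfin⟩ := hf x hx
      refine ⟨O, hO, hfin.subset ?_⟩
      rintro n ⟨y, hy1, hy2⟩
      exact ⟨y, hsub n hy1, hy2⟩)
    (fun O hO => by
      obtain ⟨O', hO', h3⟩ := hz O hO
      refine ⟨O', hO', fun n hn => (hsub n).trans (h3 n ?_)⟩
      obtain ⟨y, hy1, hy2⟩ := hn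
      exact ⟨y, hsub n hy1, hy2⟩)
    he her
  exact ⟨Q, q1, q2, q3, fun x hx => q4 x fun n h => hx n (hsub n h)⟩

end Pool.Agent.HopfFin
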