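import Pool.Agent.HopfFin.NearId

/-!
# Moving finitely many cones by paths of linear maps

Plan. For `s t : ℝ` let `R s t` be: there is `ψ` in `Pz` with `ψ (A i s x) = A i t x` for all `i`
and `x ∈ K i`. This is an equivalence relation (`Pz.one`, `Pz.inv`, `Pz.mul`). Every `s ∈ [0,1]`
has a neighbourhood in `[0,1]` of points related to `s`: the sets
`S i = (A i s '' K i) ∩ sphere 0 1` are compact and pairwise disjoint; take smooth `f i` with
`f i = 1` on `S i` and `f i = 0` on `S j`, `j ≠ i` (`exists_contMDiff_zero_one` or similar), and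
`u x = ∑ i, f i (x/‖x‖) • (A i t (A i s)⁻¹ x - x)`; its differential is at most
`C * max_i ‖A i t (A i s)⁻¹ - 1‖` (homogeneity), so `near_id_mk` applies for `t` near `s`, and for
`x ∈ K i`, `x ≠ 0`, `(id + u) (A i s x) = A i t x` since `A i s x / ‖A i s x‖ ∈ S i`. By
connectedness of `[0,1]` (e.g. `IsPreconnected.subset_of_closure_inter_subset`, or the set of `t`
related to `0` is clopen in `Icc 0 1`) `R 0 1`.
-/

set_option autoImplicit false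

open scoped ContDiff Topology Manifold
open Set Filter Metric

namespace Pool.Agent.HopfFin

open Pool.Agent.HopfCov

/-- a smooth function with values `0` and `1` on disjoint closed sets -/
theorem exists_cut {s t : Set E4} (hs : IsClosed s) (ht : IsClosed t) (hd : Disjoint s t) :
    ∃ f : E4 → ℝ, ContDiff ℝ ∞ f ∧ (∀ x ∈ s, f x = 0) ∧ (∀ x ∈ t, f x = 1) ∧
      ∀ x, 0 ≤ f x ∧ f x ≤ 1 := by
  obtain ⟨f, h1, h2, h3⟩ := exists_contMDiffMap_zero_one_of_isClosed (n := ⊤) 𝓘(ℝ, E4) hs ht hd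
  exact ⟨f, f.contMDiff.contDiff, fun x hx => h1 hx, fun x hx => h2 hx, fun x => h3 x⟩

/-- the normalisation `x ↦ x / ‖x‖` is smooth off `0` -/
theorem contDiffAt_nrm {x : E4} (hx : x ≠ 0) : ContDiffAt ℝ ∞ (fun y : E4 => ‖y‖⁻¹ • y) x :=
  ((contDiffAt_norm ℝ hx).inv (norm_ne_zero_iff.2 hx)).smul contDiffAt_id

theorem nrm_smul {c : ℝ} (hc : 0 < c) (x : E4) : ‖c • x‖⁻¹ • (c • x) = ‖x‖⁻¹ • x := by
  rw [norm_smul, Real.norm_eq_abs, abs_of_pos hc, smul_smul]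
  congr 1
  rw [mul_inv, mul_assoc, mul_comm ‖x‖⁻¹ c, ← mul_assoc, inv_mul_cancel₀ hc.ne', one_mul]

/-- the differential of a function which is homogeneous of degree `0` -/
private theorem mp_bound {f : E4 → ℝ} (hf : ContDiff ℝ ∞ f) (hf1 : ∀ x, 0 ≤ f x ∧ f x ≤ 1) :
    ∃ C : ℝ, 0 < C ∧ ∀ x : E4, x ≠ 0 →
      ‖fderiv ℝ (fun y : E4 => f (‖y‖⁻¹ • y)) x‖ * ‖x‖ ≤ C := by
  have hs : ∀ x : E4, x ≠ 0 → ContDiffAt ℝ ∞ (fun y : E4 => f (‖y‖⁻¹ • y)) x := fun x hx =>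
    hf.contDiffAt.comp x (contDiffAt_nrm hx)
  obtain ⟨C, hC, hCb⟩ := fderiv_bounded (fun y : E4 => f (‖y‖⁻¹ • y) • y)
    (fun x hx => (hs x hx).smul contDiffAt_id) (fun x => by
      show f (‖(2⁻¹ : ℝ) • x‖⁻¹ • ((2⁻¹ : ℝ) • x)) • ((2⁻¹ : ℝ) • x) = _
      rw [nrm_smul (by norm_num : (0 : ℝ) < 2⁻¹), smul_comm])
  refine ⟨C + 1, by positivity, fun x hx => ?_⟩
  have hxp : 0 < ‖x‖ := norm_pos_iff.2 hx
  rw [← le_div_iff₀ hxp]
  refine ContinuousLinearMap.opNorm_le_bound _ (by positivity) fun y => ?_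
  have hdf : DifferentiableAt ℝ (fun y : E4 => f (‖y‖⁻¹ • y)) x :=
    (hs x hx).differentiableAt (by simp)
  have h1 : fderiv ℝ (fun y : E4 => f (‖y‖⁻¹ • y) • y) x y =
      f (‖x‖⁻¹ • x) • y + (fderiv ℝ (fun y : E4 => f (‖y‖⁻¹ • y)) x y) • x := by
    rw [fderiv_fun_smul hdf differentiableAt_fun_id, fderiv_fun_id]
    rfl
  have h2 : ‖fderiv ℝ (fun y : E4 => f (‖y‖⁻¹ • y) • y) x y‖ ≤ C * ‖y‖ :=
    (ContinuousLinearMap.le_opNorm _ _).trans (by gcongr; exact hCb x hx)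
  have h3 : ‖f (‖x‖⁻¹ • x) • y‖ ≤ 1 * ‖y‖ := by
    rw [norm_smul, Real.norm_eq_abs, abs_of_nonneg (hf1 _).1]
    gcongr
    exact (hf1 _).2
  have h4 : ‖fderiv ℝ (fun y : E4 => f (‖y‖⁻¹ • y)) x y‖ * ‖x‖ ≤ (C + 1) * ‖y‖ := by
    rw [← norm_smul]
    have h5 : (fderiv ℝ (fun y : E4 => f (‖y‖⁻¹ • y)) x y) • x =
        fderiv ℝ (fun y : E4 => f (‖y‖⁻¹ • y) • y) x y - f (‖x‖⁻¹ • x) • y := by
      rw [h1]; abel
    rw [h5]
    calc _ ≤ C * ‖y‖ + 1 * ‖y‖ := (norm_sub_le _ _).trans (add_le_add h2 h3)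
      _ = (C + 1) * ‖y‖ := by ring
  rw [div_mul_eq_mul_div, le_div_iff₀ hxp]
  exact h4

/-- the differential of the product of such a function with a linear map -/
private theorem mp_bound' {f : E4 → ℝ} (hf : ContDiff ℝ ∞ f) (hf1 : ∀ x, 0 ≤ f x ∧ f x ≤ 1) :
    ∃ C : ℝ, 0 < C ∧ ∀ (L : E4 →L[ℝ] E4) (x : E4), x ≠ 0 →
      ‖fderiv ℝ (fun y : E4 => f (‖y‖⁻¹ • y) • L y) x‖ ≤ C * ‖L‖ := by
  obtain ⟨C, hC, hCb⟩ := mp_bound hf hf1
  refine ⟨C + 1, by positivity, fun L x hx => ?_⟩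
  have hs : ContDiffAt ℝ ∞ (fun y : E4 => f (‖y‖⁻¹ • y)) x :=
    hf.contDiffAt.comp x (contDiffAt_nrm hx)
  have hdf : DifferentiableAt ℝ (fun y : E4 => f (‖y‖⁻¹ • y)) x := hs.differentiableAt (by simp)
  refine ContinuousLinearMap.opNorm_le_bound _ (by positivity) fun y => ?_
  have h1 : fderiv ℝ (fun y : E4 => f (‖y‖⁻¹ • y) • L y) x y =
      f (‖x‖⁻¹ • x) • L y + (fderiv ℝ (fun y : E4 => f (‖y‖⁻¹ • y)) x y) • L x := by
    rw [fderiv_fun_smul hdf L.differentiableAt, L.fderiv]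
    rfl
  rw [h1]
  have h2 : ‖f (‖x‖⁻¹ • x) • L y‖ ≤ 1 * (‖L‖ * ‖y‖) := by
    rw [norm_smul, Real.norm_eq_abs, abs_of_nonneg (hf1 _).1]
    exact mul_le_mul (hf1 _).2 (L.le_opNorm y) (norm_nonneg _) zero_le_one
  have h3 : ‖(fderiv ℝ (fun y : E4 => f (‖y‖⁻¹ • y)) x y) • L x‖ ≤ C * (‖L‖ * ‖y‖) := by
    rw [norm_smul]
    calc _ ≤ (‖fderiv ℝ (fun y : E4 => f (‖y‖⁻¹ • y)) x‖ * ‖y‖) * (‖L‖ * ‖x‖) :=
          mul_le_mul (ContinuousLinearMap.le_opNorm _ _) (L.le_opNorm x) (norm_nonneg _)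
            (by positivity)
      _ = (‖fderiv ℝ (fun y : E4 => f (‖y‖⁻¹ • y)) x‖ * ‖x‖) * (‖L‖ * ‖y‖) := by ring
      _ ≤ C * (‖L‖ * ‖y‖) := by
          gcongr
          exact hCb x hx
  calc _ ≤ 1 * (‖L‖ * ‖y‖) + C * (‖L‖ * ‖y‖) := (norm_add_le _ _).trans (add_le_add h2 h3)
    _ = (C + 1) * ‖L‖ * ‖y‖ := by ring

/-- the relation used in the proof of `multi_path` -/
private def mpR {ι : Type} (K : ι → Set E4) (A : ι → ℝ → (E4 →L[ℝ] E4)) (s t : ℝ) : Prop :=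
  ∃ ψ : E4 ≃ₜ E4, Pz ψ ∧ ∀ i, ∀ x ∈ K i, ψ (A i s x) = A i t x

private theorem mpR_symm {ι : Type} {K : ι → Set E4} {A : ι → ℝ → (E4 →L[ℝ] E4)} {s t : ℝ}
    (h : mpR K A s t) : mpR K A t s := by
  obtain ⟨ψ, h1, h2⟩ := h
  exact ⟨ψ⁻¹, h1.inv, fun i x hx => by rw [← h2 i x hx]; exact inv_apply_self' _ _⟩

private theorem mpR_trans {ι : Type} {K : ι → Set E4} {A : ι → ℝ → (E4 →L[ℝ] E4)} {r s t : ℝ}
    (h : mpR K A r s) (h' : mpR K A s t) : mpR K A r t := by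
  obtain ⟨ψ, h1, h2⟩ := h
  obtain ⟨ψ', h1', h2'⟩ := h'
  exact ⟨ψ' * ψ, h1'.mul h1, fun i x hx => by rw [mul_apply', h2 i x hx, h2' i x hx]⟩

private theorem mpR_nhds {ι : Type} [Fintype ι] {K : ι → Set E4} (hK : ∀ i, IsClosed (K i))
    (hc : ∀ i, ∀ x ∈ K i, ∀ c : ℝ, 0 < c → c • x ∈ K i)
    {A : ι → ℝ → (E4 →L[ℝ] E4)} (hA : ∀ i, Continuous (A i)) (hdet : ∀ i t, (A i t).det ≠ 0)
    {s : ℝ} (hdis : ∀ i j, i ≠ j → ∀ x ∈ K i, ∀ y ∈ K j, A i s x = A j s y → x = 0) :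
    ∀ᶠ t in 𝓝 s, mpR K A s t := by
  classical
  set B : ι → (E4 ≃L[ℝ] E4) := fun i => (A i s).toContinuousLinearEquivOfDetNeZero (hdet i s)
    with hB
  have hBA : ∀ i x, B i x = A i s x := fun i x => by
    have := ContinuousLinearMap.coe_toContinuousLinearEquivOfDetNeZero (A i s) (hdet i s)
    rw [hB]
    exact DFunLike.congr_fun this x
  set S : ι → Set E4 := fun i => (B i '' K i) ∩ sphere 0 1 with hS
  have hScl : ∀ i, IsClosed (S i) := fun i =>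
    ((B i).toHomeomorph.isClosedMap _ (hK i)).inter isClosed_sphere
  have hSd : ∀ i j, i ≠ j → Disjoint (S i) (S j) := by
    intro i j hij
    rw [Set.disjoint_left]
    rintro y ⟨⟨a, ha, rfl⟩, hy⟩ ⟨⟨b, hb, hab⟩, -⟩
    have h1 := hdis i j hij a ha b hb (by rw [← hBA, ← hBA]; exact hab.symm)
    rw [h1, map_zero] at hy
    simp at hy
  have hf : ∀ i, ∃ f : E4 → ℝ, ContDiff ℝ ∞ f ∧ (∀ x ∈ ⋃ j ∈ {j | j ≠ i}, S j, f x = 0) ∧
      (∀ x ∈ S i, f x = 1) ∧ ∀ x, 0 ≤ f x ∧ f x ≤ 1 := by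
    intro i
    refine exists_cut ((Set.toFinite _).isClosed_biUnion fun j _ => hScl j) (hScl i) ?_
    rw [Set.disjoint_left]
    intro y hy hyi
    simp only [Set.mem_iUnion] at hy
    obtain ⟨j, hj, hyj⟩ := hy
    exact Set.disjoint_left.1 (hSd j i hj) hyj hyi
  choose f hf1 hf2 hf3 hf4 using hf
  have hC := fun i => mp_bound' (hf1 i) (hf4 i)
  choose C hC0 hC using hC
  -- the linear maps `A i t (A i s)⁻¹ - 1`
  set L : ι → ℝ → (E4 →L[ℝ] E4) := fun i t =>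
    (A i t).comp ((B i).symm : E4 →L[ℝ] E4) - ContinuousLinearMap.id ℝ E4 with hL
  have hLc : ∀ i, Continuous (L i) := fun i =>
    ((hA i).clm_comp continuous_const).sub continuous_const
  have hLs : ∀ i, L i s = 0 := by
    intro i
    ext1 x
    show A i s ((B i).symm x) - x = 0
    rw [← hBA, ContinuousLinearEquiv.apply_symm_apply, sub_self]
  have hev : ∀ᶠ t in 𝓝 s, ∑ i, C i * ‖L i t‖ < 1 / 2 := by
    have hcont : Continuous fun t => ∑ i, C i * ‖L i t‖ :=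
      continuous_finsetSum _ fun i _ => continuous_const.mul (hLc i).norm
    have h0 : (∑ i, C i * ‖L i s‖) < 1 / 2 := by
      simp [hLs]
    exact hcont.continuousAt.eventually (gt_mem_nhds h0)
  filter_upwards [hev] with t ht
  set u : E4 → E4 := fun x => ∑ i, f i (‖x‖⁻¹ • x) • L i t x with hu
  have hsm : ∀ i, ∀ x : E4, x ≠ 0 →
      ContDiffAt ℝ ∞ (fun x : E4 => f i (‖x‖⁻¹ • x) • L i t x) x := fun i x hx =>
    ((hf1 i).contDiffAt.comp x (contDiffAt_nrm hx)).smul (L i t).contDiff.contDiffAt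
  obtain ⟨F, hF1, hF2⟩ := near_id_mk u (by simp [hu])
    (fun x hx => ContDiffAt.sum fun i _ => hsm i x hx)
    (fun x hx => by
      have h1 : fderiv ℝ u x = ∑ i, fderiv ℝ (fun x : E4 => f i (‖x‖⁻¹ • x) • L i t x) x :=
        fderiv_fun_sum fun i _ => (hsm i x hx).differentiableAt (by simp)
      rw [h1]
      exact (norm_sum_le _ _).trans ((Finset.sum_le_sum fun i _ => hC i (L i t) x hx).trans
        ht.le))
    (fun x => by
      simp only [hu]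
      rw [Finset.smul_sum]
      refine Finset.sum_congr rfl fun i _ => ?_
      rw [nrm_smul (by norm_num : (0 : ℝ) < 2⁻¹), map_smul, smul_comm])
  refine ⟨F, hF1, fun i x hx => ?_⟩
  by_cases hx0 : x = 0
  · rw [hx0, ContinuousLinearMap.map_zero, ContinuousLinearMap.map_zero]
    exact hF1.sm.1
  have hy0 : A i s x ≠ 0 := by
    rw [← hBA]
    exact fun h => hx0 ((map_eq_zero_iff _ (B i).injective).1 h)
  have hyp : 0 < ‖A i s x‖ := norm_pos_iff.2 hy0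
  have hmem : ‖A i s x‖⁻¹ • A i s x ∈ S i := by
    refine ⟨⟨‖A i s x‖⁻¹ • x, hc i x hx _ (inv_pos.2 hyp), ?_⟩, ?_⟩
    · rw [map_smul, hBA]
    · rw [mem_sphere_zero_iff_norm, norm_smul, norm_inv, norm_norm, inv_mul_cancel₀ hyp.ne']
  rw [hF2]
  have h1 : u (A i s x) = L i t (A i s x) := by
    simp only [hu]
    rw [Finset.sum_eq_single i]
    · rw [hf3 i _ hmem, one_smul]
    · intro j _ hj
      rw [hf2 j _ (Set.mem_biUnion (show i ∈ {k | k ≠ j} from hj.symm) hmem), zero_smul]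
    · intro h
      exact absurd (Finset.mem_univ i) h
  rw [h1]
  show A i s x + (A i t ((B i).symm (A i s x)) - A i s x) = A i t x
  rw [← hBA, ContinuousLinearEquiv.symm_apply_apply]
  abel

/-- finitely many closed cones which stay disjoint along paths of linear isomorphisms can be moved
simultaneously by an element of `Pz` -/
theorem multi_path {ι : Type} [Fintype ι] (K : ι → Set E4) (hK : ∀ i, IsClosed (K i))
    (hc : ∀ i, ∀ x ∈ K i, ∀ c : ℝ, 0 < c → c • x ∈ K i)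
    (A : ι → ℝ → (E4 →L[ℝ] E4)) (hA : ∀ i, Continuous (A i)) (hdet : ∀ i t, (A i t).det ≠ 0)
    (hdis : ∀ i j, i ≠ j → ∀ t : ℝ, 0 ≤ t → t ≤ 1 → ∀ x ∈ K i, ∀ y ∈ K j,
      A i t x = A j t y → x = 0) :
    ∃ ψ : E4 ≃ₜ E4, Pz ψ ∧ ∀ i, ∀ x ∈ K i, ψ (A i 0 x) = A i 1 x := by
  have hloc : ∀ s ∈ Icc (0 : ℝ) 1, ∀ᶠ t in 𝓝 s, mpR K A s t := fun s hs =>
    mpR_nhds hK hc hA hdet fun i j hij x hx y hy h => hdis i j hij s hs.1 hs.2 x hx y hy h
  have h01 : Icc (0 : ℝ) 1 ⊆ {t | mpR K A 0 t} := by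
    refine IsClosed.Icc_subset_of_forall_mem_nhdsWithin ?_ ?_ ?_
    · refine isClosed_of_closure_subset fun t ht => ?_
      have ht1 : t ∈ Icc (0 : ℝ) 1 := by
        have := closure_mono (inter_subset_right (s := {t | mpR K A 0 t})) ht
        rwa [isClosed_Icc.closure_eq] at this
      obtain ⟨t', h1, h2, -⟩ := mem_closure_iff_nhds.1 ht _ (hloc t ht1)
      exact ⟨mpR_trans h2 (mpR_symm h1), ht1⟩
    · exact ⟨1, Pz.one, fun i x _ => rfl⟩
    · rintro t ⟨h1, h2⟩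
      refine mem_nhdsWithin_of_mem_nhds ?_
      filter_upwards [hloc t ⟨h2.1, h2.2.le⟩] with t' ht'
      exact mpR_trans h1 ht'
  exact h01 (right_mem_Icc.2 zero_le_one)

end Pool.Agent.HopfFin
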