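import Pool.Agent.HopfFin.Place
import Pool.Agent.HopfFin.MultiPath

/-!
# Rearrangement of the cones

Plan. Two or three applications of `multi_path` with the index type `Option (Fin n)` (or
`Fin (n + 1)`) and `K i = Cone 1` for all `i`. Write `D(a, r)` for the placement
`x ↦ x 0 • e0 + x 0 • a + r • pr x` (`a` orthogonal to `e0`), `rot` for the rotation part of `lam`.
Two placements `lam s ∘ D(a, r)` and `lam t ∘ D(b, r')` have images of `Cone 1` which meet only in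
`0` if `‖rot s a - rot t b‖ > r + r'` (compare the coordinates `x 0`, divide, `‖pr x‖ ≤ x 0`).
STEP 1: the last placement `lam (n/(n+1)) ∘ D(e1, rad)` moves to `lam (n/(n+1)) ∘ D(0, rad)` along
`D((1-t) e1, rad)`, the others are constant; the distance of `(1-t) u` to a unit vector `w` is at
least `‖w - u‖ / 2` (as `t ≤ ‖w - (1-t) u‖`), and `‖w - u‖ ≥ 2 sin (π/(n+1)) ≥ 4/(n+1)`.
STEP 2: the last one moves to `D(0, r)` along `lam ((1-t) n/(n+1)) ∘ D(0, (1-t) rad + t r)`, the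
others are constant (distance `1` from the centre).
STEP 3: `i < n` moves from `lam (i/(n+1)) ∘ D(e1, rad (n+1))` to `lam (i/n) ∘ D(e1, rad n)` along
`lam (i u) ∘ D(e1, ρ)`, `u = (1-t)/(n+1) + t/n`, `ρ = (1-t) rad (n+1) + t rad n ≤ 1/(4(n+1))`; for
`i < j < n` the angle `2 π (j-i) u` is between `2π/(n+1)` and `2π (n-1)/n ≤ 2π - 2π/(n+1)`.
(Jordan's inequality: `Real.mul_le_sin`.) The determinants do not vanish: the maps are compositions
of `lam` and of a triangular map with diagonal `1, r, r, r`.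
-/

set_option autoImplicit false

open scoped ContDiff Topology
open Set Filter Metric

namespace Pool.Agent.HopfFin

open Pool.Agent.HopfCov

/-! ### the linear placements `x ↦ lam s (x 0, a x 0 + r x 1, r x 2, r x 3)` -/

/-- the projection to the first axis -/
private noncomputable def rA0 : E4 →L[ℝ] E4 :=
  (EuclideanSpace.proj (0 : Fin 4) : E4 →L[ℝ] ℝ).smulRight e0

private noncomputable def rA1 : E4 →L[ℝ] E4 :=
  (EuclideanSpace.proj (0 : Fin 4) : E4 →L[ℝ] ℝ).smulRight e1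

/-- the placement with centre `a • e1` and radius `r` -/
private noncomputable def rD (a r : ℝ) : E4 →L[ℝ] E4 :=
  rA0 + a • rA1 + r • (ContinuousLinearMap.id ℝ E4 - rA0)

private theorem rD_apply (a r : ℝ) (x : E4) :
    rD a r x = x 0 • e0 + a • x 0 • e1 + r • pr x := rfl

/-- the placement turned by `lam s` -/
private noncomputable def rP (s a r : ℝ) : E4 →L[ℝ] E4 := (lamL s).comp (rD a r)

private theorem rP_apply (s a r : ℝ) (x : E4) : rP s a r x = lam s (rD a r x) := rfl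

private theorem rD_coord (a r : ℝ) (x : E4) :
    rD a r x = WithLp.toLp 2 ![x 0, a * x 0 + r * x 1, r * x 2, r * x 3] := by
  rw [rD_apply]
  ext i
  fin_cases i <;> simp [e0, e1, pr]

private theorem rP_inj {s a r : ℝ} (hr : r ≠ 0) : Function.Injective (rP s a r) := by
  refine (injective_iff_map_eq_zero (rP s a r)).2 fun x hx => ?_
  have h1 : rD a r x = 0 := by
    have h2 := lam_neg_lam s (rD a r x)
    rw [← rP_apply, hx] at h2
    rw [← h2]
    exact (lamL (-s)).map_zero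
  rw [rD_coord] at h1
  have h3 := fun i => congrArg (fun z : E4 => z i) h1
  have e0' := h3 0
  have e1' := h3 1
  have e2' := h3 2
  have e3' := h3 3
  simp at e0' e1' e2' e3'
  have f1 : x 1 = 0 := by
    rw [e0', mul_zero, zero_add] at e1'
    exact (mul_eq_zero.1 e1').resolve_left hr
  have f2 : x 2 = 0 := e2'.resolve_left hr
  have f3 : x 3 = 0 := e3'.resolve_left hr
  ext i
  fin_cases i <;> simp [e0', f1, f2, f3]

private theorem rP_det {s a r : ℝ} (hr : r ≠ 0) : (rP s a r).det ≠ 0 := by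
  have h1 : LinearMap.ker (rP s a r : E4 →ₗ[ℝ] E4) = ⊥ :=
    LinearMap.ker_eq_bot.2 (rP_inj hr)
  have h2 : IsUnit (rP s a r : E4 →ₗ[ℝ] E4) := (LinearMap.isUnit_iff_ker_eq_bot _).2 h1
  exact (LinearMap.isUnit_det _ h2).ne_zero

private theorem rP_cont {s a r : ℝ → ℝ} (hs : Continuous s) (ha : Continuous a)
    (hr : Continuous r) : Continuous fun t => rP (s t) (a t) (r t) := by
  have h1 : Continuous fun t => rD (a t) (r t) := by
    unfold rD
    fun_prop
  exact (continuous_lamL.comp hs).clm_comp h1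

private theorem rCone {x : E4} (hx : x ∈ Cone 1) :
    0 ≤ x 0 ∧ x 1 ^ 2 + x 2 ^ 2 ≤ x 0 ^ 2 := by
  have h1 : ‖pr x‖ ≤ 1 * x 0 := hx
  rw [one_mul] at h1
  have h2 : 0 ≤ x 0 := (norm_nonneg _).trans h1
  refine ⟨h2, ?_⟩
  have h3 : ‖pr x‖ ^ 2 = x 1 ^ 2 + x 2 ^ 2 + x 3 ^ 2 := by
    rw [EuclideanSpace.norm_sq_eq]
    simp [Fin.sum_univ_four, pr, e0]
  have h4 : ‖pr x‖ ^ 2 ≤ x 0 ^ 2 := by gcongr
  nlinarith [sq_nonneg (x 3)]

/-- the condition which keeps the images of `Cone 1` apart -/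
private def rSep (s a r t b q : ℝ) : Prop :=
  (r + q) ^ 2 < a ^ 2 + b ^ 2 - 2 * a * b * Real.cos (2 * Real.pi * s - 2 * Real.pi * t)

private theorem rSep.symm {s a r t b q : ℝ} (h : rSep s a r t b q) : rSep t b q s a r := by
  unfold rSep at h ⊢
  rw [← Real.cos_neg, neg_sub]
  linarith [h, add_comm r q, congrArg (fun z => z ^ 2) (add_comm r q)]

private theorem rNum {m u1 u2 v1 v2 r q : ℝ} (hr : 0 ≤ r) (hq : 0 ≤ q)
    (hu : u1 ^ 2 + u2 ^ 2 ≤ m ^ 2) (hv : v1 ^ 2 + v2 ^ 2 ≤ m ^ 2) :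
    q ^ 2 * (v1 ^ 2 + v2 ^ 2) + r ^ 2 * (u1 ^ 2 + u2 ^ 2) - 2 * (q * r) * (u1 * v1 + u2 * v2) ≤
      m ^ 2 * (r + q) ^ 2 := by
  have e : (u1 + v1) ^ 2 + (u2 + v2) ^ 2 =
      (u1 ^ 2 + u2 ^ 2) + (v1 ^ 2 + v2 ^ 2) + 2 * (u1 * v1 + u2 * v2) := by ring
  have k3 : -(u1 * v1 + u2 * v2) ≤ m ^ 2 := by
    linarith [sq_nonneg (u1 + v1), sq_nonneg (u2 + v2)]
  have j1 : q ^ 2 * (v1 ^ 2 + v2 ^ 2) ≤ q ^ 2 * m ^ 2 := by gcongr
  have j2 : r ^ 2 * (u1 ^ 2 + u2 ^ 2) ≤ r ^ 2 * m ^ 2 := by gcongr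
  have j3 : 2 * (q * r) * (-(u1 * v1 + u2 * v2)) ≤ 2 * (q * r) * m ^ 2 := by gcongr
  have e2 : m ^ 2 * (r + q) ^ 2 = q ^ 2 * m ^ 2 + r ^ 2 * m ^ 2 + 2 * (q * r) * m ^ 2 := by ring
  rw [e2]
  linarith

private theorem rSep_disj {s a r t b q : ℝ} (hr : 0 ≤ r) (hq : 0 ≤ q) (h : rSep s a r t b q)
    {x y : E4} (hx : x ∈ Cone 1) (hy : y ∈ Cone 1) (hxy : rP s a r x = rP t b q y) : x = 0 := by
  have c0 : (2 : ℝ) ^ (-s) * x 0 = (2 : ℝ) ^ (-t) * y 0 := by
    have := congrArg (fun z : E4 => z 0) hxy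
    simpa [rP_apply, rD_coord, lam] using this
  have c1 : (2 : ℝ) ^ (-s) * (Real.cos (2 * Real.pi * s) * (a * x 0 + r * x 1) -
      Real.sin (2 * Real.pi * s) * (r * x 2)) =
      (2 : ℝ) ^ (-t) * (Real.cos (2 * Real.pi * t) * (b * y 0 + q * y 1) -
      Real.sin (2 * Real.pi * t) * (q * y 2)) := by
    have := congrArg (fun z : E4 => z 1) hxy
    simpa [rP_apply, rD_coord, lam] using this
  have c2 : (2 : ℝ) ^ (-s) * (Real.sin (2 * Real.pi * s) * (a * x 0 + r * x 1) +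
      Real.cos (2 * Real.pi * s) * (r * x 2)) =
      (2 : ℝ) ^ (-t) * (Real.sin (2 * Real.pi * t) * (b * y 0 + q * y 1) +
      Real.cos (2 * Real.pi * t) * (q * y 2)) := by
    have := congrArg (fun z : E4 => z 2) hxy
    simpa [rP_apply, rD_coord, lam] using this
  obtain ⟨hx0, hx1⟩ := rCone hx
  obtain ⟨hy0, hy1⟩ := rCone hy
  unfold rSep at h
  rw [Real.cos_sub] at h
  have hs1 := Real.cos_sq_add_sin_sq (2 * Real.pi * s)
  have ht1 := Real.cos_sq_add_sin_sq (2 * Real.pi * t)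
  have hp : 0 < (2 : ℝ) ^ (-s) := by positivity
  have hp' : 0 < (2 : ℝ) ^ (-t) := by positivity
  generalize (2 : ℝ) ^ (-s) = p at *
  generalize (2 : ℝ) ^ (-t) = p' at *
  generalize Real.cos (2 * Real.pi * s) = cs at *
  generalize Real.sin (2 * Real.pi * s) = ss at *
  generalize Real.cos (2 * Real.pi * t) = ct at *
  generalize Real.sin (2 * Real.pi * t) = st at *
  by_contra hne
  have hx0' : 0 < x 0 := lt_of_le_of_ne hx0 fun h0 => hne (Cone_eq_zero hx h0.symm)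
  have hm : 0 < p * x 0 := by positivity
  set m := p * x 0 with hmd
  -- the rotated points
  set u1 := cs * (p * x 1) - ss * (p * x 2) with hu1
  set u2 := ss * (p * x 1) + cs * (p * x 2) with hu2
  set v1 := ct * (p' * y 1) - st * (p' * y 2) with hv1
  set v2 := st * (p' * y 1) + ct * (p' * y 2) with hv2
  have hu : u1 ^ 2 + u2 ^ 2 ≤ m ^ 2 := by
    have : u1 ^ 2 + u2 ^ 2 = (cs ^ 2 + ss ^ 2) * (p ^ 2 * (x 1 ^ 2 + x 2 ^ 2)) := by
      rw [hu1, hu2]; ring
    rw [this, hs1, one_mul, hmd, mul_pow]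
    gcongr
  have hv : v1 ^ 2 + v2 ^ 2 ≤ m ^ 2 := by
    have : v1 ^ 2 + v2 ^ 2 = (ct ^ 2 + st ^ 2) * (p' ^ 2 * (y 1 ^ 2 + y 2 ^ 2)) := by
      rw [hv1, hv2]; ring
    rw [this, ht1, one_mul, c0, mul_pow]
    gcongr
  have d1 : m * (a * cs - b * ct) = q * v1 - r * u1 := by
    have e : m * (b * ct) = p' * y 0 * (b * ct) := by rw [c0]
    rw [mul_sub, e, hu1, hv1, hmd]
    linarith
  have d2 : m * (a * ss - b * st) = q * v2 - r * u2 := by
    have e : m * (b * st) = p' * y 0 * (b * st) := by rw [c0]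
    rw [mul_sub, e, hu2, hv2, hmd]
    linarith
  have k1 : m ^ 2 * ((a * cs - b * ct) ^ 2 + (a * ss - b * st) ^ 2) =
      q ^ 2 * (v1 ^ 2 + v2 ^ 2) + r ^ 2 * (u1 ^ 2 + u2 ^ 2) -
        2 * (q * r) * (u1 * v1 + u2 * v2) := by
    have : m ^ 2 * ((a * cs - b * ct) ^ 2 + (a * ss - b * st) ^ 2) =
      (m * (a * cs - b * ct)) ^ 2 + (m * (a * ss - b * st)) ^ 2 := by ring
    rw [this, d1, d2]; ring
  have k2 : (a * cs - b * ct) ^ 2 + (a * ss - b * st) ^ 2 =
      a ^ 2 + b ^ 2 - 2 * a * b * (cs * ct + ss * st) := by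
    have : (a * cs - b * ct) ^ 2 + (a * ss - b * st) ^ 2 =
      a ^ 2 * (cs ^ 2 + ss ^ 2) + b ^ 2 * (ct ^ 2 + st ^ 2) -
        2 * a * b * (cs * ct + ss * st) := by ring
    rw [this, hs1, ht1, mul_one, mul_one]
  have k4 : m ^ 2 * ((a * cs - b * ct) ^ 2 + (a * ss - b * st) ^ 2) ≤ m ^ 2 * (r + q) ^ 2 := by
    rw [k1]
    exact rNum hr hq hu hv
  have k5 : m ^ 2 * (r + q) ^ 2 < m ^ 2 * ((a * cs - b * ct) ^ 2 + (a * ss - b * st) ^ 2) := by
    rw [k2]
    exact mul_lt_mul_of_pos_left h (by positivity)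
  exact absurd k4 (not_le.2 k5)

/-! ### separation -/

private theorem rsin {c u : ℝ} (hc : 0 ≤ c) (h1 : c ≤ u) (h2 : u ≤ 1 - c) :
    2 * c ≤ Real.sin (Real.pi * u) := by
  have hpi := Real.pi_pos
  have key : ∀ v : ℝ, c ≤ v → v ≤ 1 / 2 → 2 * c ≤ Real.sin (Real.pi * v) := by
    intro v hv1 hv2
    have hv0 : 0 ≤ v := hc.trans hv1
    have h3 := Real.mul_le_sin (x := Real.pi * v) (by positivity) (by nlinarith)
    refine le_trans ?_ h3
    have : 2 / Real.pi * (Real.pi * v) = 2 * v := by field_simp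
    rw [this]
    linarith
  rcases le_total u (1 / 2) with h | h
  · exact key u h1 h
  · have h3 := key (1 - u) (by linarith) (by linarith)
    rwa [mul_sub, mul_one, Real.sin_pi_sub] at h3

private theorem rSep_mk {s a r t q c : ℝ} (ha : 0 ≤ a) (hc : 0 ≤ c)
    (h1 : c ≤ s - t) (h2 : s - t ≤ 1 - c) (hr : 0 ≤ r) (hq : 0 ≤ q) (hrq : r + q < 2 * c) :
    rSep s a r t 1 q := by
  unfold rSep
  have h3 := rsin hc h1 h2
  have h30 : 0 ≤ r + q := add_nonneg hr hq
  have h4 : Real.cos (2 * Real.pi * s - 2 * Real.pi * t) =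
      1 - 2 * Real.sin (Real.pi * (s - t)) ^ 2 := by
    have : 2 * Real.pi * s - 2 * Real.pi * t = 2 * (Real.pi * (s - t)) := by ring
    rw [this, Real.cos_two_mul, Real.sin_sq]
    ring
  rw [h4]
  have h5 : Real.sin (Real.pi * (s - t)) ^ 2 ≤ 1 := Real.sin_sq_le_one _
  generalize Real.sin (Real.pi * (s - t)) = z at *
  have h6 : (r + q) ^ 2 < z ^ 2 := by
    have : r + q < z := by linarith
    exact pow_lt_pow_left₀ this h30 two_ne_zero
  have h7 : z ^ 2 ≤ (1 - a) ^ 2 + 4 * a * z ^ 2 := by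
    nlinarith [sq_nonneg z, sq_nonneg a, mul_nonneg ha (sq_nonneg z)]
  nlinarith

private theorem rSep_mk' {s a r t q c : ℝ} (ha : 0 ≤ a) (hc : 0 ≤ c)
    (h1 : c ≤ t - s) (h2 : t - s ≤ 1 - c) (hr : 0 ≤ r) (hq : 0 ≤ q) (hrq : r + q < 2 * c) :
    rSep s a r t 1 q := by
  have h3 := rSep_mk (s := t) (t := s) ha hc h1 h2 hr hq hrq
  unfold rSep at h3 ⊢
  rwa [← Real.cos_neg, neg_sub] at h3

/-! ### the steps -/

private theorem rStep {ι : Type} [Fintype ι] (s a r : ι → ℝ → ℝ) (hs : ∀ i, Continuous (s i))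
    (ha : ∀ i, Continuous (a i)) (hr : ∀ i, Continuous (r i))
    (hr0 : ∀ i t, 0 ≤ t → t ≤ 1 → 0 < r i t)
    (hd : ∀ i j, i ≠ j → ∀ t, 0 ≤ t → t ≤ 1 →
      rSep (s i t) (a i t) (r i t) (s j t) (a j t) (r j t)) :
    ∃ ψ : E4 ≃ₜ E4, Pz ψ ∧ ∀ i, ∀ x ∈ Cone 1,
      ψ (rP (s i 0) (a i 0) (r i 0) x) = rP (s i 1) (a i 1) (r i 1) x := by
  set cl : ℝ → ℝ := fun t => max 0 (min 1 t) with hcl
  have hclc : Continuous cl := continuous_const.max (continuous_const.min continuous_id)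
  have hcl0 : ∀ t, 0 ≤ cl t := fun t => le_max_left _ _
  have hcl1 : ∀ t, cl t ≤ 1 := fun t => max_le zero_le_one (min_le_left _ _)
  have hcle : ∀ t, 0 ≤ t → t ≤ 1 → cl t = t := fun t h0 h1 => by
    simp only [hcl]; rw [min_eq_right h1, max_eq_right h0]
  obtain ⟨ψ, h1, h2⟩ := multi_path (fun _ : ι => Cone 1) (fun _ => isClosed_Cone 1)
    (fun _ x hx c hc => Cone_smul hc.le hx)
    (fun i t => rP (s i (cl t)) (a i (cl t)) (r i (cl t)))
    (fun i => rP_cont ((hs i).comp hclc) ((ha i).comp hclc) ((hr i).comp hclc))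
    (fun i t => rP_det (hr0 i _ (hcl0 t) (hcl1 t)).ne')
    (fun i j hij t h0 h1 x hx y hy hxy => by
      rw [hcle t h0 h1] at hxy
      exact rSep_disj (hr0 i t h0 h1).le (hr0 j t h0 h1).le (hd i j hij t h0 h1) hx hy hxy)
  refine ⟨ψ, h1, fun i x hx => ?_⟩
  have h3 := h2 i x hx
  rwa [hcle 0 le_rfl zero_le_one, hcle 1 zero_le_one le_rfl] at h3

private theorem rPl {n : ℕ} (hn : 0 < n) (i : ℕ) (x : E4) :
    plN n i x = rP (i / n) 1 (rad n) x := by
  rw [plN_apply hn, rP_apply, rD_apply, one_smul]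
  rfl

private theorem rCen (r : ℝ) (x : E4) : cenL r x = rP 0 0 r x := by
  rw [cenL_apply, rP_apply, rD_apply, lam_zero, zero_smul, add_zero]

/-- the `n + 1` placements are moved to the `n` placements and a central one -/
theorem rearrange {n : ℕ} (hn : 0 < n) {r : ℝ} (hr : 0 < r) (hr' : r ≤ 1 / 8) :
    ∃ ψ : E4 ≃ₜ E4, Pz ψ ∧ (∀ i < n, ∀ x ∈ Cone 1, ψ (plN (n + 1) i x) = plN n i x) ∧
      ∀ x ∈ Cone 1, ψ (plN (n + 1) n x) = cenL r x := by
  have hn1 : (1 : ℝ) ≤ n := by exact_mod_cast hn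
  have hn0 : (0 : ℝ) < n := by linarith
  set ρ := rad (n + 1) with hρ
  have hρe : ρ = 1 / (8 * ((n : ℝ) + 1)) := by rw [hρ, rad]; push_cast; ring
  have hρ0 : 0 < ρ := rad_pos (Nat.succ_pos n)
  have hρ1 : ρ + ρ < 2 * (1 / ((n : ℝ) + 1)) := by
    rw [hρe]
    have : 1 / (8 * ((n : ℝ) + 1)) = (1 / 8) * (1 / ((n : ℝ) + 1)) := by field_simp
    rw [this]
    have : 0 < 1 / ((n : ℝ) + 1) := by positivity
    linarith
  have hρ2 : ρ ≤ 1 / 8 := by
    rw [hρe]
    apply one_div_le_one_div_of_le (by norm_num)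
    linarith
  have hdiff : ∀ i j : ℕ, i < j → j ≤ n →
      1 / ((n : ℝ) + 1) ≤ (j : ℝ) / ((n : ℝ) + 1) - (i : ℝ) / ((n : ℝ) + 1) ∧
      (j : ℝ) / ((n : ℝ) + 1) - (i : ℝ) / ((n : ℝ) + 1) ≤ 1 - 1 / ((n : ℝ) + 1) := by
    intro i j hij hj
    have e1 : (i : ℝ) + 1 ≤ j := by exact_mod_cast hij
    have e2 : (j : ℝ) ≤ n := by exact_mod_cast hj
    have e3 : (0 : ℝ) ≤ i := by positivity
    rw [← sub_div]
    constructor
    · gcongr; linarith
    · rw [le_sub_iff_add_le, ← add_div, div_le_one (by positivity)]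
      linarith
  have hc0 : (0 : ℝ) ≤ 1 / ((n : ℝ) + 1) := by positivity
  -- step 1
  obtain ⟨ψ1, p1, q1⟩ := rStep (ι := Option (Fin n))
    (fun i _ => i.elim ((n : ℝ) / (n + 1)) fun j => (j : ℕ) / ((n : ℝ) + 1))
    (fun i t => i.elim (1 - t) fun _ => 1) (fun _ _ => ρ)
    (fun i => continuous_const) (fun i => by cases i <;> simp only [Option.elim] <;> fun_prop)
    (fun i => continuous_const) (fun _ _ _ _ => hρ0) (by
      have hns : ∀ (j : Fin n) (t : ℝ), 0 ≤ t → t ≤ 1 →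
          rSep ((n : ℝ) / (n + 1)) (1 - t) ρ ((j : ℕ) / ((n : ℝ) + 1)) 1 ρ := by
        intro j t h0 h1
        obtain ⟨d1, d2⟩ := hdiff j n j.2 le_rfl
        exact rSep_mk (by linarith) hc0 d1 d2 hρ0.le hρ0.le hρ1
      rintro (_ | i) (_ | j) hij t h0 h1
      · exact absurd rfl hij
      · exact hns j t h0 h1
      · exact (hns i t h0 h1).symm
      · have hij' : (i : ℕ) ≠ j := fun h => hij (congrArg some (Fin.ext h))
        rcases lt_or_gt_of_ne hij' with h | h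
        · obtain ⟨d1, d2⟩ := hdiff i j h j.2.le
          exact rSep_mk' zero_le_one hc0 d1 d2 hρ0.le hρ0.le hρ1
        · obtain ⟨d1, d2⟩ := hdiff j i h i.2.le
          exact rSep_mk zero_le_one hc0 d1 d2 hρ0.le hρ0.le hρ1)
  -- step 2
  obtain ⟨ψ2, p2, q2⟩ := rStep (ι := Option (Fin n))
    (fun i t => i.elim ((1 - t) * ((n : ℝ) / (n + 1))) fun j => (j : ℕ) / ((n : ℝ) + 1))
    (fun i _ => i.elim 0 fun _ => 1) (fun i t => i.elim ((1 - t) * ρ + t * r) fun _ => ρ)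
    (fun i => by cases i <;> simp only [Option.elim] <;> fun_prop)
    (fun i => continuous_const)
    (fun i => by cases i <;> simp only [Option.elim] <;> fun_prop)
    (by
      rintro (_ | i) t h0 h1
      · show 0 < (1 - t) * ρ + t * r
        rcases eq_or_lt_of_le h0 with h | h
        · rw [← h]; linarith
        · have := mul_pos h hr
          have := mul_nonneg (sub_nonneg.2 h1) hρ0.le
          linarith
      · exact hρ0) (by
      have hns : ∀ (j : Fin n) (t : ℝ), 0 ≤ t → t ≤ 1 →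
          rSep ((1 - t) * ((n : ℝ) / (n + 1))) 0 ((1 - t) * ρ + t * r)
            ((j : ℕ) / ((n : ℝ) + 1)) 1 ρ := by
        intro j t h0 h1
        unfold rSep
        have e1 : (1 - t) * ρ + t * r ≤ 1 / 8 := by nlinarith
        have e2 : 0 ≤ (1 - t) * ρ + t * r := by
          have := mul_nonneg h0 hr.le
          have := mul_nonneg (sub_nonneg.2 h1) hρ0.le
          linarith
        generalize (1 - t) * ρ + t * r = w at *
        have : (w + ρ) ^ 2 ≤ (1 / 8 + 1 / 8) ^ 2 := by gcongr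
        calc _ ≤ _ := this
          _ < 1 := by norm_num
          _ = _ := by ring
      rintro (_ | i) (_ | j) hij t h0 h1
      · exact absurd rfl hij
      · exact hns j t h0 h1
      · exact (hns i t h0 h1).symm
      · have hij' : (i : ℕ) ≠ j := fun h => hij (congrArg some (Fin.ext h))
        rcases lt_or_gt_of_ne hij' with h | h
        · obtain ⟨d1, d2⟩ := hdiff i j h j.2.le
          exact rSep_mk' zero_le_one hc0 d1 d2 hρ0.le hρ0.le hρ1
        · obtain ⟨d1, d2⟩ := hdiff j i h i.2.le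
          exact rSep_mk zero_le_one hc0 d1 d2 hρ0.le hρ0.le hρ1)
  -- step 3
  set σ := rad n with hσ
  have hσe : σ = 1 / (8 * (n : ℝ)) := rfl
  have hσ0 : 0 < σ := rad_pos hn
  have hσ2 : σ ≤ 1 / 8 := by
    rw [hσe]
    apply one_div_le_one_div_of_le (by norm_num)
    linarith
  have hρσ : ρ ≤ σ := by
    rw [hσe, hρe]
    apply one_div_le_one_div_of_le (by positivity)
    linarith
  have hσ1 : σ + σ < 2 * (1 / ((n : ℝ) + 1)) := by
    rw [hσe]
    have e1 : 1 / (8 * (n : ℝ)) + 1 / (8 * (n : ℝ)) = 1 / (4 * n) := by field_simp; norm_num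
    rw [e1, mul_one_div, div_lt_div_iff₀ (by positivity) (by positivity)]
    linarith
  obtain ⟨ψ3, p3, q3⟩ := rStep (ι := Option (Fin n))
    (fun i t => i.elim 0 fun j => (j : ℕ) * ((1 - t) * (1 / ((n : ℝ) + 1)) + t * (1 / n)))
    (fun i _ => i.elim 0 fun _ => 1) (fun i t => i.elim r fun _ => (1 - t) * ρ + t * σ)
    (fun i => by cases i <;> simp only [Option.elim] <;> fun_prop)
    (fun i => continuous_const)
    (fun i => by cases i <;> simp only [Option.elim] <;> fun_prop)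
    (by
      rintro (_ | i) t h0 h1
      · exact hr
      · show 0 < (1 - t) * ρ + t * σ
        nlinarith) (by
      have hw : ∀ t : ℝ, 0 ≤ t → t ≤ 1 → 0 ≤ (1 - t) * ρ + t * σ ∧ (1 - t) * ρ + t * σ ≤ σ :=
        fun t h0 h1 => ⟨by nlinarith, by nlinarith⟩
      have hns : ∀ (j : Fin n) (t : ℝ), 0 ≤ t → t ≤ 1 →
          rSep 0 0 r ((j : ℕ) * ((1 - t) * (1 / ((n : ℝ) + 1)) + t * (1 / n))) 1
            ((1 - t) * ρ + t * σ) := by
        intro j t h0 h1
        unfold rSep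
        obtain ⟨e1, e2⟩ := hw t h0 h1
        generalize (1 - t) * ρ + t * σ = w at *
        have : (r + w) ^ 2 ≤ (1 / 8 + 1 / 8) ^ 2 := by gcongr; linarith
        calc _ ≤ _ := this
          _ < 1 := by norm_num
          _ = _ := by ring
      have hss : ∀ (i j : ℕ) (t : ℝ), 0 ≤ t → t ≤ 1 → i < j → j < n →
          1 / ((n : ℝ) + 1) ≤ (j : ℕ) * ((1 - t) * (1 / ((n : ℝ) + 1)) + t * (1 / n)) -
            (i : ℕ) * ((1 - t) * (1 / ((n : ℝ) + 1)) + t * (1 / n)) ∧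
          (j : ℕ) * ((1 - t) * (1 / ((n : ℝ) + 1)) + t * (1 / n)) -
            (i : ℕ) * ((1 - t) * (1 / ((n : ℝ) + 1)) + t * (1 / n)) ≤
              1 - 1 / ((n : ℝ) + 1) := by
        intro i j t h0 h1 hij hj
        have e1 : (i : ℝ) + 1 ≤ j := by exact_mod_cast hij
        have e2 : (j : ℝ) + 1 ≤ n := by exact_mod_cast hj
        have e3 : (0 : ℝ) ≤ i := by positivity
        have e4 : 1 / ((n : ℝ) + 1) ≤ 1 / n := one_div_le_one_div_of_le hn0 (by linarith)
        have e5 : 1 / ((n : ℝ) + 1) ≤ (1 - t) * (1 / ((n : ℝ) + 1)) + t * (1 / n) := by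
          nlinarith
        have e6 : (1 - t) * (1 / ((n : ℝ) + 1)) + t * (1 / n) ≤ 1 / n := by nlinarith
        have e7 : (n : ℝ) * (1 / n) = 1 := by field_simp
        generalize (1 - t) * (1 / ((n : ℝ) + 1)) + t * (1 / n) = u at *
        have e8 : 0 ≤ u := hc0.trans e5
        rw [← sub_mul]
        constructor
        · calc _ ≤ u := e5
            _ = 1 * u := (one_mul u).symm
            _ ≤ _ := mul_le_mul_of_nonneg_right (by linarith) e8
        · calc ((j : ℝ) - i) * u ≤ ((n : ℝ) - 1) * (1 / n) :=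
                mul_le_mul (by linarith) e6 e8 (by linarith)
            _ = 1 - 1 / n := by rw [sub_mul, e7, one_mul]
            _ ≤ _ := by linarith
      rintro (_ | i) (_ | j) hij t h0 h1
      · exact absurd rfl hij
      · exact hns j t h0 h1
      · exact (hns i t h0 h1).symm
      · have hij' : (i : ℕ) ≠ j := fun h => hij (congrArg some (Fin.ext h))
        obtain ⟨e1, e2⟩ := hw t h0 h1
        have e3 : (1 - t) * ρ + t * σ + ((1 - t) * ρ + t * σ) < 2 * (1 / ((n : ℝ) + 1)) :=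
          lt_of_le_of_lt (add_le_add e2 e2) hσ1
        rcases lt_or_gt_of_ne hij' with h | h
        · obtain ⟨d1, d2⟩ := hss i j t h0 h1 h j.2
          exact rSep_mk' zero_le_one hc0 d1 d2 e1 e1 e3
        · obtain ⟨d1, d2⟩ := hss j i t h0 h1 h i.2
          exact rSep_mk zero_le_one hc0 d1 d2 e1 e1 e3)
  have hpl : ∀ (i : ℕ) (x : E4), plN (n + 1) i x = rP (i / ((n : ℝ) + 1)) 1 ρ x := by
    intro i x
    rw [rPl (Nat.succ_pos n), hρ, Nat.succ_eq_add_one, Nat.cast_add, Nat.cast_one]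
  refine ⟨ψ3 * (ψ2 * ψ1), p3.mul (p2.mul p1), fun i hi x hx => ?_, fun x hx => ?_⟩
  · have h1 := q1 (some ⟨i, hi⟩) x hx
    have h2 := q2 (some ⟨i, hi⟩) x hx
    have h3 := q3 (some ⟨i, hi⟩) x hx
    simp only [Option.elim] at h1 h2 h3
    rw [mul_apply', mul_apply', hpl, rPl hn, h1, h2]
    have g1 : (i : ℝ) * ((1 - 0) * (1 / ((n : ℝ) + 1)) + 0 * (1 / n)) = i / ((n : ℝ) + 1) := by
      ring
    have g2 : (i : ℝ) * ((1 - 1) * (1 / ((n : ℝ) + 1)) + 1 * (1 / n)) = i / n := by ring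
    have g3 : (1 - 0) * ρ + 0 * σ = ρ := by ring
    have g4 : (1 - 1) * ρ + 1 * σ = σ := by ring
    rw [g1, g2, g3, g4] at h3
    exact h3
  · have h1 := q1 none x hx
    have h2 := q2 none x hx
    have h3 := q3 none x hx
    simp only [Option.elim] at h1 h2 h3
    rw [mul_apply', mul_apply', hpl, rCen]
    have g1 : (1 - 0) * ((n : ℝ) / (n + 1)) = n / (n + 1) := by ring
    have g2 : (1 - 1) * ((n : ℝ) / (n + 1)) = 0 := by ring
    have g3 : (1 - 0) * ρ + 0 * r = ρ := by ring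
    have g4 : (1 - 1) * ρ + 1 * r = r := by ring
    rw [sub_zero, sub_self] at h1
    rw [g1, g2, g3, g4] at h2
    rw [h1, h2, h3]

end Pool.Agent.HopfFin
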