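import Pool.Agent.HopfFin.Conj
import Pool.Agent.HopfFin.Extend
import Pool.Agent.HopfFin.Sum
import Pool.Agent.HopfFin.Rearr

/-!
# The removal lemma

Plan. Let `φ` in `Sm` with `φ H = tau φ`, `H = YY K n = KK tau KK⁻¹` (`KK = KK K n`). Near the ray
`H = tau` (`KK_near`), so `φ` commutes with `x ↦ x / 2` near the ray; by `extend_germ` there is `ψ₂`
in `Pz` which agrees with `φ` near the ray; `κ₂ = φ⁻¹ ψ₂` is in `Sm`, is the identity on some
`Cone δ`, and `H = κ₂ tau κ₂⁻¹`. Let `r ≤ min (1/8) δ`, `ψ` from `rearrange`, `C` from `cen_mk`,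
`K_C = C K C⁻¹`, supported in `Cone r` (`cenL_mem`). Then `ψ (KK K (n+1)) ψ⁻¹ = KK * K_C`: for each
factor `ψ (P' K P'⁻¹) ψ⁻¹ = P K P⁻¹` because both sides are supported in `P '' Cone 1` and agree
there (`List.range_succ`). So `YY K (n+1)` is conjugate by `ψ` (which commutes with `tau`) to
`KK K_C tau K_C⁻¹ KK⁻¹`; `K_C` commutes with `KK` and with `κ₂` (`Supp.commute`, they are the
identity on `Cone r`), hence this is `K_C H K_C⁻¹ = K_C κ₂ tau κ₂⁻¹ K_C⁻¹ = κ₂ (K_C tau K_C⁻¹) κ₂⁻¹`,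
conjugate by `κ₂` to `K_C tau K_C⁻¹ = C (K tau K⁻¹) C⁻¹`.
-/

set_option autoImplicit false

open scoped ContDiff Topology
open Set Filter Metric

namespace Pool.Agent.HopfFin

open Pool.Agent.HopfCov

/-- the copy of `K` in a placement depends only on the placement of `Cone 1` -/
private theorem remove_conj {K : E4 ≃ₜ E4} (hK : Supp K (Cone 1)) {ψ P' P : E4 ≃ₜ E4}
    (h : ∀ x ∈ Cone 1, ψ (P' x) = P x) :
    ψ * (P' * K * P'⁻¹) * ψ⁻¹ = P * K * P⁻¹ := by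
  obtain ⟨Q, hQ⟩ : ∃ Q : E4 ≃ₜ E4, Q = ψ * P' := ⟨_, rfl⟩
  have hQP : ∀ x ∈ Cone 1, Q x = P x := by
    intro x hx
    rw [hQ, mul_apply']
    exact h x hx
  have e : ψ * (P' * K * P'⁻¹) * ψ⁻¹ = Q * K * Q⁻¹ := by
    rw [hQ]
    group
  rw [e]
  refine Homeomorph.ext fun y => ?_
  rw [mul_apply', mul_apply', mul_apply', mul_apply']
  by_cases hx : (P⁻¹ : E4 ≃ₜ E4) y ∈ Cone 1
  · have h1 : (Q⁻¹ : E4 ≃ₜ E4) y = (P⁻¹ : E4 ≃ₜ E4) y := by
      apply Q.injective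
      rw [apply_inv_self', hQP _ hx, apply_inv_self']
    rw [h1]
    exact hQP _ (hK.mem hx)
  · have h2 : (Q⁻¹ : E4 ≃ₜ E4) y ∉ Cone 1 := by
      intro h3
      apply hx
      have h4 := hQP _ h3
      rw [apply_inv_self'] at h4
      have h5 : (P⁻¹ : E4 ≃ₜ E4) y = (Q⁻¹ : E4 ≃ₜ E4) y := by
        apply P.injective
        rw [apply_inv_self', ← h4]
      rw [h5]
      exact h3
    rw [hK _ hx, hK _ h2, apply_inv_self', apply_inv_self']

/-- the conjugation of the standard sum to `tau` can be taken to be the identity near the ray -/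
private theorem remove_kappa {K : E4 ≃ₜ E4} (h0 : K 0 = 0) (hK : Supp K (Cone 1)) {n : ℕ}
    (hn : 0 < n) (h : Cj (YY K n) tau) :
    ∃ κ : E4 ≃ₜ E4, Sm κ ∧ AgreeNear κ id ∧ YY K n = κ * tau * κ⁻¹ := by
  obtain ⟨φ, hφ, hφH⟩ := h
  have hne : ∀ t : ℝ, 0 < t → t • e0 ≠ 0 := by
    intro t ht h1
    rcases smul_eq_zero.1 h1 with h2 | h2
    · exact ht.ne' h2
    · have h3 := norm_e0
      rw [h2, norm_zero] at h3
      exact zero_ne_one h3
  have hHt : ∀ x ∈ Cone (1 / 2), YY K n x = (2⁻¹ : ℝ) • x := by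
    intro x hx
    have h1 : ((KK K n)⁻¹ : E4 ≃ₜ E4) x = x := by
      apply (KK K n).injective
      rw [apply_inv_self', KK_near h0 hK hn x hx]
    have h2 : tau x = (2⁻¹ : ℝ) • x := rfl
    unfold YY
    rw [mul_apply', mul_apply', h1, h2]
    exact KK_near h0 hK hn _ (Cone_smul (by norm_num) hx)
  have he : EqvNear φ := by
    refine ⟨1 / 2, by norm_num, fun x hx => ?_⟩
    rw [← hHt x hx]
    have h1 := DFunLike.congr_fun hφH x
    rw [mul_apply', mul_apply'] at h1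
    exact h1
  obtain ⟨ψ, hψ, hag⟩ := extend_germ φ (fun t ht => hφ.reg (hne t ht)) he (by
    intro s t hs ht hst
    have h1 : s • e0 = t • e0 := φ.injective hst
    have h2 : (s - t) • e0 = 0 := by rw [sub_smul, h1, sub_self]
    rcases smul_eq_zero.1 h2 with h3 | h3
    · exact sub_eq_zero.1 h3
    · have h4 := norm_e0
      rw [h3, norm_zero] at h4
      exact absurd h4 zero_ne_one)
  obtain ⟨δ, hδ, hag⟩ := hag
  refine ⟨φ⁻¹ * ψ, hφ.inv.mul hψ.sm, ⟨δ, hδ, fun x hx => ?_⟩, ?_⟩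
  · rw [mul_apply', hag x hx, inv_apply_self']
    rfl
  · have h1 : YY K n = φ⁻¹ * (tau * φ) := by
      rw [← hφH, inv_mul_cancel_left]
    have h2 : ψ * tau * ψ⁻¹ = tau := by
      rw [hψ.comm, mul_inv_cancel_right]
    calc YY K n = φ⁻¹ * (tau * φ) := h1
      _ = φ⁻¹ * ((ψ * tau * ψ⁻¹) * φ) := by rw [h2]
      _ = φ⁻¹ * ψ * tau * (φ⁻¹ * ψ)⁻¹ := by group

/-- **the removal lemma**: if the `n`-fold sum is standard then the `(n + 1)`-fold sum is one
copy -/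
theorem removal {K : E4 ≃ₜ E4} (h0 : K 0 = 0) (hK : Supp K (Cone 1)) {n : ℕ} (hn : 0 < n)
    (h : Cj (YY K n) tau) : Cj (YY K (n + 1)) (K * tau * K⁻¹) := by
  obtain ⟨κ, hκ, hκn, hκH⟩ := remove_kappa h0 hK hn h
  obtain ⟨δ, hδ, hκδ⟩ := hκn
  have hr : 0 < min (1 / 8) δ := lt_min (by norm_num) hδ
  have hr' : min (1 / 8) δ ≤ 1 / 8 := min_le_left _ _
  have hrδ : min (1 / 8) δ ≤ δ := min_le_right _ _
  generalize min (1 / 8) δ = r at hr hr' hrδ
  obtain ⟨ψ, hψ, hψ1, hψ2⟩ := rearrange hn hr hr'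
  obtain ⟨C, hC, hCL⟩ := cen_mk hr.ne'
  -- the central copy
  obtain ⟨b, hb⟩ : ∃ b : E4 ≃ₜ E4, b = C * K * C⁻¹ := ⟨_, rfl⟩
  have hbS : Supp b (Cone r) := by
    rw [hb]
    refine (hK.conj C).mono ?_
    rintro _ ⟨x, hx, rfl⟩
    rw [hCL]
    exact cenL_mem hr hx
  have hC0 : (C⁻¹ : E4 ≃ₜ E4) 0 = 0 := hC.inv.sm.1
  have hb0 : b 0 = 0 := by
    rw [hb, mul_apply', mul_apply', hC0, h0, hC.sm.1]
  -- conjugation by `ψ`
  have hψKK : ψ * KK K (n + 1) * ψ⁻¹ = KK K n * b := by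
    have h1 : KK K (n + 1) =
        ((List.range n).map fun i => plN (n + 1) i * K * (plN (n + 1) i)⁻¹).prod *
          (plN (n + 1) n * K * (plN (n + 1) n)⁻¹) := by
      unfold KK
      rw [List.range_succ, List.map_append, List.prod_append]
      simp
    have h2 : ψ * (plN (n + 1) n * K * (plN (n + 1) n)⁻¹) * ψ⁻¹ = b := by
      rw [hb]
      exact remove_conj hK fun x hx => by rw [hψ2 x hx, hCL]
    have h3 : ψ * ((List.range n).map fun i => plN (n + 1) i * K * (plN (n + 1) i)⁻¹).prod *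
        ψ⁻¹ = KK K n := by
      unfold KK
      rw [← MulAut.conj_apply, map_list_prod, List.map_map]
      congr 1
      refine List.map_congr_left fun i hi => ?_
      rw [Function.comp_apply, MulAut.conj_apply]
      exact remove_conj hK (hψ1 i (List.mem_range.1 hi))
    rw [h1, ← h2, ← h3]
    group
  have hψt : ψ * tau * ψ⁻¹ = tau := by
    rw [hψ.comm, mul_inv_cancel_right]
  have hCt : C⁻¹ * tau * C = tau := by
    rw [mul_assoc, ← hC.comm, inv_mul_cancel_left]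
  -- commutation
  have hab : KK K n * b = b * KK K n := by
    have h1 : Supp (KK K n) (Cone (1 / 2))ᶜ := fun x hx => KK_near h0 hK hn x (not_not.1 hx)
    refine (h1.commute hbS (KK_zero h0 n) hb0 fun x hx hx' => ?_).eq
    exact absurd (Cone_mono hr (by linarith) hx') hx
  have hkb : κ * b = b * κ := by
    have h1 : Supp κ (Cone δ)ᶜ := fun x hx => hκδ x (not_not.1 hx)
    refine (h1.commute hbS hκ.1 hb0 fun x hx hx' => ?_).eq
    exact absurd (Cone_mono hr hrδ hx') hx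
  have e1 : ψ * YY K (n + 1) * ψ⁻¹ = κ * (b * tau * b⁻¹) * κ⁻¹ := by
    calc ψ * YY K (n + 1) * ψ⁻¹
        = (ψ * KK K (n + 1) * ψ⁻¹) * (ψ * tau * ψ⁻¹) * (ψ * KK K (n + 1) * ψ⁻¹)⁻¹ := by
          unfold YY
          group
      _ = (b * KK K n) * tau * (b * KK K n)⁻¹ := by rw [hψKK, hψt, hab]
      _ = b * YY K n * b⁻¹ := by
          unfold YY
          group
      _ = b * (κ * tau * κ⁻¹) * b⁻¹ := by rw [hκH]
      _ = (b * κ) * tau * (b * κ)⁻¹ := by group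
      _ = (κ * b) * tau * (κ * b)⁻¹ := by rw [hkb]
      _ = κ * (b * tau * b⁻¹) * κ⁻¹ := by group
  have e2 : b * tau * b⁻¹ = C * (K * tau * K⁻¹) * C⁻¹ := by
    calc b * tau * b⁻¹ = C * (K * (C⁻¹ * tau * C) * K⁻¹) * C⁻¹ := by
          rw [hb]
          group
      _ = C * (K * tau * K⁻¹) * C⁻¹ := by rw [hCt]
  have s1 : Cj (YY K (n + 1)) (ψ * YY K (n + 1) * ψ⁻¹) := Cj_conj _ hψ.sm
  have s2 : Cj (b * tau * b⁻¹) (κ * (b * tau * b⁻¹) * κ⁻¹) := Cj_conj _ hκ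
  have s3 : Cj (K * tau * K⁻¹) (C * (K * tau * K⁻¹) * C⁻¹) := Cj_conj _ hC.sm
  rw [e1] at s1
  rw [← e2] at s3
  exact s1.trans (s2.symm.trans s3.symm)

end Pool.Agent.HopfFin
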