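import Pool.Agent.HopfFin.Norm
import Pool.Agent.HopfFin.Remove
import Pool.Agent.HopfFin.Good
import Pool.Agent.HopfFin.Class
import Pool.Agent.HopfFin.SwapCj

/-!
# The theorem on the level of punctured diffeomorphisms
-/

set_option autoImplicit false

open scoped ContDiff Topology
open Set Filter Metric

namespace Pool.Agent.HopfFin

open Pool.Agent.HopfCov

theorem norm_e0_level : ‖e0‖ = 1 := by
  rw [e0, EuclideanSpace.norm_single, norm_one]

theorem e0_ne_level : e0 ≠ 0 := fun h => by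
  have := norm_e0_level
  rw [h, norm_zero] at this
  exact zero_ne_one this

theorem Ext_pow_level {g : E4 ≃ₜ E4} (hg : Ext g) (n : ℕ) : Ext (g ^ n) := by
  induction n with
  | zero => rw [pow_zero]; exact Ext_one
  | succ n ih => rw [pow_succ]; exact ih.mul hg

/-- conjugate powers: the class of `G` has finite order -/
theorem not_CjV_pow_level {G : E4 ≃ₜ E4} (hPD : PD 1 G) (hE : ∀ m : ℕ, 0 < m → ¬ Ext (G ^ m))
    {i j : ℕ} (hij : i < j) : ¬ CjV (G ^ i) (G ^ j) := by
  intro h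
  have h4 := CjV.ext hPD h
  have hlt : i * i < j * j := Nat.mul_self_lt_mul_self hij
  have h5 : (((j * j : ℕ) : ℤ) - ((i * i : ℕ) : ℤ)) = ((j * j - i * i : ℕ) : ℤ) :=
    (Nat.cast_sub hlt.le).symm
  rw [h5, zpow_natCast] at h4
  exact hE _ (Nat.sub_pos_of_lt hlt) h4

/-- **Theorem F for generators**: if `G` is not `Off` there are infinitely many pairwise
non-conjugate punctured diffeomorphisms of the same kind. Plan: if no `G ^ m`, `m > 0`, is
extendable, take the powers (`ext_of_conj_sq`). Otherwise a power `G ^ m` is `Off` and extendable,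
hence standard; normal form `G ~ K tau K⁻¹`; for `n` divisible by `m` either `YY K n` or
`YY K (n+1)` is not `Off` (`removal`, `YY_Ext`, `std_of_Off`), so there are arbitrarily large `n`
with `(VV K n) ^ n` not `Off`; choose a sequence recursively with `Off_pow`. -/
theorem main_G {G T : E4 ≃ₜ E4} (hG : Sm G) (hT : Good G T e0) (hO : ¬ Off G) :
    ∃ V : ℕ → (E4 ≃ₜ E4), (∀ k, Sm (V k) ∧ ∃ T' : E4 ≃ₜ E4, Good (V k) T' e0) ∧
      ∀ i j, i ≠ j → ¬ CjV (V i) (V j) := by
  have hn0 := norm_e0_level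
  have he0 := e0_ne_level
  have hPD : PD 1 G := hT.PD hG he0
  have hc : Contr G := hT.contr
  by_cases hA : ∀ m : ℕ, 0 < m → ¬ Ext (G ^ m)
  · refine ⟨fun k => G ^ (k + 1), fun k => ⟨hG.pow _, hT.pow hn0 (Nat.succ_pos k)⟩, ?_⟩
    intro i j hij hcon
    rcases lt_or_gt_of_ne hij with h | h
    · exact not_CjV_pow_level hPD hA (Nat.succ_lt_succ h) hcon
    · exact not_CjV_pow_level hPD hA (Nat.succ_lt_succ h) hcon.symm
  · push Not at hA
    obtain ⟨m, hm, hE⟩ := hA
    obtain ⟨m₀, hm₀⟩ := Off_pow hc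
    have hM : 0 < m * (m₀ + 1) := Nat.mul_pos hm (Nat.succ_pos _)
    have hMm : m₀ ≤ m * (m₀ + 1) := le_trans (Nat.le_succ m₀) (Nat.le_mul_of_pos_left _ hm)
    have hEM : Ext (G ^ (m * (m₀ + 1))) := by
      rw [pow_mul]
      exact Ext_pow_level hE _
    obtain ⟨φ, hφ, hφm⟩ := std_of_Off (hPD.pow _) (hc.pow hM) (hm₀ _ hMm) hEM
    obtain ⟨κ, K, hκ, h0, hK, hκK⟩ := normal_form hT hM hφ hφm
    have hcj : Cj G (K * tau * K⁻¹) := by
      rw [← hκK]
      exact Cj_conj G hκ
    have hg : PD 1 (K * tau * K⁻¹) := by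
      rw [← hκK]
      obtain ⟨s, hs, hκs⟩ := hκ.exists_sign
      have h1 := (hκs.mul hPD).mul hκs.inv
      rwa [mul_one, hs] at h1
    have hEg : Ext ((K * tau * K⁻¹) ^ m) := Ext_congr (hcj.pow m) hE
    have hVc : ∀ n : ℕ, 0 < n → Contr (VV K n) := fun n hn => by
      obtain ⟨T', hT'⟩ := VV_good h0 hK hn
      exact hT'.contr
    -- arbitrarily large `n` with `(VV K n) ^ n` not `Off`
    have hlarge : ∀ N : ℕ, ∃ n : ℕ, N ≤ n ∧ 0 < n ∧ ¬ Off (VV K n ^ n) := by
      intro N
      have hn : 0 < m * (N + 1) := Nat.mul_pos hm (Nat.succ_pos _)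
      have hNn : N ≤ m * (N + 1) := le_trans (Nat.le_succ N) (Nat.le_mul_of_pos_left _ hm)
      by_cases h1 : Off (VV K (m * (N + 1)) ^ (m * (N + 1)))
      · by_cases h2 : Off (VV K (m * (N + 1) + 1) ^ (m * (N + 1) + 1))
        · exfalso
          rw [VV_pow K hn] at h1
          rw [VV_pow K (Nat.succ_pos _)] at h2
          have h3 : Ext (YY K (m * (N + 1))) :=
            YY_Ext h0 hK hg hm hn (Dvd.intro _ rfl) hEg
          have h4 : PD 1 (YY K (m * (N + 1))) := by
            rw [← VV_pow K hn]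
            exact (VV_PD h0 hK hg hn).pow _
          have h5 : Contr (YY K (m * (N + 1))) := by
            rw [← VV_pow K hn]
            exact (hVc _ hn).pow hn
          have h6 : Cj (YY K (m * (N + 1))) tau := std_of_Off h4 h5 h1 h3
          have h7 := removal h0 hK hn h6
          exact hO ((Off.congr hcj).2 ((Off.congr h7).1 h2))
        · exact ⟨_, le_trans hNn (Nat.le_succ _), Nat.succ_pos _, h2⟩
      · exact ⟨_, hNn, hn, h1⟩
    -- the sequence
    obtain ⟨f, hf1, hf2⟩ := exists_seq_of_forall_finset_exists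
      (fun n : ℕ => 0 < n ∧ ¬ Off (VV K n ^ n)) (fun x y : ℕ => Off (VV K x ^ y)) (by
        intro s hs
        have hb : ∀ x ∈ s, ∃ b : ℕ, ∀ y ≥ b, Off (VV K x ^ y) := fun x hx =>
          Off_pow (hVc x (hs x hx).1)
        choose! b hb' using hb
        obtain ⟨y, hy1, hy2, hy3⟩ := hlarge (s.sup b)
        exact ⟨y, ⟨hy2, hy3⟩, fun x hx => hb' x hx y (le_trans (Finset.le_sup hx) hy1)⟩)
    have hkey : ∀ i j : ℕ, i < j → ¬ CjV (VV K (f i)) (VV K (f j)) := fun i j hij hcon =>
      (hf1 j).2 (CjV.off (hVc _ (hf1 j).1) (hVc _ (hf1 i).1) hcon.symm (hf1 j).1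
        (hf2 i j hij))
    refine ⟨fun k => VV K (f k), fun k => ⟨Sm_of_PD (VV_PD h0 hK hg (hf1 k).1),
      VV_good h0 hK (hf1 k).1⟩, fun i j hij hcon => ?_⟩
    rcases lt_or_gt_of_ne hij with h | h
    · exact hkey i j h hcon
    · exact hkey j i h hcon.symm

end Pool.Agent.HopfFin
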