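import Pool.Agent.HopfFin.Lam

/-!
# The linear placements of the cone
-/

set_option autoImplicit false

open scoped ContDiff Topology
open Set Filter Metric

namespace Pool.Agent.HopfFin

open Pool.Agent.HopfCov

/-! ### the placements -/

/-- `plc r` as a continuous linear map -/
noncomputable def plcL (r : ℝ) : E4 →L[ℝ] E4 :=
  LinearMap.toContinuousLinearMap
    { toFun := plc r
      map_add' := fun x y => by
        simp only [plc, PiLp.add_apply, pr_add, smul_add, add_smul]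
        abel
      map_smul' := fun c x => by
        simp only [plc, PiLp.smul_apply, pr_smul, smul_eq_mul, smul_add, mul_smul,
          RingHom.id_apply, smul_comm r c] }

theorem plcL_apply (r : ℝ) (x : E4) : plcL r x = plc r x := rfl

/-- the inverse of `plc r` -/
noncomputable def plcI (r : ℝ) (y : E4) : E4 := y 0 • e0 + r⁻¹ • (pr y - y 0 • e1)

theorem plc_apply_zero (r : ℝ) (x : E4) : plc r x 0 = x 0 := by
  simp [plc, e0, e1, pr]

theorem pr_plc (r : ℝ) (x : E4) : pr (plc r x) = x 0 • e1 + r • pr x := by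
  rw [pr, plc_apply_zero, plc]; abel

theorem plcI_plc {r : ℝ} (hr : r ≠ 0) (x : E4) : plcI r (plc r x) = x := by
  rw [plcI, plc_apply_zero, pr_plc, add_sub_cancel_left, smul_smul, inv_mul_cancel₀ hr, one_smul,
    ← eq_add_pr]

theorem plc_plcI {r : ℝ} (hr : r ≠ 0) (y : E4) : plc r (plcI r y) = y := by
  have h1 : plcI r y 0 = y 0 := by simp [plcI, e0, e1, pr]
  have h2 : pr (plcI r y) = r⁻¹ • (pr y - y 0 • e1) := by
    rw [pr, h1, plcI]; abel
  have h3 : plc r (plcI r y) = y 0 • e0 + y 0 • e1 + (pr y - y 0 • e1) := by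
    rw [plc, h1, h2, smul_smul, mul_inv_cancel₀ hr, one_smul]
  rw [h3]
  have h4 : y 0 • e0 + y 0 • e1 + (pr y - y 0 • e1) = y 0 • e0 + pr y := by abel
  rw [h4, ← eq_add_pr]

/-- `plc r` as a homeomorphism (the identity if `r = 0`) -/
noncomputable def plH (r : ℝ) : E4 ≃ₜ E4 :=
  if hr : r = 0 then 1 else
  { toFun := plc r
    invFun := plcI r
    left_inv := plcI_plc hr
    right_inv := plc_plcI hr
    continuous_toFun := (plcL r).continuous
    continuous_invFun := by unfold plcI pr; fun_prop }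

theorem plH_apply {r : ℝ} (hr : r ≠ 0) (x : E4) : plH r x = plc r x := by
  rw [plH, dif_neg hr]; rfl

private theorem place_det {L : E4 →L[ℝ] E4} (hL : Function.Injective L) : L.det ≠ 0 := by
  intro h
  have h1 : LinearMap.det (L : E4 →ₗ[ℝ] E4) = 0 := h
  have h2 := LinearMap.bot_lt_ker_of_det_eq_zero h1
  rw [LinearMap.ker_eq_bot.2 hL] at h2
  exact lt_irrefl _ h2

private theorem place_pz (h : E4 ≃ₜ E4) (L : E4 →L[ℝ] E4) (hL : ∀ x, h x = L x) : Pz h := by
  have h1 : (h : E4 → E4) = L := funext hL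
  refine ⟨⟨by rw [hL, map_zero], fun x _ => ?_⟩, fun x => by rw [hL, hL, map_smul]⟩
  rw [h1]
  refine ⟨L.contDiff.contDiffAt, ?_⟩
  rw [L.fderiv]
  exact place_det (by rw [← h1]; exact h.injective)

theorem plH_pz (r : ℝ) : Pz (plH r) := by
  by_cases hr : r = 0
  · rw [plH, dif_pos hr]
    exact Pz.one
  · exact place_pz _ (plcL r) fun x => plH_apply hr x

/-- the placements as homeomorphisms -/
noncomputable def plN (n i : ℕ) : E4 ≃ₜ E4 := lamH (i / n) * plH (rad n)

theorem rad_pos {n : ℕ} (hn : 0 < n) : 0 < rad n := by unfold rad; positivity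

theorem plN_apply {n : ℕ} (hn : 0 < n) (i : ℕ) (x : E4) : plN n i x = pl n i x := by
  show lam _ (plH _ x) = _
  rw [plH_apply (rad_pos hn).ne']
  rfl

theorem plN_pz (n i : ℕ) : Pz (plN n i) := (lamH_pz _).mul (plH_pz _)

theorem plN_succ (n i : ℕ) : lamH (1 / n) * plN n i = plN n (i + 1) := by
  rw [plN, plN, ← mul_assoc, ← lamH_add]
  congr 2
  push_cast
  ring

theorem plN_self {n : ℕ} (hn : 0 < n) : plN n n = tau * plN n 0 := by
  have hn' : (n : ℝ) ≠ 0 := by positivity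
  rw [plN, plN, div_self hn', lamH_one, Nat.cast_zero, zero_div, lamH_zero, one_mul]

/-- the linear squeezer of the cone around the ray: `x ↦ x 0 • e0 + r • pr x` -/
noncomputable def cenL (r : ℝ) : E4 →L[ℝ] E4 :=
  LinearMap.toContinuousLinearMap
    { toFun := fun x => x 0 • e0 + r • pr x
      map_add' := fun x y => by
        simp only [PiLp.add_apply, pr_add, smul_add, add_smul]
        abel
      map_smul' := fun c x => by
        simp only [PiLp.smul_apply, pr_smul, smul_eq_mul, smul_add, mul_smul,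
          RingHom.id_apply, smul_comm r c] }

theorem cenL_apply (r : ℝ) (x : E4) : cenL r x = x 0 • e0 + r • pr x := rfl

private theorem place_cen0 (r : ℝ) (x : E4) : cenL r x 0 = x 0 := by
  simp [cenL_apply, e0, pr]

private theorem place_cenP (r : ℝ) (x : E4) : pr (cenL r x) = r • pr x := by
  rw [pr, place_cen0, cenL_apply, add_sub_cancel_left]

/-- the squeezer as an element of `Pz` -/
theorem cen_mk {r : ℝ} (hr : r ≠ 0) : ∃ C : E4 ≃ₜ E4, Pz C ∧ ∀ x, C x = cenL r x := by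
  have key : ∀ s t : ℝ, s * t = 1 → ∀ x, cenL s (cenL t x) = x := fun s t hst x => by
    rw [cenL_apply s, place_cen0, place_cenP, smul_smul, hst, one_smul, ← eq_add_pr]
  let C : E4 ≃ₜ E4 :=
    { toFun := cenL r
      invFun := cenL r⁻¹
      left_inv := key _ _ (inv_mul_cancel₀ hr)
      right_inv := key _ _ (mul_inv_cancel₀ hr)
      continuous_toFun := (cenL r).continuous
      continuous_invFun := (cenL r⁻¹).continuous }
  exact ⟨C, place_pz C (cenL r) fun _ => rfl, fun _ => rfl⟩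

/-- the squeezer maps `Cone 1` into `Cone r` -/
theorem cenL_mem {r : ℝ} (hr : 0 < r) {x : E4} (hx : x ∈ Cone 1) : cenL r x ∈ Cone r := by
  have h1 : ‖pr x‖ ≤ 1 * x 0 := hx
  change ‖pr (cenL r x)‖ ≤ r * cenL r x 0
  rw [place_cen0, place_cenP, norm_smul, Real.norm_eq_abs, abs_of_pos hr]
  rw [one_mul] at h1
  exact mul_le_mul_of_nonneg_left h1 hr.le

private theorem place_pos (s : ℝ) : (0 : ℝ) < 2 ^ (-s) := Real.rpow_pos_of_pos two_pos _

private theorem place_pr_lam (s : ℝ) (x : E4) : ‖pr (lam s x)‖ = (2 : ℝ) ^ (-s) * ‖pr x‖ := by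
  have h1 := norm_sq_eq (lam s x)
  have h2 := norm_sq_eq x
  rw [norm_lam, lam_apply_zero] at h1
  have h3 : ‖pr (lam s x)‖ ^ 2 = ((2 : ℝ) ^ (-s) * ‖pr x‖) ^ 2 := by
    rw [mul_pow] at h1 ⊢
    have h4 : ‖pr x‖ ^ 2 = ‖x‖ ^ 2 - x 0 ^ 2 := by linarith
    rw [h4]
    linear_combination -h1
  exact (sq_eq_sq₀ (norm_nonneg _) (mul_nonneg (place_pos s).le (norm_nonneg _))).1 h3

private theorem place_rad {n : ℕ} (hn : 0 < n) : 0 < rad n ∧ rad n ≤ 1 / 8 := by
  refine ⟨rad_pos hn, ?_⟩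
  have h1 : (1 : ℝ) ≤ n := by exact_mod_cast hn
  unfold rad
  exact one_div_le_one_div_of_le (by norm_num) (by linarith)

private theorem place_norm_e1 : ‖e1‖ = 1 := by simp [e1]

/-- `plN n i` maps `Cone 1` off a thin cone: if `x ∈ Cone 1` and `plN n i x ∈ Cone (1/2)` then
`x = 0` -/
theorem plN_off {n : ℕ} (hn : 0 < n) (i : ℕ) {x : E4} (hx : x ∈ Cone 1)
    (h : plN n i x ∈ Cone (1 / 2)) : x = 0 := by
  have h0 := Cone_apply_nonneg one_pos hx
  have h1 : ‖pr x‖ ≤ 1 * x 0 := hx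
  obtain ⟨hr, hr8⟩ := place_rad hn
  rw [plN_apply hn] at h
  have h2 : ‖pr (lam (i / n) (plc (rad n) x))‖ ≤ 1 / 2 * lam (i / n) (plc (rad n) x) 0 := h
  rw [place_pr_lam, lam_apply_zero, plc_apply_zero, pr_plc] at h2
  have h3 := place_pos (i / n : ℝ)
  have h4 : ‖x 0 • e1 + rad n • pr x‖ ≤ 1 / 2 * x 0 := by
    refine le_of_mul_le_mul_left ?_ h3
    calc _ ≤ _ := h2
      _ = _ := by ring
  have h5 : ‖x 0 • e1‖ ≤ ‖x 0 • e1 + rad n • pr x‖ + ‖rad n • pr x‖ := by
    have := norm_sub_le (x 0 • e1 + rad n • pr x) (rad n • pr x)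
    rwa [add_sub_cancel_right] at this
  rw [norm_smul, norm_smul (rad n), place_norm_e1, mul_one, Real.norm_eq_abs, abs_of_nonneg h0,
    Real.norm_eq_abs, abs_of_pos hr] at h5
  have h6 : rad n * ‖pr x‖ ≤ 1 / 8 * x 0 := by
    have := mul_le_mul hr8 h1 (norm_nonneg _) (by norm_num)
    linarith
  exact Cone_eq_zero hx (by linarith)

private theorem place_sin {n k : ℕ} (hk : 0 < k) (hkn : k < n) :
    8 / (n : ℝ) ^ 2 ≤ 1 - Real.cos (2 * Real.pi * (k / n)) := by
  have hn : (0 : ℝ) < n := by exact_mod_cast (hk.trans hkn)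
  have hpi := Real.pi_pos
  have hk1 : (1 : ℝ) ≤ k := by exact_mod_cast hk
  have hkn1 : (k : ℝ) + 1 ≤ n := by exact_mod_cast hkn
  have h1 : 2 / (n : ℝ) ≤ Real.sin (Real.pi * (k / n)) := by
    by_cases h : Real.pi * (k / n) ≤ Real.pi / 2
    · have h2 := Real.mul_le_sin (by positivity) h
      refine le_trans ?_ h2
      have h3 : 2 / Real.pi * (Real.pi * (k / n)) = 2 * k / n := by
        field_simp
      rw [h3]
      exact div_le_div_of_nonneg_right (by linarith) hn.le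
    · have h4 : Real.pi - Real.pi * (k / n) = Real.pi * ((n - k) / n) := by
        field_simp
      have h2 := Real.mul_le_sin (x := Real.pi - Real.pi * (k / n)) (by
        rw [h4]
        exact mul_nonneg hpi.le (div_nonneg (by linarith) hn.le)) (by linarith)
      rw [Real.sin_pi_sub, h4] at h2
      refine le_trans ?_ h2
      have h3 : 2 / Real.pi * (Real.pi * ((n - k) / n)) = 2 * (n - k) / n := by
        field_simp
      rw [h3]
      exact div_le_div_of_nonneg_right (by linarith) hn.le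
  have h5 : 1 - Real.cos (2 * Real.pi * (k / n)) =
      2 * Real.sin (Real.pi * (k / n)) ^ 2 := by
    have h6 := Real.cos_two_mul (Real.pi * (k / n))
    have h7 := Real.sin_sq_add_cos_sq (Real.pi * (k / n))
    rw [← mul_assoc] at h6
    rw [h6]
    linarith
  rw [h5]
  have h8 : (2 / (n : ℝ)) ^ 2 ≤ Real.sin (Real.pi * (k / n)) ^ 2 :=
    pow_le_pow_left₀ (by positivity) h1 2
  have h9 : (2 / (n : ℝ)) ^ 2 = 4 / (n : ℝ) ^ 2 := by
    rw [div_pow]
    norm_num
  rw [h9] at h8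
  calc 8 / (n : ℝ) ^ 2 = 2 * (4 / (n : ℝ) ^ 2) := by ring
    _ ≤ _ := by linarith

private theorem place_cos {n i j : ℕ} (hi : i < n) (hj : j < n) (hij : i ≠ j) :
    8 / (n : ℝ) ^ 2 ≤ 1 - Real.cos (2 * Real.pi * (i / n) - 2 * Real.pi * (j / n)) := by
  rcases lt_or_gt_of_ne hij with h | h
  · have h1 := place_sin (n := n) (k := j - i) (by omega) (by omega)
    rw [Nat.cast_sub h.le] at h1
    rw [← Real.cos_neg]
    have h2 : -(2 * Real.pi * ((i : ℝ) / n) - 2 * Real.pi * (j / n)) =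
        2 * Real.pi * (((j : ℝ) - i) / n) := by ring
    rw [h2]
    exact h1
  · have h1 := place_sin (n := n) (k := i - j) (by omega) (by omega)
    rw [Nat.cast_sub h.le] at h1
    have h2 : 2 * Real.pi * ((i : ℝ) / n) - 2 * Real.pi * (j / n) =
        2 * Real.pi * (((i : ℝ) - j) / n) := by ring
    rw [h2]
    exact h1

private theorem place_pr_sq {x : E4} (hx : x ∈ Cone 1) : x 1 ^ 2 + x 2 ^ 2 ≤ x 0 ^ 2 := by
  have h1 : ‖pr x‖ ≤ 1 * x 0 := hx
  rw [one_mul] at h1
  have h2 : ‖pr x‖ ^ 2 ≤ x 0 ^ 2 := pow_le_pow_left₀ (norm_nonneg _) h1 2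
  have h3 : ‖pr x‖ ^ 2 = x 1 ^ 2 + x 2 ^ 2 + x 3 ^ 2 := by
    rw [EuclideanSpace.norm_sq_eq, Fin.sum_univ_four]
    simp [pr, e0]
  have h4 := sq_nonneg (x 3)
  linarith

private theorem place_alg {cs ss ct st r a1 a2 b1 b2 : ℝ} (hs : ss ^ 2 + cs ^ 2 = 1)
    (ht : st ^ 2 + ct ^ 2 = 1) (ha : a1 ^ 2 + a2 ^ 2 ≤ 1) (hb : b1 ^ 2 + b2 ^ 2 ≤ 1)
    (h1 : cs * (1 + r * a1) - ss * (r * a2) = ct * (1 + r * b1) - st * (r * b2))
    (h2 : ss * (1 + r * a1) + cs * (r * a2) = st * (1 + r * b1) + ct * (r * b2)) :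
    2 * (1 - (cs * ct + ss * st)) ≤ 4 * r ^ 2 := by
  have e1 : cs - ct = r * ((ct * b1 - st * b2) - (cs * a1 - ss * a2)) := by linarith
  have e2 : ss - st = r * ((st * b1 + ct * b2) - (ss * a1 + cs * a2)) := by linarith
  have e3 : (cs - ct) ^ 2 + (ss - st) ^ 2 = 2 * (1 - (cs * ct + ss * st)) := by
    linear_combination hs + ht
  rw [← e3, e1, e2]
  have f1 : (cs * a1 - ss * a2) ^ 2 + (ss * a1 + cs * a2) ^ 2 = a1 ^ 2 + a2 ^ 2 := by
    linear_combination (a1 ^ 2 + a2 ^ 2) * hs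
  have f2 : (ct * b1 - st * b2) ^ 2 + (st * b1 + ct * b2) ^ 2 = b1 ^ 2 + b2 ^ 2 := by
    linear_combination (b1 ^ 2 + b2 ^ 2) * ht
  have f3 : ((ct * b1 - st * b2) - (cs * a1 - ss * a2)) ^ 2 +
      ((st * b1 + ct * b2) - (ss * a1 + cs * a2)) ^ 2 ≤ 4 := by
    nlinarith [sq_nonneg ((ct * b1 - st * b2) + (cs * a1 - ss * a2)),
      sq_nonneg ((st * b1 + ct * b2) + (ss * a1 + cs * a2))]
  have f4 := mul_le_mul_of_nonneg_left f3 (sq_nonneg r)
  nlinarith [f4]

/-- different placements have disjoint images: compare the first coordinates, then the points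
`pr / x 0`, which lie in balls of radius `rad n` around the points of the unit circle with
arguments `2 π i / n`, `2 π j / n` -/
theorem plN_disjoint {n : ℕ} (hn : 0 < n) {i j : ℕ} (hi : i < n) (hj : j < n) (hij : i ≠ j)
    {x y : E4} (hx : x ∈ Cone 1) (hy : y ∈ Cone 1) (h : plN n i x = plN n j y) : x = 0 := by
  have hx0 := Cone_apply_nonneg one_pos hx
  by_contra hne
  have hxp : 0 < x 0 := lt_of_le_of_ne hx0 fun h0 => hne (Cone_eq_zero hx h0.symm)
  have hn0 : (0 : ℝ) < n := by exact_mod_cast hn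
  obtain ⟨hr, hr8⟩ := place_rad hn
  rw [plN_apply hn, plN_apply hn] at h
  obtain ⟨u, hu⟩ : ∃ u : ℝ, u = (2 : ℝ) ^ (-(i / n : ℝ)) := ⟨_, rfl⟩
  obtain ⟨w, hw⟩ : ∃ w : ℝ, w = (2 : ℝ) ^ (-(j / n : ℝ)) := ⟨_, rfl⟩
  have hu0 : 0 < u := by rw [hu]; exact place_pos _
  have hw0 : 0 < w := by rw [hw]; exact place_pos _
  have c0 : u * x 0 = w * y 0 := by
    have h1 := congrArg (fun z : E4 => z 0) h
    simp only [pl, lam_apply_zero, plc_apply_zero] at h1
    rw [hu, hw]
    exact h1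
  have hyp : 0 < y 0 := by
    have h1 : 0 < w * y 0 := by rw [← c0]; positivity
    exact (mul_pos_iff_of_pos_left hw0).1 h1
  obtain ⟨cs, hcs⟩ : ∃ c : ℝ, c = Real.cos (2 * Real.pi * (i / n)) := ⟨_, rfl⟩
  obtain ⟨ss, hss⟩ : ∃ c : ℝ, c = Real.sin (2 * Real.pi * (i / n)) := ⟨_, rfl⟩
  obtain ⟨ct, hct⟩ : ∃ c : ℝ, c = Real.cos (2 * Real.pi * (j / n)) := ⟨_, rfl⟩
  obtain ⟨st, hst⟩ : ∃ c : ℝ, c = Real.sin (2 * Real.pi * (j / n)) := ⟨_, rfl⟩
  have c1 : u * (cs * (x 0 + rad n * x 1) - ss * (rad n * x 2)) =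
      w * (ct * (y 0 + rad n * y 1) - st * (rad n * y 2)) := by
    have h1 := congrArg (fun z : E4 => z 1) h
    simp only [pl, lam, plc, pr, e0, e1] at h1
    rw [hu, hw, hcs, hss, hct, hst]
    simpa using h1
  have c2 : u * (ss * (x 0 + rad n * x 1) + cs * (rad n * x 2)) =
      w * (st * (y 0 + rad n * y 1) + ct * (rad n * y 2)) := by
    have h1 := congrArg (fun z : E4 => z 2) h
    simp only [pl, lam, plc, pr, e0, e1] at h1
    rw [hu, hw, hcs, hss, hct, hst]
    simpa using h1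
  have hm : 0 < u * x 0 := by positivity
  have d1 : cs * (1 + rad n * (x 1 / x 0)) - ss * (rad n * (x 2 / x 0)) =
      ct * (1 + rad n * (y 1 / y 0)) - st * (rad n * (y 2 / y 0)) := by
    have h1 : (u * x 0) * (cs * (1 + rad n * (x 1 / x 0)) - ss * (rad n * (x 2 / x 0))) =
        u * (cs * (x 0 + rad n * x 1) - ss * (rad n * x 2)) := by
      field_simp
    have h2 : (w * y 0) * (ct * (1 + rad n * (y 1 / y 0)) - st * (rad n * (y 2 / y 0))) =
        w * (ct * (y 0 + rad n * y 1) - st * (rad n * y 2)) := by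
      field_simp
    refine mul_left_cancel₀ hm.ne' ?_
    rw [h1, c1, ← h2, c0]
  have d2 : ss * (1 + rad n * (x 1 / x 0)) + cs * (rad n * (x 2 / x 0)) =
      st * (1 + rad n * (y 1 / y 0)) + ct * (rad n * (y 2 / y 0)) := by
    have h1 : (u * x 0) * (ss * (1 + rad n * (x 1 / x 0)) + cs * (rad n * (x 2 / x 0))) =
        u * (ss * (x 0 + rad n * x 1) + cs * (rad n * x 2)) := by
      field_simp
    have h2 : (w * y 0) * (st * (1 + rad n * (y 1 / y 0)) + ct * (rad n * (y 2 / y 0))) =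
        w * (st * (y 0 + rad n * y 1) + ct * (rad n * y 2)) := by
      field_simp
    refine mul_left_cancel₀ hm.ne' ?_
    rw [h1, c2, ← h2, c0]
  have ha : (x 1 / x 0) ^ 2 + (x 2 / x 0) ^ 2 ≤ 1 := by
    rw [div_pow, div_pow, ← add_div, div_le_one (by positivity)]
    exact place_pr_sq hx
  have hb : (y 1 / y 0) ^ 2 + (y 2 / y 0) ^ 2 ≤ 1 := by
    rw [div_pow, div_pow, ← add_div, div_le_one (by positivity)]
    exact place_pr_sq hy
  have h3 := place_alg (by rw [hss, hcs]; exact Real.sin_sq_add_cos_sq _)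
    (by rw [hst, hct]; exact Real.sin_sq_add_cos_sq _) ha hb d1 d2
  have h4 := place_cos hi hj hij
  rw [Real.cos_sub, ← hcs, ← hss, ← hct, ← hst] at h4
  have h5 : 4 * rad n ^ 2 = 1 / 16 * (1 / (n : ℝ) ^ 2) := by
    unfold rad
    field_simp
    norm_num
  have h6 : 8 / (n : ℝ) ^ 2 = 8 * (1 / (n : ℝ) ^ 2) := by ring
  have h7 : 0 < 1 / (n : ℝ) ^ 2 := by positivity
  rw [h5] at h3
  rw [h6] at h4
  linarith

end Pool.Agent.HopfFin
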