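import Pool.Agent.HopfFin.Basic
import Pool.Agent.HopfRem.GermE
import Pool.Agent.HopfRem.PushE

/-!
# Sliding a singularity from one point to another

Plan of `slide`. By `germ_extend` (`HopfRem/GermE.lean`, for `g.toOpenPartialHomeomorph` restricted
to a small ball around `p`) there is a homeomorphism `g₁` with `g₁ = g` near `p` and `RG g₁ x` for
all `x ≠ p`; the sign of the determinant is constant on the connected set `{p}ᶜ` (`sign_const` or
`sign`-lemmas of `HopfRem/OrbG.lean`, `JMap.lean`) and it is `1` near `p`: `LD 1 g₁ x` for `x ≠ p`.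
Write `g` for `g₁`. `g '' U` is open and preconnected, so `push_open` gives `P` (`LD 1` everywhere,
`P (g q) = p`, `P = id` off a compact subset of `g '' U`). `σ₁ = g⁻¹ * P * g` is the identity off a
compact subset of `U`, it is `LD 1` off `p` and `q` (`g⁻¹` is singular only at `p`, and `P (g x) = p`
iff `x = q`), `σ₁ q = p`, and `p' = σ₁ p = g⁻¹ (P p)` is in `U` and different from `p` (`P p ≠ p`
because `P (g q) = p`, `g q ≠ p`). Near `p'` put `φ = P⁻¹ * g`, `LD 1`, `φ p' = p`. Let `S₁` be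
given by `push_open` in `U`: `S₁ p' = p`; `u = S₁ p ≠ p`; `S₂` from `push_open` in `U \ {p}`
(preconnected: dimension at least two), `S₂ u = q`, `S₂` is the identity near `p`. Then
`φ ∘ (S₂ S₁)⁻¹` is `LD 1` near `p` and fixes `p`; `SpecGermFix` gives `H` (`LD 1` everywhere) equal to
it near `p` and equal to the identity off a compact neighbourhood of `p` in `U \ {q}` (take
`O = closedBall p r`). `σ = H * S₂ * S₁ * σ₁`: near `p` it is `φ ∘ σ₁ = P⁻¹ g g⁻¹ P g = g`, and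
`σ q = H (S₂ (S₁ p)) = H q = q`.
-/

set_option autoImplicit false

open scoped ContDiff Topology
open Set Filter Metric

namespace Pool.Agent.HopfFin

open Pool.Agent.HopfCov

private theorem punctured_ball_Slide (q : E4) (ε : ℝ) :
    IsPreconnected (ball q ε ∩ {q}ᶜ) := by
  have h1 : 1 < Module.rank ℝ E4 := by
    rw [← Module.finrank_eq_rank]
    exact_mod_cast hdim4
  have h : ball q ε ∩ {q}ᶜ =
      (fun p : ℝ × E4 => q + p.1 • p.2) '' (Ioo 0 ε ×ˢ sphere (0 : E4) 1) := by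
    ext y
    constructor
    · rintro ⟨hy, hyq⟩
      have hne : y - q ≠ 0 := sub_ne_zero.2 hyq
      have hpos : 0 < ‖y - q‖ := norm_pos_iff.2 hne
      refine ⟨(‖y - q‖, ‖y - q‖⁻¹ • (y - q)), ⟨⟨hpos, ?_⟩, ?_⟩, ?_⟩
      · simpa [dist_eq_norm] using hy
      · simp [norm_smul, hpos.ne']
      · simp [smul_smul, hpos.ne']
    · rintro ⟨⟨t, u⟩, ⟨ht, hu⟩, rfl⟩
      have hu' : ‖u‖ = 1 := by simpa using hu
      have ht1 : 0 < t := ht.1
      have ht2 : t < ε := ht.2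
      have h3 : ‖t • u‖ = t := by
        rw [norm_smul, hu', mul_one, Real.norm_eq_abs, abs_of_pos ht1]
      constructor
      · change dist (q + t • u) q < ε
        rw [dist_eq_norm, add_sub_cancel_left, h3]
        exact ht2
      · intro hq
        have h4 : q + t • u = q := hq
        have h5 : t • u = 0 := by simpa using h4
        rw [h5, norm_zero] at h3
        exact ht1.ne h3
  rw [h]
  exact (isPreconnected_Ioo.prod (isPreconnected_sphere h1 0 1)).image _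
    (by fun_prop)

/-- one half of the proof that a punctured connected open set is connected -/
private theorem half_Slide {U : Set E4} (hU : IsOpen U) (hc : IsPreconnected U) {p : E4} {ε : ℝ}
    (hε : 0 < ε) (hb : ball p ε ⊆ U) {u v : Set E4} (hu : IsOpen u) (hv : IsOpen v)
    (hcov : U ∩ {p}ᶜ ⊆ u ∪ v) (hne : ((U ∩ {p}ᶜ) ∩ v).Nonempty)
    (hsub : ball p ε ∩ {p}ᶜ ⊆ u) : ((U ∩ {p}ᶜ) ∩ (u ∩ v)).Nonempty := by
  have hpo : IsOpen ({p}ᶜ : Set E4) := isOpen_compl_singleton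
  obtain ⟨w, ⟨hw1, hw2⟩, hw3⟩ := hne
  obtain ⟨x, hxU, hx1, hx2⟩ := hc (u ∩ (U ∩ {p}ᶜ) ∪ ball p ε) (v ∩ (U ∩ {p}ᶜ))
    ((hu.inter (hU.inter hpo)).union isOpen_ball) (hv.inter (hU.inter hpo))
    (fun x hx => by
      by_cases hxp : x = p
      · exact Or.inl (Or.inr (hxp ▸ mem_ball_self hε))
      · rcases hcov ⟨hx, hxp⟩ with h1 | h1
        · exact Or.inl (Or.inl ⟨h1, hx, hxp⟩)
        · exact Or.inr ⟨h1, hx, hxp⟩)
    ⟨p, hb (mem_ball_self hε), Or.inr (mem_ball_self hε)⟩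
    ⟨w, hw1, hw3, hw1, hw2⟩
  refine ⟨x, hx2.2, ?_, hx2.1⟩
  rcases hx1 with h1 | h1
  · exact h1.1
  · exact hsub ⟨h1, hx2.2.2⟩

/-- a punctured connected open set is connected -/
private theorem punctured_Slide {U : Set E4} (hU : IsOpen U) (hc : IsPreconnected U) {p : E4}
    (hp : p ∈ U) : IsPreconnected (U ∩ {p}ᶜ) := by
  obtain ⟨ε, hε, hb⟩ := Metric.isOpen_iff.mp hU p hp
  intro u v hu hv hcov hnu hnv
  by_contra hcon
  have hPb := punctured_ball_Slide p ε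
  have hsub : ball p ε ∩ {p}ᶜ ⊆ U ∩ {p}ᶜ := fun x hx => ⟨hb hx.1, hx.2⟩
  rcases isPreconnected_iff_subset_of_disjoint.1 hPb u v hu hv (hsub.trans hcov) (by
    rw [Set.eq_empty_iff_forall_notMem]
    intro x hx
    exact hcon ⟨x, hsub hx.1, hx.2⟩) with h1 | h1
  · exact hcon (half_Slide hU hc hε hb hu hv hcov hnv h1)
  · obtain ⟨x, hx1, hx2⟩ := half_Slide hU hc hε hb hv hu (by rwa [Set.union_comm]) hnu h1
    exact hcon ⟨x, hx1, hx2.2, hx2.1⟩

/-- the germ of `g` at `p` is the germ of a homeomorphism which is singular only at `p` -/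
private theorem germ_Slide {p : E4} {g : E4 ≃ₜ E4} (hr : ∀ᶠ x in 𝓝[≠] p, LD 1 g x) :
    ∃ G : E4 ≃ₜ E4, (∀ᶠ x in 𝓝 p, G x = g x) ∧ ∀ x, x ≠ p → LD 1 G x := by
  have hr' : ∀ᶠ x in 𝓝 p, x ≠ p → LD 1 g x := by
    rw [eventually_nhdsWithin_iff] at hr
    exact hr
  obtain ⟨δ, hδ, hb⟩ := Metric.eventually_nhds_iff_ball.1 hr'
  obtain ⟨G, h1, h2⟩ := germ_extend hdim4 (g.toOpenPartialHomeomorph.restrOpen (ball p δ)
    isOpen_ball) (a := p) (by simp [hδ]) (by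
      intro x hx hxp
      have hx' : x ∈ ball p δ := by simpa using hx
      have h3 := (hb x hx' hxp).rg
      simpa using h3)
  have h1' : ∀ᶠ x in 𝓝 p, G x = g x := by
    filter_upwards [h1] with x hx
    simpa using hx
  refine ⟨G, h1', ?_⟩
  obtain ⟨s, hs, hLD⟩ := sign_const (isOpen_compl_singleton (x := p))
    (preconnected_compl_singleton hdim4 p) (f := G) (fun x hx => h2 x hx)
  have hev : ∀ᶠ x in 𝓝[≠] p, LD 1 G x := by
    have h3 : ∀ᶠ x in 𝓝[≠] p, ∀ᶠ y in 𝓝 x, G y = g y :=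
      h1'.eventually_nhds.filter_mono nhdsWithin_le_nhds
    filter_upwards [h3, hr] with x hx hx'
    exact hx'.congr (hx.mono fun y hy => hy.symm)
  obtain ⟨x, hx1, hx2⟩ := (hev.and self_mem_nhdsWithin).exists
  have h4 := hLD x hx2
  rcases hs with hs | hs
  · rw [hs] at hLD
    exact fun y hy => hLD y hy
  · exfalso
    rw [hs] at h4
    have h5 := h4.2
    have h6 := hx1.2
    linarith

private theorem maps_Slide {U C : Set E4} {S : E4 ≃ₜ E4} (hC : C ⊆ U) (hS : ∀ x, x ∉ C → S x = x)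
    {x : E4} (hx : x ∈ U) : S x ∈ U := by
  by_contra hn
  have h1 : S (S x) = S x := hS _ fun h => hn (hC h)
  exact hn (by rw [S.injective h1]; exact hx)

/-- a singularity with the given germ at `p` is compensated by one at `q` -/
theorem slide {U : Set E4} (hU : IsOpen U) (hc : IsPreconnected U) {p q : E4} (hp : p ∈ U)
    (hq : q ∈ U) (hpq : p ≠ q) {g : E4 ≃ₜ E4} (hg : g p = p) (hr : ∀ᶠ x in 𝓝[≠] p, LD 1 g x) :
    ∃ σ : E4 ≃ₜ E4, σ p = p ∧ σ q = q ∧ (∀ᶠ x in 𝓝 p, σ x = g x) ∧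
      (∀ x, x ≠ p → x ≠ q → LD 1 σ x) ∧
      ∃ C : Set E4, IsCompact C ∧ C ⊆ U ∧ ∀ x, x ∉ C → σ x = x := by
  obtain ⟨G, hG1, hG2⟩ := germ_Slide hr
  have hGp : G p = p := hG1.self_of_nhds.trans hg
  -- moving `G q` to `p`
  obtain ⟨P, hP1, hP2, C₁, hC₁, hC₁U, hP3⟩ := push_open (U := G '' U) (G.isOpenMap U hU)
    (hc.image G G.continuous.continuousOn) (mem_image_of_mem G hq) ⟨p, hp, hGp⟩
  set σ₁ : E4 ≃ₜ E4 := G⁻¹ * P * G with hσ₁
  have hσ₁a : ∀ x, σ₁ x = (G⁻¹ : E4 ≃ₜ E4) (P (G x)) := fun x => rfl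
  have hGinvp : (G⁻¹ : E4 ≃ₜ E4) p = p := by
    conv_lhs => rw [← hGp]
    exact inv_apply_self' G p
  set D₁ : Set E4 := (G⁻¹ : E4 ≃ₜ E4) '' C₁ with hD₁
  have hD₁c : IsCompact D₁ := hC₁.image (G⁻¹ : E4 ≃ₜ E4).continuous
  have hD₁U : D₁ ⊆ U := by
    rintro _ ⟨y, hy, rfl⟩
    obtain ⟨x, hx, rfl⟩ := hC₁U hy
    rw [inv_apply_self']
    exact hx
  have hσ₁id : ∀ x, x ∉ D₁ → σ₁ x = x := by
    intro x hx
    have h1 : G x ∉ C₁ := fun h => hx ⟨G x, h, inv_apply_self' G x⟩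
    rw [hσ₁a, hP3 _ h1, inv_apply_self']
  have hσ₁q : σ₁ q = p := by rw [hσ₁a, hP2, hGinvp]
  set p' : E4 := σ₁ p with hp'
  have hp'p : p' ≠ p := fun h => hpq (σ₁.injective (h.trans hσ₁q.symm))
  have hp'U : p' ∈ U := maps_Slide hD₁U hσ₁id hp
  have hσ₁LD : ∀ x, x ≠ p → x ≠ q → LD 1 σ₁ x := by
    intro x hxp hxq
    have h1 : LD 1 (P * G : E4 ≃ₜ E4) x := LD.mul_one' (hP1 _) (hG2 x hxp)
    have h2 : (G⁻¹ : E4 ≃ₜ E4) (P (G x)) ≠ p := by
      intro h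
      apply hxq
      apply G.injective
      apply P.injective
      rw [hP2, ← hGp, ← h, apply_inv_self']
    have h3 : LD 1 (G⁻¹ : E4 ≃ₜ E4) (P (G x)) := LD.inv' (hG2 _ h2)
    have h4 : LD 1 (G⁻¹ * (P * G) : E4 ≃ₜ E4) x := LD.mul_one' h3 h1
    rw [hσ₁, mul_assoc]
    exact h4
  -- moving `p'` to `p`
  obtain ⟨S₁, hS1, hS2, C₂, hC₂, hC₂U, hS3⟩ := push_open hU hc hp'U hp
  have hup : S₁ p ≠ p := fun h => hp'p (S₁.injective (hS2.trans h.symm))
  have huU : S₁ p ∈ U := maps_Slide hC₂U hS3 hp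
  -- moving `S₁ p` to `q` in the punctured set
  obtain ⟨S₂, hT1, hT2, C₃, hC₃, hC₃U, hT3⟩ := push_open (U := U ∩ {p}ᶜ)
    (hU.inter isOpen_compl_singleton) (punctured_Slide hU hc hp) (a := S₁ p) (b := q)
    ⟨huU, hup⟩ ⟨hq, hpq.symm⟩
  have hpC₃ : p ∉ C₃ := fun h => (hC₃U h).2 rfl
  have hS₂p : S₂ p = p := hT3 p hpC₃
  -- the correction near `p`
  set R : E4 ≃ₜ E4 := S₂ * S₁ with hR
  have hRLD : ∀ x, LD 1 R x := fun x => LD.mul_one' (hT1 _) (hS1 x)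
  have hRp' : R p' = p := by rw [hR, mul_apply', hS2, hS₂p]
  have hRinvp : (R⁻¹ : E4 ≃ₜ E4) p = p' := by
    rw [← hRp']
    exact inv_apply_self' R p'
  have hRq : R p = q := by rw [hR, mul_apply', hT2]
  set Φ : E4 ≃ₜ E4 := P⁻¹ * G * R⁻¹ with hΦ
  have hΦa : ∀ x, Φ x = (P⁻¹ : E4 ≃ₜ E4) (G ((R⁻¹ : E4 ≃ₜ E4) x)) := fun x => rfl
  have hΦLD : ∀ᶠ x in 𝓝 p, LD 1 Φ x := by
    have h1 : ∀ᶠ x in 𝓝 p, (R⁻¹ : E4 ≃ₜ E4) x ≠ p := by
      have h2 : Tendsto (R⁻¹ : E4 ≃ₜ E4) (𝓝 p) (𝓝 p') := by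
        have := (R⁻¹ : E4 ≃ₜ E4).continuous.tendsto p
        rwa [hRinvp] at this
      exact h2.eventually (isOpen_ne.mem_nhds hp'p)
    filter_upwards [h1] with x hx
    have h3 : LD 1 (R⁻¹ : E4 ≃ₜ E4) x := LD_all_inv hRLD x
    have h4 : LD 1 (P⁻¹ * G : E4 ≃ₜ E4) ((R⁻¹ : E4 ≃ₜ E4) x) :=
      LD.mul_one' (LD_all_inv hP1 _) (hG2 _ hx)
    exact LD.mul_one' h4 h3
  have hΦp : Φ p = p := by
    rw [hΦa, hRinvp, hp', hσ₁a, apply_inv_self', inv_apply_self', hGp]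
  obtain ⟨ρ, hρ, hρU⟩ := Metric.nhds_basis_closedBall.mem_iff.1
    ((hU.inter isOpen_compl_singleton).mem_nhds (show p ∈ U ∩ {q}ᶜ from ⟨hp, hpq⟩))
  obtain ⟨H, hH1, hH2, hH3⟩ := hGerm E4 Φ p hΦLD hΦp (closedBall p ρ)
    (closedBall_mem_nhds p hρ)
  have hqB : q ∉ closedBall p ρ := fun h => (hρU h).2 rfl
  have hσa : ∀ x, (H * R * σ₁ : E4 ≃ₜ E4) x = H (R (σ₁ x)) := fun x => rfl
  have hnear : ∀ᶠ x in 𝓝 p, (H * R * σ₁ : E4 ≃ₜ E4) x = g x := by
    have h1 : Tendsto (fun x => R (σ₁ x)) (𝓝 p) (𝓝 p) := by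
      have h2 : Continuous fun x => R (σ₁ x) := R.continuous.comp σ₁.continuous
      have := h2.tendsto p
      rwa [← hp', hRp'] at this
    filter_upwards [h1.eventually hH2, hG1] with x hx hx'
    rw [hσa, hx, hΦa, inv_apply_self', hσ₁a, apply_inv_self', inv_apply_self', hx']
  refine ⟨H * R * σ₁, hnear.self_of_nhds.trans hg, ?_, hnear, ?_, ?_⟩
  · rw [hσa, hσ₁q, hRq, hH3 q hqB]
  · intro x hxp hxq
    exact LD.mul_one' (LD.mul_one' (hH1 _) (hRLD _)) (hσ₁LD x hxp hxq)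
  · refine ⟨closedBall p ρ ∪ (C₃ ∪ (C₂ ∪ D₁)), (isCompact_closedBall p ρ).union
      (hC₃.union (hC₂.union hD₁c)), ?_, ?_⟩
    · refine union_subset (fun x hx => (hρU hx).1) (union_subset (fun x hx => (hC₃U hx).1)
        (union_subset hC₂U hD₁U))
    · intro x hx
      simp only [mem_union, not_or] at hx
      obtain ⟨h1, h2, h3, h4⟩ := hx
      rw [hσa, hσ₁id x h4, hR, mul_apply', hS3 x h3, hT3 x h2, hH3 x h1]

end Pool.Agent.HopfFin
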