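import Pool.Agent.HopfCov.Statement
import Pool.Agent.HopfRem.Statement4

/-!
# The definitions used in the statement
-/

set_option autoImplicit false

open scoped ContDiff Topology Manifold
open Set Filter Metric

namespace Pool.Agent.HopfCov.Smooth

/-- `M` is homeomorphic to `S¹ × S³` by a homeomorphism which is a local diffeomorphism at the points
of some circle `S¹ × v` -/
def NearCircle (M : Mfd4) : Prop :=
  ∃ (h : M ≃ₜ Circle × S3) (v : S3), ∀ x : M, (h x).2 = v →
    IsLocalDiffeomorphAt (𝓡 4) model13 ∞ h x

/-- the class `S`: smooth structures on `S¹ × S³` (smooth near a circle) with universal covering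
diffeomorphic to `ℝ⁴ ∖ 0` -/
structure InS (M : Mfd4) : Prop where
  circle : NearCircle M
  univ : ∃ p : Punctured → M, IsCoveringMap p ∧ LocalDiffeo p

/-- the class `S` contains only finitely many diffeomorphism types -/
def FinitelyMany : Prop :=
  ∃ (n : ℕ) (F : Fin n → Mfd4), ∀ M : Mfd4, InS M → ∃ i, Diffeomorphic M (F i)

end Pool.Agent.HopfCov.Smooth
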