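import Pool.Agent.HopfFin.HalfChain

/-!
# Prescribed singularities along an orbit

Plan of `two_chain`. Write `v = T b ≠ 0`, `b k = (G ^ k) b`, so `T (b k) = 2^(-k) • v` (from
`T * G = tau * T`, `tau x = 2⁻¹ • x`). Let `B k = ball ((3/4 * 2^(-k)) • v) (3/8 * 2^(-k) * ‖v‖)` and
`U k = T ⁻¹' B k` (`k : ℤ`): open, preconnected (homeomorphic image of a ball), `b k` and `b (k+1)`
are in `U k`, `x ∈ B k` implies `3/8 * 2^(-k) * ‖v‖ < ‖x‖ < 9/8 * 2^(-k) * ‖v‖`, so `B k` and `B m`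
are disjoint if `k + 2 ≤ m` (`9/32 < 3/8`), `0 ∉ U k`. Apply `half_chain` to `U n`, `b n`
(`n : ℕ`) and the germs `e n = G ^ n * e * G ^ (-n)`: local finiteness at `x ≠ 0`: the neighbourhood
`T ⁻¹' {y | ‖T x‖ / 2 < ‖y‖}`; `hz`: `O ⊇ T ⁻¹' ball 0 ε` (`T` is a homeomorphism with `T 0 = 0`),
`O' = T ⁻¹' ball 0 (ε / 4)`. This gives `Q⁺`. Apply it to `U (-2 - n)`, `b (-1 - n)` and
`e n = G ^ (-1-n) * e * G ^ (1+n)`: this gives `Q⁻` (`hz`: all `U (-2 - n)` avoid the neighbourhood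
`T ⁻¹' ball 0 (‖v‖)`: `3/8 * 4 > 1`). The statement lists what is needed: the germs, the
regularity, `Q⁺` is the identity near `b (-1)`, `b (-2)`, ... and near infinity, `Q⁻` is the identity
near `b 0`, `b 1`, ... and near `0` (all these points have neighbourhoods which avoid the respective
`U`'s: for `b k`, `k ≤ -1`, the neighbourhood `U (k - 1)`, which is disjoint from `U n`, `n ≥ 0`;
for `b k`, `k ≥ 0`, the neighbourhood `U k`), and the supports are disjoint: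
`S⁺ = ⋃ U n` (`n ≥ 0`), `S⁻ = ⋃ U (-2-n)`. `LD 1` of `e n` near `b n` off `b n`: `G ^ n`,
`G ^ (-n)` are `PD 1`, and `b n ≠ 0`.
-/

set_option autoImplicit false

open scoped ContDiff Topology
open Set Filter Metric

namespace Pool.Agent.HopfFin

open Pool.Agent.HopfCov

private theorem tc_tau (k : ℤ) (x : E4) : ((tau : E4 ≃ₜ E4) ^ k) x = (2 : ℝ) ^ (-k) • x := by
  have hn : ∀ (n : ℕ) (y : E4), ((tau : E4 ≃ₜ E4) ^ n) y = ((2 : ℝ) ^ n)⁻¹ • y := by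
    intro n
    induction n with
    | zero => intro y; simp
    | succ n ih =>
      intro y
      rw [pow_succ', mul_apply', ih, tau_apply, smul_smul, pow_succ', mul_inv]
  rcases Int.eq_nat_or_neg k with ⟨n, rfl | rfl⟩
  · rw [zpow_natCast, hn, zpow_neg, zpow_natCast]
  · rw [zpow_neg, zpow_natCast, neg_neg, zpow_natCast]
    apply (tau ^ n : E4 ≃ₜ E4).injective
    rw [apply_inv_self', hn, smul_smul, inv_mul_cancel₀ (by positivity), one_smul]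

private theorem tc_conj {G T : E4 ≃ₜ E4} (hT : T * G = tau * T) (k : ℤ) (x : E4) :
    T ((G ^ k : E4 ≃ₜ E4) x) = (2 : ℝ) ^ (-k) • T x := by
  have h1 : T * G * T⁻¹ = tau := by rw [hT, mul_inv_cancel_right]
  have h2 : T * G ^ k * T⁻¹ = tau ^ k := by rw [← conj_zpow, h1]
  have h3 : T * G ^ k = tau ^ k * T := by rw [← h2, inv_mul_cancel_right]
  rw [← tc_tau k (T x)]
  exact DFunLike.congr_fun h3 x

/-- the balls -/
private noncomputable def tcB (v : E4) (k : ℤ) : Set E4 :=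
  ball ((3 / 4 * (2 : ℝ) ^ (-k)) • v) (3 / 8 * (2 : ℝ) ^ (-k) * ‖v‖)

private theorem tcB_norm {v : E4} {k : ℤ} {x : E4} (hx : x ∈ tcB v k) :
    3 / 8 * (2 : ℝ) ^ (-k) * ‖v‖ < ‖x‖ ∧ ‖x‖ < 9 / 8 * (2 : ℝ) ^ (-k) * ‖v‖ := by
  have h1 : ‖x - (3 / 4 * (2 : ℝ) ^ (-k)) • v‖ < 3 / 8 * (2 : ℝ) ^ (-k) * ‖v‖ := by
    rw [← dist_eq_norm]
    exact hx
  have hp : (0 : ℝ) < (2 : ℝ) ^ (-k) := by positivity
  have h2 : ‖(3 / 4 * (2 : ℝ) ^ (-k)) • v‖ = 3 / 4 * (2 : ℝ) ^ (-k) * ‖v‖ := by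
    rw [norm_smul, Real.norm_of_nonneg (by positivity)]
  have h3 := norm_sub_norm_le ((3 / 4 * (2 : ℝ) ^ (-k)) • v) x
  have h4 := norm_sub_norm_le x ((3 / 4 * (2 : ℝ) ^ (-k)) • v)
  rw [norm_sub_rev] at h3
  constructor <;> linarith

private theorem tcB_self {v : E4} (hv : v ≠ 0) (k : ℤ) : (2 : ℝ) ^ (-k) • v ∈ tcB v k := by
  have hp : (0 : ℝ) < (2 : ℝ) ^ (-k) := by positivity
  have hn : 0 < ‖v‖ := norm_pos_iff.2 hv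
  have h1 : (2 : ℝ) ^ (-k) • v - (3 / 4 * (2 : ℝ) ^ (-k)) • v = (1 / 4 * (2 : ℝ) ^ (-k)) • v := by
    rw [← sub_smul]
    congr 1
    ring
  show dist _ _ < _
  rw [dist_eq_norm, h1, norm_smul, Real.norm_of_nonneg (by positivity)]
  have : 0 < (2 : ℝ) ^ (-k) * ‖v‖ := by positivity
  nlinarith

private theorem tcB_next {v : E4} (hv : v ≠ 0) (k : ℤ) :
    (2 : ℝ) ^ (-(k + 1)) • v ∈ tcB v k := by
  have hp : (0 : ℝ) < (2 : ℝ) ^ (-k) := by positivity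
  have hn : 0 < ‖v‖ := norm_pos_iff.2 hv
  have h0 : (2 : ℝ) ^ (-(k + 1)) = (2 : ℝ) ^ (-k) / 2 := by
    rw [neg_add, zpow_add₀ (by norm_num), zpow_neg_one]
    ring
  have h1 : (2 : ℝ) ^ (-(k + 1)) • v - (3 / 4 * (2 : ℝ) ^ (-k)) • v =
      (-(1 / 4 * (2 : ℝ) ^ (-k))) • v := by
    rw [h0, ← sub_smul]
    congr 1
    ring
  show dist _ _ < _
  rw [dist_eq_norm, h1, norm_smul, norm_neg, Real.norm_of_nonneg (by positivity)]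
  have : 0 < (2 : ℝ) ^ (-k) * ‖v‖ := by positivity
  nlinarith

private theorem tc_pow_le {k m : ℤ} (h : k ≤ m) : (2 : ℝ) ^ (-m) ≤ (2 : ℝ) ^ (-k) :=
  zpow_le_zpow_right₀ (by norm_num) (by omega)

private theorem tcB_disj {v : E4} {k m : ℤ} (h : k + 2 ≤ m) : Disjoint (tcB v k) (tcB v m) := by
  rw [Set.disjoint_left]
  intro x h1 h2
  have h3 := (tcB_norm h1).1
  have h4 := (tcB_norm h2).2
  have h5 := tc_pow_le h
  have h6 : (2 : ℝ) ^ (-(k + 2)) = (2 : ℝ) ^ (-k) / 4 := by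
    rw [neg_add, zpow_add₀ (by norm_num)]
    norm_num
    ring
  rw [h6] at h5
  have h7 := mul_le_mul_of_nonneg_right h5 (norm_nonneg v)
  have h8 : 0 ≤ (2 : ℝ) ^ (-k) * ‖v‖ := by positivity
  nlinarith

private theorem tcB_zero {v : E4} (k : ℤ) : (0 : E4) ∉ tcB v k := by
  intro h
  have h1 := (tcB_norm h).1
  rw [norm_zero] at h1
  have : 0 ≤ 3 / 8 * (2 : ℝ) ^ (-k) * ‖v‖ := by positivity
  linarith

/-- the neighbourhoods -/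
private noncomputable def tcU (T : E4 ≃ₜ E4) (v : E4) (k : ℤ) : Set E4 := T ⁻¹' tcB v k

private theorem tcU_norm {T : E4 ≃ₜ E4} {v : E4} {k : ℤ} {x : E4} (hx : x ∈ tcU T v k) :
    3 / 8 * (2 : ℝ) ^ (-k) * ‖v‖ < ‖T x‖ ∧ ‖T x‖ < 9 / 8 * (2 : ℝ) ^ (-k) * ‖v‖ :=
  tcB_norm (show T x ∈ tcB v k from hx)

private theorem tcU_open (T : E4 ≃ₜ E4) (v : E4) (k : ℤ) : IsOpen (tcU T v k) :=
  isOpen_ball.preimage T.continuous

private theorem tcU_conn (T : E4 ≃ₜ E4) (v : E4) (k : ℤ) : IsPreconnected (tcU T v k) := by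
  have h1 : tcU T v k = T.symm '' tcB v k := (T.symm.image_eq_preimage_symm _).symm
  rw [h1]
  exact (convex_ball _ _).isPreconnected.image _ T.symm.continuous.continuousOn

private theorem tcU_disj (T : E4 ≃ₜ E4) (v : E4) {k m : ℤ} (h : k + 2 ≤ m) :
    Disjoint (tcU T v k) (tcU T v m) := (tcB_disj h).preimage T

private theorem tcU_zero {T : E4 ≃ₜ E4} (h0 : T 0 = 0) (v : E4) (k : ℤ) :
    (0 : E4) ∉ tcU T v k := by
  intro h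
  have h1 : T 0 ∈ tcB v k := h
  rw [h0] at h1
  exact tcB_zero k h1

private theorem tcU_self {G T : E4 ≃ₜ E4} {b : E4}
    (hT : ∀ k : ℤ, T ((G ^ k : E4 ≃ₜ E4) b) = ((2 : ℝ) ^ (-k)) • T b) (hv : T b ≠ 0)
    (k : ℤ) : (G ^ k : E4 ≃ₜ E4) b ∈ tcU T (T b) k := by
  show T ((G ^ k : E4 ≃ₜ E4) b) ∈ tcB (T b) k
  rw [hT]
  exact tcB_self hv k

private theorem tcU_next {G T : E4 ≃ₜ E4} {b : E4}
    (hT : ∀ k : ℤ, T ((G ^ k : E4 ≃ₜ E4) b) = ((2 : ℝ) ^ (-k)) • T b) (hv : T b ≠ 0)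
    (k : ℤ) : (G ^ (k + 1) : E4 ≃ₜ E4) b ∈ tcU T (T b) k := by
  show T ((G ^ (k + 1) : E4 ≃ₜ E4) b) ∈ tcB (T b) k
  rw [hT]
  exact tcB_next hv k

private theorem tc_inj {G T : E4 ≃ₜ E4} {b : E4}
    (hT : ∀ k : ℤ, T ((G ^ k : E4 ≃ₜ E4) b) = ((2 : ℝ) ^ (-k)) • T b) (hv : T b ≠ 0) :
    Function.Injective fun k : ℤ => (G ^ k : E4 ≃ₜ E4) b := by
  intro k m h
  have h1 : T ((G ^ k : E4 ≃ₜ E4) b) = T ((G ^ m : E4 ≃ₜ E4) b) := congrArg T h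
  rw [hT, hT] at h1
  have h2 := smul_left_injective ℝ hv h1
  have h3 := zpow_right_injective₀ (by norm_num : (0 : ℝ) < 2) (by norm_num) h2
  omega

private theorem tc_sign {s : ℝ} (hs : s * s = 1) {G : E4 ≃ₜ E4} (hG : PD s G) (k : ℤ) :
    ∃ t : ℝ, t * t = 1 ∧ PD t (G ^ k) := by
  have hn : ∀ n : ℕ, PD (s ^ n) (G ^ n) := by
    intro n
    induction n with
    | zero => simpa using (PD_one : PD 1 (1 : E4 ≃ₜ E4))
    | succ n ih =>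
      rw [pow_succ, pow_succ]
      exact ih.mul hG
  have hsn : ∀ n : ℕ, s ^ n * s ^ n = 1 := fun n => by rw [← mul_pow, hs, one_pow]
  rcases Int.eq_nat_or_neg k with ⟨n, rfl | rfl⟩
  · exact ⟨s ^ n, hsn n, by rw [zpow_natCast]; exact hn n⟩
  · exact ⟨s ^ n, hsn n, by rw [zpow_neg, zpow_natCast]; exact (hn n).inv⟩

private theorem tc_germ {s : ℝ} (hs : s * s = 1) {G e : E4 ≃ₜ E4} (hG : PD s G) {b : E4} (hb : b ≠ 0) (he : e b = b)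
    (her : ∀ x, x ≠ b → LD 1 e x) (k : ℤ) :
    (G ^ k * e * (G ^ k)⁻¹ : E4 ≃ₜ E4) ((G ^ k : E4 ≃ₜ E4) b) = (G ^ k : E4 ≃ₜ E4) b ∧
      ∀ᶠ x in 𝓝[≠] ((G ^ k : E4 ≃ₜ E4) b), LD 1 (G ^ k * e * (G ^ k)⁻¹ : E4 ≃ₜ E4) x := by
  obtain ⟨t, ht, hk⟩ := tc_sign hs hG k
  have h1 : (G ^ k * e * (G ^ k)⁻¹ : E4 ≃ₜ E4) ((G ^ k : E4 ≃ₜ E4) b) =
      (G ^ k : E4 ≃ₜ E4) b := by
    rw [mul_apply', mul_apply', inv_apply_self', he]
  refine ⟨h1, ?_⟩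
  have hne : (G ^ k : E4 ≃ₜ E4) b ≠ 0 := hk.ne hb
  have c1 : ∀ᶠ x in 𝓝 ((G ^ k : E4 ≃ₜ E4) b), x ≠ 0 := isOpen_ne.mem_nhds hne
  have c2 : ∀ᶠ x in 𝓝 ((G ^ k : E4 ≃ₜ E4) b),
      (G ^ k * e * (G ^ k)⁻¹ : E4 ≃ₜ E4) x ≠ 0 := by
    have h2 := (G ^ k * e * (G ^ k)⁻¹ : E4 ≃ₜ E4).continuous.tendsto ((G ^ k : E4 ≃ₜ E4) b)
    rw [h1] at h2
    exact h2.eventually (isOpen_ne.mem_nhds hne)
  filter_upwards [c1.filter_mono nhdsWithin_le_nhds, c2.filter_mono nhdsWithin_le_nhds,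
    self_mem_nhdsWithin] with x x1 x2 x3
  have h3 : ((G ^ k)⁻¹ : E4 ≃ₜ E4) x ≠ b := by
    intro h
    apply x3
    rw [mem_singleton_iff, ← h, apply_inv_self']
  have h4 : e (((G ^ k)⁻¹ : E4 ≃ₜ E4) x) ≠ 0 := by
    intro h
    apply x2
    rw [mul_apply', mul_apply', h]
    exact hk.1
  have h5 : LD (t * 1 * t) (G ^ k * e * (G ^ k)⁻¹ : E4 ≃ₜ E4) x :=
    LD.mul (a := G ^ k * e) (LD.mul (a := G ^ k) (hk.2 _ h4) (her _ h3)) (hk.inv.2 x x1)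
  rwa [mul_one, ht] at h5

private theorem tc_pos {s : ℝ} (hs : s * s = 1) {G T : E4 ≃ₜ E4} (hG : PD s G) (h0 : T 0 = 0)
    {b : E4} (hT : ∀ k : ℤ, T ((G ^ k : E4 ≃ₜ E4) b) = ((2 : ℝ) ^ (-k)) • T b) (hb : b ≠ 0) (hv : T b ≠ 0) {e : E4 ≃ₜ E4} (he : e b = b)
    (her : ∀ x, x ≠ b → LD 1 e x) :
    ∃ Q : E4 ≃ₜ E4, Q 0 = 0 ∧
      (∀ n : ℕ, ∀ᶠ x in 𝓝 ((G ^ (n : ℤ) : E4 ≃ₜ E4) b),
        Q x = (G ^ (n : ℤ) * e * (G ^ (n : ℤ))⁻¹ : E4 ≃ₜ E4) x) ∧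
      (∀ x, x ≠ 0 → (∀ n : ℕ, x ≠ (G ^ (n : ℤ) : E4 ≃ₜ E4) b) → LD 1 Q x) ∧
      ∀ x, (∀ n : ℕ, x ∉ tcU T (T b) n) → Q x = x := by
  have hn : 0 < ‖T b‖ := norm_pos_iff.2 hv
  refine half_chain (U := fun n : ℕ => tcU T (T b) n)
    (p := fun n : ℕ => (G ^ (n : ℤ) : E4 ≃ₜ E4) b)
    (e := fun n : ℕ => G ^ (n : ℤ) * e * (G ^ (n : ℤ))⁻¹)
    (fun n => tcU_open T _ _) (fun n => tcU_conn T _ _) (fun n => tcU_self hT hv _)
    (fun n => ?_) (fun n m h => ?_) (fun n m h => tcU_disj T _ (by omega))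
    (fun n => tcU_zero h0 _ _) (fun x hx => ?_) (fun O hO => ?_)
    (fun n => (tc_germ hs hG hb he her n).1) (fun n => (tc_germ hs hG hb he her n).2)
  · have h1 := tcU_next hT hv (n : ℤ)
    simpa using h1
  · have h1 := tc_inj hT hv h
    exact_mod_cast h1
  · have hTx : 0 < ‖T x‖ := by
      rw [norm_pos_iff]
      intro h
      exact hx (T.injective (h.trans h0.symm))
    refine ⟨T ⁻¹' {y | ‖T x‖ / 2 < ‖y‖}, ?_, ?_⟩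
    · refine (isOpen_lt continuous_const continuous_norm).preimage T.continuous |>.mem_nhds ?_
      show ‖T x‖ / 2 < ‖T x‖
      linarith
    · obtain ⟨N, hN⟩ := exists_pow_lt_of_lt_one (show 0 < ‖T x‖ / (4 * ‖T b‖) by positivity)
        (show (2⁻¹ : ℝ) < 1 by norm_num)
      refine (Set.finite_Iio N).subset ?_
      rintro n ⟨y, hy1, hy2⟩
      by_contra hcon
      rw [mem_Iio, not_lt] at hcon
      have h1 := (tcU_norm hy1).2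
      have h2 : ‖T x‖ / 2 < ‖T y‖ := hy2
      rw [zpow_neg, zpow_natCast, ← inv_pow] at h1
      have h3 : (2⁻¹ : ℝ) ^ n ≤ (2⁻¹ : ℝ) ^ N :=
        pow_le_pow_of_le_one (by norm_num) (by norm_num) hcon
      have h4 : (2⁻¹ : ℝ) ^ n * ‖T b‖ < ‖T x‖ / 4 := by
        calc (2⁻¹ : ℝ) ^ n * ‖T b‖ < ‖T x‖ / (4 * ‖T b‖) * ‖T b‖ :=
              mul_lt_mul_of_pos_right (h3.trans_lt hN) hn
          _ = ‖T x‖ / 4 := by field_simp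
      nlinarith
  · have h1 : T.symm ⁻¹' O ∈ 𝓝 (0 : E4) := by
      have h2 := T.symm.continuous.tendsto 0
      have h3 : T.symm 0 = 0 := by
        conv_lhs => rw [← h0]
        exact T.symm_apply_apply 0
      rw [h3] at h2
      exact h2 hO
    obtain ⟨ε, hε, h2⟩ := Metric.mem_nhds_iff.1 h1
    have h3 : ∀ x, ‖T x‖ < ε → x ∈ O := by
      intro x hx
      have h4 : T x ∈ ball (0 : E4) ε := by rwa [mem_ball_zero_iff]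
      have h5 : T.symm (T x) ∈ O := h2 h4
      rwa [T.symm_apply_apply] at h5
    refine ⟨T ⁻¹' ball 0 (ε / 4), ?_, ?_⟩
    · refine (isOpen_ball.preimage T.continuous).mem_nhds ?_
      show T 0 ∈ ball (0 : E4) (ε / 4)
      rw [h0]
      exact mem_ball_self (by positivity)
    · rintro n ⟨y, hy1, hy2⟩ x hx
      apply h3
      have e1 := (tcU_norm hy1).1
      have e2 : ‖T y‖ < ε / 4 := mem_ball_zero_iff.1 hy2
      have e3 := (tcU_norm hx).2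
      nlinarith

private theorem tc_neg {s : ℝ} (hs : s * s = 1) {G T : E4 ≃ₜ E4} (hG : PD s G) (h0 : T 0 = 0)
    {b : E4} (hT : ∀ k : ℤ, T ((G ^ k : E4 ≃ₜ E4) b) = ((2 : ℝ) ^ (-k)) • T b) (hb : b ≠ 0) (hv : T b ≠ 0) {e : E4 ≃ₜ E4} (he : e b = b)
    (her : ∀ x, x ≠ b → LD 1 e x) :
    ∃ Q : E4 ≃ₜ E4, Q 0 = 0 ∧
      (∀ n : ℕ, ∀ᶠ x in 𝓝 ((G ^ (-1 - (n : ℤ)) : E4 ≃ₜ E4) b),
        Q x = (G ^ (-1 - (n : ℤ)) * e * (G ^ (-1 - (n : ℤ)))⁻¹ : E4 ≃ₜ E4) x) ∧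
      (∀ x, x ≠ 0 → (∀ n : ℕ, x ≠ (G ^ (-1 - (n : ℤ)) : E4 ≃ₜ E4) b) → LD 1 Q x) ∧
      ∀ x, (∀ n : ℕ, x ∉ tcU T (T b) (-2 - n)) → Q x = x := by
  have hn : 0 < ‖T b‖ := norm_pos_iff.2 hv
  have hpow : ∀ n : ℕ, (2 : ℝ) ^ (-(-2 - (n : ℤ))) = 4 * 2 ^ n := by
    intro n
    rw [show -(-2 - (n : ℤ)) = 2 + (n : ℤ) by ring, zpow_add₀ (by norm_num), zpow_natCast]
    norm_num
  refine half_chain (U := fun n : ℕ => tcU T (T b) (-2 - n))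
    (p := fun n : ℕ => (G ^ (-1 - (n : ℤ)) : E4 ≃ₜ E4) b)
    (e := fun n : ℕ => G ^ (-1 - (n : ℤ)) * e * (G ^ (-1 - (n : ℤ)))⁻¹)
    (fun n => tcU_open T _ _) (fun n => tcU_conn T _ _) (fun n => ?_)
    (fun n => ?_) (fun n m h => ?_) (fun n m h => (tcU_disj T _ (by omega)).symm)
    (fun n => tcU_zero h0 _ _) (fun x hx => ?_) (fun O hO => ?_)
    (fun n => (tc_germ hs hG hb he her _).1) (fun n => (tc_germ hs hG hb he her _).2)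
  · have h1 := tcU_next hT hv (-2 - (n : ℤ))
    rwa [show -2 - (n : ℤ) + 1 = -1 - (n : ℤ) by ring] at h1
  · have h1 := tcU_self hT hv (-2 - (n : ℤ))
    rwa [show -2 - (n : ℤ) = -1 - ((n + 1 : ℕ) : ℤ) by push_cast; ring] at h1 ⊢
  · have h1 := tc_inj hT hv h
    omega
  · refine ⟨T ⁻¹' {y | ‖y‖ < ‖T x‖ + 1}, ?_, ?_⟩
    · refine (isOpen_lt continuous_norm continuous_const).preimage T.continuous |>.mem_nhds ?_
      show ‖T x‖ < ‖T x‖ + 1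
      linarith
    · obtain ⟨N, hN⟩ := pow_unbounded_of_one_lt ((‖T x‖ + 1) / ‖T b‖)
        (show (1 : ℝ) < 2 by norm_num)
      refine (Set.finite_Iio N).subset ?_
      rintro n ⟨y, hy1, hy2⟩
      by_contra hcon
      rw [mem_Iio, not_lt] at hcon
      have h1 := (tcU_norm hy1).1
      have h2 : ‖T y‖ < ‖T x‖ + 1 := hy2
      rw [hpow] at h1
      have h3 : (2 : ℝ) ^ N ≤ 2 ^ n := pow_le_pow_right₀ (by norm_num) hcon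
      rw [div_lt_iff₀ hn] at hN
      have h4 : (2 : ℝ) ^ N * ‖T b‖ ≤ 2 ^ n * ‖T b‖ := mul_le_mul_of_nonneg_right h3 hn.le
      have h5 : 0 < (2 : ℝ) ^ n * ‖T b‖ := by positivity
      nlinarith
  · refine ⟨T ⁻¹' ball 0 ‖T b‖, ?_, ?_⟩
    · refine (isOpen_ball.preimage T.continuous).mem_nhds ?_
      show T 0 ∈ ball (0 : E4) ‖T b‖
      rw [h0]
      exact mem_ball_self hn
    · rintro n ⟨y, hy1, hy2⟩
      exfalso
      have e1 := (tcU_norm hy1).1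
      have e2 : ‖T y‖ < ‖T b‖ := mem_ball_zero_iff.1 hy2
      rw [hpow] at e1
      have e3 : (1 : ℝ) ≤ 2 ^ n := one_le_pow₀ (by norm_num)
      have e4 := mul_le_mul_of_nonneg_right e3 hn.le
      nlinarith

/-- homeomorphisms with prescribed singular germs at the points `G ^ k b`; only the positions of
the points in the coordinates `T` are used, and `G` may reverse the orientation -/
theorem two_chain_gen {s : ℝ} (hs : s * s = 1) {G T : E4 ≃ₜ E4} (hG : PD s G) (h0 : T 0 = 0)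
    {b : E4} (hb : b ≠ 0)
    (hk : ∀ k : ℤ, T ((G ^ k : E4 ≃ₜ E4) b) = ((2 : ℝ) ^ (-k)) • T b)
    {e : E4 ≃ₜ E4} (he : e b = b) (her : ∀ x, x ≠ b → LD 1 e x) :
    ∃ (Q₁ Q₂ : E4 ≃ₜ E4) (S₁ S₂ : Set E4), Disjoint S₁ S₂ ∧ Q₁ 0 = 0 ∧ Q₂ 0 = 0 ∧
      (∀ x, x ∉ S₁ → Q₁ x = x) ∧ (∀ x, x ∉ S₂ → Q₂ x = x) ∧
      (∀ᶠ x in cocompact E4, Q₁ x = x) ∧ (∀ᶠ x in 𝓝 (0 : E4), Q₂ x = x) ∧
      (∀ k : ℤ, 0 ≤ k → ∀ᶠ x in 𝓝 ((G ^ k : E4 ≃ₜ E4) b), Q₁ x = (G ^ k * e * (G ^ k)⁻¹) x) ∧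
      (∀ k : ℤ, k < 0 → ∀ᶠ x in 𝓝 ((G ^ k : E4 ≃ₜ E4) b), Q₂ x = (G ^ k * e * (G ^ k)⁻¹) x) ∧
      (∀ k : ℤ, k < 0 → ∀ᶠ x in 𝓝 ((G ^ k : E4 ≃ₜ E4) b), Q₁ x = x) ∧
      (∀ k : ℤ, 0 ≤ k → ∀ᶠ x in 𝓝 ((G ^ k : E4 ≃ₜ E4) b), Q₂ x = x) ∧
      (∀ x, x ≠ 0 → (∀ k : ℤ, 0 ≤ k → x ≠ (G ^ k : E4 ≃ₜ E4) b) → LD 1 Q₁ x) ∧
      (∀ x, x ≠ 0 → (∀ k : ℤ, k < 0 → x ≠ (G ^ k : E4 ≃ₜ E4) b) → LD 1 Q₂ x) := by
  have hv : T b ≠ 0 := fun h => hb (T.injective (h.trans h0.symm))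
  have hn : 0 < ‖T b‖ := norm_pos_iff.2 hv
  obtain ⟨Q₁, a1, a2, a3, a4⟩ := tc_pos hs hG h0 hk hb hv he her
  obtain ⟨Q₂, b1, b2, b3, b4⟩ := tc_neg hs hG h0 hk hb hv he her
  have hneg : ∀ k : ℤ, k < 0 → ∃ n : ℕ, k = -1 - (n : ℤ) := fun k hk' =>
    ⟨(-1 - k).toNat, by omega⟩
  have hnn : ∀ k : ℤ, 0 ≤ k → ∃ n : ℕ, k = (n : ℤ) := fun k hk' => ⟨k.toNat, by omega⟩
  refine ⟨Q₁, Q₂, ⋃ n : ℕ, tcU T (T b) n, ⋃ n : ℕ, tcU T (T b) (-2 - n), ?_, a1, b1, ?_, ?_, ?_,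
    ?_, ?_, ?_, ?_, ?_, ?_, ?_⟩
  · rw [Set.disjoint_iUnion_left]
    intro n
    rw [Set.disjoint_iUnion_right]
    intro m
    exact (tcU_disj T _ (by omega)).symm
  · intro x hx
    exact a4 x fun n hxn => hx (mem_iUnion.2 ⟨n, hxn⟩)
  · intro x hx
    exact b4 x fun n hxn => hx (mem_iUnion.2 ⟨n, hxn⟩)
  · have h1 := (tendsto_cocompact' T).eventually
      ((tendsto_norm_cocompact_atTop (E := E4)).eventually_gt_atTop (9 / 8 * ‖T b‖))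
    filter_upwards [h1] with x hx
    refine a4 x fun n hxn => ?_
    have h2 := (tcU_norm hxn).2
    have h3 : (2 : ℝ) ^ (-(n : ℤ)) ≤ 1 := by
      have := tc_pow_le (show (0 : ℤ) ≤ n by omega)
      simpa using this
    have h4 := mul_le_mul_of_nonneg_right h3 hn.le
    nlinarith
  · have h1 : T ⁻¹' ball 0 ‖T b‖ ∈ 𝓝 (0 : E4) := by
      refine (isOpen_ball.preimage T.continuous).mem_nhds ?_
      show T 0 ∈ ball (0 : E4) ‖T b‖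
      rw [h0]
      exact mem_ball_self hn
    filter_upwards [h1] with x hx
    refine b4 x fun n hxn => ?_
    have e1 := (tcU_norm hxn).1
    have e2 : ‖T x‖ < ‖T b‖ := mem_ball_zero_iff.1 hx
    have e3 : (4 : ℝ) ≤ 2 ^ (-(-2 - (n : ℤ))) := by
      have := tc_pow_le (show (-2 - (n : ℤ)) ≤ -2 by omega)
      norm_num at this ⊢
      exact this
    have e4 := mul_le_mul_of_nonneg_right e3 hn.le
    nlinarith
  · intro k hk'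
    obtain ⟨n, rfl⟩ := hnn k hk'
    exact a2 n
  · intro k hk'
    obtain ⟨n, rfl⟩ := hneg k hk'
    exact b2 n
  · intro k hk'
    have h1 := tcU_next hk hv (k - 1)
    rw [sub_add_cancel] at h1
    filter_upwards [(tcU_open T (T b) (k - 1)).mem_nhds h1] with x hx
    refine a4 x fun n hxn => ?_
    exact Set.disjoint_left.1 (tcU_disj T (T b) (show k - 1 + 2 ≤ (n : ℤ) by omega)) hx hxn
  · intro k hk'
    filter_upwards [(tcU_open T (T b) k).mem_nhds (tcU_self hk hv k)] with x hx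
    refine b4 x fun n hxn => ?_
    exact Set.disjoint_left.1 (tcU_disj T (T b) (show -2 - (n : ℤ) + 2 ≤ k by omega)) hxn hx
  · intro x hx h
    exact a3 x hx fun n => h n (by omega)
  · intro x hx h
    exact b3 x hx fun n => h _ (by omega)

/-- homeomorphisms with prescribed singular germs at the points `G ^ k b` -/
theorem two_chain {G T : E4 ≃ₜ E4} (hG : PD 1 G) (h0 : T 0 = 0) (hT : T * G = tau * T) {b : E4}
    (hb : b ≠ 0) {e : E4 ≃ₜ E4} (he : e b = b) (her : ∀ x, x ≠ b → LD 1 e x) :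
    ∃ (Q₁ Q₂ : E4 ≃ₜ E4) (S₁ S₂ : Set E4), Disjoint S₁ S₂ ∧ Q₁ 0 = 0 ∧ Q₂ 0 = 0 ∧
      (∀ x, x ∉ S₁ → Q₁ x = x) ∧ (∀ x, x ∉ S₂ → Q₂ x = x) ∧
      (∀ᶠ x in cocompact E4, Q₁ x = x) ∧ (∀ᶠ x in 𝓝 (0 : E4), Q₂ x = x) ∧
      (∀ k : ℤ, 0 ≤ k → ∀ᶠ x in 𝓝 ((G ^ k : E4 ≃ₜ E4) b), Q₁ x = (G ^ k * e * (G ^ k)⁻¹) x) ∧
      (∀ k : ℤ, k < 0 → ∀ᶠ x in 𝓝 ((G ^ k : E4 ≃ₜ E4) b), Q₂ x = (G ^ k * e * (G ^ k)⁻¹) x) ∧
      (∀ k : ℤ, k < 0 → ∀ᶠ x in 𝓝 ((G ^ k : E4 ≃ₜ E4) b), Q₁ x = x) ∧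
      (∀ k : ℤ, 0 ≤ k → ∀ᶠ x in 𝓝 ((G ^ k : E4 ≃ₜ E4) b), Q₂ x = x) ∧
      (∀ x, x ≠ 0 → (∀ k : ℤ, 0 ≤ k → x ≠ (G ^ k : E4 ≃ₜ E4) b) → LD 1 Q₁ x) ∧
      (∀ x, x ≠ 0 → (∀ k : ℤ, k < 0 → x ≠ (G ^ k : E4 ≃ₜ E4) b) → LD 1 Q₂ x) :=
  two_chain_gen (one_mul 1) hG h0 hb (fun k => tc_conj hT k b) he her

end Pool.Agent.HopfFin
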